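import Pool.Agent.K9h32.HJ.StmK
import Pool.Agent.N980.TL.BND

/-!
# Leaf BNDK: the `C^k` bound of the potential around a path

The proof is that of `Pool.Agent.N980.TL.BND3` (helper262, case `k = 2`); the calculus lemmas are those of
`Pool.Agent.N980.TL.BND` (helper881).
-/

set_option autoImplicit false

open Set Filter Topology
open scoped ContDiff

noncomputable section

namespace Pool.Agent.K9h32.HJ.BndK

open Pool.Agent.N980.TL Pool.Agent.N980.TL.BND

variable {n : ℕ}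

/-- a function of the time, at one point -/
lemma norm_time_pt {φ : ℝ → ℝ} (hφ : ContDiff ℝ ∞ φ) (m : ℕ) (q : Z n) :
    ‖iteratedFDeriv ℝ m (fun y : Z n => φ y.2) q‖ ≤ |iteratedDeriv m φ q.2| := by
  have e := ContinuousLinearMap.iteratedFDeriv_comp_right (L2 : Z n →L[ℝ] ℝ) hφ q
    (i := m) (by exact_mod_cast le_top)
  have e2 : (fun y : Z n => φ y.2) = φ ∘ (L2 : Z n →L[ℝ] ℝ) := rfl
  rw [e2, e]
  refine (ContinuousMultilinearMap.norm_compContinuousLinearMap_le _ _).trans ?_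
  have h1 : (∏ _i : Fin m, ‖(L2 : Z n →L[ℝ] ℝ)‖) ≤ 1 :=
    Finset.prod_le_one (fun _ _ => norm_nonneg _) fun _ _ => norm_L2
  have h2 : ‖iteratedFDeriv ℝ m φ (L2 q)‖ = |iteratedDeriv m φ q.2| := by
    rw [norm_iteratedFDeriv_eq_norm_iteratedDeriv, Real.norm_eq_abs]
    rfl
  calc _ ≤ ‖iteratedFDeriv ℝ m φ (L2 q)‖ * 1 := mul_le_mul_of_nonneg_left h1 (norm_nonneg _)
    _ = |iteratedDeriv m φ q.2| := by rw [mul_one, h2]

/-- the position relative to the path -/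
def rel (g : ℝ → Fin n → ℝ) (i : Fin n) (q : Z n) : ℝ := q.1 i - g q.2 i

lemma cd_gt {g : ℝ → Fin n → ℝ} {i : Fin n} (hg : ContDiff ℝ ∞ (fun s => g s i)) :
    ContDiff ℝ ∞ (fun y : Z n => g y.2 i) := hg.comp contDiff_snd

lemma cd_rel {g : ℝ → Fin n → ℝ} {i : Fin n} (hg : ContDiff ℝ ∞ (fun s => g s i)) :
    ContDiff ℝ ∞ (rel g i) := by
  have h1 : ContDiff ℝ ∞ (fun y : Z n => (L1 i : Z n →L[ℝ] ℝ) y) := ContinuousLinearMap.contDiff _
  exact h1.sub (cd_gt hg)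

lemma bd_rel {g : ℝ → Fin n → ℝ} {i : Fin n} (hg : ContDiff ℝ ∞ (fun s => g s i))
    {k : ℕ} {K V : ℝ} (hV : 1 ≤ V) (hc : Cls k V (K * V) (deriv fun s => g s i)) (q : Z n)
    (hq : q.2 ∈ Icc (-1 : ℝ) 2) (m : ℕ) (hm1 : 1 ≤ m) (hm : m ≤ k) :
    ‖iteratedFDeriv ℝ m (rel g i) q‖ ≤ ((1 + |K|) * V) ^ m := by
  have hL : ContDiff ℝ ∞ (fun y : Z n => (L1 i : Z n →L[ℝ] ℝ) y) := ContinuousLinearMap.contDiff _
  have hG := cd_gt (n := n) hg
  have e0 : rel g i = (fun y : Z n => (L1 i : Z n →L[ℝ] ℝ) y) + (-1 : ℝ) • fun y : Z n => g y.2 i := by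
    funext y
    simp only [rel, Pi.add_apply, Pi.smul_apply, L1, smul_eq_mul, ContinuousLinearMap.comp_apply,
      ContinuousLinearMap.proj_apply, ContinuousLinearMap.coe_fst']
    ring
  have hG' : ContDiff ℝ ∞ ((-1 : ℝ) • fun y : Z n => g y.2 i) := by
    have : ContDiff ℝ ∞ (fun y : Z n => (-1 : ℝ) • g y.2 i) := hG.const_smul _
    exact this
  have e : iteratedFDeriv ℝ m (rel g i) q =
      iteratedFDeriv ℝ m (fun y : Z n => (L1 i : Z n →L[ℝ] ℝ) y) q +
        (-1 : ℝ) • iteratedFDeriv ℝ m (fun y : Z n => g y.2 i) q := by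
    rw [e0, iteratedFDeriv_add_apply (cd hL m).contDiffAt (cd hG' m).contDiffAt,
      iteratedFDeriv_const_smul_apply (cd hG m).contDiffAt]
  have a1 := (norm_lin (L1 i : Z n →L[ℝ] ℝ) m hm1 q).trans (norm_L1 i)
  have a2 := norm_time_pt hg m q
  obtain ⟨j, rfl⟩ : ∃ j, m = j + 1 := ⟨m - 1, by omega⟩
  have a3 := hc.2 j (by omega) q.2 hq
  rw [iteratedDeriv_succ'] at a2
  have a4 : ‖iteratedFDeriv ℝ (j + 1) (rel g i) q‖ ≤ 1 + K * V * V ^ j := by
    rw [e]
    refine (norm_add_le _ _).trans ?_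
    rw [norm_smul, norm_neg, norm_one, one_mul]
    exact add_le_add a1 (a2.trans a3)
  have a5 : (1 : ℝ) ≤ V ^ (j + 1) := one_le_pow₀ hV
  have a6 : K ≤ |K| := le_abs_self K
  have a7 : 1 + K * V * V ^ j ≤ (1 + |K|) * V ^ (j + 1) := by
    rw [pow_succ] at a5 ⊢
    nlinarith
  refine a4.trans (a7.trans ?_)
  rw [mul_pow]
  refine mul_le_mul_of_nonneg_right ?_ (by positivity)
  exact le_self_pow₀ (by linarith [abs_nonneg K]) (by omega)

theorem main (h : S_FN) : S_BNDK := by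
  intro k n ch K hch hch0
  obtain ⟨Cp, hCp1, hCp⟩ := bd_ps h k
  have hcs : HasCompactSupport ch :=
    HasCompactSupport.intro (isCompact_Icc (a := (-1 : ℝ)) (b := 2)) fun x hx =>
      (hch0 x hx).self_of_nhds
  obtain ⟨Ce, hCe1, hCe⟩ := bounded_of_compact hch hcs k
  have hpi : (1 : ℝ) ≤ Real.pi := by linarith [Real.pi_gt_three]
  obtain ⟨C1, hC1def⟩ : ∃ C1 : ℝ, C1 = (Nat.factorial k : ℕ) * Real.pi ^ k := ⟨_, rfl⟩
  have hC1 : 1 ≤ C1 := by
    rw [hC1def]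
    have a1 : (1 : ℝ) ≤ (Nat.factorial k : ℕ) := by exact_mod_cast Nat.factorial_pos k
    have a2 : (1 : ℝ) ≤ Real.pi ^ k := one_le_pow₀ hpi
    nlinarith
  obtain ⟨Cv, hCvdef⟩ : ∃ Cv : ℝ, Cv = 1 + n * (2 ^ k * C1 * C1) := ⟨_, rfl⟩
  have hCv : 1 ≤ Cv := by
    rw [hCvdef]
    have : 0 ≤ (n : ℝ) * (2 ^ k * C1 * C1) := by positivity
    linarith
  obtain ⟨Cq, hCqdef⟩ : ∃ Cq : ℝ, Cq = (Nat.factorial k : ℕ) * Cp * Cv ^ k := ⟨_, rfl⟩
  have hCq : 0 ≤ Cq := by rw [hCqdef]; positivity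
  obtain ⟨Cw, hCwdef⟩ : ∃ Cw : ℝ, Cw = 2 ^ k * (2 ^ k * Ce * (2 ^ k * (2 ^ k * C1 * C1))) * Cq :=
    ⟨_, rfl⟩
  have hCw : 0 ≤ Cw := by rw [hCwdef]; positivity
  obtain ⟨K1, hK1def⟩ : ∃ K1 : ℝ, K1 = 1 + |K| := ⟨_, rfl⟩
  have hK1 : 1 ≤ K1 := by rw [hK1def]; linarith [abs_nonneg K]
  refine ⟨1 + n * Cw * K1 ^ k, ?_, ?_⟩
  · have : 0 ≤ (n : ℝ) * Cw * K1 ^ k := by positivity
    linarith
  intro g F d V ρ hd0 hd1 hV hρ hg hgc hF
  -- smoothness
  have s_t : ∀ i, ContDiff ℝ ∞ (rel g i) := fun i => cd_rel (hg i)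
  have s_F : ∀ i, ContDiff ℝ ∞ (fun y : Z n => F y.2 i) := fun i => (hF i).1.comp contDiff_snd
  have s_s : ∀ i, ContDiff ℝ ∞ (fun y : Z n => Real.sin (Real.pi * rel g i y)) := fun i =>
    Real.contDiff_sin.comp (contDiff_const.mul (s_t i))
  have s_c : ∀ i, ContDiff ℝ ∞ (fun y : Z n => Real.cos (Real.pi * rel g i y)) := fun i =>
    Real.contDiff_cos.comp (contDiff_const.mul (s_t i))
  have s_u : ∀ i, ContDiff ℝ ∞ (fun y : Z n => d⁻¹ * Real.sin (Real.pi * rel g i y)) := fun i =>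
    contDiff_const.mul (s_s i)
  have s_v : ContDiff ℝ ∞ (fun y : Z n => ∑ i, (d⁻¹ * Real.sin (Real.pi * rel g i y)) *
      (d⁻¹ * Real.sin (Real.pi * rel g i y))) :=
    ContDiff.sum fun i _ => (s_u i).mul (s_u i)
  have s_p : ContDiff ℝ ∞ (fun y : Z n => ps (∑ i, (d⁻¹ * Real.sin (Real.pi * rel g i y)) *
      (d⁻¹ * Real.sin (Real.pi * rel g i y)))) := h.2.2.2.1.comp s_v
  have s_e : ContDiff ℝ ∞ (fun y : Z n => ch y.2) := hch.comp contDiff_snd
  have s_w : ∀ i, ContDiff ℝ ∞ (fun y : Z n => F y.2 i *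
      ((d⁻¹ * Real.sin (Real.pi * rel g i y)) * Real.cos (Real.pi * rel g i y))) := fun i =>
    (s_F i).mul ((s_u i).mul (s_c i))
  have e_v : ∀ y : Z n, (∑ i, Real.sin (Real.pi * (y.1 i - g y.2 i)) ^ 2) / d ^ 2 =
      ∑ i, (d⁻¹ * Real.sin (Real.pi * rel g i y)) * (d⁻¹ * Real.sin (Real.pi * rel g i y)) := by
    intro y
    unfold rel
    rw [Finset.sum_div]
    refine Finset.sum_congr rfl fun i _ => ?_
    field_simp
  have e_H : Hg ch g F d = fun y : Z n => ∑ i, (d / Real.pi) *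
      ((ch y.2 * (F y.2 i * ((d⁻¹ * Real.sin (Real.pi * rel g i y)) *
        Real.cos (Real.pi * rel g i y)))) *
        ps (∑ i, (d⁻¹ * Real.sin (Real.pi * rel g i y)) *
          (d⁻¹ * Real.sin (Real.pi * rel g i y)))) := by
    funext y
    unfold Hg
    rw [e_v y, Finset.mul_sum, Finset.sum_mul]
    refine Finset.sum_congr rfl fun i _ => ?_
    have e2 : Real.sin (2 * Real.pi * (y.1 i - g y.2 i)) =
        2 * Real.sin (Real.pi * rel g i y) * Real.cos (Real.pi * rel g i y) := by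
      rw [← Real.sin_two_mul]
      unfold rel
      ring_nf
    rw [e2]
    have := Real.pi_ne_zero
    field_simp
  have s_H : ContDiff ℝ ∞ (Hg ch g F d) := by
    rw [e_H]
    exact ContDiff.sum fun i _ => contDiff_const.mul ((s_e.mul (s_w i)).mul s_p)
  refine ⟨s_H, fun m hm q => ?_⟩
  obtain ⟨D1, hD1def⟩ : ∃ D1 : ℝ, D1 = K1 * V / d := ⟨_, rfl⟩
  have hKR : 1 ≤ K1 * V := by nlinarith
  have hD1le : K1 * V ≤ D1 := by
    rw [hD1def, le_div_iff₀ hd0]
    nlinarith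
  have hD1 : 1 ≤ D1 := hKR.trans hD1le
  have hVD : V ≤ D1 := le_trans (by nlinarith) hD1le
  have hrhs : 0 ≤ (1 + n * Cw * K1 ^ k) * ρ * d * (V / d) ^ k := by positivity
  have hzero : Hg ch g F d =ᶠ[𝓝 q] (fun _ => (0 : ℝ)) →
      ‖iteratedFDeriv ℝ m (Hg ch g F d) q‖ ≤ (1 + n * Cw * K1 ^ k) * ρ * d * (V / d) ^ k := by
    intro hz
    rw [(hz.iteratedFDeriv ℝ m).eq_of_nhds]
    refine le_trans (le_of_eq ?_) hrhs
    have e0 : iteratedFDeriv ℝ m (fun _ : Z n => (0 : ℝ)) = 0 := iteratedFDeriv_fun_zero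
    rw [e0]
    simp
  by_cases hq : q.2 ∈ Icc (-1 : ℝ) 2
  swap
  · -- outside the time window
    refine hzero ?_
    have : ∀ᶠ y : Z n in 𝓝 q, ch y.2 = 0 := continuous_snd.continuousAt.eventually (hch0 q.2 hq)
    filter_upwards [this] with y hy
    unfold Hg
    rw [hy, zero_mul, zero_mul]
  by_cases hv : ∑ i, (d⁻¹ * Real.sin (Real.pi * rel g i q)) *
      (d⁻¹ * Real.sin (Real.pi * rel g i q)) ≤ 1
  swap
  · -- far from the particle
    refine hzero ?_
    have hopen : ∀ᶠ y in 𝓝 q, 1 < ∑ i, (d⁻¹ * Real.sin (Real.pi * rel g i y)) *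
        (d⁻¹ * Real.sin (Real.pi * rel g i y)) :=
      s_v.continuous.continuousAt.eventually (lt_mem_nhds (not_le.mp hv))
    filter_upwards [hopen] with y hy
    unfold Hg
    rw [e_v y, h.2.2.2.2.2.2.2.2.2.2.2.1 _ hy.le, mul_zero]
  -- near the particle
  have bt : ∀ i m, 1 ≤ m → m ≤ k → ‖iteratedFDeriv ℝ m (rel g i) q‖ ≤ (K1 * V) ^ m := by
    intro i m h1 h2
    rw [hK1def]
    exact bd_rel (hg i) hV (hgc i) q hq m h1 h2
  have u_le : ∀ i, |d⁻¹ * Real.sin (Real.pi * rel g i q)| ≤ 1 := by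
    intro i
    have h1 : (d⁻¹ * Real.sin (Real.pi * rel g i q)) *
        (d⁻¹ * Real.sin (Real.pi * rel g i q)) ≤ 1 :=
      (Finset.single_le_sum (f := fun i => (d⁻¹ * Real.sin (Real.pi * rel g i q)) *
        (d⁻¹ * Real.sin (Real.pi * rel g i q))) (fun i _ => mul_self_nonneg _)
        (Finset.mem_univ i)).trans hv
    exact abs_le_one_iff_mul_self_le_one.mpr h1
  have B_s : ∀ i, B k C1 (K1 * V) (fun y : Z n => Real.sin (Real.pi * rel g i y)) q := by
    intro i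
    rw [hC1def]
    exact B_comp (φ := fun x => Real.sin (Real.pi * x))
      (Real.contDiff_sin.comp (contDiff_const.mul contDiff_id)) (s_t i) (db_sin k)
      (by positivity) (by positivity) (bt i)
  have B_c0 : ∀ i, B k C1 (K1 * V) (fun y : Z n => Real.cos (Real.pi * rel g i y)) q := by
    intro i
    rw [hC1def]
    exact B_comp (φ := fun x => Real.cos (Real.pi * x))
      (Real.contDiff_cos.comp (contDiff_const.mul contDiff_id)) (s_t i) (db_cos k)
      (by positivity) (by positivity) (bt i)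
  have B_c : ∀ i, B k C1 D1 (fun y : Z n => Real.cos (Real.pi * rel g i y)) q := by
    intro i j hj
    refine (B_c0 i j hj).trans ?_
    exact mul_le_mul_of_nonneg_left (pow_le_pow_left₀ (by positivity) hD1le j) (by positivity)
  have B_u : ∀ i, B k C1 D1 (fun y : Z n => d⁻¹ * Real.sin (Real.pi * rel g i y)) q := by
    intro i j hj
    rcases Nat.eq_zero_or_pos j with rfl | hj1
    · rw [norm_iteratedFDeriv_zero, Real.norm_eq_abs, pow_zero, mul_one]
      exact (u_le i).trans hC1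
    · have e : iteratedFDeriv ℝ j (fun y : Z n => d⁻¹ * Real.sin (Real.pi * rel g i y)) q =
          d⁻¹ • iteratedFDeriv ℝ j (fun y : Z n => Real.sin (Real.pi * rel g i y)) q :=
        iteratedFDeriv_const_smul_apply (a := d⁻¹) (cd (s_s i) j).contDiffAt
      rw [e, norm_smul, Real.norm_eq_abs, abs_of_pos (inv_pos.mpr hd0)]
      have b1 := B_s i j hj
      have b2 : d⁻¹ ≤ (d⁻¹) ^ j := le_self_pow₀ (by rw [one_le_inv₀ hd0]; exact hd1) (by omega)
      have b3 : C1 * D1 ^ j = (d⁻¹) ^ j * (C1 * (K1 * V) ^ j) := by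
        rw [hD1def, div_eq_mul_inv, mul_pow (K1 * V)]
        ring
      rw [b3]
      exact mul_le_mul b2 b1 (norm_nonneg _) (by positivity)
  have B_F : ∀ i, B k ρ D1 (fun y : Z n => F y.2 i) q := by
    intro i j hj
    refine (norm_time_pt (hF i).1 j q).trans (((hF i).2 j hj q.2 hq).trans ?_)
    exact mul_le_mul_of_nonneg_left (pow_le_pow_left₀ (by positivity) hVD j) hρ
  have B_v : B k (∑ _i : Fin n, 2 ^ k * C1 * C1) D1 (fun y : Z n =>
      ∑ i, (d⁻¹ * Real.sin (Real.pi * rel g i y)) *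
        (d⁻¹ * Real.sin (Real.pi * rel g i y))) q :=
    B_sum Finset.univ (fun i _ => (s_u i).mul (s_u i)) fun i _ =>
      B_mul (s_u i) (s_u i) (B_u i) (B_u i) (by positivity) (by positivity) (by positivity)
  have B_v2 : ∀ j, 1 ≤ j → j ≤ k → ‖iteratedFDeriv ℝ j (fun y : Z n =>
      ∑ i, (d⁻¹ * Real.sin (Real.pi * rel g i y)) *
        (d⁻¹ * Real.sin (Real.pi * rel g i y))) q‖ ≤ (Cv * D1) ^ j := by
    intro j hj1 hj
    refine (B_v j hj).trans ?_
    rw [mul_pow]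
    refine mul_le_mul_of_nonneg_right ?_ (by positivity)
    refine le_trans ?_ (le_self_pow₀ hCv (by omega))
    rw [hCvdef, Finset.sum_const, Finset.card_univ, Fintype.card_fin, nsmul_eq_mul]
    linarith
  have B_p : B k Cq D1 (fun y : Z n => ps (∑ i, (d⁻¹ * Real.sin (Real.pi * rel g i y)) *
      (d⁻¹ * Real.sin (Real.pi * rel g i y)))) q := by
    intro j hj
    refine (B_comp h.2.2.2.1 s_v hCp (by positivity) (by positivity) B_v2 j hj).trans ?_
    rw [hCqdef, mul_pow, mul_assoc ((Nat.factorial k : ℕ) * Cp)]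
    refine mul_le_mul_of_nonneg_left ?_ (by positivity)
    exact mul_le_mul_of_nonneg_right (pow_le_pow_right₀ hCv hj) (by positivity)
  have B_e : B k Ce D1 (fun y : Z n => ch y.2) q := by
    intro j hj
    refine (norm_time hch j (hCe j hj) q).trans ?_
    have : (1 : ℝ) ≤ D1 ^ j := one_le_pow₀ hD1
    nlinarith
  have B_w : ∀ i, B k (Cw * ρ) D1 (fun y : Z n => (ch y.2 *
      (F y.2 i * ((d⁻¹ * Real.sin (Real.pi * rel g i y)) * Real.cos (Real.pi * rel g i y)))) *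
      ps (∑ i, (d⁻¹ * Real.sin (Real.pi * rel g i y)) *
        (d⁻¹ * Real.sin (Real.pi * rel g i y)))) q := by
    intro i
    have c1 := B_mul (s_u i) (s_c i) (B_u i) (B_c i) (by positivity) (by positivity) (by positivity)
    have c2 := B_mul (s_F i) ((s_u i).mul (s_c i)) (B_F i) c1 hρ (by positivity) (by positivity)
    have c3 := B_mul s_e (s_w i) B_e c2 (by positivity) (by positivity) (by positivity)
    have c4 := B_mul (s_e.mul (s_w i)) s_p c3 B_p (by positivity) hCq (by positivity)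
    refine B_mono c4 (by positivity) (le_of_eq ?_)
    rw [hCwdef]
    ring
  have B_H : B k (∑ i : Fin n, |d / Real.pi| * (Cw * ρ)) D1 (Hg ch g F d) q := by
    rw [e_H]
    exact B_sum Finset.univ (fun i _ => contDiff_const.mul ((s_e.mul (s_w i)).mul s_p)) fun i _ =>
      B_smul _ ((s_e.mul (s_w i)).mul s_p) (B_w i)
  refine (B_H m hm).trans ?_
  have c1 : ∑ i : Fin n, |d / Real.pi| * (Cw * ρ) ≤ n * (d * (Cw * ρ)) := by
    have : ∀ i ∈ (Finset.univ : Finset (Fin n)), |d / Real.pi| * (Cw * ρ) ≤ d * (Cw * ρ) := by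
      intro i _
      refine mul_le_mul_of_nonneg_right ?_ (by positivity)
      rw [abs_div, abs_of_pos hd0, abs_of_pos Real.pi_pos, div_le_iff₀ Real.pi_pos]
      nlinarith
    refine (Finset.sum_le_sum this).trans ?_
    rw [Finset.sum_const, Finset.card_univ, Fintype.card_fin, nsmul_eq_mul]
  have c2 : D1 ^ m ≤ K1 ^ k * (V / d) ^ k := by
    refine (pow_le_pow_right₀ hD1 hm).trans (le_of_eq ?_)
    rw [hD1def, mul_div_assoc, mul_pow]
  calc (∑ i : Fin n, |d / Real.pi| * (Cw * ρ)) * D1 ^ m ≤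
      (n * (d * (Cw * ρ))) * (K1 ^ k * (V / d) ^ k) :=
        mul_le_mul c1 c2 (by positivity) (by positivity)
    _ = (n * Cw * K1 ^ k) * ρ * d * (V / d) ^ k := by ring
    _ ≤ (1 + n * Cw * K1 ^ k) * ρ * d * (V / d) ^ k := by
        have : 0 ≤ ρ * d * (V / d) ^ k := by positivity
        nlinarith

end Pool.Agent.K9h32.HJ.BndK

namespace Pool.Agent.K9h32.HJ

/-- Leaf BNDK -/
theorem bndk_all (h0 : Pool.Agent.N980.TL.S_FN) : S_BNDK := BndK.main h0

end Pool.Agent.K9h32.HJ
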