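import Pool.Agent.K9h32.HJ.StmK
import Pool.Agent.N980.TL.DENS

/-!
# Leaf DENSK: trigonometric polynomials are dense in `C^k`
-/

set_option autoImplicit false

open Set Filter Topology MeasureTheory
open scoped ContDiff

noncomputable section

namespace Pool.Agent.K9h32.HJ

open Pool.Agent.N980.TL Pool.Agent.N980.TL.Dens

theorem densk_key {n : ℕ} (k : ℕ) : ∀ (E : Type) [NormedAddCommGroup E] [NormedSpace ℝ E] [CompleteSpace E]
    (φ : Z n → E), Per φ → ContDiff ℝ k φ → ∀ ε : ℝ, 0 < ε →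
    ∀ᶠ m : ℕ in atTop, ∀ i ≤ k, ∀ q : Z n, ‖iteratedFDeriv ℝ i (fun q => φ q - cv m φ q) q‖ ≤ ε := by
  induction k with
  | zero =>
    intro E _ _ _ φ hφ hc ε hε
    filter_upwards [approx hφ hc.continuous ε hε] with m hm i hi q
    obtain rfl : i = 0 := by omega
    rw [norm_iteratedFDeriv_zero]
    exact hm q
  | succ k ih =>
    intro E _ _ _ φ hφ hc ε hε
    have hc' : ContDiff ℝ (k + 1) φ := by exact_mod_cast hc
    have hc1 : ContDiff ℝ k (fderiv ℝ φ) := hc'.fderiv_right (m := k) le_rfl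
    have h1 : ContDiff ℝ 1 φ := hc.of_le (by
      have : (1 : ℕ) ≤ k + 1 := by omega
      exact_mod_cast this)
    filter_upwards [approx hφ hc.continuous ε hε, ih (Z n →L[ℝ] E) (fderiv ℝ φ) (per_fderiv hφ) hc1 ε hε] with m h0 hm i hi q
    rcases Nat.eq_zero_or_pos i with rfl | hi0
    · rw [norm_iteratedFDeriv_zero]
      exact h0 q
    · obtain ⟨j, rfl⟩ : ∃ j, i = j + 1 := ⟨i - 1, by omega⟩
      have e1 : fderiv ℝ (fun q => φ q - cv m φ q) = fun q => fderiv ℝ φ q - cv m (fderiv ℝ φ) q :=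
        funext fun q => (((h1.differentiable (by norm_num)) q).hasFDerivAt.sub (cv_fderiv m hφ h1 q)).fderiv
      rw [← norm_iteratedFDeriv_fderiv, e1]
      exact hm j (by omega) q

theorem densk_all : S_DENSK := by
  intro k n f hf hper ε hε
  have hP : Per f := hper
  obtain ⟨m, hm⟩ := (densk_key k ℝ f hP hf ε hε).exists
  obtain ⟨N, D, hD⟩ := cv_TT m hP hf.continuous
  refine ⟨N, D, fun i hi q => ?_⟩
  have hfun : (fun q : Z n => f q - D.val q.1 q.2) = fun q => f q - cv m f q := by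
    funext q
    rw [hD]
  rw [hfun]
  exact hm i hi q

end Pool.Agent.K9h32.HJ
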