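import Pool.Agent.K9h32.HJ.StmF

/-!
# Leaf DIR (helper98 for helper32): transvections which move the direction `(1, M, M^2, …)` close to any direction

For an integer vector `a` with `a 0 ≠ 0` put `b = a_0 e_last - a_last e_0`, so `b · a = 0`, and
`P = 1 + t a_0 a bᵀ`, whose inverse is `1 - t a_0 a bᵀ`.
-/

set_option autoImplicit false

open Set Filter Topology
open scoped ContDiff

noncomputable section

namespace Pool.Agent.K9h32.HJ

open Pool.Agent.N980.TL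

namespace DirL

/-- comparison of directions -/
lemma norm_dir {V : Type*} [NormedAddCommGroup V] [NormedSpace ℝ V] (x z : V) (hx : x ≠ 0) (hz : z ≠ 0) :
    ‖(‖x‖⁻¹) • x - (‖z‖⁻¹) • z‖ ≤ 2 * ‖x - z‖ / ‖z‖ := by
  have hx' : 0 < ‖x‖ := norm_pos_iff.2 hx
  have hz' : 0 < ‖z‖ := norm_pos_iff.2 hz
  have e : (‖x‖⁻¹) • x - (‖z‖⁻¹) • z = (‖x‖⁻¹ - ‖z‖⁻¹) • x + (‖z‖⁻¹) • (x - z) := by
    rw [sub_smul, smul_sub]; abel
  rw [e]
  refine (norm_add_le _ _).trans ?_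
  rw [norm_smul, norm_smul, Real.norm_eq_abs, norm_inv, norm_norm]
  have h1 : |‖x‖⁻¹ - ‖z‖⁻¹| * ‖x‖ = |‖z‖ - ‖x‖| / ‖z‖ := by
    have h2 : ‖x‖⁻¹ - ‖z‖⁻¹ = (‖z‖ - ‖x‖) / (‖x‖ * ‖z‖) := by field_simp
    rw [h2, abs_div, abs_of_pos (mul_pos hx' hz')]
    field_simp
  rw [h1]
  have h3 : |‖z‖ - ‖x‖| ≤ ‖x - z‖ := by
    rw [abs_sub_comm]; exact abs_norm_sub_norm_le x z
  have h4 : |‖z‖ - ‖x‖| / ‖z‖ ≤ ‖x - z‖ / ‖z‖ := div_le_div_of_nonneg_right h3 hz'.le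
  have h5 : ‖z‖⁻¹ * ‖x - z‖ = ‖x - z‖ / ‖z‖ := by rw [div_eq_inv_mul]
  rw [h5]
  have h6 : 2 * ‖x - z‖ / ‖z‖ = ‖x - z‖ / ‖z‖ + ‖x - z‖ / ‖z‖ := by ring
  linarith

/-- an integer vector with first coordinate different from zero, close to a given direction -/
lemma exists_int (r : ℕ) (u : E (r + 2)) (hu : u ≠ 0) {δ : ℝ} (hδ : 0 < δ) :
    ∃ a : Fin (r + 2) → ℤ, a 0 ≠ 0 ∧
      ‖(‖(fun i => (a i : ℝ) : E (r + 2))‖⁻¹) • (fun i => (a i : ℝ) : E (r + 2)) - (‖u‖⁻¹) • u‖ ≤ δ := by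
  have hu' : 0 < ‖u‖ := norm_pos_iff.2 hu
  obtain ⟨N, hN⟩ := exists_nat_ge (2 / (δ * ‖u‖) + 1)
  have hN1 : (1 : ℝ) ≤ N := by
    have : 0 ≤ 2 / (δ * ‖u‖) := by positivity
    linarith
  have hN0 : (0 : ℝ) < N := by linarith
  obtain ⟨a, ha⟩ : ∃ a : Fin (r + 2) → ℤ, ∀ i, a i =
      if i = 0 then (if ⌊(N : ℝ) * u 0⌋ = 0 then 1 else ⌊(N : ℝ) * u 0⌋) else ⌊(N : ℝ) * u i⌋ :=
    ⟨fun i => if i = 0 then (if ⌊(N : ℝ) * u 0⌋ = 0 then 1 else ⌊(N : ℝ) * u 0⌋) else ⌊(N : ℝ) * u i⌋,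
      fun _ => rfl⟩
  have ha0 : a 0 ≠ 0 := by
    rw [ha, if_pos rfl]
    split_ifs with h
    · norm_num
    · exact h
  refine ⟨a, ha0, ?_⟩
  have hfl : ∀ x : ℝ, |(⌊x⌋ : ℝ) - x| ≤ 1 := by
    intro x
    rw [abs_le]
    constructor
    · linarith [Int.lt_floor_add_one x]
    · linarith [Int.floor_le x]
  have h1 : ∀ i, |(a i : ℝ) - N * u i| ≤ 1 := by
    intro i
    rw [ha]
    split_ifs with h h'
    · subst h
      have h2 := Int.floor_eq_zero_iff.1 h'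
      rw [abs_le]
      push_cast
      constructor
      · linarith [h2.2]
      · linarith [h2.1]
    · subst h
      exact hfl _
    · exact hfl _
  have haN : (fun i => (a i : ℝ) : E (r + 2)) ≠ 0 := by
    intro h
    have h2 := congrFun h 0
    simp only [Pi.zero_apply, Int.cast_eq_zero] at h2
    exact ha0 h2
  have hNu : (N : ℝ) • u ≠ 0 := smul_ne_zero hN0.ne' hu
  have h2 := norm_dir (fun i => (a i : ℝ) : E (r + 2)) ((N : ℝ) • u) haN hNu
  have h3 : ‖(fun i => (a i : ℝ) : E (r + 2)) - (N : ℝ) • u‖ ≤ 1 := by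
    rw [pi_norm_le_iff_of_nonneg zero_le_one]
    intro i
    exact h1 i
  have h4 : (‖(N : ℝ) • u‖⁻¹) • ((N : ℝ) • u) = (‖u‖⁻¹) • u := by
    rw [norm_smul, Real.norm_eq_abs, abs_of_pos hN0, smul_smul]
    congr 1
    field_simp
  rw [h4] at h2
  refine h2.trans ?_
  rw [norm_smul, Real.norm_eq_abs, abs_of_pos hN0, div_le_iff₀ (by positivity)]
  have h5 : 2 ≤ δ * (N * ‖u‖) := by
    have h6 : 2 / (δ * ‖u‖) ≤ N := by linarith
    rw [div_le_iff₀ (by positivity)] at h6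
    linarith
  linarith

end DirL

open DirL in
theorem dir_all : S_DIR := by
  intro r u hu δ hδ
  obtain ⟨a, ha0, ha⟩ := exists_int r u hu (half_pos hδ)
  obtain ⟨t, ht⟩ := exists_nat_ge (8 / δ + 3)
  have ht3 : (3 : ℝ) ≤ t := by
    have : 0 ≤ 8 / δ := by positivity
    linarith
  have ht8 : 8 / δ ≤ t := by linarith
  obtain ⟨l, hl⟩ : ∃ l : Fin (r + 2), l = Fin.last (r + 1) := ⟨_, rfl⟩
  have hl0 : (0 : Fin (r + 2)) ≠ l := by
    rw [hl]
    exact (Fin.last_pos (n := r)).ne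
  obtain ⟨b, hb⟩ : ∃ b : Fin (r + 2) → ℤ, b = a 0 • Pi.single l 1 - a l • Pi.single 0 1 := ⟨_, rfl⟩
  have hba : b ⬝ᵥ a = 0 := by
    rw [hb, sub_dotProduct, smul_dotProduct, smul_dotProduct, single_dotProduct, single_dotProduct,
      smul_eq_mul, smul_eq_mul]
    ring
  obtain ⟨c, hc⟩ : ∃ c : ℤ, c = t * a 0 := ⟨_, rfl⟩
  have hsq : Matrix.vecMulVec a b * Matrix.vecMulVec a b = 0 := by
    rw [Matrix.vecMulVec_mul_vecMulVec, hba]
    simp
  refine ⟨1 + c • Matrix.vecMulVec a b, 1 - c • Matrix.vecMulVec a b, ?_, ?_, 2 * (a 0 * a l).natAbs + 1,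
    fun M hM y hy => ?_⟩
  · rw [add_mul, mul_sub, mul_sub, one_mul, one_mul, mul_one, smul_mul_smul_comm, hsq, smul_zero]
    abel
  · rw [sub_mul, mul_add, mul_add, one_mul, one_mul, mul_one, smul_mul_smul_comm, hsq, smul_zero]
    abel
  -- the estimate
  have hM1 : (1 : ℝ) ≤ M := by
    have : 1 ≤ M := by omega
    exact_mod_cast this
  obtain ⟨K, hK⟩ : ∃ K : ℝ, K = (M : ℝ) ^ (r + 1) := ⟨_, rfl⟩
  have hKM : (M : ℝ) ≤ K := by
    rw [hK]
    calc (M : ℝ) = (M : ℝ) ^ 1 := (pow_one _).symm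
      _ ≤ (M : ℝ) ^ (r + 1) := pow_le_pow_right₀ hM1 (by omega)
  have hK1 : 1 ≤ K := hM1.trans hKM
  have hKa : 2 * |(a 0 : ℝ) * (a l : ℝ)| + 1 ≤ K := by
    have h1 : (2 * ((a 0 * a l).natAbs : ℝ) + 1) ≤ (M : ℝ) := by exact_mod_cast hM
    have h2 : (((a 0 * a l).natAbs : ℕ) : ℝ) = |(a 0 : ℝ) * (a l : ℝ)| := by
      rw [Nat.cast_natAbs]
      push_cast
      rfl
    rw [h2] at h1
    linarith
  obtain ⟨A, hA⟩ : ∃ A : E (r + 2), A = fun i => (a i : ℝ) := ⟨_, rfl⟩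
  obtain ⟨s, hs⟩ : ∃ s : ℝ, s = t * a 0 * (a 0 * K - a l) := ⟨_, rfl⟩
  have hyA : y = dirM r M + s • A := by
    funext i
    rw [hy i]
    have h1 : ∀ j, (((1 + c • Matrix.vecMulVec a b) i j : ℤ) : ℝ) * dirM r M j =
        (if i = j then dirM r M j else 0) + (c : ℝ) * (a i : ℝ) * ((b j : ℝ) * dirM r M j) := by
      intro j
      rw [Matrix.add_apply, Matrix.smul_apply, Matrix.vecMulVec_apply, Matrix.one_apply]
      push_cast
      split_ifs
      · simp only [zsmul_eq_mul]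
        push_cast
        ring
      · simp only [zsmul_eq_mul]
        push_cast
        ring
    rw [Finset.sum_congr rfl fun j _ => h1 j, Finset.sum_add_distrib, Finset.sum_ite_eq, if_pos (Finset.mem_univ _),
      ← Finset.mul_sum]
    have h2 : ∑ j, (b j : ℝ) * dirM r M j = a 0 * K - a l := by
      have h3 : ∀ j, (b j : ℝ) * dirM r M j =
          (if l = j then (a 0 : ℝ) * dirM r M j else 0) - (if (0 : Fin (r + 2)) = j then (a l : ℝ) * dirM r M j else 0) := by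
        intro j
        rw [hb]
        simp only [Pi.sub_apply, Pi.smul_apply, Pi.single_apply, smul_eq_mul]
        by_cases h4 : j = l
        · subst h4
          rw [if_pos rfl, if_neg hl0.symm, if_pos rfl, if_neg hl0]
          push_cast
          ring
        · by_cases h5 : j = 0
          · subst h5
            rw [if_neg hl0, if_pos rfl, if_neg (fun h => hl0 h.symm), if_pos rfl]
            push_cast
            ring
          · rw [if_neg h4, if_neg h5, if_neg (fun h => h4 h.symm), if_neg (fun h => h5 h.symm)]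
            push_cast
            ring
      rw [Finset.sum_congr rfl fun j _ => h3 j, Finset.sum_sub_distrib, Finset.sum_ite_eq, Finset.sum_ite_eq,
        if_pos (Finset.mem_univ _), if_pos (Finset.mem_univ _)]
      have h6 : dirM r M l = K := by rw [hl, hK]; simp [dirM]
      have h7 : dirM r M 0 = 1 := by simp [dirM]
      rw [h6, h7]
      ring
    rw [h2, Pi.add_apply, Pi.smul_apply, smul_eq_mul, hs, hA, hc]
    push_cast
    ring
  have hdn : ‖dirM r M‖ ≤ K := by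
    rw [pi_norm_le_iff_of_nonneg (by linarith)]
    intro i
    rw [Real.norm_eq_abs]
    unfold dirM
    rw [abs_of_nonneg (by positivity), hK]
    exact pow_le_pow_right₀ hM1 (by have := i.2; omega)
  have ha01 : (1 : ℝ) ≤ (a 0 : ℝ) ^ 2 := by
    have h1 : (1 : ℤ) ≤ |a 0| := Int.one_le_abs ha0
    have h2 : (1 : ℝ) ≤ |(a 0 : ℝ)| := by exact_mod_cast h1
    rw [← sq_abs]
    nlinarith
  have hAn : 1 ≤ ‖A‖ := by
    have h1 : (1 : ℤ) ≤ |a 0| := Int.one_le_abs ha0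
    have h2 : (1 : ℝ) ≤ |(a 0 : ℝ)| := by exact_mod_cast h1
    have h3 := norm_le_pi_norm A 0
    rw [hA] at h3 ⊢
    exact h2.trans h3
  have hsK : t * K / 2 ≤ s := by
    have h1 : s = t * ((a 0 : ℝ) ^ 2 * K - a 0 * a l) := by rw [hs]; ring
    rw [h1, mul_div_assoc]
    refine mul_le_mul_of_nonneg_left ?_ (by linarith)
    have h2 := neg_abs_le ((a 0 : ℝ) * (a l : ℝ))
    have h3 := le_abs_self ((a 0 : ℝ) * (a l : ℝ))
    nlinarith
  have hs0 : 0 < s := by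
    have : 0 < t * K / 2 := by
      have : 0 < (t : ℝ) * K := mul_pos (by linarith) (by linarith)
      linarith
    linarith
  have hA0 : A ≠ 0 := by
    intro h
    rw [h, norm_zero] at hAn
    linarith
  have hsA : s • A ≠ 0 := smul_ne_zero hs0.ne' hA0
  have hnsA : ‖s • A‖ = s * ‖A‖ := by rw [norm_smul, Real.norm_eq_abs, abs_of_pos hs0]
  have hy0 : y ≠ 0 := by
    intro h
    rw [h] at hyA
    have h1 : s • A = - dirM r M := by
      have := hyA.symm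
      exact eq_neg_of_add_eq_zero_right this
    have h2 : ‖s • A‖ ≤ K := by rw [h1, norm_neg]; exact hdn
    rw [hnsA] at h2
    nlinarith
  refine ⟨hy0, ?_⟩
  have h1 := norm_dir y (s • A) hy0 hsA
  have h2 : (‖s • A‖⁻¹) • (s • A) = (‖A‖⁻¹) • A := by
    rw [hnsA, smul_smul]
    congr 1
    have : ‖A‖ ≠ 0 := by positivity
    field_simp
  rw [h2] at h1
  have h3 : ‖y - s • A‖ ≤ K := by
    rw [hyA, add_sub_cancel_right]
    exact hdn
  have h4 : 2 * ‖y - s • A‖ / ‖s • A‖ ≤ δ / 2 := by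
    rw [hnsA, div_le_iff₀ (mul_pos hs0 (by linarith))]
    have h5 : 8 ≤ t * δ := by
      rw [div_le_iff₀ hδ] at ht8
      exact ht8
    have h6 : s ≤ s * ‖A‖ := by nlinarith
    have h7 : δ / 2 * (t * K / 2) ≤ δ / 2 * (s * ‖A‖) :=
      mul_le_mul_of_nonneg_left (hsK.trans h6) (by linarith)
    have h8 : 2 * K ≤ δ / 2 * (t * K / 2) := by nlinarith
    linarith
  have h5 : ‖(‖y‖⁻¹) • y - (‖u‖⁻¹) • u‖ ≤ ‖(‖y‖⁻¹) • y - (‖A‖⁻¹) • A‖ + ‖(‖A‖⁻¹) • A - (‖u‖⁻¹) • u‖ :=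
    norm_sub_le_norm_sub_add_norm_sub _ _ _
  have h6 : ‖(‖A‖⁻¹) • A - (‖u‖⁻¹) • u‖ ≤ δ / 2 := by
    rw [hA]
    exact ha
  linarith

end Pool.Agent.K9h32.HJ
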