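import Pool.Agent.K9h32.HJ.FinA

/-!
# Leaf FIN: the assembly, second part
-/

set_option autoImplicit false

open Set Filter Topology
open scoped ContDiff

noncomputable section

namespace Pool.Agent.K9h32.HJ

open Pool.Agent.N980.TL

namespace Fn

theorem nrm_int {n : ℕ} {y : E n} (h : ∀ i, ∃ z : ℤ, y i = z) (hy : y ≠ 0) : 1 ≤ ‖y‖ := by
  obtain ⟨i, hi⟩ : ∃ i, y i ≠ 0 := by
    by_contra hc
    push Not at hc
    exact hy (funext hc)
  obtain ⟨z, hz⟩ := h i
  have hz0 : z ≠ 0 := by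
    rintro rfl
    exact hi (by rw [hz]; simp)
  have h1 : (1 : ℝ) ≤ |y i| := by
    rw [hz]
    have : 1 ≤ |z| := Int.one_le_abs hz0
    have h2 : ((1 : ℤ) : ℝ) ≤ ((|z| : ℤ) : ℝ) := by exact_mod_cast this
    rw [Int.cast_abs] at h2
    exact_mod_cast h2
  have h2 := norm_le_pi_norm y i
  rw [Real.norm_eq_abs] at h2
  linarith

end Fn

open Fn in
theorem fin_all (hDir : S_DIR) (hDens : S_DENSK) : S_FIN := by
  intro k r hk hM B Q hB hBQ R L f₀ hf₀ hL f₁ hf₁ u hu ε hε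
  -- the change of coordinates
  obtain ⟨P, P', hPP, hP'P, M1, hdir⟩ := hDir r u hu (ε / 2) (by positivity)
  obtain ⟨p, hp⟩ : ∃ p : Matrix (Fin (r + 2)) (Fin (r + 2)) ℝ, p = rl P := ⟨_, rfl⟩
  obtain ⟨p', hp'⟩ : ∃ p' : Matrix (Fin (r + 2)) (Fin (r + 2)) ℝ, p' = rl P' := ⟨_, rfl⟩
  have hpm : p = P.map (Int.cast : ℤ → ℝ) := by rw [hp]; rfl
  have hpm' : p' = P'.map (Int.cast : ℤ → ℝ) := by rw [hp']; rfl
  have h1 : p * p' = 1 := by
    rw [hpm, hpm']
    have : (P * P').map (Int.cast : ℤ → ℝ) = (1 : Matrix (Fin (r + 2)) (Fin (r + 2)) ℤ).map (Int.cast : ℤ → ℝ) := by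
      rw [hPP]
    rw [← Matrix.map_one (Int.cast : ℤ → ℝ) (by simp) (by simp), ← this]
    ext i j
    simp [Matrix.mul_apply, Matrix.map_apply]
  have h2 : p' * p = 1 := by
    exact mul_eq_one_comm.1 h1
  obtain ⟨b, hb⟩ : ∃ b : Matrix (Fin (r + 2)) (Fin (r + 2)) ℝ, b = B := ⟨_, rfl⟩
  obtain ⟨q, hq⟩ : ∃ q : Matrix (Fin (r + 2)) (Fin (r + 2)) ℝ, q = Q := ⟨_, rfl⟩
  have hbt : b.transpose = b := by
    ext i j
    rw [Matrix.transpose_apply, hb]
    exact hB j i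
  have hbq : b * q = 1 := by
    ext i j
    rw [Matrix.mul_apply, Matrix.one_apply, hb, hq]
    exact hBQ i j
  have hqb : q * b = 1 := mul_eq_one_comm.1 hbq
  have hqt : q.transpose = q := by
    have h3 : b * q.transpose = 1 := by
      have := congrArg Matrix.transpose hqb
      rw [Matrix.transpose_mul, hbt, Matrix.transpose_one] at this
      exact this
    calc q.transpose = (q * b) * q.transpose := by rw [hqb, Matrix.one_mul]
      _ = q * (b * q.transpose) := Matrix.mul_assoc _ _ _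
      _ = q := by rw [h3, Matrix.mul_one]
  obtain ⟨b1, hb1⟩ : ∃ b1 : Matrix (Fin (r + 2)) (Fin (r + 2)) ℝ, b1 = p.transpose * b * p := ⟨_, rfl⟩
  obtain ⟨q1, hq1⟩ : ∃ q1 : Matrix (Fin (r + 2)) (Fin (r + 2)) ℝ, q1 = p' * q * p'.transpose := ⟨_, rfl⟩
  have hb1t : ∀ i j, b1 i j = b1 j i := by
    have : b1.transpose = b1 := by
      rw [hb1, Matrix.transpose_mul, Matrix.transpose_mul, Matrix.transpose_transpose, hbt, Matrix.mul_assoc]
    intro i j
    have h3 := congrFun (congrFun this j) i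
    rw [Matrix.transpose_apply] at h3
    exact h3
  have hq1t : ∀ i j, q1 i j = q1 j i := by
    have : q1.transpose = q1 := by
      rw [hq1, Matrix.transpose_mul, Matrix.transpose_mul, Matrix.transpose_transpose, hqt, Matrix.mul_assoc]
    intro i j
    have h3 := congrFun (congrFun this j) i
    rw [Matrix.transpose_apply] at h3
    exact h3
  have hbq1 : ∀ i k, ∑ j, b1 i j * q1 j k = if i = k then 1 else 0 := by
    have : b1 * q1 = 1 := by
      have e1 : b1 * q1 = p.transpose * (b * ((p * p') * q)) * p'.transpose := by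
        rw [hb1, hq1]
        simp only [Matrix.mul_assoc]
      rw [e1, h1, Matrix.one_mul, hbq, Matrix.mul_one, ← Matrix.transpose_mul, h2, Matrix.transpose_one]
    intro i k
    have h3 := congrFun (congrFun this i) k
    rw [Matrix.mul_apply, Matrix.one_apply] at h3
    exact h3
  -- the potential in the new coordinates
  have hpp : ∀ x : E (r + 2), mv p (mv p' x) = x := fun x => by
    rw [mv_eq, mv_eq, Matrix.mulVec_mulVec, h1, Matrix.one_mulVec]
  have hpp' : ∀ x : E (r + 2), mv p' (mv p x) = x := fun x => by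
    rw [mv_eq, mv_eq, Matrix.mulVec_mulVec, h2, Matrix.one_mulVec]
  have hg0s : ContDiff ℝ k (fun q : Z (r + 2) => f₀ q.1 q.2 + f₁ q.1 q.2) := hf₀.1.add hf₁.1
  have hg0p : Periodic (fun x t => f₀ x t + f₁ x t) := fun x t a b => by
    show f₀ _ _ + f₁ _ _ = _
    rw [hf₀.2 x t a b, hf₁.2 x t a b]
  obtain ⟨h₀, hh0⟩ : ∃ h₀ : Z (r + 2) → ℝ, h₀ = fun q => f₀ (mv p q.1) q.2 + f₁ (mv p q.1) q.2 := ⟨_, rfl⟩
  have hh0s : ContDiff ℝ k h₀ := by
    rw [hh0]
    exact hg0s.comp (al p).contDiff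
  have hh0p : ∀ (x : Fin (r + 2) → ℝ) (t : ℝ) (k : Fin (r + 2) → ℤ) (l : ℤ),
      h₀ (fun i => x i + k i, t + l) = h₀ (x, t) := by
    rw [hh0, hp]
    exact per_comp hg0p P
  obtain ⟨A, hA⟩ : ∃ A : Z (r + 2) →L[ℝ] Z (r + 2), A = al p' := ⟨_, rfl⟩
  obtain ⟨K, hK⟩ : ∃ K : ℝ, K = (1 + ‖A‖) ^ k := ⟨_, rfl⟩
  have hA1 : 1 ≤ 1 + ‖A‖ := by have := norm_nonneg A; linarith
  have hK1 : 1 ≤ K := by rw [hK]; exact one_le_pow₀ hA1
  have hKi : ∀ i ≤ k, ‖A‖ ^ i ≤ K := fun i hi => by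
    rw [hK]
    calc ‖A‖ ^ i ≤ (1 + ‖A‖) ^ i := pow_le_pow_left₀ (norm_nonneg _) (by linarith) i
      _ ≤ _ := pow_le_pow_right₀ hA1 hi
  obtain ⟨e1, he1⟩ : ∃ e1, e1 = ε / (2 * K) := ⟨_, rfl⟩
  have he10 : 0 < e1 := by rw [he1]; positivity
  obtain ⟨N0, D, hD⟩ := hDens k (r + 2) h₀ hh0s hh0p e1 he10
  -- the main statement
  obtain ⟨np, hnp⟩ : ∃ np, np = nm p := ⟨_, rfl⟩
  have hnp0 : 0 ≤ np := by rw [hnp]; exact Gq.nm_nonneg p
  obtain ⟨δ, hδ⟩ : ∃ δ, δ = min (1 / 2) (ε / 4) / (np + 1) := ⟨_, rfl⟩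
  have hm0 : 0 < min (1 / 2) (ε / 4) := lt_min (by norm_num) (by positivity)
  have hδ0 : 0 < δ := by rw [hδ]; positivity
  have hδm : (np + 1) * δ = min (1 / 2) (ε / 4) := by rw [hδ]; field_simp
  have hδ1 : np * δ ≤ 1 / 2 := by
    have := min_le_left (1 / 2) (ε / 4)
    nlinarith
  have hδ2 : np * δ ≤ ε / 4 := by
    have := min_le_right (1 / 2) (ε / 4)
    nlinarith
  have hδ3 : δ ≤ 1 / 2 := by
    have := min_le_left (1 / 2) (ε / 4)
    nlinarith
  obtain ⟨M, F, g, c, a, hMM, hc, ha, hFs, hFp, hFb, hv, hE⟩ :=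
    hM N0 D b1 q1 hb1t hq1t hbq1 M1 e1 δ (2 * |R| + 2) he10 hδ0
  obtain ⟨y, hy⟩ : ∃ y : E (r + 2), y = mv p (dirM r M) := ⟨_, rfl⟩
  obtain ⟨hy0, hydir⟩ := hdir M hMM y (fun i => by rw [hy, hp]; rfl)
  have hy1 : 1 ≤ ‖y‖ := by
    refine nrm_int (fun i => ⟨∑ j, P i j * (M : ℤ) ^ (j : ℕ), ?_⟩) hy0
    rw [hy, hp]
    simp only [mv, rl, dirM]
    push_cast
    rfl
  -- the potential
  obtain ⟨ft, hft⟩ : ∃ ft : (Fin (r + 2) → ℝ) → ℝ → ℝ, ft = fun x t => D.val x t + F (x, t) := ⟨_, rfl⟩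
  have hDs : ContDiff ℝ k (fun q : Z (r + 2) => D.val q.1 q.2) := (val_smooth D).of_le (by exact_mod_cast le_top)
  have hfts : ContDiff ℝ k (fun q : Z (r + 2) => ft q.1 q.2) := by
    rw [hft]
    exact hDs.add hFs
  have hftp : Periodic ft := fun x t a b => by
    rw [hft]
    have e1 := val_periodic D x t a b
    have e2 := hFp x t a b
    simp only at e2 ⊢
    rw [e1, e2]
  obtain ⟨G, hG⟩ : ∃ G : (Fin (r + 2) → ℝ) → ℝ → ℝ, G = fun x t => ft (mv p' x) t := ⟨_, rfl⟩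
  have hGs : ContDiff ℝ k (fun q : Z (r + 2) => G q.1 q.2) := by
    rw [hG]
    exact hfts.comp (al p').contDiff
  have hGp : Periodic G := by
    rw [hG, hp']
    exact per_comp hftp P'
  have h2k : (2 : WithTop ℕ∞) ≤ k := by exact_mod_cast hk
  have hGs2 : ContDiff ℝ 2 (fun q : Z (r + 2) => G q.1 q.2) := hGs.of_le h2k
  have hfts2 : ContDiff ℝ 2 (fun q : Z (r + 2) => ft q.1 q.2) := hfts.of_le h2k
  have hGft : (fun y t => G (mv p y) t) = ft := by
    funext y t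
    rw [hG]
    show ft (mv p' (mv p y)) t = ft y t
    rw [hpp']
  have hgr : ∀ (y : E (r + 2)) (t : ℝ), gr ft y t = mv p.transpose (gr G (mv p y) t) := by
    intro y t
    conv_lhs => rw [← hGft]
    exact gr_comp hGs2 p y t
  -- the path
  have hgd : ∀ t, 0 ≤ t → ∃ Ω : ℝ, 2 * |R| + 2 ≤ Ω ∧ c * t ^ a ≤ Ω ∧
      deriv (fun t => mv p (g t)) t = mv p (deriv g t) ∧ ‖deriv (fun t => mv p (g t)) t - Ω • y‖ ≤ (np * δ) * Ω := by
    intro t ht
    obtain ⟨Ω, w1, w2, w3⟩ := hv t ht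
    have hΩ : 0 < Ω := by have := abs_nonneg R; linarith
    have hne : deriv g t ≠ 0 := by
      intro h0
      rw [h0, zero_sub, norm_neg, norm_smul, Real.norm_eq_abs, abs_of_pos hΩ] at w3
      have h3 : (1 : ℝ) ≤ ‖dirM r M‖ := by
        have h4 := norm_le_pi_norm (dirM r M) 0
        have h5 : dirM r M 0 = 1 := by simp [dirM]
        rw [h5, norm_one] at h4
        exact h4
      nlinarith
    have hdiff : DifferentiableAt ℝ g t := by
      by_contra hcon
      exact hne (deriv_zero_of_not_differentiableAt hcon)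
    have hder : deriv (fun t => mv p (g t)) t = mv p (deriv g t) := (Gq.hasDerivAt_mv p hdiff.hasDerivAt).deriv
    refine ⟨Ω, w1, w2, hder, ?_⟩
    have e2 : Ω • y = mv p (Ω • dirM r M) := by
      rw [hy]
      have := (ml p).map_smul Ω (dirM r M)
      exact this.symm
    rw [hder, e2, Gq.mv_sub]
    refine (Gq.norm_mv_le p _).trans ?_
    rw [← hnp, mul_assoc]
    exact mul_le_mul_of_nonneg_left w3 hnp0
  refine ⟨fun x t => G x t - f₀ x t, fun t => mv p (g t), c / 2, a, ⟨hGs.sub hf₀.1, fun x t a b => ?_⟩, ?_,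
    by positivity, ha, fun t ht => ?_, fun t ht => ?_, fun t ht => ?_, fun t ht => ?_⟩
  · show G _ _ - f₀ _ _ = _
    rw [hGp x t a b, hf₀.2 x t a b]
  · -- closeness
    intro i hi q
    obtain ⟨H, hH⟩ : ∃ H : Z (r + 2) → ℝ, H = fun q => -(h₀ q - D.val q.1 q.2) + F q := ⟨_, rfl⟩
    have e2 : (fun q : Z (r + 2) => (G q.1 q.2 - f₀ q.1 q.2) - f₁ q.1 q.2) = fun q => H (A q) := by
      funext q
      rw [hH, hA, hG, hh0, hft]
      have e3 : (al p') q = (mv p' q.1, q.2) := rfl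
      simp only [e3, hpp]
      ring
    have hHs : ContDiff ℝ k H := by
      rw [hH]
      exact ((hh0s.sub hDs).neg).add hFs
    have e4 : ∀ q, ‖iteratedFDeriv ℝ i H q‖ ≤ e1 + e1 := by
      intro q
      have hi' : ((i : ℕ) : WithTop ℕ∞) ≤ k := by exact_mod_cast hi
      have s1 : ContDiffAt ℝ i (fun q : Z (r + 2) => -(h₀ q - D.val q.1 q.2)) q :=
        (((hh0s.sub hDs).neg).of_le hi').contDiffAt
      have s2 : ContDiffAt ℝ i F q := (hFs.of_le hi').contDiffAt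
      rw [hH, fun_iteratedFDeriv_add_apply s1 s2]
      refine (norm_add_le _ _).trans (add_le_add ?_ (hFb i hi q))
      have e5 : (fun q : Z (r + 2) => -(h₀ q - D.val q.1 q.2)) = -(fun q : Z (r + 2) => h₀ q - D.val q.1 q.2) := rfl
      rw [e5, iteratedFDeriv_neg_apply, norm_neg]
      exact hD i hi q
    show ‖iteratedFDeriv ℝ i (fun q : Z (r + 2) => (G q.1 q.2 - f₀ q.1 q.2) - f₁ q.1 q.2) q‖ ≤ ε
    rw [e2]
    refine (iter_comp hHs A hi q).trans ?_
    have e6 : (e1 + e1) * K = ε := by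
      rw [he1]; field_simp; ring
    rw [← e6]
    exact mul_le_mul (e4 _) (hKi i hi) (by positivity) (by positivity)
  · -- the speed
    obtain ⟨Ω, w1, w2, w3, w4⟩ := hgd t ht
    have hΩ : 0 < Ω := by have := abs_nonneg R; linarith
    have h3 := (dir_close hΩ hδ1 hy1 w4).1
    linarith
  · obtain ⟨Ω, w1, w2, w3, w4⟩ := hgd t ht
    have hΩ : 0 < Ω := by have := abs_nonneg R; linarith
    have h3 := (dir_close hΩ hδ1 hy1 w4).1
    have := le_abs_self R
    linarith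
  · obtain ⟨Ω, w1, w2, w3, w4⟩ := hgd t ht
    have hΩ : 0 < Ω := by have := abs_nonneg R; linarith
    have h3 := (dir_close hΩ hδ1 hy1 w4).2
    have e2 : (‖deriv (fun t => mv p (g t)) t‖⁻¹) • deriv (fun t => mv p (g t)) t - (‖u‖⁻¹) • u =
        ((‖deriv (fun t => mv p (g t)) t‖⁻¹) • deriv (fun t => mv p (g t)) t - (‖y‖⁻¹) • y) +
        ((‖y‖⁻¹) • y - (‖u‖⁻¹) • u) := by abel
    rw [e2]
    refine (norm_add_le _ _).trans ?_
    linarith
  · -- the Euler-Lagrange equations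
    have hN := fun s (hs : 0 < s) => (Gq.el_B hb1t hbq1 hfts2).1 g s (by rw [hft]; exact hE s hs)
    have hnew : ∀ s, 0 < s → HasDerivAt (fun t => mv p (g t)) (mv p (deriv g s)) s ∧
        HasDerivAt (fun s => mv p (deriv g s)) (mv Q (gr G (mv p (g s)) s)) s := by
      intro s hs
      obtain ⟨n1, n2⟩ := hN s hs
      refine ⟨Gq.hasDerivAt_mv p n1, ?_⟩
      have n3 := Gq.hasDerivAt_mv p n2
      have e2 : mv p (mv q1 (gr ft (g s) s)) = mv Q (gr G (mv p (g s)) s) := by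
        rw [hgr, ← hq, mv_eq, mv_eq, mv_eq, mv_eq, Matrix.mulVec_mulVec, Matrix.mulVec_mulVec]
        congr 1
        have e3 : p * q1 * p.transpose = (p * p') * q * (p * p').transpose := by
          rw [hq1, Matrix.transpose_mul]
          simp only [Matrix.mul_assoc]
        rw [e3, h1, Matrix.transpose_one, Matrix.one_mul, Matrix.mul_one]
      rw [e2] at n3
      exact n3
    have hpos : ∀ᶠ s in 𝓝 t, 0 < s := lt_mem_nhds ht
    have hEG : EulerLagrange (LagB B G) (fun t => mv p (g t)) t := by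
      refine (Gq.el_B hB hBQ hGs2).2 (fun t => mv p (g t)) (fun s => mv p (deriv g s)) t ?_ (hnew t ht).2
      filter_upwards [hpos] with s hs using (hnew s hs).1
    refine loc (L' := LagB B G) (R := R) (fun x v t hv => ?_) ?_ hEG
    · rw [hL x v t hv]
      simp only [LagB]
      ring
    · filter_upwards [hpos] with s hs
      obtain ⟨Ω, w1, w2, w3, w4⟩ := hgd s hs.le
      have hΩ : 0 < Ω := by have := abs_nonneg R; linarith
      have h3 := (dir_close hΩ hδ1 hy1 w4).1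
      have := le_abs_self R
      linarith

end Pool.Agent.K9h32.HJ
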