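import Pool.Agent.K9h32.HJ.StmB

/-!
# Density in all dimensions, for all flat metrics: statements of the leaves

`Q` is the inverse of the matrix of the metric.
-/

set_option autoImplicit false

open Set Filter Topology
open scoped ContDiff

noncomputable section

namespace Pool.Agent.K9h32.HJ

open Pool.Agent.N980.TL

/-- Leaf ITERQ: approximate solutions of the Hamilton-Jacobi equation
`∂_t w + v·∂_x w + ⟨Q ∂_x w, ∂_x w⟩/2 = D + c(v) + e`, with `e` of any order in `1/|v|` -/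
def S_ITERQ : Prop :=
  ∀ (n N : ℕ) (D : Trig n N) (Q : Fin n → Fin n → ℝ) (_ : ∀ i j, Q i j = Q j i) (p : ℕ),
    ∃ (w c e : List (Atom n)) (𝓕 : List ((Fin n → ℤ) × ℤ)),
    (∀ f ∈ 𝓕, f.1 ≠ 0) ∧
    (∀ a ∈ w, ∀ f ∈ a.F, f ∈ 𝓕) ∧ (∀ a ∈ c, ∀ f ∈ a.F, f ∈ 𝓕) ∧ (∀ a ∈ e, ∀ f ∈ a.F, f ∈ 𝓕) ∧
    (∀ a ∈ w, a.k ≠ 0 → 1 ≤ a.F.length) ∧ (∀ a ∈ c, a.k = 0 ∧ a.m = 0) ∧ (∀ a ∈ e, p ≤ a.F.length) ∧
    ∀ v : E n, (∀ f ∈ 𝓕, fac f v ≠ 0) → ∀ (x : E n) (t : ℝ),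
      ev (dt w) x v t + ∑ i, v i * ev (dx i w) x v t +
        (∑ i, ∑ j, Q i j * (ev (dx i w) x v t * ev (dx j w) x v t)) / 2 =
        D.val x t + ev c x v t + ev e x v t

/-- Leaf VELQ: the cone of nonresonant velocities, and the velocities `v` with prescribed frequency vector
`v + Q ∂_v c(v) = Ω e + u e_1`, `e = (1, M, M^2, …)` -/
def S_VELQ : Prop :=
  ∀ (r : ℕ) (Q : Fin (r + 2) → Fin (r + 2) → ℝ) (𝓕 : List ((Fin (r + 2) → ℤ) × ℤ)) (c : List (Atom (r + 2))),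
    (∀ f ∈ 𝓕, f.1 ≠ 0) → InF 𝓕 c → ∃ M : ℕ, 1 ≤ M ∧ ∃ V0 : ℝ, 1 ≤ V0 ∧ ∀ V : ℝ, V0 ≤ V →
      (∀ (Ω : ℝ) (v : E (r + 2)), V ≤ Ω → ‖v - Ω • dirM r M‖ ≤ 3 → NRs 𝓕 (1 / 2) V v) ∧
      (∀ Ω u : ℝ, V ≤ Ω → 0 ≤ u → u ≤ 1 → ∃ v : E (r + 2), ‖v - Ω • dirM r M‖ ≤ 3 ∧
        ∀ i, v i + ∑ j, Q i j * ev (dv j c) 0 v 0 =
          Ω * (M : ℝ) ^ (i : ℕ) + u * (Pi.single 1 1 : E (r + 2)) i) ∧
      ∀ (Ω u Ω' u' : ℝ) (v v' : E (r + 2)), V ≤ Ω → V ≤ Ω' → ‖v - Ω • dirM r M‖ ≤ 3 →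
        ‖v' - Ω' • dirM r M‖ ≤ 3 →
        (∀ i, v i + ∑ j, Q i j * ev (dv j c) 0 v 0 =
          Ω * (M : ℝ) ^ (i : ℕ) + u * (Pi.single 1 1 : E (r + 2)) i) →
        (∀ i, v' i + ∑ j, Q i j * ev (dv j c) 0 v' 0 =
          Ω' * (M : ℝ) ^ (i : ℕ) + u' * (Pi.single 1 1 : E (r + 2)) i) →
        (∀ τ ∈ Icc (0 : ℝ) 1, NRs 𝓕 (1 / 2) V (fun i => v i + τ * (v' i - v i))) ∧
        ‖v' - v‖ ≤ 2 * (|Ω' - Ω| * (M : ℝ) ^ (r + 1) + |u' - u|)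

end Pool.Agent.K9h32.HJ
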