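import Pool.Agent.K9h32.HJ.Iter
import Pool.Agent.K9h32.HJ.StmQ

/-!
# Leaf ITERQ: approximate solutions of the Hamilton-Jacobi equation for flat metrics
-/

set_option autoImplicit false

noncomputable section

namespace Pool.Agent.K9h32.HJ

open Pool.Agent.N980.TL

namespace It

section
variable {n : ℕ}

/-- the quadratic form `∑ Q_ij a_i b_j` of two lists of coordinates -/
def qf (Q : Fin n → Fin n → ℝ) (a b : Fin n → List (Atom n)) : List (Atom n) :=
  sumL fun i => sumL fun j => scl (Q i j) (mulL (a i) (b j))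

theorem ev_qf (Q : Fin n → Fin n → ℝ) (a b : Fin n → List (Atom n)) (x v : E n) (t : ℝ) :
    ev (qf Q a b) x v t = ∑ i, ∑ j, Q i j * (ev (a i) x v t * ev (b j) x v t) := by
  simp only [qf, ev_sumL, ev_scl, ev_mulL]

theorem mem_qf {Q : Fin n → Fin n → ℝ} {a b : Fin n → List (Atom n)} {z : Atom n} (h : z ∈ qf Q a b) :
    ∃ i j, ∃ y ∈ a i, ∃ y' ∈ b j, z.F = y.F ++ y'.F := by
  rw [qf, mem_sumL] at h
  obtain ⟨i, h⟩ := h
  rw [mem_sumL] at h
  obtain ⟨j, h⟩ := h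
  obtain ⟨y, hy, e, -, -⟩ := mem_scl h
  obtain ⟨b1, hb1, b2, hb2, e'⟩ := mem_mulL hy
  exact ⟨i, j, b1, hb1, b2, hb2, by rw [e, e']⟩

/-- the state of the iteration -/
def StateQ {N : ℕ} (D : Trig n N) (Q : Fin n → Fin n → ℝ) (p : ℕ) (w c e : List (Atom n))
    (𝓕 : List ((Fin n → ℤ) × ℤ)) : Prop :=
  (∀ f ∈ 𝓕, f.1 ≠ 0) ∧
    (∀ a ∈ w, ∀ f ∈ a.F, f ∈ 𝓕) ∧ (∀ a ∈ c, ∀ f ∈ a.F, f ∈ 𝓕) ∧ (∀ a ∈ e, ∀ f ∈ a.F, f ∈ 𝓕) ∧
    (∀ a ∈ w, a.k ≠ 0 → 1 ≤ a.F.length) ∧ (∀ a ∈ c, a.k = 0 ∧ a.m = 0) ∧ (∀ a ∈ e, p ≤ a.F.length) ∧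
    ∀ v : E n, (∀ f ∈ 𝓕, fac f v ≠ 0) → ∀ (x : E n) (t : ℝ),
      TT w x v t + (∑ i, ∑ j, Q i j * (ev (dx i w) x v t * ev (dx j w) x v t)) / 2 =
        D.val x t + ev c x v t + ev e x v t

theorem stateQ_zero {N : ℕ} (D : Trig n N) (Q : Fin n → Fin n → ℝ) :
    StateQ D Q 0 [] [] (scl (-1) (atoms D)) [] := by
  refine ⟨by simp, by simp, by simp, ?_, by simp, by simp, by simp, ?_⟩
  · intro a ha f hf
    obtain ⟨b, hb, e, -, -⟩ := mem_scl ha
    rw [atoms, List.mem_map] at hb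
    obtain ⟨μ, -, rfl⟩ := hb
    rw [e] at hf
    exact absurd hf (List.not_mem_nil)
  · intro v _ x t
    rw [TT_nil, ev_scl, ev_atoms, ev_nil]
    have h : ∀ i : Fin n, ev (dx i ([] : List (Atom n))) x v t = 0 := fun i => by simp [dx, ev]
    simp [h]

open Classical in
theorem stateQ_step {N : ℕ} (D : Trig n N) (Q : Fin n → Fin n → ℝ) (hQ : ∀ i j, Q i j = Q j i) (p : ℕ)
    {w c e : List (Atom n)} {𝓕 : List ((Fin n → ℤ) × ℤ)}
    (H : StateQ D Q p w c e 𝓕) : ∃ (w' c' e' : List (Atom n)) (𝓕' : List ((Fin n → ℤ) × ℤ)),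
      StateQ D Q (p + 1) w' c' e' 𝓕' := by
  obtain ⟨h1, h2, h3, h4, h5, h6, h7, h8⟩ := H
  set e0 := e.filter fun a => a.k = 0 ∧ a.m = 0 with he0
  set e1 := e.filter fun a => ¬ (a.k = 0 ∧ a.m = 0) with he1
  have m0 : ∀ a ∈ e0, a ∈ e ∧ a.k = 0 ∧ a.m = 0 := by
    intro a ha
    rw [he0, List.mem_filter] at ha
    exact ⟨ha.1, by simpa using ha.2⟩
  have m1 : ∀ a ∈ e1, a ∈ e ∧ (a.k ≠ 0 ∨ a.m ≠ 0) := by
    intro a ha
    rw [he1, List.mem_filter] at ha
    refine ⟨ha.1, ?_⟩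
    have h := of_decide_eq_true ha.2
    exact not_and_or.1 h
  set h := e1.map invA with hh
  set G := (e1.filter fun a => a.k ≠ 0).map fun a => (a.k, a.m) with hG
  have mG : ∀ a ∈ e1, a.k ≠ 0 → (a.k, a.m) ∈ G := by
    intro a ha h0
    rw [hG, List.mem_map]
    exact ⟨a, List.mem_filter.2 ⟨ha, by simpa using h0⟩, rfl⟩
  have mh : ∀ b ∈ h, (∀ f ∈ b.F, f ∈ 𝓕 ++ G) ∧ (b.k ≠ 0 → p + 1 ≤ b.F.length) := by
    intro b hb
    rw [hh, List.mem_map] at hb
    obtain ⟨a, ha, rfl⟩ := hb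
    by_cases h0 : a.k = 0
    · refine ⟨fun f hf => ?_, fun h' => absurd (by rw [invA_k, h0]) h'⟩
      rw [invA_F_zero h0] at hf
      exact List.mem_append_left _ (h4 a (m1 a ha).1 f hf)
    · rw [invA_F h0]
      refine ⟨fun f hf => ?_, fun _ => ?_⟩
      · rw [List.mem_cons] at hf
        rcases hf with rfl | hf
        · exact List.mem_append_right _ (mG a ha h0)
        · exact List.mem_append_left _ (h4 a (m1 a ha).1 f hf)
      · rw [List.length_cons]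
        have := h7 a (m1 a ha).1
        omega
  refine ⟨w ++ scl (-1) h, c ++ e0,
    scl (-1) (qf Q (fun i => dx i w) fun j => dx j h) ++ scl (1 / 2) (qf Q (fun i => dx i h) fun j => dx j h),
    𝓕 ++ G, ?_, ?_, ?_, ?_, ?_, ?_, ?_, ?_⟩
  · intro f hf
    rw [List.mem_append] at hf
    rcases hf with hf | hf
    · exact h1 f hf
    · rw [hG, List.mem_map] at hf
      obtain ⟨a, ha, rfl⟩ := hf
      have := (List.mem_filter.1 ha).2
      simpa using this
  · intro a ha f hf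
    rw [List.mem_append] at ha
    rcases ha with ha | ha
    · exact List.mem_append_left _ (h2 a ha f hf)
    · obtain ⟨b, hb, e, -, -⟩ := mem_scl ha
      rw [e] at hf
      exact (mh b hb).1 f hf
  · intro a ha f hf
    rw [List.mem_append] at ha
    rcases ha with ha | ha
    · exact List.mem_append_left _ (h3 a ha f hf)
    · exact List.mem_append_left _ (h4 a (m0 a ha).1 f hf)
  · intro a ha f hf
    rw [List.mem_append] at ha
    rcases ha with ha | ha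
    · obtain ⟨b, hb, e, -, -⟩ := mem_scl ha
      obtain ⟨i, j, b1, hb1, b2, hb2, e'⟩ := mem_qf hb
      obtain ⟨c1, hc1, -, e1'⟩ := mem_dx hb1
      obtain ⟨c2, hc2, -, e2'⟩ := mem_dx hb2
      rw [e, e', e1', e2', List.mem_append] at hf
      rcases hf with hf | hf
      · exact List.mem_append_left _ (h2 c1 hc1 f hf)
      · exact (mh c2 hc2).1 f hf
    · obtain ⟨b, hb, e, -, -⟩ := mem_scl ha
      obtain ⟨i, j, b1, hb1, b2, hb2, e'⟩ := mem_qf hb
      obtain ⟨c1, hc1, -, e1'⟩ := mem_dx hb1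
      obtain ⟨c2, hc2, -, e2'⟩ := mem_dx hb2
      rw [e, e', e1', e2', List.mem_append] at hf
      rcases hf with hf | hf
      · exact (mh c1 hc1).1 f hf
      · exact (mh c2 hc2).1 f hf
  · intro a ha hk
    rw [List.mem_append] at ha
    rcases ha with ha | ha
    · exact h5 a ha hk
    · obtain ⟨b, hb, e, e2, -⟩ := mem_scl ha
      rw [e]
      rw [e2] at hk
      have := (mh b hb).2 hk
      omega
  · intro a ha
    rw [List.mem_append] at ha
    rcases ha with ha | ha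
    · exact h6 a ha
    · exact (m0 a ha).2
  · intro a ha
    rw [List.mem_append] at ha
    rcases ha with ha | ha
    · obtain ⟨b, hb, e, -, -⟩ := mem_scl ha
      obtain ⟨i, j, b1, hb1, b2, hb2, e'⟩ := mem_qf hb
      obtain ⟨c1, hc1, hk1, e1'⟩ := mem_dx hb1
      obtain ⟨c2, hc2, hk2, e2'⟩ := mem_dx hb2
      rw [e, e', e1', e2', List.length_append]
      have := h5 c1 hc1 hk1
      have := (mh c2 hc2).2 hk2
      omega
    · obtain ⟨b, hb, e, -, -⟩ := mem_scl ha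
      obtain ⟨i, j, b1, hb1, b2, hb2, e'⟩ := mem_qf hb
      obtain ⟨c1, hc1, hk1, e1'⟩ := mem_dx hb1
      obtain ⟨c2, hc2, hk2, e2'⟩ := mem_dx hb2
      rw [e, e', e1', e2', List.length_append]
      have := (mh c1 hc1).2 hk1
      have := (mh c2 hc2).2 hk2
      omega
  · intro v hv x t
    have hv1 : ∀ f ∈ 𝓕, fac f v ≠ 0 := fun f hf => hv f (List.mem_append_left _ hf)
    have hv2 : ∀ a ∈ e1, a.k ≠ 0 → fac (a.k, a.m) v ≠ 0 := fun a ha h0 =>
      hv _ (List.mem_append_right _ (mG a ha h0))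
    have k1 := h8 v hv1 x t
    have k2 : TT h x v t = ev e1 x v t := TT_inv e1 x v t (fun a ha => (m1 a ha).2) hv2
    have k3 := ev_split e x v t
    rw [← he0, ← he1] at k3
    rw [TT_append, TT_scl, k2, ev_append, ev_append, ev_scl, ev_scl, ev_qf, ev_qf]
    simp only [dx_append, ev_append, ev_dx_scl]
    obtain ⟨W, hW⟩ : ∃ W : Fin n → ℝ, W = fun i => ev (dx i w) x v t := ⟨_, rfl⟩
    obtain ⟨U, hU⟩ : ∃ U : Fin n → ℝ, U = fun i => ev (dx i h) x v t := ⟨_, rfl⟩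
    have hW' : ∀ i, ev (dx i w) x v t = W i := fun i => by rw [hW]
    have hU' : ∀ i, ev (dx i h) x v t = U i := fun i => by rw [hU]
    simp only [hW'] at k1
    simp only [hW', hU']
    have k5 : ∑ i, ∑ j, Q i j * (U i * W j) = ∑ i, ∑ j, Q i j * (W i * U j) := by
      rw [Finset.sum_comm]
      refine Finset.sum_congr rfl fun i _ => Finset.sum_congr rfl fun j _ => ?_
      rw [hQ j i]
      ring
    have k4 : ∑ i, ∑ j, Q i j * ((W i + -1 * U i) * (W j + -1 * U j)) =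
        (∑ i, ∑ j, Q i j * (W i * W j)) - (∑ i, ∑ j, Q i j * (W i * U j)) -
          (∑ i, ∑ j, Q i j * (U i * W j)) + ∑ i, ∑ j, Q i j * (U i * U j) := by
      simp only [← Finset.sum_sub_distrib, ← Finset.sum_add_distrib]
      exact Finset.sum_congr rfl fun i _ => Finset.sum_congr rfl fun j _ => by ring
    rw [k4, k5]
    rw [k3] at k1
    linarith

theorem stateQ_exists {N : ℕ} (D : Trig n N) (Q : Fin n → Fin n → ℝ) (hQ : ∀ i j, Q i j = Q j i) (p : ℕ) :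
    ∃ (w c e : List (Atom n)) (𝓕 : List ((Fin n → ℤ) × ℤ)), StateQ D Q p w c e 𝓕 := by
  induction p with
  | zero => exact ⟨_, _, _, _, stateQ_zero D Q⟩
  | succ p ih =>
    obtain ⟨w, c, e, 𝓕, h⟩ := ih
    exact stateQ_step D Q hQ p h

end

end It

theorem iterq_all : S_ITERQ := by
  intro n N D Q hQ p
  obtain ⟨w, c, e, 𝓕, h⟩ := It.stateQ_exists D Q hQ p
  exact ⟨w, c, e, 𝓕, h⟩

end Pool.Agent.K9h32.HJ
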