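import Pool.Agent.K9h32.HJ.Prep

/-!
# Density of the potentials with escaping orbits, all dimensions, all flat metrics
-/

set_option autoImplicit false

open Set Filter Topology
open scoped ContDiff

noncomputable section

namespace Pool.Agent.K9h32.HJ.Qm

open Pool.Agent.N980.TL (E Z Trig S_FN S_BND3 S_PER3 S_SUM S_UU tp th et kap Cls Hg chA chB chA_smooth chB_smooth
  chA_zero chB_zero pathG pathG_hasDerivAt grad_time val_hasDerivAt hasDerivAt_upd EulerLagrange Periodic uu ww ClsLeaf.diff)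
open Pool.Agent.K9h32.HJ

theorem dirM_norm {r M : ℕ} (hM : 1 ≤ M) : ‖dirM r M‖ ≤ (M : ℝ) ^ (r + 1) := by
  have hM' : (1 : ℝ) ≤ M := by exact_mod_cast hM
  rw [pi_norm_le_iff_of_nonneg (by positivity)]
  intro i
  show ‖(M : ℝ) ^ (i : ℕ)‖ ≤ _
  rw [Real.norm_eq_abs, abs_of_nonneg (by positivity)]
  exact pow_le_pow_right₀ hM' (by have := i.isLt; omega)

theorem th_le (hf : S_FN) {σ : ℝ} (h0 : -1 ≤ σ) (h1 : σ ≤ 1) : |th σ| ≤ 1 := by
  obtain ⟨-, -, -, -, hth, -, h01, h0', -⟩ := hf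
  have hz : th 0 = 0 := (h0' 0 (by norm_num)).1
  have h := Convex.norm_image_sub_le_of_norm_hasDerivWithin_le (f := th) (f' := tp) (s := univ) (C := 1)
    (fun x _ => (hth x).hasDerivWithinAt) (fun x _ => by
      rw [Real.norm_eq_abs, abs_of_nonneg (h01 x).1]; exact (h01 x).2) convex_univ (mem_univ 0) (mem_univ σ)
  rw [hz, sub_zero, sub_zero, one_mul, Real.norm_eq_abs, Real.norm_eq_abs] at h
  exact h.trans (abs_le.2 ⟨h0, h1⟩)

theorem mainQ (hf : S_FN) (hBND : S_BND3) (hPer : S_PER3) (hSum : S_SUM) (hUU : S_UU) (hSeq : S_SEQX)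
    (hSep : S_SEPX) (hIter : S_ITERQ) (hVel : S_VELQ) (r N0 : ℕ) (D : Trig (r + 2) N0)
    (B Q : Fin (r + 2) → Fin (r + 2) → ℝ) (hQs : ∀ i j, Q i j = Q j i) (hBs : ∀ i j, B i j = B j i)
    (hBQ : ∀ i k, ∑ j, B i j * Q j k = if i = k then 1 else 0) (ε : ℝ) (hε : 0 < ε) (R : ℝ)
    (L : (Fin (r + 2) → ℝ) → (Fin (r + 2) → ℝ) → ℝ → ℝ) (hL : ∀ x v t, R ≤ ‖v‖ → L x v t = quad B v) :
    ∃ (F : Z (r + 2) → ℝ) (γ : ℝ → Fin (r + 2) → ℝ),
      ContDiff ℝ 2 F ∧ Periodic (fun x t => F (x, t)) ∧ (∀ i ≤ 2, ∀ q, ‖iteratedFDeriv ℝ i F q‖ ≤ ε) ∧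
      (∃ c > 0, ∀ t, 0 ≤ t → c * t ^ (1 / 20 : ℝ) ≤ ‖deriv γ t‖) ∧
      ∀ t, 0 < t → EulerLagrange (fun x v t => L x v t + (D.val x t + F (x, t))) γ t := by
  classical
  have hfn := hf
  obtain ⟨w, c, e, 𝓕, g1, g2, g3, g4, g5, g6, g7, g8⟩ := hIter (r + 2) N0 D Q hQs 24
  have S : SolQ D Q 24 w c e 𝓕 := ⟨hQs, g1, g2, g3, g4, g5, g6, g7, g8⟩
  obtain ⟨M, hM1, V0, hV01, hvel⟩ := hVel r Q 𝓕 c S.f1 S.fc
  have hM1' : (1 : ℝ) ≤ M := by exact_mod_cast hM1
  obtain ⟨Mr, hMr⟩ : ∃ Mr : ℝ, Mr = (M : ℝ) ^ (r + 1) := ⟨_, rfl⟩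
  have hMr1 : 1 ≤ Mr := by rw [hMr]; exact one_le_pow₀ hM1'
  have hhalf : (0 : ℝ) < 1 / 2 := by norm_num
  obtain ⟨Cs, hCs1, hstep⟩ := step hf S hBQ hhalf (31 * Mr + 3) (by positivity)
  have l1 := fun m => ev_lip (dv m w) 𝓕 hhalf 2 (dv_InF S.fw m) (dv_Ord2 w m)
  choose cl hcl l1 using l1
  obtain ⟨CL, hCL⟩ : ∃ CL, CL = ∑ m, cl m := ⟨_, rfl⟩
  have hCL0 : 0 ≤ CL := by rw [hCL]; exact Finset.sum_nonneg fun m _ => hcl m
  have hclm : ∀ m, cl m ≤ CL := fun m => by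
    rw [hCL]; exact Finset.single_le_sum (fun m _ => hcl m) (Finset.mem_univ m)
  have l2 := fun m => ev_lip (dv m c) 𝓕 hhalf 2 (dv_InF S.fc m) (dv_Ord2 c m)
  choose cc hcc l2 using l2
  obtain ⟨CC, hCC⟩ : ∃ CC, CC = ∑ m, cc m := ⟨_, rfl⟩
  have hCC0 : 0 ≤ CC := by rw [hCC]; exact Finset.sum_nonneg fun m _ => hcc m
  have hccm : ∀ m, cc m ≤ CC := fun m => by
    rw [hCC]; exact Finset.single_le_sum (fun m _ => hcc m) (Finset.mem_univ m)
  have hq0 := qn_nonneg Q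
  obtain ⟨CA, hCA1, hBA⟩ := hBND (r + 2) chA Cs chA_smooth (by
    intro s hs
    have hs' : s < 1 / 8 ∨ 7 / 8 < s := by
      by_contra hc
      push Not at hc
      exact hs ⟨by linarith [hc.1], by linarith [hc.2]⟩
    rcases hs' with h | h
    · filter_upwards [gt_mem_nhds h] with s' hs'
      exact chA_zero (Or.inl hs'.le)
    · filter_upwards [lt_mem_nhds h] with s' hs'
      exact chA_zero (Or.inr hs'.le))
  obtain ⟨CB, hCB1, hBB⟩ := hBND (r + 2) chB Cs chB_smooth (by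
    intro s hs
    have hs' : s < -(1 / 4) ∨ 1 / 4 < s := by
      by_contra hc
      push Not at hc
      exact hs ⟨by linarith [hc.1], by linarith [hc.2]⟩
    rcases hs' with h | h
    · filter_upwards [gt_mem_nhds h] with s' hs'
      exact chB_zero (Or.inl hs'.le)
    · filter_upwards [lt_mem_nhds h] with s' hs'
      exact chB_zero (Or.inr hs'.le))
  -- constants
  obtain ⟨KA, hKA⟩ : ∃ KA, KA = 2 * (Mr + 1) := ⟨_, rfl⟩
  have hKA1 : 1 ≤ KA := by rw [hKA]; linarith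
  obtain ⟨CX, hCX⟩ : ∃ CX, CX = (1 + M) * (1 + qn Q * CL) + (KA + Cs * (KA + 1)) := ⟨_, rfl⟩
  obtain ⟨K5, hK5⟩ : ∃ K5, K5 = (1 + M) * (Cs * (KA + 1)) + 1 + (1 + M) * (qn Q * (CC * KA)) +
    (1 + M) * (qn Q * (CL * (2 * KA))) := ⟨_, rfl⟩
  obtain ⟨K, hK⟩ : ∃ K, K = max CA CB := ⟨_, rfl⟩
  have hK1 : 1 ≤ K := by rw [hK]; exact hCA1.trans (le_max_left _ _)
  have hqq1 := Sx.one_lt_qq
  have hqq0 : 0 < qq := by linarith
  obtain ⟨BB, hBBd⟩ : ∃ BB : ℕ → ℝ, BB = fun l => K * (Cs * (KA + 1)) * (1 / qq) ^ l := ⟨_, rfl⟩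
  have hBB0 : ∀ l, 0 ≤ BB l := fun l => by rw [hBBd]; positivity
  have hBBs : Summable BB := by
    rw [hBBd]
    refine (summable_geometric_of_lt_one (by positivity) ?_).mul_left _
    rw [div_lt_one hqq0]; exact hqq1
  -- the choice of the first block
  obtain ⟨La, hLa⟩ := hSeq
  obtain ⟨Lb, hLb⟩ := hSep CX
  obtain ⟨Lc, hLc⟩ := uu_facts hUU K5
  obtain ⟨Ld, hLd⟩ := Sx.large (V0 + KA + 2 * (4 + Cs) + 2 * |R| + 1)
  obtain ⟨Le, hLe⟩ := eventually_atTop.1 ((tendsto_sum_nat_add BB).eventually_le_const (half_pos hε))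
  obtain ⟨l0, hl0⟩ : ∃ l0, l0 = La + Lb + Lc + Ld + Le := ⟨_, rfl⟩
  have hl0a : La ≤ l0 := by omega
  have hl0b : Lb ≤ l0 := by omega
  have hl0c : Lc ≤ l0 := by omega
  have hl0d : Ld ≤ l0 := by omega
  have hl0e : Le ≤ l0 := by omega
  obtain ⟨j0, hj0⟩ : ∃ j0, j0 = 2 ^ l0 := ⟨_, rfl⟩
  obtain ⟨Ω, hΩ0, hΩ⟩ := om_exists j0
  have hseq := hLa l0 hl0a Ω (by rw [← hj0]; exact hΩ0) (by rw [← hj0]; exact hΩ)
  have huu := hLc l0 hl0c
  rw [← hj0] at hseq huu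
  have hθ1 : ∀ j, 1 ≤ tht j := Sx.one_le_tht
  have hθ0 : ∀ j, 0 < tht j := fun j => by linarith [hθ1 j]
  have hj0pos : 1 ≤ j0 := by rw [hj0]; exact Nat.one_le_two_pow
  have hlogle : ∀ j, j0 ≤ j → l0 ≤ Nat.log 2 j := fun j hj => by
    have hj0' : j ≠ 0 := by omega
    exact (Nat.le_log_iff_pow_le (by norm_num) hj0').2 (by rw [← hj0]; exact hj)
  have hbig : ∀ j, j0 ≤ j → V0 + KA + 2 * (4 + Cs) + 2 * |R| + 1 ≤ tht j := fun j hj => by
    have h1 := hLd (Nat.log 2 j) (hl0d.trans (hlogle j hj))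
    have h2 : (1 : ℝ) ≤ ((Nat.log 2 j : ℝ) + 3) ^ 2 := by
      have : (0 : ℝ) ≤ (Nat.log 2 j : ℝ) := Nat.cast_nonneg _
      nlinarith
    have h3 : 0 ≤ V0 + KA + 2 * (4 + Cs) + 2 * |R| + 1 := by positivity
    have h4 : tht j = qq ^ Nat.log 2 j := rfl
    rw [h4]
    nlinarith
  have h5le : ∀ j, tht j ≤ tht j ^ 5 := fun j => le_self_pow₀ (hθ1 j) (by norm_num)
  have hV0le : ∀ j, j0 ≤ j → V0 ≤ tht j ^ 5 := fun j hj => by
    have := hbig j hj
    have h2 : 0 ≤ KA + 2 * (4 + Cs) + 2 * |R| + 1 := by positivity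
    linarith [h5le j]
  have hV1 : ∀ j, 1 ≤ tht j ^ 5 := fun j => one_le_pow₀ (hθ1 j)
  have hmonoV : ∀ i j, i ≤ j → tht i ^ 5 ≤ tht j ^ 5 := fun i j hij =>
    pow_le_pow_left₀ (hθ0 i).le (Sx.tht_mono hij) 5
  -- the velocities
  have hex : ∀ j, ∃ v : E (r + 2), j0 ≤ j → (‖v - Ω j • dirM r M‖ ≤ 3 ∧
      ∀ i, v i + ∑ k, Q i k * ev (dv k c) 0 v 0 =
          Ω j * (M : ℝ) ^ (i : ℕ) + uu (1 / 64) j * (Pi.single 1 1 : E (r + 2)) i) := by
    intro j
    by_cases hj : j0 ≤ j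
    · obtain ⟨v, hv1, hv2⟩ := (hvel (tht j ^ 5) (hV0le j hj)).2.1 (Ω j) (uu (1 / 64) j) (hseq j hj).1
        (huu j hj).1 (huu j hj).2.1
      exact ⟨v, fun _ => ⟨hv1, hv2⟩⟩
    · exact ⟨0, fun h => absurd h hj⟩
  choose vt hvt using hex
  obtain ⟨vv, hvv⟩ : ∃ vv : ℕ → E (r + 2), vv = fun j => vt (max j j0) := ⟨_, rfl⟩
  have hvvj : ∀ j, j0 ≤ j → vv j = vt j := fun j hj => by rw [hvv]; simp only [max_eq_left hj]
  have hcone : ∀ j, j0 ≤ j → ∀ v, InC r M (tht j ^ 5) v → NRs 𝓕 (1 / 2) (tht j ^ 5) v := by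
    rintro j hj v ⟨Ω', h1, h2⟩
    exact (hvel (tht j ^ 5) (hV0le j hj)).1 Ω' v h1 h2
  have hIn : ∀ j, j0 ≤ j → InC r M (tht j ^ 5) (vv j) := fun j hj =>
    ⟨Ω j, (hseq j hj).1, by rw [hvvj j hj]; exact (hvt j hj).1⟩
  have hIn' : ∀ i j, j0 ≤ i → i ≤ j → InC r M (tht i ^ 5) (vv j) := fun i j hi hij =>
    (hIn j (hi.trans hij)).mono (hmonoV i j hij)
  have hIn0 : ∀ j, InC r M (tht j0 ^ 5) (vv j) := fun j => by
    by_cases hj : j0 ≤ j
    · exact hIn' j0 j le_rfl hj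
    · have : vv j = vv j0 := by
        rw [hvv]; simp only [max_eq_right (not_le.1 hj).le, max_self]
      rw [this]; exact hIn' j0 j0 le_rfl le_rfl
  have hnr0 : ∀ j s, NRs 𝓕 (1 / 2) (tht j0 ^ 5) (vs (vv j) (vv (j + 1)) s) := fun j s =>
    hcone j0 le_rfl _ ((hIn0 j).vs hf (hIn0 (j + 1)) s)
  obtain ⟨G, hGs, hGd, hglue⟩ := path_exists hf Q hhalf S.fw (hV1 j0) vv hnr0
  have hGsi : ∀ j i, ContDiff ℝ ∞ (fun s => G j s i) := fun j i => (contDiff_apply ℝ ℝ i).comp (hGs j)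
  -- the differences of the velocities
  have hdiff : ∀ j, j0 ≤ j → ‖vv (j + 1) - vv j‖ ≤ KA * ac (tht j) (Ω j) := by
    intro j hj
    have h1 := hvt j hj
    have h2 := hvt (j + 1) (by omega)
    have h3 : tht j ^ 5 ≤ Ω (j + 1) := (hmonoV j (j + 1) (by omega)).trans (hseq (j + 1) (by omega)).1
    have h4 := ((hvel (tht j ^ 5) (hV0le j hj)).2.2 (Ω j) (uu (1 / 64) j) (Ω (j + 1)) (uu (1 / 64) (j + 1))
      (vt j) (vt (j + 1)) (hseq j hj).1 h3 h1.1 h2.1 h1.2 h2.2).2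
    rw [hvvj j hj, hvvj (j + 1) (by omega)]
    refine h4.trans ?_
    have h5 : |Ω (j + 1) - Ω j| = ac (tht j) (Ω j) := by
      rw [hΩ j hj, add_sub_cancel_left, abs_of_nonneg (Sx.ac_le (hθ1 j)).1]
    have h6 := (huu j hj).2.2.2
    have h7 := (ac_rd (hθ1 j) (Ω j)).2.2.2.2.1
    rw [h5, ← hMr, hKA]
    nlinarith
  have hac0 : ∀ j, 0 ≤ ac (tht j) (Ω j) := fun j => (Sx.ac_le (hθ1 j)).1
  have hA1 : ∀ j, j0 ≤ j → KA * ac (tht j) (Ω j) ≤ 1 := fun j hj => by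
    have h1 := (ac_rd (hθ1 j) (Ω j)).2.2.2.2.2.1
    have h2 : KA ≤ tht j := by
      have := hbig j hj
      have h3 : 0 ≤ V0 + 2 * (4 + Cs) + 2 * |R| + 1 := by positivity
      linarith
    have h3 : 1 / tht j ^ 95 ≤ 1 / tht j := one_div_le_one_div_of_le (hθ0 j) (le_self_pow₀ (hθ1 j) (by norm_num))
    calc KA * ac (tht j) (Ω j) ≤ tht j * (1 / tht j) := by
          have := hac0 j
          have := hθ0 j
          exact mul_le_mul h2 (h1.trans h3) (hac0 j) (hθ0 j).le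
      _ = 1 := by have := (hθ0 j).ne'; field_simp
  have hvn : ∀ j, j0 ≤ j → ‖vv j‖ ≤ (31 * Mr + 3) * tht j ^ 5 := fun j hj => by
    have h1 := (hvt j hj).1
    rw [← hvvj j hj] at h1
    have h2 : ‖vv j‖ ≤ ‖vv j - Ω j • dirM r M‖ + ‖Ω j • dirM r M‖ := by
      have := norm_add_le (vv j - Ω j • dirM r M) (Ω j • dirM r M)
      rwa [sub_add_cancel] at this
    have h3 : ‖Ω j • dirM r M‖ ≤ 31 * tht j ^ 5 * Mr := by
      rw [norm_smul, Real.norm_eq_abs, abs_of_nonneg (by linarith [(hseq j hj).1, hV1 j]), hMr]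
      exact mul_le_mul (hseq j hj).2 (dirM_norm hM1) (norm_nonneg _) (by have := hθ0 j; positivity)
    have h4 : (3 : ℝ) ≤ 3 * tht j ^ 5 := by linarith [hV1 j]
    calc ‖vv j‖ ≤ 3 + 31 * tht j ^ 5 * Mr := by linarith
      _ ≤ _ := by linarith
  -- the estimates of one step
  have hst := fun j (hj : j0 ≤ j) => hstep (tht j ^ 5) (KA * ac (tht j) (Ω j)) (vv j) (vv (j + 1)) (G j) (hV1 j)
    (mul_nonneg (by linarith) (hac0 j)) (hA1 j hj) (hdiff j hj) (hvn j hj)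
    (fun s => hcone j hj _ ((hIn j hj).vs hf (hIn' j (j + 1) hj (by omega)) s)) (hGs j) (hGd j)
  -- the normalized positions
  obtain ⟨nn, hnn⟩ : ∃ nn : ℕ → ℝ → E (r + 2), nn = fun j σ => nrm Q w (vv j) (vv (j + 1)) (G j) σ := ⟨_, rfl⟩
  have hnn0 : ∀ j, nn (j + 1) 0 = nn j 1 := fun j => by
    rw [hnn]
    refine nrm_glue hf Q (vv j) (vv (j + 1)) (vv (j + 1 + 1)) ?_
    have := hglue j 1 (by norm_num) (by norm_num)
    rw [this, sub_self]
  have hacX : ∀ j, KA * ac (tht j) (Ω j) / (tht j ^ 5) ^ 3 + 1 / (tht j ^ 5) ^ 24 ≤ (KA + 1) / tht j ^ 110 := by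
    intro j
    have h1 := (ac_rd (hθ1 j) (Ω j)).2.2.2.2.2.1
    have h0 := hθ0 j
    have e1 : (tht j ^ 5) ^ 3 = tht j ^ 15 := by ring
    have e2 : (tht j ^ 5) ^ 24 = tht j ^ 120 := by ring
    rw [e1, e2, add_div]
    refine add_le_add ?_ ?_
    · rw [div_le_div_iff₀ (by positivity) (by positivity)]
      rw [le_div_iff₀ (by positivity)] at h1
      have e3 : tht j ^ 110 = tht j ^ 95 * tht j ^ 15 := by ring
      rw [e3]
      calc KA * ac (tht j) (Ω j) * (tht j ^ 95 * tht j ^ 15) = KA * (ac (tht j) (Ω j) * tht j ^ 95) * tht j ^ 15 := by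
            ring
        _ ≤ KA * 1 * tht j ^ 15 := by gcongr
        _ = _ := by ring
    · exact one_div_le_one_div_of_le (by positivity) (pow_le_pow_right₀ (hθ1 j) (by norm_num))
  have hnb : ∀ j, j0 ≤ j → ∀ i, ∀ σ, -1 ≤ σ → σ ≤ 1 → |nn j σ i - nn j 0 i -
      σ * (Ω j * (M : ℝ) ^ (i : ℕ) + uu (1 / 64) j * (Pi.single 1 1 : E (r + 2)) i) -
      th σ * (vv (j + 1) i - vv j i)| ≤ Cs * (KA + 1) / tht j ^ 110 := by
    intro j hj i σ h0 h1
    have h2 := (hst j hj).2.2.2.1 i σ ⟨h0, by linarith⟩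
    have h3 := (hvt j hj).2 i
    rw [← hvvj j hj] at h3
    rw [h3] at h2
    rw [hnn]
    refine h2.trans ?_
    calc Cs * (KA * ac (tht j) (Ω j) / (tht j ^ 5) ^ 3 + 1 / (tht j ^ 5) ^ 24) ≤ Cs * ((KA + 1) / tht j ^ 110) := by
          have := hacX j
          gcongr
      _ = _ := by ring
  -- the two coordinates
  obtain ⟨aa, haa⟩ : ∃ aa : ℕ → ℝ → ℝ, aa = fun j σ => nn j σ 0 := ⟨_, rfl⟩
  obtain ⟨yy, hyy⟩ : ∃ yy : ℕ → ℝ → ℝ, yy = fun j σ => nn j σ 1 - M * nn j σ 0 := ⟨_, rfl⟩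
  have ha1 : ∀ j, j0 ≤ j → ∀ σ, -1 ≤ σ → σ ≤ 1 → |aa j σ - aa j 0 - σ * Ω j| ≤ CX / tht j ^ 90 := by
    intro j hj σ h0 h1
    have h2 := hnb j hj 0 σ h0 h1
    have e1 : (Pi.single 1 1 : E (r + 2)) 0 = 0 := Pi.single_eq_of_ne (by simp) _
    have e2 : ((0 : Fin (r + 2)) : ℕ) = 0 := rfl
    rw [e1, e2, pow_zero, mul_one, mul_zero, add_zero] at h2
    have h3 := th_le hf h0 h1
    have h4 : |vv (j + 1) 0 - vv j 0| ≤ KA * ac (tht j) (Ω j) := by
      have := norm_le_pi_norm (vv (j + 1) - vv j) 0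
      rw [Real.norm_eq_abs] at this
      exact this.trans (hdiff j hj)
    have h5 := (ac_rd (hθ1 j) (Ω j)).2.2.2.2.2.1
    have h0' := hθ0 j
    have h6 : KA * ac (tht j) (Ω j) ≤ KA / tht j ^ 90 := by
      have : 1 / tht j ^ 95 ≤ 1 / tht j ^ 90 :=
        one_div_le_one_div_of_le (by positivity) (pow_le_pow_right₀ (hθ1 j) (by norm_num))
      calc KA * ac (tht j) (Ω j) ≤ KA * (1 / tht j ^ 90) := by
            have := h5.trans this
            gcongr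
        _ = _ := by ring
    have h7 : Cs * (KA + 1) / tht j ^ 110 ≤ Cs * (KA + 1) / tht j ^ 90 := by
      have : tht j ^ 90 ≤ tht j ^ 110 := pow_le_pow_right₀ (hθ1 j) (by norm_num)
      gcongr
    rw [haa]
    show |nn j σ 0 - nn j 0 0 - σ * Ω j| ≤ _
    have e3 : nn j σ 0 - nn j 0 0 - σ * Ω j = (nn j σ 0 - nn j 0 0 - σ * Ω j - th σ * (vv (j + 1) 0 - vv j 0)) +
        th σ * (vv (j + 1) 0 - vv j 0) := by ring
    rw [e3]
    refine (abs_add_le _ _).trans ?_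
    have h8 : |th σ * (vv (j + 1) 0 - vv j 0)| ≤ KA / tht j ^ 90 := by
      rw [abs_mul]
      calc |th σ| * |vv (j + 1) 0 - vv j 0| ≤ 1 * |vv (j + 1) 0 - vv j 0| := by gcongr
        _ ≤ KA / tht j ^ 90 := by rw [one_mul]; exact h4.trans h6
    calc _ ≤ Cs * (KA + 1) / tht j ^ 90 + KA / tht j ^ 90 := add_le_add (h2.trans h7) h8
      _ = (KA + Cs * (KA + 1)) / tht j ^ 90 := by ring
      _ ≤ CX / tht j ^ 90 := by
        have : KA + Cs * (KA + 1) ≤ CX := by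
          rw [hCX]
          have : 0 ≤ (1 + M) * (1 + qn Q * CL) := by positivity
          linarith
        gcongr
  have ha2 : ∀ j, j0 ≤ j → |aa (j + 1) 0 - aa j 0 - Ω j| ≤ CX / tht j ^ 90 := by
    intro j hj
    have h1 := ha1 j hj 1 (by norm_num) le_rfl
    rw [one_mul] at h1
    have : aa (j + 1) 0 = aa j 1 := by rw [haa]; simp only [hnn0]
    rw [this]; exact h1
  have hslow : ∀ j, j0 ≤ j → |(vv (j + 1) 1 - vv j 1) - M * (vv (j + 1) 0 - vv j 0)| ≤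
      1 / tht j ^ 110 + (1 + M) * (qn Q * (CC * KA)) / tht j ^ 110 := by
    intro j hj
    have h0' := hθ0 j
    have h1 := fun i => (hvt j hj).2 i
    have h2 := fun i => (hvt (j + 1) (by omega)).2 i
    rw [← hvvj j hj] at h1
    rw [← hvvj (j + 1) (by omega)] at h2
    have e1 : (Pi.single 1 1 : E (r + 2)) 0 = 0 := Pi.single_eq_of_ne (by simp) _
    have e2 : ((0 : Fin (r + 2)) : ℕ) = 0 := rfl
    have e3 : (Pi.single 1 1 : E (r + 2)) 1 = 1 := Pi.single_eq_same _ _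
    have e4 : ((1 : Fin (r + 2)) : ℕ) = 1 := rfl
    have h10 := h1 0
    have h11 := h1 1
    have h20 := h2 0
    have h21 := h2 1
    rw [e1, e2] at h10 h20
    rw [e3, e4] at h11 h21
    have hd : ∀ i : Fin (r + 2), |∑ k, Q i k * (ev (dv k c) 0 (vv (j + 1)) 0 - ev (dv k c) 0 (vv j) 0)| ≤
        qn Q * (CC * KA / tht j ^ 110) := by
      intro i
      refine absQ_le Q i (by positivity) fun k => ?_
      have h3 := l2 k (tht j ^ 5) (vv j) (vv (j + 1)) (hV1 j)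
        (fun τ hτ => hcone j hj _ ((hIn j hj).conv (hIn' j (j + 1) hj (by omega)) hτ)) 0 0 0
      rw [sub_self, norm_zero, mul_zero, zero_add] at h3
      refine h3.trans ?_
      have h4 := hdiff j hj
      have h5 := (ac_rd (hθ1 j) (Ω j)).2.2.2.2.2.1
      have h6 := hccm k
      have h7 := hac0 j
      calc cc k / (tht j ^ 5) ^ (2 + 1) * ‖vv (j + 1) - vv j‖ ≤ CC / (tht j ^ 5) ^ (2 + 1) * (KA * (1 / tht j ^ 95)) := by
            have := h4.trans (mul_le_mul_of_nonneg_left h5 (by linarith : (0 : ℝ) ≤ KA))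
            gcongr
        _ = CC * KA / tht j ^ 110 := by
          field_simp
          ring
    have h3 := (huu j hj).2.2.2
    have h4 : 1 / tht j ^ 112 ≤ 1 / tht j ^ 110 :=
      one_div_le_one_div_of_le (by positivity) (pow_le_pow_right₀ (hθ1 j) (by norm_num))
    have e5 : (vv (j + 1) 1 - vv j 1) - M * (vv (j + 1) 0 - vv j 0) = (uu (1 / 64) (j + 1) - uu (1 / 64) j) -
        (∑ k, Q 1 k * (ev (dv k c) 0 (vv (j + 1)) 0 - ev (dv k c) 0 (vv j) 0)) +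
        M * ∑ k, Q 0 k * (ev (dv k c) 0 (vv (j + 1)) 0 - ev (dv k c) 0 (vv j) 0) := by
      simp only [mul_sub, Finset.sum_sub_distrib]
      linear_combination h21 - h11 - M * h20 + M * h10
    rw [e5]
    have a1 := hd 1
    have a0 := hd 0
    refine (abs_add_le _ _).trans ?_
    refine (add_le_add (abs_sub _ _) le_rfl).trans ?_
    rw [abs_mul, abs_of_nonneg (by linarith : (0 : ℝ) ≤ M)]
    have a2 : M * |∑ k, Q 0 k * (ev (dv k c) 0 (vv (j + 1)) 0 - ev (dv k c) 0 (vv j) 0)| ≤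
        M * (qn Q * (CC * KA / tht j ^ 110)) := mul_le_mul_of_nonneg_left a0 (by linarith)
    calc _ ≤ 1 / tht j ^ 110 + qn Q * (CC * KA / tht j ^ 110) + M * (qn Q * (CC * KA / tht j ^ 110)) :=
          add_le_add (add_le_add (h3.trans h4) a1) a2
      _ = _ := by ring
  have hK5pos : 0 ≤ (1 + M) * (qn Q * (CL * (2 * KA))) := by positivity
  have hy1 : ∀ j, j0 ≤ j → ∀ σ, -1 ≤ σ → σ ≤ 1 →
      |yy j σ - yy j 0 - σ * uu (1 / 64) j| ≤ uu (1 / 64) j / 100 := by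
    intro j hj σ h0 h1
    have h0' := hθ0 j
    have h20 := hnb j hj 0 σ h0 h1
    have h21 := hnb j hj 1 σ h0 h1
    have e1 : (Pi.single 1 1 : E (r + 2)) 0 = 0 := Pi.single_eq_of_ne (by simp) _
    have e2 : ((0 : Fin (r + 2)) : ℕ) = 0 := rfl
    have e3 : (Pi.single 1 1 : E (r + 2)) 1 = 1 := Pi.single_eq_same _ _
    have e4 : ((1 : Fin (r + 2)) : ℕ) = 1 := rfl
    rw [e1, e2] at h20
    rw [e3, e4] at h21
    have h3 := th_le hf h0 h1
    have h4 := hslow j hj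
    rw [hyy]
    show |nn j σ 1 - M * nn j σ 0 - (nn j 0 1 - M * nn j 0 0) - σ * uu (1 / 64) j| ≤ _
    have e5 : nn j σ 1 - M * nn j σ 0 - (nn j 0 1 - M * nn j 0 0) - σ * uu (1 / 64) j =
        (nn j σ 1 - nn j 0 1 - σ * (Ω j * (M : ℝ) ^ 1 + uu (1 / 64) j * 1) - th σ * (vv (j + 1) 1 - vv j 1)) -
        M * (nn j σ 0 - nn j 0 0 - σ * (Ω j * (M : ℝ) ^ 0 + uu (1 / 64) j * 0) - th σ * (vv (j + 1) 0 - vv j 0)) +
        th σ * ((vv (j + 1) 1 - vv j 1) - M * (vv (j + 1) 0 - vv j 0)) := by ring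
    rw [e5]
    refine (abs_add_le _ _).trans ?_
    refine (add_le_add (abs_sub _ _) le_rfl).trans ?_
    rw [abs_mul, abs_mul, abs_of_nonneg (by linarith : (0 : ℝ) ≤ M)]
    have h5 := (huu j hj).2.2.1
    have h6 : |th σ| * |(vv (j + 1) 1 - vv j 1) - M * (vv (j + 1) 0 - vv j 0)| ≤
        1 / tht j ^ 110 + (1 + M) * (qn Q * (CC * KA)) / tht j ^ 110 := by
      calc _ ≤ 1 * |(vv (j + 1) 1 - vv j 1) - M * (vv (j + 1) 0 - vv j 0)| := by gcongr
        _ ≤ _ := by rw [one_mul]; exact h4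
    have h7 : M * |nn j σ 0 - nn j 0 0 - σ * (Ω j * (M : ℝ) ^ 0 + uu (1 / 64) j * 0) -
        th σ * (vv (j + 1) 0 - vv j 0)| ≤ M * (Cs * (KA + 1) / tht j ^ 110) :=
      mul_le_mul_of_nonneg_left h20 (by linarith)
    have h8 : (K5 - (1 + M) * (qn Q * (CL * (2 * KA)))) / tht j ^ 110 ≤ K5 / tht j ^ 110 := by
      gcongr
      linarith
    calc _ ≤ Cs * (KA + 1) / tht j ^ 110 + M * (Cs * (KA + 1) / tht j ^ 110) +
          (1 / tht j ^ 110 + (1 + M) * (qn Q * (CC * KA)) / tht j ^ 110) := add_le_add (add_le_add h21 h7) h6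
      _ = (K5 - (1 + M) * (qn Q * (CL * (2 * KA)))) / tht j ^ 110 := by rw [hK5]; ring
      _ ≤ K5 / tht j ^ 110 := h8
      _ = (100 * K5 / tht j ^ 110) / 100 := by ring
      _ ≤ uu (1 / 64) j / 100 := by gcongr
  have hy2 : ∀ j, j0 ≤ j → |yy (j + 1) 0 - yy j 0 - uu (1 / 64) j| ≤ uu (1 / 64) j / 100 := by
    intro j hj
    have h1 := hy1 j hj 1 (by norm_num) le_rfl
    rw [one_mul] at h1
    have : yy (j + 1) 0 = yy j 1 := by rw [hyy]; simp only [hnn0]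
    rw [this]; exact h1
  have hsep := hLb l0 hl0b Ω aa yy (by rw [← hj0]; exact hΩ) (by rw [← hj0]; exact ha1) (by rw [← hj0]; exact ha2)
    (by rw [← hj0]; exact hy1) (by rw [← hj0]; exact hy2)
  rw [← hj0] at hsep
  -- the tubes are disjoint
  obtain ⟨d, hd⟩ : ∃ d : ℕ → ℝ, d = fun j => rd (tht j) (Ω j) := ⟨_, rfl⟩
  have hdj : ∀ j, d j = rd (tht j) (Ω j) := fun j => by rw [hd]
  have hd0 : ∀ j, 0 < d j := fun j => by rw [hdj]; exact (ac_rd (hθ1 j) (Ω j)).1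
  have hd1 : ∀ j, d j ≤ 1 := fun j => by rw [hdj]; exact (ac_rd (hθ1 j) (Ω j)).2.1
  have hac95 : ∀ j, ac (tht j) (Ω j) ≤ 1 / tht j ^ 95 := fun j => (ac_rd (hθ1 j) (Ω j)).2.2.2.2.2.1
  have hνd : ∀ σ k, j0 ≤ k → ‖vs (vv (k + 1)) (vv (k + 1 + 1)) σ - vs (vv k) (vv (k + 1)) σ‖ ≤
      2 * KA / tht k ^ 95 := by
    intro σ k hk
    obtain ⟨-, -, -, -, -, -, h01, -⟩ := hfn
    have h0' := hθ0 k
    have a1 : ‖vv (k + 1) - vv k‖ ≤ KA / tht k ^ 95 := by
      refine (hdiff k hk).trans ?_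
      rw [← mul_one_div]
      exact mul_le_mul_of_nonneg_left (hac95 k) (by linarith)
    have a2 : ‖vv (k + 1 + 1) - vv (k + 1)‖ ≤ KA / tht k ^ 95 := by
      refine (hdiff (k + 1) (by omega)).trans ?_
      rw [← mul_one_div]
      refine mul_le_mul_of_nonneg_left ((hac95 (k + 1)).trans ?_) (by linarith)
      exact one_div_le_one_div_of_le (by positivity) (pow_le_pow_left₀ h0'.le (Sx.tht_mono (by omega)) 95)
    have e1 : vs (vv (k + 1)) (vv (k + 1 + 1)) σ - vs (vv k) (vv (k + 1)) σ =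
        (1 - tp σ) • (vv (k + 1) - vv k) + tp σ • (vv (k + 1 + 1) - vv (k + 1)) := by
      funext i
      simp only [vs, Pi.sub_apply, Pi.add_apply, Pi.smul_apply, smul_eq_mul]
      ring
    rw [e1]
    refine (norm_add_le _ _).trans ?_
    rw [norm_smul, norm_smul, Real.norm_eq_abs, Real.norm_eq_abs, abs_of_nonneg (h01 σ).1,
      abs_of_nonneg (by linarith [(h01 σ).2] : (0 : ℝ) ≤ 1 - tp σ)]
    have t0 := (h01 σ).1
    have t1 := (h01 σ).2
    have hX : 0 ≤ KA / tht k ^ 95 := by positivity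
    calc (1 - tp σ) * ‖vv (k + 1) - vv k‖ + tp σ * ‖vv (k + 1 + 1) - vv (k + 1)‖ ≤
          1 * (KA / tht k ^ 95) + 1 * (KA / tht k ^ 95) := by
            refine add_le_add ?_ ?_
            · exact mul_le_mul (by linarith) a1 (norm_nonneg _) zero_le_one
            · exact mul_le_mul t1 a2 (norm_nonneg _) zero_le_one
      _ = _ := by ring
  have hdisj : ∀ i j, 2 ^ l0 ≤ i → i < j → ∀ σ : ℝ, -1 ≤ σ → σ ≤ 1 → ∀ x : E (r + 2),
      (∀ m, |Real.sin (Real.pi * (x m - G i σ m))| ≤ d i) →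
      (∀ m, |Real.sin (Real.pi * (x m - G j σ m))| ≤ d j) → False := by
    intro i j hi hij σ h0 h1 x q1 q2
    rw [← hj0] at hi
    have n1 := fun m => near_int (q1 m)
    have n2 := fun m => near_int (q2 m)
    choose k1 n1 using n1
    choose k2 n2 using n2
    obtain ⟨kk, hkk⟩ : ∃ kk : Fin (r + 2) → ℤ, kk = fun m => k1 m - k2 m := ⟨_, rfl⟩
    have hδ : ∀ m, |G j σ m - G i σ m - kk m| ≤ d i + d j := by
      intro m
      have e1 : G j σ m - G i σ m - kk m = (x m - G i σ m - k1 m) - (x m - G j σ m - k2 m) := by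
        rw [hkk]; push_cast; ring
      rw [e1]
      refine (abs_sub _ _).trans ?_
      linarith [n1 m, n2 m, hd0 i, hd0 j]
    obtain ⟨x', hx'⟩ : ∃ x' : E (r + 2), x' = fun m => G j σ m - kk m := ⟨_, rfl⟩
    have hGx : G j σ = fun m => x' m + kk m := by
      funext m; rw [hx']; ring
    have hxd : ‖x' - G i σ‖ ≤ d i + d j := by
      rw [pi_norm_le_iff_of_nonneg (by linarith [hd0 i, hd0 j])]
      intro m
      rw [Real.norm_eq_abs]
      have : (x' - G i σ) m = G j σ m - G i σ m - kk m := by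
        rw [hx']; show G j σ m - kk m - G i σ m = _; ring
      rw [this]; exact hδ m
    obtain ⟨T, hT⟩ : ∃ T, T = ∑ k ∈ Finset.Ico i j, (CL * (2 * KA)) / tht k ^ 110 := ⟨_, rfl⟩
    have hT0 : 0 ≤ T := by
      rw [hT]
      refine Finset.sum_nonneg fun k _ => ?_
      have := hθ0 k
      positivity
    have hevd : ∀ l, |ev (dv l w) (G j σ) (vs (vv j) (vv (j + 1)) σ) σ -
        ev (dv l w) (G i σ) (vs (vv i) (vv (i + 1)) σ) σ| ≤ CL * (d i + d j) + T := by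
      intro l
      rw [hGx, ev_space]
      have t1 := tele (r := r) (M := M) (L := dv l w) (𝓕 := 𝓕) (C := cl l) (κ := 1 / 2) (fun k => tht k ^ 5)
        (fun k => vs (vv k) (vv (k + 1)) σ) (j0 := j0) (l1 l) (fun k _ => hV1 k) hcone
        (fun k hk => (hIn k hk).vs hf (hIn' k (k + 1) hk (by omega)) σ) (fun k _ => hmonoV k (k + 1) (by omega))
        hi hij.le x' σ
      have t2 : ∑ k ∈ Finset.Ico i j, cl l / (tht k ^ 5) ^ 3 *
          ‖vs (vv (k + 1)) (vv (k + 1 + 1)) σ - vs (vv k) (vv (k + 1)) σ‖ ≤ T := by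
        rw [hT]
        refine Finset.sum_le_sum fun k hk => ?_
        have hk' : j0 ≤ k := hi.trans (Finset.mem_Ico.1 hk).1
        have h0' := hθ0 k
        have h2 := hclm l
        calc cl l / (tht k ^ 5) ^ 3 * ‖vs (vv (k + 1)) (vv (k + 1 + 1)) σ - vs (vv k) (vv (k + 1)) σ‖ ≤
              CL / (tht k ^ 5) ^ 3 * (2 * KA / tht k ^ 95) := by
                have := hνd σ k hk'
                gcongr
          _ = _ := by
            field_simp
      have t3 := l1 l (tht i ^ 5) (vs (vv i) (vv (i + 1)) σ) (vs (vv i) (vv (i + 1)) σ) (hV1 i)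
        (fun τ _ => by
          have := hcone i hi _ ((hIn i hi).vs hf (hIn' i (i + 1) hi (by omega)) σ)
          simpa using this) (G i σ) x' σ
      rw [sub_self, norm_zero, mul_zero, add_zero] at t3
      have t4 : cl l / (tht i ^ 5) ^ 2 * ‖x' - G i σ‖ ≤ CL * (d i + d j) := by
        have h2 : cl l / (tht i ^ 5) ^ 2 ≤ CL :=
          (div_le_self (hcl l) (one_le_pow₀ (hV1 i))).trans (hclm l)
        exact mul_le_mul h2 hxd (norm_nonneg _) hCL0
      calc _ = |(ev (dv l w) x' (vs (vv j) (vv (j + 1)) σ) σ - ev (dv l w) x' (vs (vv i) (vv (i + 1)) σ) σ) +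
            (ev (dv l w) x' (vs (vv i) (vv (i + 1)) σ) σ -
              ev (dv l w) (G i σ) (vs (vv i) (vv (i + 1)) σ) σ)| := by congr 1; ring
        _ ≤ T + CL * (d i + d j) := (abs_add_le _ _).trans (add_le_add (t1.trans t2) (t3.trans t4))
        _ = _ := by ring
    have hnd : ∀ m, |nn j σ m - nn i σ m - kk m| ≤ (1 + qn Q * CL) * (d i + d j) + qn Q * T := by
      intro m
      have e1 : nn j σ m - nn i σ m - kk m = (G j σ m - G i σ m - kk m) +
          ∑ l, Q m l * (ev (dv l w) (G j σ) (vs (vv j) (vv (j + 1)) σ) σ -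
            ev (dv l w) (G i σ) (vs (vv i) (vv (i + 1)) σ) σ) := by
        rw [hnn]
        simp only [nrm, mul_sub, Finset.sum_sub_distrib]
        ring
      rw [e1]
      have hdd : 0 ≤ d i + d j := by linarith [hd0 i, hd0 j]
      have h2 := absQ_le Q m (X := CL * (d i + d j) + T) (by positivity) hevd
      calc _ ≤ (d i + d j) + qn Q * (CL * (d i + d j) + T) := (abs_add_le _ _).trans (add_le_add (hδ m) h2)
        _ = _ := by ring
    have hTu : (1 + M) * (qn Q * T) ≤ (∑ k ∈ Finset.Ico i j, uu (1 / 64) k) / 100 := by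
      rw [hT, Finset.mul_sum, Finset.mul_sum, Finset.sum_div]
      refine Finset.sum_le_sum fun k hk => ?_
      have hk' : j0 ≤ k := hi.trans (Finset.mem_Ico.1 hk).1
      have h0' := hθ0 k
      have h2 := (huu k hk').2.2.1
      have h3 : (1 + M) * (qn Q * (CL * (2 * KA))) ≤ K5 := by
        have : 0 ≤ (1 + M) * (Cs * (KA + 1)) + 1 + (1 + M) * (qn Q * (CC * KA)) := by positivity
        rw [hK5]
        linarith
      calc (1 + M) * (qn Q * (CL * (2 * KA) / tht k ^ 110)) = ((1 + M) * (qn Q * (CL * (2 * KA)))) / tht k ^ 110 := by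
            ring
        _ ≤ K5 / tht k ^ 110 := by gcongr
        _ = (100 * K5 / tht k ^ 110) / 100 := by ring
        _ ≤ uu (1 / 64) k / 100 := by gcongr
    have hCXd : (1 + M) * ((1 + qn Q * CL) * (d i + d j)) ≤ CX * (d i + d j) := by
      have hdd : 0 ≤ d i + d j := by linarith [hd0 i, hd0 j]
      rw [← mul_assoc]
      refine mul_le_mul_of_nonneg_right ?_ hdd
      rw [hCX]
      have : 0 ≤ KA + Cs * (KA + 1) := by positivity
      linarith
    have hqT : 0 ≤ qn Q * T := by positivity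
    have hdd : 0 ≤ (1 + qn Q * CL) * (d i + d j) := by
      have : 0 ≤ d i + d j := by linarith [hd0 i, hd0 j]
      positivity
    refine hsep i j hi hij σ h0 h1 (kk 0) (kk 1 - M * kk 0) ?_ ?_
    · rw [haa, ← hdj i, ← hdj j]
      refine (hnd 0).trans ?_
      have h2 : (1 + qn Q * CL) * (d i + d j) ≤ (1 + M) * ((1 + qn Q * CL) * (d i + d j)) :=
        le_mul_of_one_le_left hdd (by linarith)
      have h3 : qn Q * T ≤ (1 + M) * (qn Q * T) := le_mul_of_one_le_left hqT (by linarith)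
      linarith
    · rw [← hdj i, ← hdj j]
      have e1 : yy j σ - yy i σ - ((kk 1 - M * kk 0 : ℤ) : ℝ) = (nn j σ 1 - nn i σ 1 - kk 1) -
          M * (nn j σ 0 - nn i σ 0 - kk 0) := by
        rw [hyy]; push_cast; ring
      rw [e1]
      refine (abs_sub _ _).trans ?_
      rw [abs_mul, abs_of_nonneg (by linarith : (0 : ℝ) ≤ M)]
      have h2 := hnd 1
      have h3 : M * |nn j σ 0 - nn i σ 0 - kk 0| ≤ M * ((1 + qn Q * CL) * (d i + d j) + qn Q * T) :=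
        mul_le_mul_of_nonneg_left (hnd 0) (by linarith)
      have e2 : (1 + M) * ((1 + qn Q * CL) * (d i + d j)) + (1 + M) * (qn Q * T) =
          ((1 + qn Q * CL) * (d i + d j) + qn Q * T) + M * ((1 + qn Q * CL) * (d i + d j) + qn Q * T) := by ring
      linarith
  -- the bounds of the bump potentials
  have hlog : ∀ l, ∀ j ∈ Finset.Ico (2 ^ l) (2 ^ (l + 1)), Nat.log 2 j = l := by
    intro l j hj
    rw [Finset.mem_Ico] at hj
    have hj0 : j ≠ 0 := by have : 0 < 2 ^ l := by positivity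
                           omega
    exact (Nat.log_eq_iff (Or.inr ⟨by norm_num, hj0⟩)).2 hj
  have hbdg : ∀ (ch : ℝ → ℝ) (Cx : ℝ), Cx ≤ K → (∀ (g F : ℝ → Fin (r + 2) → ℝ) (d V ρ : ℝ), 0 < d → d ≤ 1 →
      1 ≤ V → 0 ≤ ρ → (∀ i, ContDiff ℝ ∞ (fun s => g s i)) → (∀ i, Cls 1 V (Cs * V) (deriv fun s => g s i)) →
      (∀ i, Cls 2 V ρ (fun s => F s i)) →
      ContDiff ℝ ∞ (Hg ch g F d) ∧ ∀ (i : ℕ), i ≤ 2 → ∀ q : Z (r + 2),
        ‖iteratedFDeriv ℝ i (Hg ch g F d) q‖ ≤ Cx * ρ * d * (V / d) ^ 2) →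
      ∀ l, l0 ≤ l → ∀ j ∈ Finset.Ico (2 ^ l) (2 ^ (l + 1)),
      ContDiff ℝ ∞ (Hg ch (G j) (FB B D (G j)) (d j)) ∧ ∀ i ≤ 2, ∀ q,
        ‖iteratedFDeriv ℝ i (Hg ch (G j) (FB B D (G j)) (d j)) q‖ ≤ BB l := by
    intro ch Cx hCx hh l hl j hj
    have hjj : j0 ≤ j := by
      rw [hj0]
      exact (Nat.pow_le_pow_right (by norm_num) hl).trans (Finset.mem_Ico.1 hj).1
    obtain ⟨s1, s2, s3, -, -⟩ := hst j hjj
    have h0' := hθ0 j
    have hacj := hac0 j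
    have hρ : 0 ≤ Cs * (KA * ac (tht j) (Ω j) + 1 / (tht j ^ 5) ^ 24) := by positivity
    obtain ⟨u1, u2⟩ := hh (G j) (FB B D (G j)) (d j) (tht j ^ 5) _ (hd0 j) (hd1 j) (hV1 j) hρ s1 s2 s3
    refine ⟨u1, fun i hi q => (u2 i hi q).trans ?_⟩
    have h1 := ac_rd (hθ1 j) (Ω j)
    rw [← hdj j] at h1
    have hdp := hd0 j
    have e1 : Cx * (Cs * (KA * ac (tht j) (Ω j) + 1 / (tht j ^ 5) ^ 24)) * d j * (tht j ^ 5 / d j) ^ 2 =
        Cx * Cs * (KA * (ac (tht j) (Ω j) * tht j ^ 10 / d j) + (1 / d j) * (1 / tht j ^ 110)) := by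
      field_simp
    rw [e1, h1.2.2.1]
    have h2 : (1 / d j) * (1 / tht j ^ 110) ≤ 1 / tht j := by
      calc (1 / d j) * (1 / tht j ^ 110) ≤ tht j ^ 101 * (1 / tht j ^ 110) := by
            have := h1.2.2.2.1
            gcongr
        _ = 1 / tht j ^ 9 := by field_simp
        _ ≤ 1 / tht j := one_div_le_one_div_of_le h0' (le_self_pow₀ (hθ1 j) (by norm_num))
    have e2 : BB l = K * (Cs * (KA + 1)) * (1 / tht j) := by
      have : tht j = qq ^ l := by unfold tht; rw [hlog l j hj]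
      rw [hBBd, this]
      simp only [one_div, inv_pow]
    rw [e2]
    have h3 : 0 ≤ Cs * (KA * (1 / tht j) + (1 / d j) * (1 / tht j ^ 110)) := by positivity
    calc Cx * Cs * (KA * (1 / tht j) + (1 / d j) * (1 / tht j ^ 110)) =
          Cx * (Cs * (KA * (1 / tht j) + (1 / d j) * (1 / tht j ^ 110))) := by ring
      _ ≤ K * (Cs * (KA * (1 / tht j) + (1 / d j) * (1 / tht j ^ 110))) := mul_le_mul_of_nonneg_right hCx h3
      _ ≤ K * (Cs * (KA * (1 / tht j) + 1 / tht j)) := by gcongr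
      _ = K * (Cs * (KA + 1)) * (1 / tht j) := by ring
  obtain ⟨F, f1, f2, f3, f4⟩ := engineF hf hPer hSum G (fun j => FB B D (G j)) d l0 BB ε
    (fun j _ i => hGsi j i) hglue (FB_glue B D hglue) hd0 hdisj
    (hbdg chA CA (by rw [hK]; exact le_max_left _ _) hBA) (hbdg chB CB (by rw [hK]; exact le_max_right _ _) hBB)
    hBB0 hBBs (hLe l0 hl0e)
  -- the orbit
  have hpos : ∀ t : ℝ, 0 ≤ t → 2 ^ l0 ≤ ⌊t + 2 ^ l0⌋₊ ∧ t + 2 ^ l0 - ⌊t + 2 ^ l0⌋₊ = Int.fract t := by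
    intro t ht
    constructor
    · exact Nat.le_floor (by push_cast; linarith)
    · have h1 : ((⌊t + 2 ^ l0⌋₊ : ℕ) : ℝ) = (⌊t + 2 ^ l0⌋ : ℤ) := by
        rw [natCast_floor_eq_intCast_floor (by positivity)]
      rw [h1]
      have h2 : t + 2 ^ l0 - (⌊t + 2 ^ l0⌋ : ℤ) = Int.fract (t + ((2 ^ l0 : ℕ) : ℝ)) := by
        push_cast
        rfl
      rw [h2, Int.fract_add_natCast]
  have hjr1 : (1 : ℝ) ≤ (2 : ℝ) ^ l0 := one_le_pow₀ (by norm_num)
  have hder : ∀ t : ℝ, 0 ≤ t →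
      HasDerivAt (fun t => pathG G (t + 2 ^ l0)) (fun i => deriv (fun s => G ⌊t + 2 ^ l0⌋₊ s i) (Int.fract t)) t ∧
      HasDerivAt (deriv fun t => pathG G (t + 2 ^ l0))
        (fun i => deriv (deriv fun s => G ⌊t + 2 ^ l0⌋₊ s i) (Int.fract t)) t := by
    intro t ht
    have hT : 1 ≤ t + 2 ^ l0 := by linarith
    obtain ⟨h1, h2⟩ := pathG_hasDerivAt hglue hT (hGsi _)
    rw [(hpos t ht).2] at h1 h2
    refine ⟨h1.comp_add_const t ((2 : ℝ) ^ l0), ?_⟩
    have e : (deriv (fun t => pathG G (t + 2 ^ l0))) = fun x => deriv (pathG G) (x + 2 ^ l0) := by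
      funext x
      exact deriv_comp_add_const (f := pathG G) ((2 : ℝ) ^ l0) x
    rw [e]
    exact h2.comp_add_const t ((2 : ℝ) ^ l0)
  have hvel0 : ∀ t : ℝ, 0 ≤ t → tht ⌊t + 2 ^ l0⌋₊ ^ 5 / 2 ≤ ‖deriv (fun t => pathG G (t + 2 ^ l0)) t‖ ∧
      R < ‖deriv (fun t => pathG G (t + 2 ^ l0)) t‖ := by
    intro t ht
    rw [(hder t ht).1.deriv]
    have hjm := (hpos t ht).1
    rw [← hj0] at hjm
    obtain ⟨j, hj⟩ : ∃ j, j = ⌊t + 2 ^ l0⌋₊ := ⟨_, rfl⟩
    rw [← hj] at hjm ⊢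
    have h1 := (hst j hjm).2.2.2.2 0 (Int.fract t)
    have h2 : ∀ k, j0 ≤ k → Ω k - 3 ≤ vv k 0 := fun k hk => by
      have h3 := (hvt k hk).1
      rw [← hvvj k hk] at h3
      have h4 := norm_le_pi_norm (vv k - Ω k • dirM r M) 0
      have e4 : (vv k - Ω k • dirM r M) 0 = vv k 0 - Ω k := by
        show vv k 0 - Ω k * (M : ℝ) ^ ((0 : Fin (r + 2)) : ℕ) = _
        have : ((0 : Fin (r + 2)) : ℕ) = 0 := rfl
        rw [this, pow_zero, mul_one]
      rw [e4, Real.norm_eq_abs] at h4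
      linarith [(abs_le.1 (h4.trans h3)).1]
    have h3 : tht j ^ 5 - 3 ≤ vs (vv j) (vv (j + 1)) (Int.fract t) 0 := by
      obtain ⟨-, -, -, -, -, -, h01, -⟩ := hfn
      have a1 := h2 j hjm
      have a2 := h2 (j + 1) (by omega)
      have a3 := (hseq j hjm).1
      have a4 := (hmonoV j (j + 1) (by omega)).trans (hseq (j + 1) (by omega)).1
      have t0 := (h01 (Int.fract t)).1
      have t1 := (h01 (Int.fract t)).2
      show tht j ^ 5 - 3 ≤ vv j 0 + tp (Int.fract t) * (vv (j + 1) 0 - vv j 0)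
      nlinarith
    have h4 : Cs / tht j ^ 5 ≤ Cs := div_le_self (by linarith) (hV1 j)
    have h5 := hbig j hjm
    have h6 := h5le j
    have h7 := (abs_le.1 h1).1
    have h8 : tht j ^ 5 / 2 ≤ deriv (fun s => G j s 0) (Int.fract t) := by
      have : 0 ≤ V0 + KA + 2 * |R| + 1 := by positivity
      linarith
    have h9 : ‖deriv (fun s => G j s 0) (Int.fract t)‖ ≤
        ‖(fun i => deriv (fun s => G j s i) (Int.fract t) : E (r + 2))‖ :=
      norm_le_pi_norm (fun i => deriv (fun s => G j s i) (Int.fract t) : E (r + 2)) 0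
    have h10 : tht j ^ 5 / 2 ≤ ‖(fun i => deriv (fun s => G j s i) (Int.fract t) : E (r + 2))‖ :=
      (h8.trans (le_abs_self _)).trans h9
    refine ⟨h10, lt_of_lt_of_le ?_ h10⟩
    have : 0 ≤ V0 + KA + 2 * (4 + Cs) := by positivity
    linarith [le_abs_self R]
  refine ⟨F, fun t => pathG G (t + 2 ^ l0), f1, f2, f3, ⟨1 / (2 * qq ^ 5), by positivity, fun t ht => ?_⟩, ?_⟩
  · refine le_trans ?_ (hvel0 t ht).1
    have hjm := (hpos t ht).1
    obtain ⟨j, hj⟩ : ∃ j, j = ⌊t + 2 ^ l0⌋₊ := ⟨_, rfl⟩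
    rw [← hj] at hjm ⊢
    have hjne : j ≠ 0 := by
      have : 0 < 2 ^ l0 := by positivity
      omega
    have n2 : t ≤ 2 ^ (Nat.log 2 j + 1) := by
      have h1 : t + 2 ^ l0 < j + 1 := by rw [hj]; exact Nat.lt_floor_add_one _
      have h2 : (j : ℝ) + 1 ≤ 2 ^ (Nat.log 2 j + 1) := by
        have := Nat.lt_pow_succ_log_self (b := 2) (by norm_num) j
        exact_mod_cast this
      linarith
    have n3 : t ^ (1 / 20 : ℝ) ≤ qq ^ 5 * tht j ^ 5 := by
      calc t ^ (1 / 20 : ℝ) ≤ ((2 : ℝ) ^ (Nat.log 2 j + 1)) ^ (1 / 20 : ℝ) :=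
            Real.rpow_le_rpow ht n2 (by norm_num)
        _ = (((qq ^ 5) ^ (Nat.log 2 j + 1)) ^ (20 : ℕ)) ^ (1 / 20 : ℝ) := by
          congr 1
          have := Sx.qq_pow
          calc (2 : ℝ) ^ (Nat.log 2 j + 1) = (qq ^ 100) ^ (Nat.log 2 j + 1) := by rw [this]
            _ = _ := by rw [← pow_mul, ← pow_mul, ← pow_mul]; ring_nf
        _ = (qq ^ 5) ^ (Nat.log 2 j + 1) := by
          rw [← Real.rpow_natCast, ← Real.rpow_mul (by positivity)]
          norm_num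
        _ = qq ^ 5 * tht j ^ 5 := by
          unfold tht
          ring
    calc 1 / (2 * qq ^ 5) * t ^ (1 / 20 : ℝ) ≤ 1 / (2 * qq ^ 5) * (qq ^ 5 * tht j ^ 5) := by gcongr
      _ = tht j ^ 5 / 2 := by field_simp
  · intro t ht
    obtain ⟨d1, d2⟩ := hder t ht.le
    refine el_of_newtonB hBs hL d1.differentiableAt d2 (hvel0 t ht.le).2 ?_
    intro i
    have hp := hpos t ht.le
    have hpath : pathG G (t + 2 ^ l0) = G ⌊t + 2 ^ l0⌋₊ (Int.fract t) := by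
      show G ⌊t + 2 ^ l0⌋₊ (t + 2 ^ l0 - ⌊t + 2 ^ l0⌋₊) = _
      rw [hp.2]
    simp only [hpath]
    have hjm := hp.1
    set j := ⌊t + 2 ^ l0⌋₊ with hj
    set s := Int.fract t with hs
    have g1 := val_hasDerivAt D (G j s) t i
    have g2 : D.grad (G j s) t i = D.grad (G j s) s i := by
      have := grad_time D (G j s) s ⌊t⌋ i
      rw [← this]
      congr 1
      rw [hs]
      have := Int.floor_add_fract t
      linarith
    have g3 : HasDerivAt (fun u => F (Function.update (G j s) i u, t)) (FB B D (G j) s i) (G j s i) := by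
      have h1 : HasFDerivAt F (fderiv ℝ F (G j s, t)) (Function.update (G j s) i (G j s i), t) := by
        rw [Function.update_eq_self]
        exact (f1.differentiable (by norm_num) _).hasFDerivAt
      have h2 := h1.comp_hasDerivAt (G j s i) (hasDerivAt_upd (G j s) i t (G j s i))
      rw [f4 j hjm t i] at h2
      exact h2
    refine (g1.add g3).congr_deriv ?_
    rw [g2]
    simp only [FB]
    ring

end Pool.Agent.K9h32.HJ.Qm
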