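import Pool.Agent.N980.TL.Main4
import Pool.Agent.N980.TL.BL4
import Pool.Agent.N980.TL.EX4
import Pool.Agent.N980.TL.GR4

/-!
# Generic velocity growth for all flat metrics, from the density of the potentials with escaping orbits
-/

set_option autoImplicit false

open Filter Topology Set
open scoped ContDiff

noncomputable section

namespace Pool.Agent.K9h32.HJ

open Pool.Agent.N980.TL

/-- the Lagrangian `⟨B v, v⟩ / 2 + f(x, t)` -/
def LagB {n : ℕ} (B : Fin n → Fin n → ℝ) (f : (Fin n → ℝ) → ℝ → ℝ) (x v : Fin n → ℝ) (t : ℝ) : ℝ :=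
  (∑ i, ∑ j, B i j * v i * v j) / 2 + f x t

/-- the product of a matrix and a vector -/
def mv {n : ℕ} (Q : Fin n → Fin n → ℝ) (y : Fin n → ℝ) : Fin n → ℝ := fun i => ∑ j, Q i j * y j

/-- the sum of the absolute values of the entries -/
def nm {n : ℕ} (Q : Fin n → Fin n → ℝ) : ℝ := ∑ i, ∑ j, |Q i j|

namespace Gq

variable {n : ℕ}

theorem nm_nonneg (Q : Fin n → Fin n → ℝ) : 0 ≤ nm Q :=
  Finset.sum_nonneg fun _ _ => Finset.sum_nonneg fun _ _ => abs_nonneg _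

theorem mv_sub (Q : Fin n → Fin n → ℝ) (y z : Fin n → ℝ) : mv Q y - mv Q z = mv Q (y - z) := by
  funext i
  simp only [mv, Pi.sub_apply, ← Finset.sum_sub_distrib]
  exact Finset.sum_congr rfl fun j _ => by ring

theorem norm_mv_le (Q : Fin n → Fin n → ℝ) (y : Fin n → ℝ) : ‖mv Q y‖ ≤ nm Q * ‖y‖ := by
  rw [pi_norm_le_iff_of_nonneg (mul_nonneg (nm_nonneg Q) (norm_nonneg _))]
  intro i
  rw [Real.norm_eq_abs, mv]
  refine (Finset.abs_sum_le_sum_abs _ _).trans ?_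
  have h1 : ∑ j, |Q i j * y j| ≤ (∑ j, |Q i j|) * ‖y‖ := by
    rw [Finset.sum_mul]
    refine Finset.sum_le_sum fun j _ => ?_
    rw [abs_mul]
    exact mul_le_mul_of_nonneg_left (norm_le_pi_norm y j) (abs_nonneg _)
  refine h1.trans (mul_le_mul_of_nonneg_right ?_ (norm_nonneg _))
  exact Finset.single_le_sum (f := fun i => ∑ j, |Q i j|) (fun _ _ => Finset.sum_nonneg fun _ _ => abs_nonneg _)
    (Finset.mem_univ i)

theorem mv_mv {B Q : Fin n → Fin n → ℝ} (h : ∀ i k, ∑ j, B i j * Q j k = if i = k then 1 else 0)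
    (y : Fin n → ℝ) : mv B (mv Q y) = y := by
  funext i
  simp only [mv]
  have e : ∑ j, B i j * ∑ k, Q j k * y k = ∑ k, (∑ j, B i j * Q j k) * y k := by
    simp only [Finset.mul_sum, Finset.sum_mul]
    rw [Finset.sum_comm]
    exact Finset.sum_congr rfl fun k _ => Finset.sum_congr rfl fun j _ => by ring
  rw [e]
  simp only [h]
  simp

theorem inv_comm {B Q : Fin n → Fin n → ℝ} (h : ∀ i k, ∑ j, B i j * Q j k = if i = k then 1 else 0) :
    ∀ i k, ∑ j, Q i j * B j k = if i = k then 1 else 0 := by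
  have h1 : (Matrix.of B) * (Matrix.of Q) = 1 := by
    ext i k
    rw [Matrix.mul_apply, Matrix.one_apply]
    exact h i k
  have h2 := mul_eq_one_comm.1 h1
  intro i k
  have h3 := congrFun (congrFun h2 i) k
  rw [Matrix.mul_apply, Matrix.one_apply] at h3
  exact h3

theorem hasDerivAt_mv (Q : Fin n → Fin n → ℝ) {y : ℝ → Fin n → ℝ} {y' : Fin n → ℝ} {t : ℝ}
    (h : HasDerivAt y y' t) : HasDerivAt (fun s => mv Q (y s)) (mv Q y') t := by
  rw [hasDerivAt_pi] at h ⊢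
  intro i
  simp only [mv]
  exact HasDerivAt.fun_sum fun j _ => (h j).const_mul _

/-- the momentum -/
theorem dv_LagB {B : Fin n → Fin n → ℝ} (hB : ∀ i j, B i j = B j i) (f : (Fin n → ℝ) → ℝ → ℝ) (i : Fin n)
    (x v : Fin n → ℝ) (t : ℝ) : dv (LagB B f) i x v t = mv B v i := by
  simp only [dv, LagB]
  have h1 : ∀ j : Fin n, HasDerivAt (fun s => Function.update v i s j) (if j = i then 1 else 0) (v i) := by
    intro j
    by_cases hj : j = i
    · subst hj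
      simp only [Function.update_self, if_true]
      exact hasDerivAt_id _
    · simp only [Function.update_of_ne hj, if_neg hj]
      exact hasDerivAt_const _ _
  have h2 : HasDerivAt (fun s => (∑ a, ∑ b, B a b * Function.update v i s a * Function.update v i s b) / 2 + f x t)
      ((∑ a, ∑ b, ((B a b * (if a = i then 1 else 0)) * Function.update v i (v i) b +
        B a b * Function.update v i (v i) a * (if b = i then 1 else 0))) / 2) (v i) := by
    refine HasDerivAt.add_const _ (HasDerivAt.div_const (HasDerivAt.fun_sum fun a _ => HasDerivAt.fun_sum fun b _ => ?_) _)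
    exact ((h1 a).const_mul (B a b)).mul (h1 b)
  rw [h2.deriv, Function.update_eq_self]
  have e1 : ∑ a, ∑ b, ((B a b * (if a = i then 1 else 0)) * v b + B a b * v a * (if b = i then 1 else 0)) =
      mv B v i + mv B v i := by
    simp only [Finset.sum_add_distrib]
    congr 1
    · simp [mv, mul_ite, ite_mul]
    · simp only [mv, mul_ite, mul_one, mul_zero, Finset.sum_ite_eq', Finset.mem_univ, if_true]
      exact Finset.sum_congr rfl fun a _ => by rw [hB a i]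
  rw [e1]
  ring

theorem dx_LagB {B : Fin n → Fin n → ℝ} {f : (Fin n → ℝ) → ℝ → ℝ}
    (hf : ContDiff ℝ 2 (fun q : (Fin n → ℝ) × ℝ => f q.1 q.2)) (i : Fin n)
    (x v : Fin n → ℝ) (t : ℝ) : dx (LagB B f) i x v t = gr f x t i := by
  simp only [dx, LagB]
  exact ((gr_hasDerivAt hf x t i).const_add _).deriv

/-- the Euler-Lagrange equations are `γ'' = Q ∂_x f` -/
theorem el_B {B Q : Fin n → Fin n → ℝ} (hB : ∀ i j, B i j = B j i)
    (h : ∀ i k, ∑ j, B i j * Q j k = if i = k then 1 else 0) {f : (Fin n → ℝ) → ℝ → ℝ}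
    (hf : ContDiff ℝ 2 (fun q : (Fin n → ℝ) × ℝ => f q.1 q.2)) :
    (∀ (γ : ℝ → Fin n → ℝ) (t : ℝ), EulerLagrange (LagB B f) γ t →
      HasDerivAt γ (deriv γ t) t ∧ HasDerivAt (deriv γ) (mv Q (gr f (γ t) t)) t) ∧
    (∀ (x v : ℝ → Fin n → ℝ) (t : ℝ), (∀ᶠ s in 𝓝 t, HasDerivAt x (v s) s) → HasDerivAt v (mv Q (gr f (x t) t)) t →
      EulerLagrange (LagB B f) x t) := by
  constructor
  · rintro γ t ⟨hd, h1⟩
    refine ⟨hd.hasDerivAt, ?_⟩
    have h2 : HasDerivAt (fun s => mv B (deriv γ s)) (gr f (γ t) t) t := by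
      rw [hasDerivAt_pi]
      intro i
      have h3 := h1 i
      rw [dx_LagB hf] at h3
      have e : (fun s => dv (LagB B f) i (γ s) (deriv γ s) s) = fun s => mv B (deriv γ s) i := by
        funext s
        exact dv_LagB hB f i _ _ _
      rwa [e] at h3
    have h4 := hasDerivAt_mv Q h2
    have e : (fun s => mv Q (mv B (deriv γ s))) = deriv γ := by
      funext s
      exact mv_mv (inv_comm h) _
    rwa [e] at h4
  · intro x v t hx hv
    refine ⟨hx.self_of_nhds.differentiableAt, fun i => ?_⟩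
    rw [dx_LagB hf]
    have h2 := hasDerivAt_mv B hv
    rw [mv_mv h, hasDerivAt_pi] at h2
    have e : (fun s => dv (LagB B f) i (x s) (deriv x s) s) =ᶠ[𝓝 t] fun s => mv B (v s) i := by
      filter_upwards [hx] with s hs
      rw [dv_LagB hB, hs.deriv]
    exact (h2 i).congr_of_eventuallyEq e

end Gq

/-- the potentials with an orbit segment with velocity larger than `m` which ends with velocity
larger than `φ` of the velocity at the start -/
def GsB (r : ℕ) (B : Fin (r + 2) → Fin (r + 2) → ℝ) (φ : ℝ → ℝ) (m : ℕ) : Set ((Fin (r + 2) → ℝ) → ℝ → ℝ) :=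
  {f | Pot f ∧ ∃ (γ : ℝ → Fin (r + 2) → ℝ) (t0 t1 : ℝ), t0 < t1 ∧
    (∀ t ∈ Icc t0 t1, EulerLagrange (LagB B f) γ t) ∧
    (∃ μ > 0, ∀ t ∈ Icc t0 t1, (m : ℝ) + μ ≤ ‖deriv γ t‖) ∧ φ ‖deriv γ t0‖ < ‖deriv γ t1‖}

theorem open_GsB (r : ℕ) {B Q : Fin (r + 2) → Fin (r + 2) → ℝ} (hB : ∀ i j, B i j = B j i)
    (hBQ : ∀ i k, ∑ j, B i j * Q j k = if i = k then 1 else 0) (φ : ℝ → ℝ) (m : ℕ) :
    ∀ f ∈ GsB r B φ m, Pot f ∧ ∃ η > 0, ∀ g, Pot g → Close η f g → g ∈ GsB r B φ m := by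
  have hBL := bl_all
  have hEX := ex_all
  have hGR := gr_all
  rintro f ⟨hf, γ, t0, t1, h01, hE, ⟨μ0, hμ0, hm⟩, hφ⟩
  refine ⟨hf, ?_⟩
  obtain ⟨b, L, hb, hL, b1, b2, b3⟩ := hBL (r + 2) f hf.1 hf.2
  obtain ⟨N, hN⟩ : ∃ N, N = nm Q := ⟨_, rfl⟩
  have hN0 : 0 ≤ N := by rw [hN]; exact Gq.nm_nonneg Q
  have hQ : ∀ y, ‖mv Q y‖ ≤ N * ‖y‖ := fun y => by rw [hN]; exact Gq.norm_mv_le Q y
  have hQc : Continuous (mv Q) := by
    refine continuous_pi fun i => ?_
    simp only [mv]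
    exact continuous_finsetSum _ fun j _ => continuous_const.mul (continuous_apply j)
  set μ : ℝ := min μ0 (‖deriv γ t1‖ - φ ‖deriv γ t0‖) with hμ
  have hμp : 0 < μ := lt_min hμ0 (by linarith)
  have hμ1 : μ ≤ μ0 := min_le_left _ _
  have hμ2 : μ ≤ ‖deriv γ t1‖ - φ ‖deriv γ t0‖ := min_le_right _ _
  set X : ℝ := Real.exp ((N * L + 1) * (t1 - t0)) with hX
  have hX0 : 0 < X := Real.exp_pos _
  refine ⟨μ / (2 * X) / (N + 1), by positivity, fun g hg hfg => ⟨hg, ?_⟩⟩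
  obtain ⟨b', L', hb', hL', b1', b2', b3'⟩ := hBL (r + 2) g hg.1 hg.2
  obtain ⟨x, v, hx0, hv0, hxv⟩ := hEX (r + 2) (fun x t => mv Q (gr g x t)) (N * b') (N * L') (by positivity)
    (by positivity) (hQc.comp b3')
    (fun x t => (hQ _).trans (mul_le_mul_of_nonneg_left (b1' x t) hN0))
    (fun x y t => by
      rw [Gq.mv_sub, mul_assoc]
      exact (hQ _).trans (mul_le_mul_of_nonneg_left (b2' x y t) hN0)) t0 t1 (γ t0) (deriv γ t0) h01
  have hη0 : (0 : ℝ) ≤ μ / (2 * X) := by positivity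
  have hη1 : (0 : ℝ) ≤ μ / (2 * X) / (N + 1) := by positivity
  have hIcc : ∀ t ∈ Icc t0 t1, t ∈ Ioo (t0 - 1) (t1 + 1) := fun t ht => ⟨by linarith [ht.1], by linarith [ht.2]⟩
  have hclose : ∀ (x : Fin (r + 2) → ℝ) (t : ℝ), ‖mv Q (gr f x t) - mv Q (gr g x t)‖ ≤ μ / (2 * X) := by
    intro x t
    rw [Gq.mv_sub]
    refine (hQ _).trans ?_
    have h1 : N * ‖gr f x t - gr g x t‖ ≤ (N + 1) * (μ / (2 * X) / (N + 1)) :=
      mul_le_mul (by linarith) (gr_sub_le hf hg hη1 hfg x t) (norm_nonneg _) (by positivity)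
    refine h1.trans (le_of_eq ?_)
    field_simp
  have hdist : ∀ t ∈ Icc t0 t1, ‖deriv γ t - v t‖ ≤ μ / 2 := by
    intro t ht
    rcases ht.1.eq_or_lt with h | h
    · rw [← h, hv0, sub_self, norm_zero]; positivity
    · have h1 := hGR (r + 2) (fun x t => mv Q (gr f x t)) (fun x t => mv Q (gr g x t)) (N * L) (μ / (2 * X))
        (by positivity) hη0
        (fun x y t => by
          rw [Gq.mv_sub, mul_assoc]
          exact (hQ _).trans (mul_le_mul_of_nonneg_left (b2 x y t) hN0))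
        hclose t0 t γ (deriv γ) x v h hx0.symm hv0.symm
        (fun s hs => (Gq.el_B hB hBQ hf.1).1 γ s (hE s ⟨hs.1, hs.2.trans ht.2⟩))
        (fun s hs => hxv s (hIcc s ⟨hs.1, hs.2.trans ht.2⟩))
      have h2 : Real.exp ((N * L + 1) * (t - t0)) ≤ X := by
        rw [hX]
        refine Real.exp_le_exp.2 (mul_le_mul_of_nonneg_left (by linarith [ht.2]) (by positivity))
      have e : μ / (2 * X) * X = μ / 2 := by field_simp
      rw [← e]
      exact h1.trans (mul_le_mul_of_nonneg_left h2 hη0)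
  have hlow : ∀ t ∈ Icc t0 t1, ‖deriv γ t‖ - μ / 2 ≤ ‖v t‖ := by
    intro t ht
    have h3 : ‖deriv γ t‖ ≤ ‖v t‖ + ‖deriv γ t - v t‖ := by
      have := norm_add_le (v t) (deriv γ t - v t)
      rwa [add_sub_cancel] at this
    linarith [hdist t ht]
  have hdx : ∀ t ∈ Icc t0 t1, deriv x t = v t := fun t ht => (hxv t (hIcc t ht)).1.deriv
  have h0m : t0 ∈ Icc t0 t1 := ⟨le_rfl, h01.le⟩
  have h1m : t1 ∈ Icc t0 t1 := ⟨h01.le, le_rfl⟩
  refine ⟨x, t0, t1, h01, fun t ht => ?_, ⟨μ / 2, by positivity, fun t ht => ?_⟩, ?_⟩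
  · refine (Gq.el_B hB hBQ hg.1).2 x v t ?_ (hxv t (hIcc t ht)).2
    filter_upwards [Ioo_mem_nhds (hIcc t ht).1 (hIcc t ht).2] with s hs using (hxv s hs).1
  · rw [hdx t ht]
    linarith [hlow t ht, hm t ht]
  · rw [hdx t0 h0m, hv0, hdx t1 h1m]
    linarith [hlow t1 h1m]

/-- density of the potentials with an orbit that tends to infinity, for the metric `B` -/
def DenseB (r : ℕ) (B : Fin (r + 2) → Fin (r + 2) → ℝ) : Prop :=
  ∀ f₀ : (Fin (r + 2) → ℝ) → ℝ → ℝ, Pot f₀ → ∀ ε : ℝ, 0 < ε →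
    ∃ (f : (Fin (r + 2) → ℝ) → ℝ → ℝ) (γ : ℝ → Fin (r + 2) → ℝ), Pot f ∧ Close ε f₀ f ∧
      Tendsto (fun t => ‖deriv γ t‖) atTop atTop ∧ ∀ t, 0 < t → EulerLagrange (LagB B f) γ t

theorem openDense_GsB (r : ℕ) {B Q : Fin (r + 2) → Fin (r + 2) → ℝ} (hB : ∀ i j, B i j = B j i)
    (hBQ : ∀ i k, ∑ j, B i j * Q j k = if i = k then 1 else 0) (hD : DenseB r B) (φ : ℝ → ℝ) (m : ℕ) :
    OpenDense (GsB r B φ m) := by
  refine ⟨open_GsB r hB hBQ φ m, ?_⟩
  intro f hf ε hε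
  obtain ⟨g, γ, g1, g3, ht, g5⟩ := hD f hf ε hε
  obtain ⟨T, hT⟩ := eventually_atTop.1 (ht.eventually_ge_atTop ((m : ℝ) + 1))
  obtain ⟨t0, h0, h1⟩ : ∃ t0 : ℝ, T ≤ t0 ∧ 0 < t0 := ⟨max T 1, le_max_left _ _, lt_max_of_lt_right one_pos⟩
  obtain ⟨t1, h2, h3⟩ := ((ht.eventually_gt_atTop (φ ‖deriv γ t0‖)).and (eventually_gt_atTop t0)).exists
  exact ⟨g, ⟨g1, γ, t0, t1, h3, fun t ht => g5 t (h1.trans_le ht.1),
    ⟨1, one_pos, fun t ht => hT t (h0.trans ht.1)⟩, h2⟩, g3⟩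

/-- Velocity growth for generic potentials of class `C²`, in all dimensions `n = r + 2 ≥ 2`, for the flat
metric `B` (symmetric, with inverse `Q`) -/
theorem genericB (r : ℕ) {B Q : Fin (r + 2) → Fin (r + 2) → ℝ} (hB : ∀ i j, B i j = B j i)
    (hBQ : ∀ i k, ∑ j, B i j * Q j k = if i = k then 1 else 0) (hD : DenseB r B) (φ : ℝ → ℝ) :
    ∃ O : ℕ → Set ((Fin (r + 2) → ℝ) → ℝ → ℝ), (∀ m, OpenDense (O m)) ∧
      ∀ f, (∀ m, f ∈ O m) → ∀ K : ℝ, ∃ (γ : ℝ → Fin (r + 2) → ℝ) (t0 t1 : ℝ), t0 < t1 ∧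
        (∀ t ∈ Icc t0 t1, EulerLagrange (LagB B f) γ t) ∧
        (∀ t ∈ Icc t0 t1, K ≤ ‖deriv γ t‖) ∧ φ ‖deriv γ t0‖ < ‖deriv γ t1‖ := by
  refine ⟨GsB r B φ, fun m => openDense_GsB r hB hBQ hD φ m, fun f hf K => ?_⟩
  obtain ⟨m, hm⟩ := exists_nat_ge K
  obtain ⟨-, γ, t0, t1, h1, h2, ⟨μ, hμ, h3⟩, h4⟩ := hf m
  exact ⟨γ, t0, t1, h1, h2, fun t ht => by linarith [h3 t ht], h4⟩

end Pool.Agent.K9h32.HJ
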