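import Pool.Agent.K9h32.HJ.StmK2
import Pool.Agent.K9h32.HJ.GenQ

/-!
# Final statements: all dimensions, all flat metrics, all directions, `C^k`
-/

set_option autoImplicit false

open Set Filter Topology
open scoped ContDiff

noncomputable section

namespace Pool.Agent.K9h32.HJ

open Pool.Agent.N980.TL

/-- Leaf VELK1: as `S_VELK`, with `M` as large as we want -/
def S_VELK1 : Prop :=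
  ∀ (r : ℕ) (Q : Fin (r + 2) → Fin (r + 2) → ℝ) (𝓕 : List ((Fin (r + 2) → ℤ) × ℤ)) (c : List (Atom (r + 2))),
    (∀ f ∈ 𝓕, f.1 ≠ 0) → InF 𝓕 c → ∀ M1 : ℕ, ∃ M : ℕ, M1 ≤ M ∧ 1 ≤ M ∧
    ∀ W : ℝ, 0 ≤ W → ∃ V0 : ℝ, 1 ≤ V0 ∧ ∀ V : ℝ, V0 ≤ V →
      (∀ (Ω : ℝ) (v : E (r + 2)), V ≤ Ω → ‖v - Ω • dirM r M‖ ≤ W + 1 → NRs 𝓕 (1 / 2) V v) ∧
      (∀ (Ω : ℝ) (T : E (r + 2)), V ≤ Ω → ‖T - Ω • dirM r M‖ ≤ W → ∃ v : E (r + 2), ‖v - T‖ ≤ 1 ∧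
        ∀ i, v i + ∑ j, Q i j * ev (dv j c) 0 v 0 = T i) ∧
      ∀ (Ω Ω' : ℝ) (T T' v v' : E (r + 2)), V ≤ Ω → V ≤ Ω' → ‖T - Ω • dirM r M‖ ≤ W → ‖T' - Ω' • dirM r M‖ ≤ W →
        ‖v - T‖ ≤ 1 → ‖v' - T'‖ ≤ 1 →
        (∀ i, v i + ∑ j, Q i j * ev (dv j c) 0 v 0 = T i) →
        (∀ i, v' i + ∑ j, Q i j * ev (dv j c) 0 v' 0 = T' i) → ‖v' - v‖ ≤ 2 * ‖T' - T‖

/-- the main statement for trigonometric polynomials: `ℝ^n` with `n = r + 2`, potentials of class `C^k` -/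
def MainK (k r : ℕ) : Prop :=
  ∀ (N0 : ℕ) (D : Trig (r + 2) N0) (B Q : Fin (r + 2) → Fin (r + 2) → ℝ), (∀ i j, B i j = B j i) →
    (∀ i j, Q i j = Q j i) → (∀ i k, ∑ j, B i j * Q j k = if i = k then 1 else 0) →
    ∀ (M1 : ℕ) (ε δ R : ℝ), 0 < ε → 0 < δ →
    ∃ (M : ℕ) (F : Z (r + 2) → ℝ) (γ : ℝ → Fin (r + 2) → ℝ) (c a : ℝ), M1 ≤ M ∧ 0 < c ∧ 0 < a ∧
      ContDiff ℝ k F ∧ Periodic (fun x t => F (x, t)) ∧ (∀ i ≤ k, ∀ q, ‖iteratedFDeriv ℝ i F q‖ ≤ ε) ∧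
      (∀ t, 0 ≤ t → ∃ Ω : ℝ, R ≤ Ω ∧ c * t ^ a ≤ Ω ∧ ‖deriv γ t - Ω • dirM r M‖ ≤ δ * Ω) ∧
      ∀ t, 0 < t → EulerLagrange (LagB B (fun x t => D.val x t + F (x, t))) γ t

/-- Leaf DIR: unimodular changes of coordinates which move the direction `(1, M, M^2, …)` close to any given one -/
def S_DIR : Prop :=
  ∀ (r : ℕ) (u : E (r + 2)), u ≠ 0 → ∀ δ > (0 : ℝ), ∃ (P P' : Matrix (Fin (r + 2)) (Fin (r + 2)) ℤ),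
    P * P' = 1 ∧ P' * P = 1 ∧ ∃ M1 : ℕ, ∀ M ≥ M1, ∀ y : E (r + 2),
      (∀ i, y i = ∑ j, (P i j : ℝ) * dirM r M j) → y ≠ 0 ∧ ‖(‖y‖⁻¹) • y - (‖u‖⁻¹) • u‖ ≤ δ

/-- potentials of class `C^k` -/
def PotK (k : ℕ) {n : ℕ} (f : (Fin n → ℝ) → ℝ → ℝ) : Prop :=
  ContDiff ℝ k (fun q : (Fin n → ℝ) × ℝ => f q.1 q.2) ∧ Periodic f

/-- all derivatives of `g - f` of order at most `k` are bounded by `ε` -/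
def CloseK (k : ℕ) {n : ℕ} (ε : ℝ) (f g : (Fin n → ℝ) → ℝ → ℝ) : Prop :=
  ∀ i ≤ k, ∀ q, ‖iteratedFDeriv ℝ i (fun q : (Fin n → ℝ) × ℝ => g q.1 q.2 - f q.1 q.2) q‖ ≤ ε

/-- Leaf FIN: density of the potentials with an orbit which tends to infinity in a direction close to `u`
(from `MainK`, `S_DIR`, `S_DENSK`). `L` is arbitrary for bounded velocities. -/
def S_FIN : Prop :=
  ∀ (k r : ℕ), 2 ≤ k → MainK k r → ∀ (B Q : Fin (r + 2) → Fin (r + 2) → ℝ), (∀ i j, B i j = B j i) →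
    (∀ i k, ∑ j, B i j * Q j k = if i = k then 1 else 0) →
    ∀ (R : ℝ) (L : (Fin (r + 2) → ℝ) → (Fin (r + 2) → ℝ) → ℝ → ℝ) (f₀ : (Fin (r + 2) → ℝ) → ℝ → ℝ),
    PotK k f₀ → (∀ x v t, R ≤ ‖v‖ → L x v t = LagB B f₀ x v t) →
    ∀ f₁ : (Fin (r + 2) → ℝ) → ℝ → ℝ, PotK k f₁ → ∀ u : E (r + 2), u ≠ 0 → ∀ ε : ℝ, 0 < ε →
    ∃ (f : (Fin (r + 2) → ℝ) → ℝ → ℝ) (γ : ℝ → Fin (r + 2) → ℝ) (c a : ℝ), PotK k f ∧ CloseK k ε f₁ f ∧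
      0 < c ∧ 0 < a ∧ (∀ t, 0 ≤ t → c * t ^ a ≤ ‖deriv γ t‖) ∧ (∀ t, 0 ≤ t → R < ‖deriv γ t‖) ∧
      (∀ t, 0 ≤ t → ‖(‖deriv γ t‖⁻¹) • deriv γ t - (‖u‖⁻¹) • u‖ ≤ ε) ∧
      ∀ t, 0 < t → EulerLagrange (fun x v t => L x v t + f x t) γ t

end Pool.Agent.K9h32.HJ
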