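import Pool.Agent.K9h32.HJ.StmQ
import Pool.Agent.N980.TL.Nrm

/-!
# Leaf VELQ (helper98 for helper32): nonresonant cone and velocities with prescribed frequency vector
-/

set_option autoImplicit false

open Set Filter Topology
open scoped ContDiff

noncomputable section

namespace Pool.Agent.K9h32.HJ

open Pool.Agent.N980.TL

namespace VelQ

/-- a bound for one factor -/
def kf {n : ℕ} (f : (Fin n → ℤ) × ℤ) : ℝ := 3 * (∑ i, |(f.1 i : ℝ)|) + |(f.2 : ℝ)|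

lemma kf_nonneg {n : ℕ} (f : (Fin n → ℤ) × ℤ) : 0 ≤ kf f := by
  unfold kf; positivity

lemma exists_K {n : ℕ} (𝓕 : List ((Fin n → ℤ) × ℤ)) : ∃ K : ℝ, 0 ≤ K ∧ ∀ f ∈ 𝓕, kf f ≤ K := by
  induction 𝓕 with
  | nil => exact ⟨0, le_rfl, by simp⟩
  | cons a L ih =>
    obtain ⟨K, hK, h⟩ := ih
    refine ⟨K + kf a, add_nonneg hK (kf_nonneg a), fun f hf => ?_⟩
    rcases List.mem_cons.1 hf with h1 | h1
    · rw [h1]; linarith
    · have := h f h1
      have := kf_nonneg a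
      linarith

lemma exists_M {n : ℕ} (𝓕 : List ((Fin n → ℤ) × ℤ)) : ∃ M : ℕ, 1 ≤ M ∧ ∀ f ∈ 𝓕, ∀ i, |f.1 i| < (M : ℤ) := by
  induction 𝓕 with
  | nil => exact ⟨1, le_rfl, by simp⟩
  | cons a L ih =>
    obtain ⟨M, hM, h⟩ := ih
    refine ⟨M + ∑ i, (a.1 i).natAbs, by omega, fun f hf i => ?_⟩
    rcases List.mem_cons.1 hf with h1 | h1
    · rw [h1]
      have h2 : (a.1 i).natAbs ≤ ∑ i, (a.1 i).natAbs :=
        Finset.single_le_sum (f := fun i => (a.1 i).natAbs) (fun _ _ => Nat.zero_le _) (Finset.mem_univ i)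
      have h3 : (((a.1 i).natAbs : ℕ) : ℤ) = |a.1 i| := Int.natCast_natAbs _
      have h4 : (((a.1 i).natAbs : ℕ) : ℤ) ≤ ((∑ i, (a.1 i).natAbs : ℕ) : ℤ) := by exact_mod_cast h2
      have h5 : (1 : ℤ) ≤ (M : ℤ) := by exact_mod_cast hM
      rw [h3] at h4
      rw [Nat.cast_add]
      linarith
    · have h2 := h f h1 i
      push_cast
      have h3 : (0 : ℤ) ≤ ∑ i, |a.1 i| := Finset.sum_nonneg fun _ _ => abs_nonneg _
      linarith

/-- nonresonance in the cone -/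
lemma cone {r M : ℕ} {𝓕 : List ((Fin (r + 2) → ℤ) × ℤ)} (h0 : ∀ f ∈ 𝓕, f.1 ≠ 0)
    (hM : ∀ f ∈ 𝓕, ∀ i, |f.1 i| < (M : ℤ)) {K : ℝ} (hK : ∀ f ∈ 𝓕, kf f ≤ K) {V Ω : ℝ}
    (hV : 2 * K ≤ V) (hV0 : 0 ≤ V) (hΩ : V ≤ Ω) {v : E (r + 2)} (hv : ‖v - Ω • dirM r M‖ ≤ 3) :
    NRs 𝓕 (1 / 2) V v := by
  intro f hf
  have h1 : NRMaux.Sm (M : ℤ) f.1 ≠ 0 := fun h => h0 f hf (funext fun i =>
    NRMaux.eq_zero_of_Sm (M : ℤ) f.1 (hM f hf) h i)
  have h2 : (1 : ℤ) ≤ |NRMaux.Sm (M : ℤ) f.1| := Int.one_le_abs h1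
  have h3 : (1 : ℝ) ≤ |(NRMaux.Sm (M : ℤ) f.1 : ℝ)| := by exact_mod_cast h2
  have h4 : (NRMaux.Sm (M : ℤ) f.1 : ℝ) = ∑ i, (f.1 i : ℝ) * (M : ℝ) ^ (i : ℕ) := by
    unfold NRMaux.Sm
    push_cast
    rfl
  have h5 : fac f v = Ω * (NRMaux.Sm (M : ℤ) f.1 : ℝ) +
      ((∑ i, (f.1 i : ℝ) * (v - Ω • dirM r M) i) + f.2) := by
    rw [h4]
    unfold fac
    rw [Finset.mul_sum, ← add_assoc, ← Finset.sum_add_distrib]
    congr 1
    refine Finset.sum_congr rfl fun i _ => ?_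
    simp only [Pi.sub_apply, Pi.smul_apply, smul_eq_mul, dirM]
    ring
  have h6 : |(∑ i, (f.1 i : ℝ) * (v - Ω • dirM r M) i) + f.2| ≤ kf f := by
    refine (abs_add_le _ _).trans ?_
    unfold kf
    refine add_le_add ?_ le_rfl
    refine (Finset.abs_sum_le_sum_abs _ _).trans ?_
    rw [Finset.mul_sum]
    refine Finset.sum_le_sum fun i _ => ?_
    rw [abs_mul, mul_comm]
    refine mul_le_mul_of_nonneg_right ?_ (abs_nonneg _)
    exact (norm_le_pi_norm (v - Ω • dirM r M) i).trans hv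
  have h7 : Ω ≤ |Ω * (NRMaux.Sm (M : ℤ) f.1 : ℝ)| := by
    rw [abs_mul]
    have h8 : 0 ≤ Ω := hV0.trans hΩ
    rw [abs_of_nonneg h8]
    nlinarith
  have h8 : |Ω * (NRMaux.Sm (M : ℤ) f.1 : ℝ)| - |(∑ i, (f.1 i : ℝ) * (v - Ω • dirM r M) i) + f.2| ≤
      |fac f v| := by
    rw [h5]
    have := abs_sub_abs_le_abs_add (Ω * (NRMaux.Sm (M : ℤ) f.1 : ℝ))
      ((∑ i, (f.1 i : ℝ) * (v - Ω • dirM r M) i) + f.2)
    exact this
  have h9 := hK f hf
  linarith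

lemma dir_norm {r M : ℕ} (hM : 1 ≤ M) (i : Fin (r + 2)) : (M : ℝ) ^ (i : ℕ) ≤ (M : ℝ) ^ (r + 1) :=
  pow_le_pow_right₀ (by exact_mod_cast hM) (by have := i.2; omega)

end VelQ

open VelQ in
theorem velq_all : S_VELQ := by
  intro r Q 𝓕 c h0 hInF
  obtain ⟨M, hM1, hM⟩ := exists_M 𝓕
  obtain ⟨K, hK0, hK⟩ := exists_K 𝓕
  have hb := fun j => ev_bound (dv j c) 𝓕 (κ := 1 / 2) (by norm_num) 2 (dv_InF hInF j) (dv_Ord2 c j)
  have hl := fun j => ev_lip (dv j c) 𝓕 (κ := 1 / 2) (by norm_num) 2 (dv_InF hInF j) (dv_Ord2 c j)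
  choose C1 hC1 b1 using hb
  choose C2 hC2 b2 using hl
  obtain ⟨q, hq⟩ : ∃ q : ℝ, q = ∑ i, ∑ j, |Q i j| := ⟨_, rfl⟩
  have hq0 : 0 ≤ q := by rw [hq]; positivity
  have hQq : ∀ i j, |Q i j| ≤ q := by
    intro i j
    rw [hq]
    calc |Q i j| ≤ ∑ j, |Q i j| :=
          Finset.single_le_sum (f := fun j => |Q i j|) (fun _ _ => abs_nonneg _) (Finset.mem_univ j)
      _ ≤ ∑ i, ∑ j, |Q i j| :=
          Finset.single_le_sum (f := fun i => ∑ j, |Q i j|) (fun _ _ => by positivity) (Finset.mem_univ i)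
  obtain ⟨s1, hs1⟩ : ∃ s : ℝ, s = ∑ j, C1 j := ⟨_, rfl⟩
  obtain ⟨s2, hs2⟩ : ∃ s : ℝ, s = ∑ j, C2 j := ⟨_, rfl⟩
  have hs10 : 0 ≤ s1 := by rw [hs1]; exact Finset.sum_nonneg fun j _ => hC1 j
  have hs20 : 0 ≤ s2 := by rw [hs2]; exact Finset.sum_nonneg fun j _ => hC2 j
  refine ⟨M, hM1, 1 + 2 * K + q * s1 + 2 * (q * s2), by
    have : 0 ≤ q * s1 := mul_nonneg hq0 hs10
    have : 0 ≤ q * s2 := mul_nonneg hq0 hs20
    linarith, fun V hV => ?_⟩
  have hqs1 : 0 ≤ q * s1 := mul_nonneg hq0 hs10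
  have hqs2 : 0 ≤ q * s2 := mul_nonneg hq0 hs20
  have hV1 : 1 ≤ V := by linarith
  have hV0 : 0 < V := by linarith
  have hcone : ∀ (Ω : ℝ) (v : E (r + 2)), V ≤ Ω → ‖v - Ω • dirM r M‖ ≤ 3 → NRs 𝓕 (1 / 2) V v :=
    fun Ω v hΩ hv => cone h0 hM hK (by linarith) hV0.le hΩ hv
  -- segments
  have hseg : ∀ (Ω Ω' : ℝ) (v v' : E (r + 2)), V ≤ Ω → V ≤ Ω' → ‖v - Ω • dirM r M‖ ≤ 3 →
      ‖v' - Ω' • dirM r M‖ ≤ 3 → ∀ τ ∈ Icc (0 : ℝ) 1,
      NRs 𝓕 (1 / 2) V (fun i => v i + τ * (v' i - v i)) := by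
    intro Ω Ω' v v' h1 h2 h3 h4 τ hτ
    refine hcone (Ω + τ * (Ω' - Ω)) _ ?_ ?_
    · have : Ω + τ * (Ω' - Ω) = (1 - τ) * Ω + τ * Ω' := by ring
      rw [this]
      have a1 : 0 ≤ 1 - τ := by linarith [hτ.2]
      have a2 := hτ.1
      nlinarith
    · have e : (fun i => v i + τ * (v' i - v i)) - (Ω + τ * (Ω' - Ω)) • dirM r M =
          (1 - τ) • (v - Ω • dirM r M) + τ • (v' - Ω' • dirM r M) := by
        funext i
        simp only [Pi.sub_apply, Pi.add_apply, Pi.smul_apply, smul_eq_mul]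
        ring
      rw [e]
      refine (norm_add_le _ _).trans ?_
      rw [norm_smul, norm_smul, Real.norm_eq_abs, Real.norm_eq_abs, abs_of_nonneg (by linarith [hτ.2]),
        abs_of_nonneg hτ.1]
      have a1 : 0 ≤ 1 - τ := by linarith [hτ.2]
      have a2 := hτ.1
      nlinarith
  -- the correction
  obtain ⟨G, hG⟩ : ∃ G : E (r + 2) → E (r + 2), ∀ v i, G v i = ∑ j, Q i j * ev (dv j c) 0 v 0 :=
    ⟨fun v i => ∑ j, Q i j * ev (dv j c) 0 v 0, fun _ _ => rfl⟩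
  have hGb : ∀ (Ω : ℝ) (v : E (r + 2)), V ≤ Ω → ‖v - Ω • dirM r M‖ ≤ 3 → ‖G v‖ ≤ 1 := by
    intro Ω v hΩ hv
    rw [pi_norm_le_iff_of_nonneg zero_le_one]
    intro i
    rw [hG, Real.norm_eq_abs]
    refine (Finset.abs_sum_le_sum_abs _ _).trans ?_
    have h1 : ∀ j ∈ Finset.univ, |Q i j * ev (dv j c) 0 v 0| ≤ q * (C1 j / V ^ 2) := by
      intro j _
      rw [abs_mul]
      exact mul_le_mul (hQq i j) (b1 j V v hV1 (hcone Ω v hΩ hv) 0 0) (abs_nonneg _) hq0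
    refine (Finset.sum_le_sum h1).trans ?_
    rw [← Finset.mul_sum, ← Finset.sum_div, ← hs1, ← mul_div_assoc, div_le_one (by positivity)]
    nlinarith
  have hGl : ∀ (Ω Ω' : ℝ) (v v' : E (r + 2)), V ≤ Ω → V ≤ Ω' → ‖v - Ω • dirM r M‖ ≤ 3 →
      ‖v' - Ω' • dirM r M‖ ≤ 3 → ‖G v' - G v‖ ≤ 1 / 2 * ‖v' - v‖ := by
    intro Ω Ω' v v' h1 h2 h3 h4
    rw [pi_norm_le_iff_of_nonneg (by positivity)]
    intro i
    rw [Pi.sub_apply, hG, hG, Real.norm_eq_abs, ← Finset.sum_sub_distrib]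
    refine (Finset.abs_sum_le_sum_abs _ _).trans ?_
    have h5 : ∀ j ∈ Finset.univ, |Q i j * ev (dv j c) 0 v' 0 - Q i j * ev (dv j c) 0 v 0| ≤
        q * (C2 j / V ^ 3 * ‖v' - v‖) := by
      intro j _
      rw [← mul_sub, abs_mul]
      have h6 := b2 j V v v' hV1 (hseg Ω Ω' v v' h1 h2 h3 h4) 0 0 0
      rw [sub_self, norm_zero, mul_zero, zero_add] at h6
      exact mul_le_mul (hQq i j) h6 (abs_nonneg _) hq0
    refine (Finset.sum_le_sum h5).trans ?_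
    rw [← Finset.mul_sum, ← Finset.sum_mul, ← Finset.sum_div, ← hs2, ← mul_assoc, ← mul_div_assoc]
    refine mul_le_mul_of_nonneg_right ?_ (norm_nonneg _)
    rw [div_le_div_iff₀ (by positivity) (by norm_num)]
    have h6 : V ≤ V ^ 3 := by
      calc V = V ^ 1 := (pow_one V).symm
        _ ≤ V ^ 3 := pow_le_pow_right₀ hV1 (by norm_num)
    linarith
  refine ⟨hcone, ?_, ?_⟩
  · -- existence
    intro Ω u hΩ hu0 hu1
    obtain ⟨w0, hw0⟩ : ∃ w0 : E (r + 2), w0 = Ω • dirM r M := ⟨_, rfl⟩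
    obtain ⟨T, hT⟩ : ∃ T : E (r + 2) → E (r + 2), ∀ v, T v = w0 + u • (Pi.single 1 1 : E (r + 2)) - G v :=
      ⟨fun v => w0 + u • (Pi.single 1 1 : E (r + 2)) - G v, fun _ => rfl⟩
    have hball : ∀ v : E (r + 2), v ∈ Metric.closedBall w0 3 ↔ ‖v - Ω • dirM r M‖ ≤ 3 := by
      intro v
      rw [Metric.mem_closedBall, dist_eq_norm, hw0]
    have hs : ‖(Pi.single 1 1 : E (r + 2))‖ ≤ 1 := by
      rw [pi_norm_le_iff_of_nonneg zero_le_one]
      intro i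
      by_cases h : i = 1
      · subst h; simp
      · rw [Pi.single_eq_of_ne h]; simp
    have hmaps : MapsTo T (Metric.closedBall w0 3) (Metric.closedBall w0 3) := by
      intro v hv
      have h1 := hGb Ω v hΩ ((hball v).1 hv)
      rw [Metric.mem_closedBall, dist_eq_norm, hT]
      have e : w0 + u • (Pi.single 1 1 : E (r + 2)) - G v - w0 = u • (Pi.single 1 1 : E (r + 2)) - G v := by abel
      rw [e]
      refine (norm_sub_le _ _).trans ?_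
      rw [norm_smul, Real.norm_eq_abs, abs_of_nonneg hu0]
      nlinarith [norm_nonneg (Pi.single 1 1 : E (r + 2))]
    have hcontr : ContractingWith (1 / 2 : NNReal) (hmaps.restrict T _ _) := by
      refine ⟨?_, LipschitzWith.of_dist_le_mul fun x y => ?_⟩
      · rw [← NNReal.coe_lt_coe]; norm_num
      · rw [Subtype.dist_eq, Subtype.dist_eq, dist_eq_norm, dist_eq_norm]
        have e : ((hmaps.restrict T _ _ x : Metric.closedBall w0 3) : E (r + 2)) -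
            ((hmaps.restrict T _ _ y : Metric.closedBall w0 3) : E (r + 2)) = G y.1 - G x.1 := by
          rw [MapsTo.val_restrict_apply, MapsTo.val_restrict_apply, hT, hT]
          abel
        rw [e, norm_sub_rev x.1 y.1]
        have h1 := hGl Ω Ω x.1 y.1 hΩ hΩ ((hball x.1).1 x.2) ((hball y.1).1 y.2)
        have e2 : ((1 / 2 : NNReal) : ℝ) = 1 / 2 := by norm_num
        rw [e2]
        exact h1
    have hcomp : IsComplete (Metric.closedBall w0 (3 : ℝ)) := Metric.isClosed_closedBall.isComplete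
    obtain ⟨y, hy1, hy2, -⟩ := ContractingWith.exists_fixedPoint' hcomp hmaps hcontr
      (Metric.mem_closedBall_self (by norm_num : (0 : ℝ) ≤ 3)) (edist_ne_top _ _)
    refine ⟨y, (hball y).1 hy1, fun i => ?_⟩
    have h1 : T y = y := hy2
    rw [hT] at h1
    have h2 := congrFun h1 i
    simp only [Pi.sub_apply, Pi.add_apply, Pi.smul_apply, smul_eq_mul, hw0, dirM, hG] at h2
    linarith
  · -- differences
    intro Ω u Ω' u' v v' h1 h2 h3 h4 e1 e2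
    refine ⟨hseg Ω Ω' v v' h1 h2 h3 h4, ?_⟩
    have h5 := hGl Ω Ω' v v' h1 h2 h3 h4
    have h6 : ‖v' - v‖ ≤ |Ω' - Ω| * (M : ℝ) ^ (r + 1) + |u' - u| + 1 / 2 * ‖v' - v‖ := by
      rw [pi_norm_le_iff_of_nonneg (by positivity)]
      intro i
      have e3 : (v' - v) i = (Ω' - Ω) * (M : ℝ) ^ (i : ℕ) + (u' - u) * (Pi.single 1 1 : E (r + 2)) i -
          (G v' - G v) i := by
        have a1 := e1 i
        have a2 := e2 i
        rw [Pi.sub_apply, Pi.sub_apply, hG, hG]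
        linarith
      rw [e3, Real.norm_eq_abs]
      have h7 : |(G v' - G v) i| ≤ 1 / 2 * ‖v' - v‖ := (norm_le_pi_norm (G v' - G v) i).trans h5
      have h8 : |(Ω' - Ω) * (M : ℝ) ^ (i : ℕ)| ≤ |Ω' - Ω| * (M : ℝ) ^ (r + 1) := by
        rw [abs_mul, abs_of_nonneg (by positivity : (0 : ℝ) ≤ (M : ℝ) ^ (i : ℕ))]
        exact mul_le_mul_of_nonneg_left (dir_norm hM1 i) (abs_nonneg _)
      have h9 : |(u' - u) * (Pi.single 1 1 : E (r + 2)) i| ≤ |u' - u| := by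
        by_cases h : i = 1
        · subst h; simp
        · rw [Pi.single_eq_of_ne h]; simp
      calc |(Ω' - Ω) * (M : ℝ) ^ (i : ℕ) + (u' - u) * (Pi.single 1 1 : E (r + 2)) i - (G v' - G v) i|
          ≤ |(Ω' - Ω) * (M : ℝ) ^ (i : ℕ) + (u' - u) * (Pi.single 1 1 : E (r + 2)) i| +
              |(G v' - G v) i| := abs_sub _ _
        _ ≤ |(Ω' - Ω) * (M : ℝ) ^ (i : ℕ)| + |(u' - u) * (Pi.single 1 1 : E (r + 2)) i| +
              |(G v' - G v) i| := by gcongr; exact abs_add_le _ _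
        _ ≤ _ := by gcongr
    linarith

end Pool.Agent.K9h32.HJ
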