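import Pool.Agent.K9h32.HJ.StmK2
import Pool.Agent.K9h32.HJ.VelQ

/-!
# Leaf VELK (helper98 for helper32): nonresonant cone and velocities with a prescribed frequency vector `T`
-/

set_option autoImplicit false

open Set Filter Topology
open scoped ContDiff

noncomputable section

namespace Pool.Agent.K9h32.HJ

open Pool.Agent.N980.TL

namespace VelK

/-- a bound for one factor -/
def kf {n : ℕ} (R : ℝ) (f : (Fin n → ℤ) × ℤ) : ℝ := R * (∑ i, |(f.1 i : ℝ)|) + |(f.2 : ℝ)|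

lemma kf_nonneg {n : ℕ} {R : ℝ} (hR : 0 ≤ R) (f : (Fin n → ℤ) × ℤ) : 0 ≤ kf R f := by
  unfold kf; positivity

lemma exists_K {n : ℕ} {R : ℝ} (hR : 0 ≤ R) (𝓕 : List ((Fin n → ℤ) × ℤ)) :
    ∃ K : ℝ, 0 ≤ K ∧ ∀ f ∈ 𝓕, kf R f ≤ K := by
  induction 𝓕 with
  | nil => exact ⟨0, le_rfl, by simp⟩
  | cons a L ih =>
    obtain ⟨K, hK, h⟩ := ih
    refine ⟨K + kf R a, add_nonneg hK (kf_nonneg hR a), fun f hf => ?_⟩
    rcases List.mem_cons.1 hf with h1 | h1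
    · rw [h1]; linarith
    · have := h f h1
      have := kf_nonneg hR a
      linarith

/-- nonresonance in the cone -/
lemma cone {r M : ℕ} {𝓕 : List ((Fin (r + 2) → ℤ) × ℤ)} (h0 : ∀ f ∈ 𝓕, f.1 ≠ 0)
    (hM : ∀ f ∈ 𝓕, ∀ i, |f.1 i| < (M : ℤ)) {R K : ℝ} (hK : ∀ f ∈ 𝓕, kf R f ≤ K) {V Ω : ℝ}
    (hV : 2 * K ≤ V) (hV0 : 0 ≤ V) (hΩ : V ≤ Ω) {v : E (r + 2)} (hv : ‖v - Ω • dirM r M‖ ≤ R) :
    NRs 𝓕 (1 / 2) V v := by
  intro f hf
  have h1 : NRMaux.Sm (M : ℤ) f.1 ≠ 0 := fun h => h0 f hf (funext fun i =>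
    NRMaux.eq_zero_of_Sm (M : ℤ) f.1 (hM f hf) h i)
  have h2 : (1 : ℤ) ≤ |NRMaux.Sm (M : ℤ) f.1| := Int.one_le_abs h1
  have h3 : (1 : ℝ) ≤ |(NRMaux.Sm (M : ℤ) f.1 : ℝ)| := by exact_mod_cast h2
  have h4 : (NRMaux.Sm (M : ℤ) f.1 : ℝ) = ∑ i, (f.1 i : ℝ) * (M : ℝ) ^ (i : ℕ) := by
    unfold NRMaux.Sm
    push_cast
    rfl
  have h5 : fac f v = Ω * (NRMaux.Sm (M : ℤ) f.1 : ℝ) +
      ((∑ i, (f.1 i : ℝ) * (v - Ω • dirM r M) i) + f.2) := by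
    rw [h4]
    unfold fac
    rw [Finset.mul_sum, ← add_assoc, ← Finset.sum_add_distrib]
    congr 1
    refine Finset.sum_congr rfl fun i _ => ?_
    simp only [Pi.sub_apply, Pi.smul_apply, smul_eq_mul, dirM]
    ring
  have h6 : |(∑ i, (f.1 i : ℝ) * (v - Ω • dirM r M) i) + f.2| ≤ kf R f := by
    refine (abs_add_le _ _).trans ?_
    unfold kf
    refine add_le_add ?_ le_rfl
    refine (Finset.abs_sum_le_sum_abs _ _).trans ?_
    rw [Finset.mul_sum]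
    refine Finset.sum_le_sum fun i _ => ?_
    rw [abs_mul, mul_comm]
    refine mul_le_mul_of_nonneg_right ?_ (abs_nonneg _)
    exact (norm_le_pi_norm (v - Ω • dirM r M) i).trans hv
  have h7 : Ω ≤ |Ω * (NRMaux.Sm (M : ℤ) f.1 : ℝ)| := by
    rw [abs_mul]
    have h8 : 0 ≤ Ω := hV0.trans hΩ
    rw [abs_of_nonneg h8]
    nlinarith
  have h8 : |Ω * (NRMaux.Sm (M : ℤ) f.1 : ℝ)| - |(∑ i, (f.1 i : ℝ) * (v - Ω • dirM r M) i) + f.2| ≤
      |fac f v| := by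
    rw [h5]
    exact abs_sub_abs_le_abs_add (Ω * (NRMaux.Sm (M : ℤ) f.1 : ℝ))
      ((∑ i, (f.1 i : ℝ) * (v - Ω • dirM r M) i) + f.2)
  have h9 := hK f hf
  linarith

end VelK

open VelK in
theorem velk_core (r : ℕ) (Q : Fin (r + 2) → Fin (r + 2) → ℝ) (𝓕 : List ((Fin (r + 2) → ℤ) × ℤ))
    (c : List (Atom (r + 2))) (h0 : ∀ f ∈ 𝓕, f.1 ≠ 0) (hInF : InF 𝓕 c) (M : ℕ)
    (hM : ∀ f ∈ 𝓕, ∀ i, |f.1 i| < (M : ℤ)) :
    ∀ W : ℝ, 0 ≤ W → ∃ V0 : ℝ, 1 ≤ V0 ∧ ∀ V : ℝ, V0 ≤ V →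
      (∀ (Ω : ℝ) (v : E (r + 2)), V ≤ Ω → ‖v - Ω • dirM r M‖ ≤ W + 1 → NRs 𝓕 (1 / 2) V v) ∧
      (∀ (Ω : ℝ) (T : E (r + 2)), V ≤ Ω → ‖T - Ω • dirM r M‖ ≤ W → ∃ v : E (r + 2), ‖v - T‖ ≤ 1 ∧
        ∀ i, v i + ∑ j, Q i j * ev (dv j c) 0 v 0 = T i) ∧
      ∀ (Ω Ω' : ℝ) (T T' v v' : E (r + 2)), V ≤ Ω → V ≤ Ω' → ‖T - Ω • dirM r M‖ ≤ W → ‖T' - Ω' • dirM r M‖ ≤ W →
        ‖v - T‖ ≤ 1 → ‖v' - T'‖ ≤ 1 →
        (∀ i, v i + ∑ j, Q i j * ev (dv j c) 0 v 0 = T i) →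
        (∀ i, v' i + ∑ j, Q i j * ev (dv j c) 0 v' 0 = T' i) → ‖v' - v‖ ≤ 2 * ‖T' - T‖ := by
  intro W hW
  obtain ⟨R, hR⟩ : ∃ R : ℝ, R = W + 1 := ⟨_, rfl⟩
  have hR0 : 0 ≤ R := by linarith
  obtain ⟨K, hK0, hK⟩ := exists_K hR0 𝓕
  have hb := fun j => ev_bound (dv j c) 𝓕 (κ := 1 / 2) (by norm_num) 2 (dv_InF hInF j) (dv_Ord2 c j)
  have hl := fun j => ev_lip (dv j c) 𝓕 (κ := 1 / 2) (by norm_num) 2 (dv_InF hInF j) (dv_Ord2 c j)
  choose C1 hC1 b1 using hb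
  choose C2 hC2 b2 using hl
  obtain ⟨q, hq⟩ : ∃ q : ℝ, q = ∑ i, ∑ j, |Q i j| := ⟨_, rfl⟩
  have hq0 : 0 ≤ q := by rw [hq]; positivity
  have hQq : ∀ i j, |Q i j| ≤ q := by
    intro i j
    rw [hq]
    calc |Q i j| ≤ ∑ j, |Q i j| :=
          Finset.single_le_sum (f := fun j => |Q i j|) (fun _ _ => abs_nonneg _) (Finset.mem_univ j)
      _ ≤ ∑ i, ∑ j, |Q i j| :=
          Finset.single_le_sum (f := fun i => ∑ j, |Q i j|) (fun _ _ => by positivity) (Finset.mem_univ i)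
  obtain ⟨s1, hs1⟩ : ∃ s : ℝ, s = ∑ j, C1 j := ⟨_, rfl⟩
  obtain ⟨s2, hs2⟩ : ∃ s : ℝ, s = ∑ j, C2 j := ⟨_, rfl⟩
  have hs10 : 0 ≤ s1 := by rw [hs1]; exact Finset.sum_nonneg fun j _ => hC1 j
  have hs20 : 0 ≤ s2 := by rw [hs2]; exact Finset.sum_nonneg fun j _ => hC2 j
  have hqs1 : 0 ≤ q * s1 := mul_nonneg hq0 hs10
  have hqs2 : 0 ≤ q * s2 := mul_nonneg hq0 hs20
  refine ⟨1 + 2 * K + q * s1 + 2 * (q * s2), by linarith, fun V hV => ?_⟩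
  have hV1 : 1 ≤ V := by linarith
  have hV0 : 0 < V := by linarith
  have hcone : ∀ (Ω : ℝ) (v : E (r + 2)), V ≤ Ω → ‖v - Ω • dirM r M‖ ≤ R → NRs 𝓕 (1 / 2) V v :=
    fun Ω v hΩ hv => cone h0 hM hK (by linarith) hV0.le hΩ hv
  -- segments
  have hseg : ∀ (Ω Ω' : ℝ) (v v' : E (r + 2)), V ≤ Ω → V ≤ Ω' → ‖v - Ω • dirM r M‖ ≤ R →
      ‖v' - Ω' • dirM r M‖ ≤ R → ∀ τ ∈ Icc (0 : ℝ) 1,
      NRs 𝓕 (1 / 2) V (fun i => v i + τ * (v' i - v i)) := by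
    intro Ω Ω' v v' h1 h2 h3 h4 τ hτ
    refine hcone (Ω + τ * (Ω' - Ω)) _ ?_ ?_
    · have : Ω + τ * (Ω' - Ω) = (1 - τ) * Ω + τ * Ω' := by ring
      rw [this]
      have a1 : 0 ≤ 1 - τ := by linarith [hτ.2]
      have a2 := hτ.1
      nlinarith
    · have e : (fun i => v i + τ * (v' i - v i)) - (Ω + τ * (Ω' - Ω)) • dirM r M =
          (1 - τ) • (v - Ω • dirM r M) + τ • (v' - Ω' • dirM r M) := by
        funext i
        simp only [Pi.sub_apply, Pi.add_apply, Pi.smul_apply, smul_eq_mul]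
        ring
      rw [e]
      refine (norm_add_le _ _).trans ?_
      rw [norm_smul, norm_smul, Real.norm_eq_abs, Real.norm_eq_abs, abs_of_nonneg (by linarith [hτ.2]),
        abs_of_nonneg hτ.1]
      have a1 : 0 ≤ 1 - τ := by linarith [hτ.2]
      have a2 := hτ.1
      nlinarith
  -- the correction
  obtain ⟨G, hG⟩ : ∃ G : E (r + 2) → E (r + 2), ∀ v i, G v i = ∑ j, Q i j * ev (dv j c) 0 v 0 :=
    ⟨fun v i => ∑ j, Q i j * ev (dv j c) 0 v 0, fun _ _ => rfl⟩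
  have hGb : ∀ (Ω : ℝ) (v : E (r + 2)), V ≤ Ω → ‖v - Ω • dirM r M‖ ≤ R → ‖G v‖ ≤ 1 := by
    intro Ω v hΩ hv
    rw [pi_norm_le_iff_of_nonneg zero_le_one]
    intro i
    rw [hG, Real.norm_eq_abs]
    refine (Finset.abs_sum_le_sum_abs _ _).trans ?_
    have h1 : ∀ j ∈ Finset.univ, |Q i j * ev (dv j c) 0 v 0| ≤ q * (C1 j / V ^ 2) := by
      intro j _
      rw [abs_mul]
      exact mul_le_mul (hQq i j) (b1 j V v hV1 (hcone Ω v hΩ hv) 0 0) (abs_nonneg _) hq0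
    refine (Finset.sum_le_sum h1).trans ?_
    rw [← Finset.mul_sum, ← Finset.sum_div, ← hs1, ← mul_div_assoc, div_le_one (by positivity)]
    nlinarith
  have hGl : ∀ (Ω Ω' : ℝ) (v v' : E (r + 2)), V ≤ Ω → V ≤ Ω' → ‖v - Ω • dirM r M‖ ≤ R →
      ‖v' - Ω' • dirM r M‖ ≤ R → ‖G v' - G v‖ ≤ 1 / 2 * ‖v' - v‖ := by
    intro Ω Ω' v v' h1 h2 h3 h4
    rw [pi_norm_le_iff_of_nonneg (by positivity)]
    intro i
    rw [Pi.sub_apply, hG, hG, Real.norm_eq_abs, ← Finset.sum_sub_distrib]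
    refine (Finset.abs_sum_le_sum_abs _ _).trans ?_
    have h5 : ∀ j ∈ Finset.univ, |Q i j * ev (dv j c) 0 v' 0 - Q i j * ev (dv j c) 0 v 0| ≤
        q * (C2 j / V ^ 3 * ‖v' - v‖) := by
      intro j _
      rw [← mul_sub, abs_mul]
      have h6 := b2 j V v v' hV1 (hseg Ω Ω' v v' h1 h2 h3 h4) 0 0 0
      rw [sub_self, norm_zero, mul_zero, zero_add] at h6
      exact mul_le_mul (hQq i j) h6 (abs_nonneg _) hq0
    refine (Finset.sum_le_sum h5).trans ?_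
    rw [← Finset.mul_sum, ← Finset.sum_mul, ← Finset.sum_div, ← hs2, ← mul_assoc, ← mul_div_assoc]
    refine mul_le_mul_of_nonneg_right ?_ (norm_nonneg _)
    rw [div_le_div_iff₀ (by positivity) (by norm_num)]
    have h6 : V ≤ V ^ 3 := by
      calc V = V ^ 1 := (pow_one V).symm
        _ ≤ V ^ 3 := pow_le_pow_right₀ hV1 (by norm_num)
    linarith
  -- the ball around a target lies in the cone
  have hin : ∀ (Ω : ℝ) (T v : E (r + 2)), ‖T - Ω • dirM r M‖ ≤ W → ‖v - T‖ ≤ 1 → ‖v - Ω • dirM r M‖ ≤ R := by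
    intro Ω T v h1 h2
    have e : v - Ω • dirM r M = (v - T) + (T - Ω • dirM r M) := by abel
    rw [e, hR]
    refine (norm_add_le _ _).trans ?_
    linarith
  refine ⟨fun Ω v h1 h2 => hcone Ω v h1 (by rw [hR]; exact h2), ?_, ?_⟩
  · -- existence
    intro Ω T hΩ hT
    obtain ⟨P, hP⟩ : ∃ P : E (r + 2) → E (r + 2), ∀ v, P v = T - G v := ⟨fun v => T - G v, fun _ => rfl⟩
    have hball : ∀ v : E (r + 2), v ∈ Metric.closedBall T 1 ↔ ‖v - T‖ ≤ 1 := by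
      intro v
      rw [Metric.mem_closedBall, dist_eq_norm]
    have hmaps : MapsTo P (Metric.closedBall T 1) (Metric.closedBall T 1) := by
      intro v hv
      have h1 := hGb Ω v hΩ (hin Ω T v hT ((hball v).1 hv))
      rw [Metric.mem_closedBall, dist_eq_norm, hP]
      have e : T - G v - T = - G v := by abel
      rw [e, norm_neg]
      exact h1
    have hcontr : ContractingWith (1 / 2 : NNReal) (hmaps.restrict P _ _) := by
      refine ⟨?_, LipschitzWith.of_dist_le_mul fun x y => ?_⟩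
      · rw [← NNReal.coe_lt_coe]; norm_num
      · rw [Subtype.dist_eq, Subtype.dist_eq, dist_eq_norm, dist_eq_norm]
        have e : ((hmaps.restrict P _ _ x : Metric.closedBall T 1) : E (r + 2)) -
            ((hmaps.restrict P _ _ y : Metric.closedBall T 1) : E (r + 2)) = G y.1 - G x.1 := by
          rw [MapsTo.val_restrict_apply, MapsTo.val_restrict_apply, hP, hP]
          abel
        rw [e, norm_sub_rev x.1 y.1]
        have h1 := hGl Ω Ω x.1 y.1 hΩ hΩ (hin Ω T x.1 hT ((hball x.1).1 x.2))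
          (hin Ω T y.1 hT ((hball y.1).1 y.2))
        have e2 : ((1 / 2 : NNReal) : ℝ) = 1 / 2 := by norm_num
        rw [e2]
        exact h1
    have hcomp : IsComplete (Metric.closedBall T (1 : ℝ)) := Metric.isClosed_closedBall.isComplete
    obtain ⟨y, hy1, hy2, -⟩ := ContractingWith.exists_fixedPoint' hcomp hmaps hcontr
      (Metric.mem_closedBall_self (by norm_num : (0 : ℝ) ≤ 1)) (edist_ne_top _ _)
    refine ⟨y, (hball y).1 hy1, fun i => ?_⟩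
    have h1 : P y = y := hy2
    rw [hP] at h1
    have h2 := congrFun h1 i
    simp only [Pi.sub_apply, hG] at h2
    linarith
  · -- differences
    intro Ω Ω' T T' v v' h1 h2 h3 h4 h5 h6 e1 e2
    have h7 := hGl Ω Ω' v v' h1 h2 (hin Ω T v h3 h5) (hin Ω' T' v' h4 h6)
    have e3 : v' - v = (T' - T) - (G v' - G v) := by
      funext i
      have a1 := e1 i
      have a2 := e2 i
      simp only [Pi.sub_apply, hG]
      linarith
    have h8 : ‖v' - v‖ ≤ ‖T' - T‖ + ‖G v' - G v‖ := by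
      conv_lhs => rw [e3]
      exact norm_sub_le _ _
    linarith

theorem velk_all : S_VELK := by
  intro r Q 𝓕 c h0 hInF
  obtain ⟨M, hM1, hM⟩ := VelQ.exists_M 𝓕
  exact ⟨M, hM1, velk_core r Q 𝓕 c h0 hInF M hM⟩

end Pool.Agent.K9h32.HJ
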