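import Pool.Agent.K9h32.HJ.StmF
import Pool.Agent.K9h32.HJ.VelK

/-!
# Leaf VELK1 (helper98 for helper32): as VELK, with `M` as large as we want
-/

set_option autoImplicit false

open Set Filter Topology
open scoped ContDiff

noncomputable section

namespace Pool.Agent.K9h32.HJ

open Pool.Agent.N980.TL

theorem velk1_all : S_VELK1 := by
  intro r Q 𝓕 c h0 hInF M1
  obtain ⟨M, hM1, hM⟩ := VelQ.exists_M 𝓕
  refine ⟨M + M1, by omega, by omega, velk_core r Q 𝓕 c h0 hInF (M + M1) fun f hf i => ?_⟩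
  have h1 := hM f hf i
  push_cast
  have h2 : (0 : ℤ) ≤ (M1 : ℤ) := Int.natCast_nonneg M1
  linarith

end Pool.Agent.K9h32.HJ
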