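import Pool.Agent.K9h32.HJ.PrepK
import Pool.Agent.K9h32.HJ.MainQ
import Pool.Agent.K9h32.HJ.VelK1
import Pool.Agent.K9h32.HJ.StmF

/-!
# Density of the potentials with escaping orbits in `C^k`, dimensions `n ≥ k + 1`, all flat metrics
-/

set_option autoImplicit false

open Set Filter Topology
open scoped ContDiff

noncomputable section

namespace Pool.Agent.K9h32.HJ.Qk

open Pool.Agent.N980.TL (E Z Trig S_FN S_BND3 S_PER3 S_SUM S_UU S_DIO S_LAM tp th et kap Cls Hg chA chB chA_smooth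
  chB_smooth chA_zero chB_zero pathG pathG_hasDerivAt grad_time val_hasDerivAt hasDerivAt_upd EulerLagrange
  Periodic uu ww ClsLeaf.diff)
open Pool.Agent.K9h32.HJ

theorem mainK (hf : S_FN) (hBND : S_BNDK) (hEng : S_ENGK) (hUU : S_UU) (hSeq : S_SEQK) (hSep : S_SEPK)
    (hIter : S_ITERQ) (hVel : S_VELK1) (hStep : S_STEPK) (hDio : S_DIO) (hLam : S_LAM)
    (k r : ℕ) (hk2 : 2 ≤ k) (hkr : k ≤ r + 1) : MainK k r := by
  intro N0 D B Q hBs hQs hBQ M1 ε δ R hε hδ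
  classical
  have hfn := hf
  obtain ⟨ρ, ν, η, tau, p, hρ0, hρ1, hν0, hν2, hη0, hη, htau0, htau1, htau2, hp⟩ := exponents k r hk2 hkr
  obtain ⟨w0, c1, hc1, hdio⟩ := hDio r tau htau1
  obtain ⟨w, c, e, 𝓕, g1, g2, g3, g4, g5, g6, g7, g8⟩ := hIter (r + 2) N0 D Q hQs p
  have S : SolQ D Q p w c e 𝓕 := ⟨hQs, g1, g2, g3, g4, g5, g6, g7, g8⟩
  obtain ⟨M, hMM, hM1, hvelW⟩ := hVel r Q 𝓕 c S.f1 S.fc M1
  obtain ⟨Λ, CΛ, hCΛ1, hΛ0, hΛs, hΛe, hΛn⟩ := hLam r M
  obtain ⟨W, hW⟩ : ∃ W, W = CΛ * max 1 ‖w0‖ := ⟨_, rfl⟩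
  have hmax1 : 1 ≤ max 1 ‖w0‖ := le_max_left _ _
  have hW0 : 0 ≤ W := by rw [hW]; positivity
  obtain ⟨V0, hV01, hvel⟩ := hvelW W hW0
  have hM1' : (1 : ℝ) ≤ M := by exact_mod_cast hM1
  obtain ⟨Mr, hMr⟩ : ∃ Mr : ℝ, Mr = (M : ℝ) ^ (r + 1) := ⟨_, rfl⟩
  have hMr1 : 1 ≤ Mr := by rw [hMr]; exact one_le_pow₀ hM1'
  have hhalf : (0 : ℝ) < 1 / 2 := by norm_num
  obtain ⟨CΩ, hCΩ1, hseq0⟩ := hSeq ν hν0 (by linarith)
  obtain ⟨Cs, hCs1, hstep⟩ := hStep k (r + 2) N0 D Q B p w c e 𝓕 S hBQ (1 / 2) (CΩ * Mr + (W + 1)) hhalf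
    (by positivity)
  have l1 := fun m => ev_lip (dv m w) 𝓕 hhalf 2 (dv_InF S.fw m) (dv_Ord2 w m)
  choose cl hcl l1 using l1
  obtain ⟨CL, hCL⟩ : ∃ CL, CL = ∑ m, cl m := ⟨_, rfl⟩
  have hCL0 : 0 ≤ CL := by rw [hCL]; exact Finset.sum_nonneg fun m _ => hcl m
  have hclm : ∀ m, cl m ≤ CL := fun m => by
    rw [hCL]; exact Finset.single_le_sum (fun m _ => hcl m) (Finset.mem_univ m)
  have l2 := fun m => ev_lip (dv m c) 𝓕 hhalf 2 (dv_InF S.fc m) (dv_Ord2 c m)
  choose cc hcc l2 using l2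
  obtain ⟨CC, hCC⟩ : ∃ CC, CC = ∑ m, cc m := ⟨_, rfl⟩
  have hCC0 : 0 ≤ CC := by rw [hCC]; exact Finset.sum_nonneg fun m _ => hcc m
  have hccm : ∀ m, cc m ≤ CC := fun m => by
    rw [hCC]; exact Finset.single_le_sum (fun m _ => hcc m) (Finset.mem_univ m)
  have hq0 := Qm.qn_nonneg Q
  obtain ⟨CA, hCA1, hBA⟩ := hBND k (r + 2) chA Cs chA_smooth (by
    intro s hs
    have hs' : s < -1 ∨ 2 < s := by
      by_contra hc
      push Not at hc
      exact hs ⟨by linarith [hc.1], by linarith [hc.2]⟩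
    rcases hs' with h | h
    · filter_upwards [gt_mem_nhds h] with s' hs'
      exact chA_zero (Or.inl (by linarith))
    · filter_upwards [lt_mem_nhds h] with s' hs'
      exact chA_zero (Or.inr (by linarith)))
  obtain ⟨CB, hCB1, hBB⟩ := hBND k (r + 2) chB Cs chB_smooth (by
    intro s hs
    have hs' : s < -1 ∨ 2 < s := by
      by_contra hc
      push Not at hc
      exact hs ⟨by linarith [hc.1], by linarith [hc.2]⟩
    rcases hs' with h | h
    · filter_upwards [gt_mem_nhds h] with s' hs'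
      exact chB_zero (Or.inl (by linarith))
    · filter_upwards [lt_mem_nhds h] with s' hs'
      exact chB_zero (Or.inr (by linarith)))
  -- constants
  obtain ⟨KA, hKA⟩ : ∃ KA, KA = 2 * CΛ := ⟨_, rfl⟩
  have hKA1 : 1 ≤ KA := by rw [hKA]; linarith
  obtain ⟨K4, hK4⟩ : ∃ K4, K4 = (1 + M) * (Cs * (KA + 1)) + 1 + (1 + M) * (Qm.qn Q * (CC * KA)) := ⟨_, rfl⟩
  have hK40 : 0 ≤ K4 := by rw [hK4]; positivity
  obtain ⟨K5, hK5⟩ : ∃ K5, K5 = K4 + (1 + M) * (Qm.qn Q * (CL * (2 * KA))) := ⟨_, rfl⟩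
  obtain ⟨CX, hCX⟩ : ∃ CX, CX = (1 + M) * (1 + Qm.qn Q * CL) + K4 := ⟨_, rfl⟩
  obtain ⟨K, hK⟩ : ∃ K, K = max CA CB := ⟨_, rfl⟩
  have hK1 : 1 ≤ K := by rw [hK]; exact hCA1.trans (le_max_left _ _)
  obtain ⟨BB, hBBd⟩ : ∃ BB : ℕ → ℝ, BB = fun l => K * (Cs * (KA + 1)) * ((2 : ℝ) ^ (-η)) ^ l := ⟨_, rfl⟩
  have hBB0 : ∀ l, 0 ≤ BB l := fun l => by rw [hBBd]; positivity
  have hBBs : Summable BB := by
    rw [hBBd]
    refine (summable_geometric_of_lt_one (by positivity) ?_).mul_left _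
    exact Real.rpow_lt_one_of_one_lt_of_neg (by norm_num) (by linarith)
  -- the choice of the first block
  obtain ⟨Lb, hLb⟩ := hSep r ρ ν tau c1 w0 hρ0 hρ1 hν0 htau0 htau2 hc1 hdio CX
  obtain ⟨Lc, hLc⟩ := uu_factsK hUU K5 ν hν0 hν2
  obtain ⟨Ld, hLd⟩ := sc_large hν0 (V0 + 2 * (W + 2 + Cs) + 2 * |R| + 1 + (W + 2 + Cs) / δ)
  obtain ⟨La, hLa⟩ := sc_large (show (0 : ℝ) < 1 - ν by linarith) KA
  obtain ⟨Le, hLe⟩ := eventually_atTop.1 ((tendsto_sum_nat_add BB).eventually_le_const (half_pos hε))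
  obtain ⟨l0, hl0⟩ : ∃ l0, l0 = La + Lb + Lc + Ld + Le := ⟨_, rfl⟩
  have hl0a : La ≤ l0 := by omega
  have hl0b : Lb ≤ l0 := by omega
  have hl0c : Lc ≤ l0 := by omega
  have hl0d : Ld ≤ l0 := by omega
  have hl0e : Le ≤ l0 := by omega
  obtain ⟨j0, hj0⟩ : ∃ j0, j0 = 2 ^ l0 := ⟨_, rfl⟩
  obtain ⟨Ω, hΩ0, hΩ⟩ := om_existsK ν j0
  have hseq := hseq0 l0 Ω (by rw [← hj0]; exact hΩ0) (by rw [← hj0]; exact hΩ)
  have huu := hLc l0 hl0c
  have hbig := hLd l0 hl0d
  have hbigA := hLa l0 hl0a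
  rw [← hj0] at hseq huu hbig hbigA
  -- the scales
  obtain ⟨V, hVd⟩ : ∃ V : ℕ → ℝ, V = sc ν := ⟨_, rfl⟩
  obtain ⟨A, hAd⟩ : ∃ A : ℕ → ℝ, A = sc (ν - 1) := ⟨_, rfl⟩
  obtain ⟨X, hXd⟩ : ∃ X : ℕ → ℝ, X = sc (-(1 + 2 * ν)) := ⟨_, rfl⟩
  obtain ⟨d, hdd⟩ : ∃ d : ℕ → ℝ, d = sc (-ρ) := ⟨_, rfl⟩
  have hV1 : ∀ j, 1 ≤ V j := fun j => by rw [hVd]; exact one_le_sc hν0.le j
  have hV0 : ∀ j, 0 < V j := fun j => by linarith [hV1 j]
  have hmonoV : ∀ i j, i ≤ j → V i ≤ V j := fun i j hij => by rw [hVd]; exact sc_mono' hν0.le hij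
  have hA0 : ∀ j, 0 < A j := fun j => by rw [hAd]; exact sc_pos _ _
  have hAmono : ∀ j, A (j + 1) ≤ A j := fun j => by rw [hAd]; exact Sepk.sc_mono (by linarith) (by omega)
  have hX0 : ∀ j, 0 < X j := fun j => by rw [hXd]; exact sc_pos _ _
  have hXA : ∀ j, X j ≤ A j := fun j => by rw [hXd, hAd]; exact sc_exp (by linarith) j
  have hAV : ∀ j, A j / V j ^ 3 = X j := fun j => by
    rw [hXd, hAd, hVd, div_eq_mul_inv, sc_pow, sc_inv, sc_add]
    congr 1
    push_cast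
    ring
  have hpV : ∀ j, 1 / V j ^ p ≤ X j := fun j => by
    rw [hXd, hVd, one_div, sc_pow, sc_inv]
    exact sc_exp (by linarith) j
  have hd0 : ∀ j, 0 < d j := fun j => by rw [hdd]; exact sc_pos _ _
  have hd1 : ∀ j, d j ≤ 1 := fun j => by rw [hdd]; exact sc_le_one (by linarith) j
  have hAdV : ∀ j, A j * d j * (V j / d j) ^ k = sc (-η) j := fun j => by
    rw [hAd, hdd, hVd, div_eq_mul_inv, sc_inv, sc_add ν, sc_pow, sc_add, sc_add]
    congr 1
    rw [hη]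
    ring
  have hV0le : ∀ j, j0 ≤ j → V0 ≤ V j := fun j hj => by
    have := hbig j hj
    rw [hVd]
    have h2 : 0 ≤ 2 * (W + 2 + Cs) + 2 * |R| + 1 + (W + 2 + Cs) / δ := by positivity
    linarith
  have hA1 : ∀ j, j0 ≤ j → KA * A j ≤ 1 := fun j hj => by
    have h1 := hbigA j hj
    have h2 : sc (1 - ν) j * A j = 1 := by
      rw [hAd, sc_add]
      have : 1 - ν + (ν - 1) = 0 := by ring
      rw [this, sc_zero]
    rw [← h2]
    exact mul_le_mul_of_nonneg_right h1 (hA0 j).le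
  -- the frequency vectors
  obtain ⟨U, hUd⟩ : ∃ U : ℕ → E (r + 2), U = fun j => Fin.cons (Ω j) (Fin.cons (uu (1 / 64) j) w0) := ⟨_, rfl⟩
  have hU0 : ∀ j, U j 0 = Ω j := fun j => by rw [hUd]; rfl
  have hU1 : ∀ j, U j (Fin.succ 0) = uu (1 / 64) j := fun j => by rw [hUd]; rfl
  have hU2 : ∀ j (m : Fin r), U j m.succ.succ = w0 m := fun j m => by rw [hUd]; rfl
  have hUdiff : ∀ j, j0 ≤ j → ∀ i : Fin (r + 1), |U (j + 1) i.succ - U j i.succ| ≤ X j := by
    intro j hj i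
    refine Fin.cases ?_ (fun m => ?_) i
    · rw [hU1, hU1, hXd]
      exact (huu j hj).2.2.2
    · rw [hU2, hU2, sub_self, abs_zero]
      exact (hX0 j).le
  have hUn : ∀ j, j0 ≤ j → ‖U (j + 1) - U j‖ ≤ A j := by
    intro j hj
    rw [pi_norm_le_iff_of_nonneg (hA0 j).le]
    intro i
    rw [Real.norm_eq_abs]
    refine Fin.cases ?_ (fun m => ?_) i
    · show |U (j + 1) 0 - U j 0| ≤ A j
      rw [hU0, hU0, hΩ j hj, add_sub_cancel_left, hAd, abs_of_pos (sc_pos _ _)]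
    · show |U (j + 1) m.succ - U j m.succ| ≤ A j
      exact (hUdiff j hj m).trans (hXA j)
  obtain ⟨T, hTd⟩ : ∃ T : ℕ → E (r + 2), T = fun j => Λ (U j) := ⟨_, rfl⟩
  have hTdiff : ∀ j, j0 ≤ j → ‖T (j + 1) - T j‖ ≤ CΛ * A j := by
    intro j hj
    rw [hTd]
    show ‖Λ (U (j + 1)) - Λ (U j)‖ ≤ _
    rw [← map_sub]
    exact (hΛn _).trans (mul_le_mul_of_nonneg_left (hUn j hj) (by linarith))
  have hTs : ∀ j (i : Fin (r + 1)), M * T j i.castSucc - T j i.succ = U j i.succ := fun j i => by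
    rw [hTd]; exact hΛs _ i
  have hTW : ∀ j, j0 ≤ j → ‖T j - Ω j • dirM r M‖ ≤ W := by
    intro j hj
    have e1 : dirM r M = Λ (Pi.single 0 1) := by
      funext i
      rw [hΛe i]
      rfl
    rw [hTd, e1]
    show ‖Λ (U j) - Ω j • Λ (Pi.single 0 1)‖ ≤ _
    rw [← map_smul, ← map_sub]
    refine (hΛn _).trans ?_
    rw [hW]
    refine mul_le_mul_of_nonneg_left ?_ (by linarith)
    rw [pi_norm_le_iff_of_nonneg (by positivity)]
    intro i
    rw [Real.norm_eq_abs]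
    refine Fin.cases ?_ (fun m => ?_) i
    · simp only [Pi.sub_apply, Pi.smul_apply, Pi.single_eq_same, smul_eq_mul, mul_one, hU0, sub_self, abs_zero]
      positivity
    · simp only [Pi.sub_apply, Pi.smul_apply, Pi.single_eq_of_ne (Fin.succ_ne_zero m), smul_eq_mul, mul_zero,
        sub_zero]
      refine Fin.cases ?_ (fun m' => ?_) m
      · rw [hU1, abs_of_nonneg (huu j hj).1]
        exact (huu j hj).2.1.trans hmax1
      · rw [hU2]
        exact (norm_le_pi_norm w0 m').trans (le_max_right _ _)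
  -- the velocities
  have hex : ∀ j, ∃ v : E (r + 2), j0 ≤ j → (‖v - T j‖ ≤ 1 ∧
      ∀ i, v i + ∑ k, Q i k * ev (dv k c) 0 v 0 = T j i) := by
    intro j
    by_cases hj : j0 ≤ j
    · obtain ⟨v, hv1, hv2⟩ := (hvel (V j) (hV0le j hj)).2.1 (Ω j) (T j) (by rw [hVd]; exact (hseq j hj).1)
        (hTW j hj)
      exact ⟨v, fun _ => ⟨hv1, hv2⟩⟩
    · exact ⟨0, fun h => absurd h hj⟩
  choose vt hvt using hex
  obtain ⟨vv, hvv⟩ : ∃ vv : ℕ → E (r + 2), vv = fun j => vt (max j j0) := ⟨_, rfl⟩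
  have hvvj : ∀ j, j0 ≤ j → vv j = vt j := fun j hj => by rw [hvv]; simp only [max_eq_left hj]
  have hcone : ∀ j, j0 ≤ j → ∀ v, InW r M (W + 1) (V j) v → NRs 𝓕 (1 / 2) (V j) v := by
    rintro j hj v ⟨Ω', h1, h2⟩
    exact (hvel (V j) (hV0le j hj)).1 Ω' v h1 h2
  have hvW : ∀ j, j0 ≤ j → ‖vv j - Ω j • dirM r M‖ ≤ W + 1 := by
    intro j hj
    rw [hvvj j hj]
    calc ‖vt j - Ω j • dirM r M‖ = ‖(T j - Ω j • dirM r M) + (vt j - T j)‖ := by congr 1; abel
      _ ≤ W + 1 := (norm_add_le _ _).trans (add_le_add (hTW j hj) (hvt j hj).1)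
  have hIn : ∀ j, j0 ≤ j → InW r M (W + 1) (V j) (vv j) := fun j hj =>
    ⟨Ω j, by rw [hVd]; exact (hseq j hj).1, hvW j hj⟩
  have hIn' : ∀ i j, j0 ≤ i → i ≤ j → InW r M (W + 1) (V i) (vv j) := fun i j hi hij =>
    (hIn j (hi.trans hij)).mono (hmonoV i j hij)
  have hIn0 : ∀ j, InW r M (W + 1) (V j0) (vv j) := fun j => by
    by_cases hj : j0 ≤ j
    · exact hIn' j0 j le_rfl hj
    · have : vv j = vv j0 := by
        rw [hvv]; simp only [max_eq_right (not_le.1 hj).le, max_self]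
      rw [this]; exact hIn' j0 j0 le_rfl le_rfl
  have hnr0 : ∀ j s, NRs 𝓕 (1 / 2) (V j0) (vs (vv j) (vv (j + 1)) s) := fun j s =>
    hcone j0 le_rfl _ ((hIn0 j).vs hf (hIn0 (j + 1)) s)
  obtain ⟨G, hGs, hGd, hglue⟩ := Qm.path_exists hf Q hhalf S.fw (hV1 j0) vv hnr0
  have hGsi : ∀ j i, ContDiff ℝ ∞ (fun s => G j s i) := fun j i => (contDiff_apply ℝ ℝ i).comp (hGs j)
  -- the differences of the velocities
  have hdiff : ∀ j, j0 ≤ j → ‖vv (j + 1) - vv j‖ ≤ KA * A j := by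
    intro j hj
    have h1 := hvt j hj
    have h2 := hvt (j + 1) (by omega)
    have h3 : V j ≤ Ω (j + 1) := (hmonoV j (j + 1) (by omega)).trans (by rw [hVd]; exact (hseq (j + 1) (by omega)).1)
    have h4 := (hvel (V j) (hV0le j hj)).2.2 (Ω j) (Ω (j + 1)) (T j) (T (j + 1)) (vt j) (vt (j + 1))
      (by rw [hVd]; exact (hseq j hj).1) h3 (hTW j hj) (hTW (j + 1) (by omega)) h1.1 h2.1 h1.2 h2.2
    rw [hvvj j hj, hvvj (j + 1) (by omega)]
    refine h4.trans ?_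
    rw [hKA]
    linarith [hTdiff j hj]
  have hvn : ∀ j, j0 ≤ j → ‖vv j‖ ≤ (CΩ * Mr + (W + 1)) * V j := fun j hj => by
    have h1 := hvW j hj
    have h2 : ‖vv j‖ ≤ ‖vv j - Ω j • dirM r M‖ + ‖Ω j • dirM r M‖ := by
      have := norm_add_le (vv j - Ω j • dirM r M) (Ω j • dirM r M)
      rwa [sub_add_cancel] at this
    have hs := hseq j hj
    rw [← hVd] at hs
    have h3 : ‖Ω j • dirM r M‖ ≤ CΩ * V j * Mr := by
      rw [norm_smul, Real.norm_eq_abs, abs_of_nonneg (by linarith [hs.1, hV1 j]), hMr]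
      exact mul_le_mul hs.2 (Qm.dirM_norm hM1) (norm_nonneg _) (by have := hV0 j; positivity)
    have h4 : (W + 1 : ℝ) ≤ (W + 1) * V j := le_mul_of_one_le_right (by linarith) (hV1 j)
    calc ‖vv j‖ ≤ (W + 1) + CΩ * V j * Mr := by linarith
      _ ≤ _ := by linarith
  -- the estimates of one step
  have hst := fun j (hj : j0 ≤ j) => hstep (V j) (KA * A j) (vv j) (vv (j + 1)) (G j) (hV1 j)
    (mul_nonneg (by linarith) (hA0 j).le) (hA1 j hj) (hdiff j hj) (hvn j hj)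
    (fun s => hcone j hj _ ((hIn j hj).vs hf (hIn' j (j + 1) hj (by omega)) s)) (hGs j) (hGd j)
  -- the normalized positions
  obtain ⟨nn, hnn⟩ : ∃ nn : ℕ → ℝ → E (r + 2), nn = fun j σ => Qm.nrm Q w (vv j) (vv (j + 1)) (G j) σ := ⟨_, rfl⟩
  have hnn0 : ∀ j, nn (j + 1) 0 = nn j 1 := fun j => by
    rw [hnn]
    refine Qm.nrm_glue hf Q (vv j) (vv (j + 1)) (vv (j + 1 + 1)) ?_
    have := hglue j 1 (by norm_num) (by norm_num)
    rw [this, sub_self]
  have hacX : ∀ j, KA * A j / V j ^ 3 + 1 / V j ^ p ≤ (KA + 1) * X j := by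
    intro j
    rw [mul_div_assoc, hAV j, add_mul, one_mul]
    linarith [hpV j]
  have hnb : ∀ j, j0 ≤ j → ∀ i, ∀ σ, -1 ≤ σ → σ ≤ 1 → |nn j σ i - nn j 0 i - σ * T j i -
      th σ * (vv (j + 1) i - vv j i)| ≤ Cs * (KA + 1) * X j := by
    intro j hj i σ h0 h1
    have h2 := (hst j hj).2.2.2.1 i σ ⟨h0, by linarith⟩
    have h3 := (hvt j hj).2 i
    rw [← hvvj j hj] at h3
    rw [h3] at h2
    rw [hnn]
    refine h2.trans ?_
    calc Cs * (KA * A j / V j ^ 3 + 1 / V j ^ p) ≤ Cs * ((KA + 1) * X j) := by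
          have := hacX j
          gcongr
      _ = _ := by ring
  -- the slow coordinates
  obtain ⟨cb, hcb⟩ : ∃ cb : ℕ → ℝ → Fin (r + 1) → ℝ, cb = fun j σ i => M * nn j σ i.castSucc - nn j σ i.succ :=
    ⟨_, rfl⟩
  have hslow : ∀ j, j0 ≤ j → ∀ i : Fin (r + 1), |M * (vv (j + 1) i.castSucc - vv j i.castSucc) -
      (vv (j + 1) i.succ - vv j i.succ)| ≤ X j + (1 + M) * (Qm.qn Q * (CC * KA)) * X j := by
    intro j hj i
    have h1 := fun i => (hvt j hj).2 i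
    have h2 := fun i => (hvt (j + 1) (by omega)).2 i
    rw [← hvvj j hj] at h1
    rw [← hvvj (j + 1) (by omega)] at h2
    have h10 := h1 i.castSucc
    have h11 := h1 i.succ
    have h20 := h2 i.castSucc
    have h21 := h2 i.succ
    have hd : ∀ i : Fin (r + 2), |∑ k, Q i k * (ev (dv k c) 0 (vv (j + 1)) 0 - ev (dv k c) 0 (vv j) 0)| ≤
        Qm.qn Q * (CC * KA * X j) := by
      intro i
      have hXj := (hX0 j).le
      refine Qm.absQ_le Q i (by positivity) fun k => ?_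
      have h3 := l2 k (V j) (vv j) (vv (j + 1)) (hV1 j)
        (fun τ hτ => hcone j hj _ ((hIn j hj).conv (hIn' j (j + 1) hj (by omega)) hτ)) 0 0 0
      rw [sub_self, norm_zero, mul_zero, zero_add] at h3
      refine h3.trans ?_
      have h4 := hdiff j hj
      have h6 := hccm k
      have h7 := (hA0 j).le
      have h8 := hV0 j
      calc cc k / V j ^ (2 + 1) * ‖vv (j + 1) - vv j‖ ≤ CC / V j ^ (2 + 1) * (KA * A j) := by gcongr
        _ = CC * KA * (A j / V j ^ 3) := by ring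
        _ = _ := by rw [hAV]
    have h3 := hUdiff j hj i
    have e5 : M * (vv (j + 1) i.castSucc - vv j i.castSucc) - (vv (j + 1) i.succ - vv j i.succ) =
        (U (j + 1) i.succ - U j i.succ) -
        M * (∑ k, Q i.castSucc k * (ev (dv k c) 0 (vv (j + 1)) 0 - ev (dv k c) 0 (vv j) 0)) +
        ∑ k, Q i.succ k * (ev (dv k c) 0 (vv (j + 1)) 0 - ev (dv k c) 0 (vv j) 0) := by
      rw [← hTs, ← hTs]
      simp only [mul_sub, Finset.sum_sub_distrib]
      linear_combination M * h20 - M * h10 - h21 + h11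
    rw [e5]
    have a1 := hd i.succ
    have a0 := hd i.castSucc
    refine (abs_add_le _ _).trans ?_
    refine (add_le_add (abs_sub _ _) le_rfl).trans ?_
    rw [abs_mul, abs_of_nonneg (by linarith : (0 : ℝ) ≤ M)]
    have a2 : M * |∑ k, Q i.castSucc k * (ev (dv k c) 0 (vv (j + 1)) 0 - ev (dv k c) 0 (vv j) 0)| ≤
        M * (Qm.qn Q * (CC * KA * X j)) := mul_le_mul_of_nonneg_left a0 (by linarith)
    calc _ ≤ X j + M * (Qm.qn Q * (CC * KA * X j)) + Qm.qn Q * (CC * KA * X j) :=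
          add_le_add (add_le_add h3 a2) a1
      _ = _ := by ring
  have hc1' : ∀ j, j0 ≤ j → ∀ σ, -1 ≤ σ → σ ≤ 1 → ∀ i,
      |cb j σ i - cb j 0 i - σ * U j i.succ| ≤ K4 * X j := by
    intro j hj σ h0 h1 i
    have h20 := hnb j hj i.castSucc σ h0 h1
    have h21 := hnb j hj i.succ σ h0 h1
    have h3 := Qm.th_le hf h0 h1
    have h4 := hslow j hj i
    rw [hcb]
    show |M * nn j σ i.castSucc - nn j σ i.succ - (M * nn j 0 i.castSucc - nn j 0 i.succ) - σ * U j i.succ| ≤ _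
    have e5 : M * nn j σ i.castSucc - nn j σ i.succ - (M * nn j 0 i.castSucc - nn j 0 i.succ) - σ * U j i.succ =
        M * (nn j σ i.castSucc - nn j 0 i.castSucc - σ * T j i.castSucc -
          th σ * (vv (j + 1) i.castSucc - vv j i.castSucc)) -
        (nn j σ i.succ - nn j 0 i.succ - σ * T j i.succ - th σ * (vv (j + 1) i.succ - vv j i.succ)) +
        th σ * (M * (vv (j + 1) i.castSucc - vv j i.castSucc) - (vv (j + 1) i.succ - vv j i.succ)) := by
      rw [← hTs]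
      ring
    rw [e5]
    refine (abs_add_le _ _).trans ?_
    refine (add_le_add (abs_sub _ _) le_rfl).trans ?_
    rw [abs_mul, abs_mul, abs_of_nonneg (by linarith : (0 : ℝ) ≤ M)]
    have h6 : |th σ| * |M * (vv (j + 1) i.castSucc - vv j i.castSucc) - (vv (j + 1) i.succ - vv j i.succ)| ≤
        X j + (1 + M) * (Qm.qn Q * (CC * KA)) * X j := by
      calc _ ≤ 1 * |M * (vv (j + 1) i.castSucc - vv j i.castSucc) - (vv (j + 1) i.succ - vv j i.succ)| := by
            gcongr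
        _ ≤ _ := by rw [one_mul]; exact h4
    have h7 : M * |nn j σ i.castSucc - nn j 0 i.castSucc - σ * T j i.castSucc -
        th σ * (vv (j + 1) i.castSucc - vv j i.castSucc)| ≤ M * (Cs * (KA + 1) * X j) :=
      mul_le_mul_of_nonneg_left h20 (by linarith)
    calc _ ≤ M * (Cs * (KA + 1) * X j) + Cs * (KA + 1) * X j +
          (X j + (1 + M) * (Qm.qn Q * (CC * KA)) * X j) := add_le_add (add_le_add h7 h21) h6
      _ = K4 * X j := by rw [hK4]; ring
  have hc2' : ∀ j, j0 ≤ j → ∀ i, |cb (j + 1) 0 i - cb j 0 i - U j i.succ| ≤ K4 * X j := by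
    intro j hj i
    have h1 := hc1' j hj 1 (by norm_num) le_rfl i
    rw [one_mul] at h1
    have : cb (j + 1) 0 i = cb j 1 i := by rw [hcb]; simp only [hnn0]
    rw [this]; exact h1
  have hK45 : K4 ≤ K5 := by
    rw [hK5]
    have : 0 ≤ (1 + M) * (Qm.qn Q * (CL * (2 * KA))) := by positivity
    linarith
  have hK4X : K4 ≤ CX := by
    rw [hCX]
    have : 0 ≤ (1 + M) * (1 + Qm.qn Q * CL) := by positivity
    linarith
  have huX : ∀ j, j0 ≤ j → K5 * X j ≤ uu (1 / 64) j / 100 := by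
    intro j hj
    have := (huu j hj).2.2.1
    rw [← hXd] at this
    linarith
  have huX4 : ∀ j, j0 ≤ j → K4 * X j ≤ uu (1 / 64) j / 100 := fun j hj =>
    (mul_le_mul_of_nonneg_right hK45 (hX0 j).le).trans (huX j hj)
  have hsep := hLb l0 hl0b (fun j σ => cb j σ 0) (fun j σ m => cb j σ m.succ)
    (by
      rw [← hj0]
      intro j hj σ h0 h1
      have h2 := hc1' j hj σ h0 h1 0
      rw [hU1] at h2
      exact h2.trans (huX4 j hj))
    (by
      rw [← hj0]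
      intro j hj
      have h2 := hc2' j hj 0
      rw [hU1] at h2
      exact h2.trans (huX4 j hj))
    (by
      rw [← hj0]
      intro j hj σ h0 h1 m
      have h2 := hc1' j hj σ h0 h1 m.succ
      rw [hU2] at h2
      rw [← hXd]
      exact h2.trans (mul_le_mul_of_nonneg_right hK4X (hX0 j).le))
    (by
      rw [← hj0]
      intro j hj m
      have h2 := hc2' j hj m.succ
      rw [hU2] at h2
      rw [← hXd]
      exact h2.trans (mul_le_mul_of_nonneg_right hK4X (hX0 j).le))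
  rw [← hj0, ← hdd] at hsep
  -- the tubes are disjoint
  have hνd : ∀ σ k, j0 ≤ k → ‖vs (vv (k + 1)) (vv (k + 1 + 1)) σ - vs (vv k) (vv (k + 1)) σ‖ ≤
      2 * KA * A k := by
    intro σ k hk
    obtain ⟨-, -, -, -, -, -, h01, -⟩ := hfn
    have a1 := hdiff k hk
    have a2 : ‖vv (k + 1 + 1) - vv (k + 1)‖ ≤ KA * A k :=
      (hdiff (k + 1) (by omega)).trans (mul_le_mul_of_nonneg_left (hAmono k) (by linarith))
    have e1 : vs (vv (k + 1)) (vv (k + 1 + 1)) σ - vs (vv k) (vv (k + 1)) σ =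
        (1 - tp σ) • (vv (k + 1) - vv k) + tp σ • (vv (k + 1 + 1) - vv (k + 1)) := by
      funext i
      simp only [vs, Pi.sub_apply, Pi.add_apply, Pi.smul_apply, smul_eq_mul]
      ring
    rw [e1]
    refine (norm_add_le _ _).trans ?_
    rw [norm_smul, norm_smul, Real.norm_eq_abs, Real.norm_eq_abs, abs_of_nonneg (h01 σ).1,
      abs_of_nonneg (by linarith [(h01 σ).2] : (0 : ℝ) ≤ 1 - tp σ)]
    have t0 := (h01 σ).1
    have t1 := (h01 σ).2
    have hX : 0 ≤ KA * A k := mul_nonneg (by linarith) (hA0 k).le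
    calc (1 - tp σ) * ‖vv (k + 1) - vv k‖ + tp σ * ‖vv (k + 1 + 1) - vv (k + 1)‖ ≤
          1 * (KA * A k) + 1 * (KA * A k) := by
            refine add_le_add ?_ ?_
            · exact mul_le_mul (by linarith) a1 (norm_nonneg _) zero_le_one
            · exact mul_le_mul t1 a2 (norm_nonneg _) zero_le_one
      _ = _ := by ring
  have hdisj : ∀ i j, 2 ^ l0 ≤ i → i < j → ∀ σ : ℝ, -1 ≤ σ → σ ≤ 1 → ∀ x : E (r + 2),
      (∀ m, |Real.sin (Real.pi * (x m - G i σ m))| ≤ d i) →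
      (∀ m, |Real.sin (Real.pi * (x m - G j σ m))| ≤ d j) → False := by
    intro i j hi hij σ h0 h1 x q1 q2
    rw [← hj0] at hi
    have n1 := fun m => near_int (q1 m)
    have n2 := fun m => near_int (q2 m)
    choose k1 n1 using n1
    choose k2 n2 using n2
    obtain ⟨kk, hkk⟩ : ∃ kk : Fin (r + 2) → ℤ, kk = fun m => k1 m - k2 m := ⟨_, rfl⟩
    have hδ : ∀ m, |G j σ m - G i σ m - kk m| ≤ d i + d j := by
      intro m
      have e1 : G j σ m - G i σ m - kk m = (x m - G i σ m - k1 m) - (x m - G j σ m - k2 m) := by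
        rw [hkk]; push_cast; ring
      rw [e1]
      refine (abs_sub _ _).trans ?_
      linarith [n1 m, n2 m, hd0 i, hd0 j]
    obtain ⟨x', hx'⟩ : ∃ x' : E (r + 2), x' = fun m => G j σ m - kk m := ⟨_, rfl⟩
    have hGx : G j σ = fun m => x' m + kk m := by
      funext m; rw [hx']; ring
    have hxd : ‖x' - G i σ‖ ≤ d i + d j := by
      rw [pi_norm_le_iff_of_nonneg (by linarith [hd0 i, hd0 j])]
      intro m
      rw [Real.norm_eq_abs]
      have : (x' - G i σ) m = G j σ m - G i σ m - kk m := by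
        rw [hx']; show G j σ m - kk m - G i σ m = _; ring
      rw [this]; exact hδ m
    obtain ⟨T', hT'⟩ : ∃ T', T' = ∑ k ∈ Finset.Ico i j, (CL * (2 * KA)) * X k := ⟨_, rfl⟩
    have hT0 : 0 ≤ T' := by
      rw [hT']
      refine Finset.sum_nonneg fun k _ => ?_
      have := (hX0 k).le
      positivity
    have hevd : ∀ l, |ev (dv l w) (G j σ) (vs (vv j) (vv (j + 1)) σ) σ -
        ev (dv l w) (G i σ) (vs (vv i) (vv (i + 1)) σ) σ| ≤ CL * (d i + d j) + T' := by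
      intro l
      rw [hGx, ev_space]
      have t1 := teleK (L := dv l w) (𝓕 := 𝓕) (C := cl l) (κ := 1 / 2) V
        (fun k => vs (vv k) (vv (k + 1)) σ) (j0 := j0) (l1 l) (fun k _ => hV1 k)
        (fun k hk τ hτ => hcone k hk _ (((hIn k hk).vs hf (hIn' k (k + 1) hk (by omega)) σ).conv
          ((hIn' k (k + 1) hk (by omega)).vs hf (hIn' k (k + 1 + 1) hk (by omega)) σ) hτ))
        hi hij.le x' σ
      have t2 : ∑ k ∈ Finset.Ico i j, cl l / V k ^ 3 *
          ‖vs (vv (k + 1)) (vv (k + 1 + 1)) σ - vs (vv k) (vv (k + 1)) σ‖ ≤ T' := by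
        rw [hT']
        refine Finset.sum_le_sum fun k hk => ?_
        have hk' : j0 ≤ k := hi.trans (Finset.mem_Ico.1 hk).1
        have h0' := hV0 k
        have h2 := hclm l
        calc cl l / V k ^ 3 * ‖vs (vv (k + 1)) (vv (k + 1 + 1)) σ - vs (vv k) (vv (k + 1)) σ‖ ≤
              CL / V k ^ 3 * (2 * KA * A k) := by
                have := hνd σ k hk'
                gcongr
          _ = CL * (2 * KA) * (A k / V k ^ 3) := by ring
          _ = _ := by rw [hAV]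
      have t3 := l1 l (V i) (vs (vv i) (vv (i + 1)) σ) (vs (vv i) (vv (i + 1)) σ) (hV1 i)
        (fun τ _ => by
          have := hcone i hi _ ((hIn i hi).vs hf (hIn' i (i + 1) hi (by omega)) σ)
          simpa using this) (G i σ) x' σ
      rw [sub_self, norm_zero, mul_zero, add_zero] at t3
      have t4 : cl l / V i ^ 2 * ‖x' - G i σ‖ ≤ CL * (d i + d j) := by
        have h2 : cl l / V i ^ 2 ≤ CL :=
          (div_le_self (hcl l) (one_le_pow₀ (hV1 i))).trans (hclm l)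
        exact mul_le_mul h2 hxd (norm_nonneg _) hCL0
      calc _ = |(ev (dv l w) x' (vs (vv j) (vv (j + 1)) σ) σ - ev (dv l w) x' (vs (vv i) (vv (i + 1)) σ) σ) +
            (ev (dv l w) x' (vs (vv i) (vv (i + 1)) σ) σ -
              ev (dv l w) (G i σ) (vs (vv i) (vv (i + 1)) σ) σ)| := by congr 1; ring
        _ ≤ T' + CL * (d i + d j) := (abs_add_le _ _).trans (add_le_add (t1.trans t2) (t3.trans t4))
        _ = _ := by ring
    have hnd : ∀ m, |nn j σ m - nn i σ m - kk m| ≤ (1 + Qm.qn Q * CL) * (d i + d j) + Qm.qn Q * T' := by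
      intro m
      have e1 : nn j σ m - nn i σ m - kk m = (G j σ m - G i σ m - kk m) +
          ∑ l, Q m l * (ev (dv l w) (G j σ) (vs (vv j) (vv (j + 1)) σ) σ -
            ev (dv l w) (G i σ) (vs (vv i) (vv (i + 1)) σ) σ) := by
        rw [hnn]
        simp only [Qm.nrm, mul_sub, Finset.sum_sub_distrib]
        ring
      rw [e1]
      have hdd : 0 ≤ d i + d j := by linarith [hd0 i, hd0 j]
      have h2 := Qm.absQ_le Q m (X := CL * (d i + d j) + T') (by positivity) hevd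
      calc _ ≤ (d i + d j) + Qm.qn Q * (CL * (d i + d j) + T') := (abs_add_le _ _).trans (add_le_add (hδ m) h2)
        _ = _ := by ring
    have hTu : (1 + M) * (Qm.qn Q * T') ≤ (∑ k ∈ Finset.Ico i j, uu (1 / 64) k) / 100 := by
      rw [hT', Finset.mul_sum, Finset.mul_sum, Finset.sum_div]
      refine Finset.sum_le_sum fun k hk => ?_
      have hk' : j0 ≤ k := hi.trans (Finset.mem_Ico.1 hk).1
      have h3 : (1 + M) * (Qm.qn Q * (CL * (2 * KA))) ≤ K5 := by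
        rw [hK5]
        linarith
      calc (1 + M) * (Qm.qn Q * (CL * (2 * KA) * X k)) = ((1 + M) * (Qm.qn Q * (CL * (2 * KA)))) * X k := by
            ring
        _ ≤ K5 * X k := mul_le_mul_of_nonneg_right h3 (hX0 k).le
        _ ≤ uu (1 / 64) k / 100 := huX k hk'
    have hdd : 0 ≤ d i + d j := by linarith [hd0 i, hd0 j]
    have hCXd : (1 + M) * ((1 + Qm.qn Q * CL) * (d i + d j)) ≤ CX * (d i + d j) := by
      rw [← mul_assoc]
      refine mul_le_mul_of_nonneg_right ?_ hdd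
      rw [hCX]
      linarith
    have hcm : ∀ m : Fin (r + 1), |cb j σ m - cb i σ m - ((M * kk m.castSucc - kk m.succ : ℤ) : ℝ)| ≤
        CX * (d i + d j) + (∑ k ∈ Finset.Ico i j, uu (1 / 64) k) / 100 := by
      intro m
      have e1 : cb j σ m - cb i σ m - ((M * kk m.castSucc - kk m.succ : ℤ) : ℝ) =
          M * (nn j σ m.castSucc - nn i σ m.castSucc - kk m.castSucc) -
          (nn j σ m.succ - nn i σ m.succ - kk m.succ) := by
        rw [hcb]; push_cast; ring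
      rw [e1]
      refine (abs_sub _ _).trans ?_
      rw [abs_mul, abs_of_nonneg (by linarith : (0 : ℝ) ≤ M)]
      have h2 := hnd m.succ
      have h3 : M * |nn j σ m.castSucc - nn i σ m.castSucc - kk m.castSucc| ≤
          M * ((1 + Qm.qn Q * CL) * (d i + d j) + Qm.qn Q * T') :=
        mul_le_mul_of_nonneg_left (hnd m.castSucc) (by linarith)
      have e2 : (1 + M) * ((1 + Qm.qn Q * CL) * (d i + d j)) + (1 + M) * (Qm.qn Q * T') =
          ((1 + Qm.qn Q * CL) * (d i + d j) + Qm.qn Q * T') + M * ((1 + Qm.qn Q * CL) * (d i + d j) + Qm.qn Q * T') := by ring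
      linarith
    exact hsep i j hi hij σ h0 h1 (M * kk (Fin.castSucc 0) - kk (Fin.succ 0))
      (fun m => M * kk m.succ.castSucc - kk m.succ.succ) (hcm 0) (fun m => hcm m.succ)
  -- the bounds of the bump potentials
  have hlog : ∀ l, ∀ j ∈ Finset.Ico (2 ^ l) (2 ^ (l + 1)), Nat.log 2 j = l := by
    intro l j hj
    rw [Finset.mem_Ico] at hj
    have hj0 : j ≠ 0 := by have : 0 < 2 ^ l := by positivity
                           omega
    exact (Nat.log_eq_iff (Or.inr ⟨by norm_num, hj0⟩)).2 hj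
  have hbdg : ∀ (ch : ℝ → ℝ) (Cx : ℝ), Cx ≤ K → 1 ≤ Cx → (∀ (g F : ℝ → Fin (r + 2) → ℝ) (d V ρ : ℝ), 0 < d → d ≤ 1 →
      1 ≤ V → 0 ≤ ρ → (∀ i, ContDiff ℝ ∞ (fun s => g s i)) → (∀ i, Cls k V (Cs * V) (deriv fun s => g s i)) →
      (∀ i, Cls k V ρ (fun s => F s i)) →
      ContDiff ℝ ∞ (Hg ch g F d) ∧ ∀ (i : ℕ), i ≤ k → ∀ q : Z (r + 2),
        ‖iteratedFDeriv ℝ i (Hg ch g F d) q‖ ≤ Cx * ρ * d * (V / d) ^ k) →
      ∀ l, l0 ≤ l → ∀ j ∈ Finset.Ico (2 ^ l) (2 ^ (l + 1)),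
      ContDiff ℝ ∞ (Hg ch (G j) (Qm.FB B D (G j)) (d j)) ∧ ∀ i ≤ k, ∀ q,
        ‖iteratedFDeriv ℝ i (Hg ch (G j) (Qm.FB B D (G j)) (d j)) q‖ ≤ BB l := by
    intro ch Cx hCx hCx1 hh l hl j hj
    have hjj : j0 ≤ j := by
      rw [hj0]
      exact (Nat.pow_le_pow_right (by norm_num) hl).trans (Finset.mem_Ico.1 hj).1
    obtain ⟨s1, s2, s3, -, -⟩ := hst j hjj
    have hacj := (hA0 j).le
    have hVj := hV0 j
    have hρ : 0 ≤ Cs * (KA * A j + 1 / V j ^ p) := by positivity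
    obtain ⟨u1, u2⟩ := hh (G j) (Qm.FB B D (G j)) (d j) (V j) _ (hd0 j) (hd1 j) (hV1 j) hρ s1 s2 s3
    refine ⟨u1, fun i hi q => (u2 i hi q).trans ?_⟩
    have hdp := hd0 j
    have h5 : 1 / V j ^ p ≤ A j := (hpV j).trans (hXA j)
    have e2 : BB l = K * (Cs * (KA + 1)) * sc (-η) j := by
      rw [hBBd]
      unfold sc
      show K * (Cs * (KA + 1)) * ((2 : ℝ) ^ (-η)) ^ l = _
      rw [hlog l j hj, ← Real.rpow_natCast, ← Real.rpow_mul (by norm_num)]
    rw [e2, ← hAdV j]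
    calc Cx * (Cs * (KA * A j + 1 / V j ^ p)) * d j * (V j / d j) ^ k ≤
          K * (Cs * (KA * A j + A j)) * d j * (V j / d j) ^ k := by gcongr
      _ = _ := by ring
  obtain ⟨F, f1, f2, f3, f4⟩ := hEng k (r + 2) (by omega) G (fun j => Qm.FB B D (G j)) d l0 BB ε
    (fun j _ i => hGsi j i) hglue (Qm.FB_glue B D hglue) hd0 hdisj
    (hbdg chA CA (by rw [hK]; exact le_max_left _ _) hCA1 hBA)
    (hbdg chB CB (by rw [hK]; exact le_max_right _ _) hCB1 hBB)
    hBB0 hBBs (hLe l0 hl0e)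
  -- the orbit
  have hpos : ∀ t : ℝ, 0 ≤ t → 2 ^ l0 ≤ ⌊t + 2 ^ l0⌋₊ ∧ t + 2 ^ l0 - ⌊t + 2 ^ l0⌋₊ = Int.fract t := by
    intro t ht
    constructor
    · exact Nat.le_floor (by push_cast; linarith)
    · have h1 : ((⌊t + 2 ^ l0⌋₊ : ℕ) : ℝ) = (⌊t + 2 ^ l0⌋ : ℤ) := by
        rw [natCast_floor_eq_intCast_floor (by positivity)]
      rw [h1]
      have h2 : t + 2 ^ l0 - (⌊t + 2 ^ l0⌋ : ℤ) = Int.fract (t + ((2 ^ l0 : ℕ) : ℝ)) := by
        push_cast
        rfl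
      rw [h2, Int.fract_add_natCast]
  have hjr1 : (1 : ℝ) ≤ (2 : ℝ) ^ l0 := one_le_pow₀ (by norm_num)
  have hder : ∀ t : ℝ, 0 ≤ t →
      HasDerivAt (fun t => pathG G (t + 2 ^ l0)) (fun i => deriv (fun s => G ⌊t + 2 ^ l0⌋₊ s i) (Int.fract t)) t ∧
      HasDerivAt (deriv fun t => pathG G (t + 2 ^ l0))
        (fun i => deriv (deriv fun s => G ⌊t + 2 ^ l0⌋₊ s i) (Int.fract t)) t := by
    intro t ht
    have hT : 1 ≤ t + 2 ^ l0 := by linarith
    obtain ⟨h1, h2⟩ := pathG_hasDerivAt hglue hT (hGsi _)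
    rw [(hpos t ht).2] at h1 h2
    refine ⟨h1.comp_add_const t ((2 : ℝ) ^ l0), ?_⟩
    have e : (deriv (fun t => pathG G (t + 2 ^ l0))) = fun x => deriv (pathG G) (x + 2 ^ l0) := by
      funext x
      exact deriv_comp_add_const (f := pathG G) ((2 : ℝ) ^ l0) x
    rw [e]
    exact h2.comp_add_const t ((2 : ℝ) ^ l0)
  have hvel0 : ∀ t : ℝ, 0 ≤ t → ∃ Ω' : ℝ, R ≤ Ω' ∧ V ⌊t + 2 ^ l0⌋₊ ≤ Ω' ∧
      ‖deriv (fun t => pathG G (t + 2 ^ l0)) t - Ω' • dirM r M‖ ≤ δ * Ω' := by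
    intro t ht
    rw [(hder t ht).1.deriv]
    have hjm := (hpos t ht).1
    rw [← hj0] at hjm
    obtain ⟨j, hj⟩ : ∃ j, j = ⌊t + 2 ^ l0⌋₊ := ⟨_, rfl⟩
    rw [← hj] at hjm ⊢
    have h1 := fun i => (hst j hjm).2.2.2.2 i (Int.fract t)
    obtain ⟨Ω', w1, w2⟩ := (hIn j hjm).vs hf (hIn' j (j + 1) hjm (by omega)) (Int.fract t)
    have h4 : Cs / V j ≤ Cs := div_le_self (by linarith) (hV1 j)
    have h5 := hbig j hjm
    rw [← hVd] at h5
    have hp1 : 0 ≤ V0 + 2 * (W + 2 + Cs) + 1 + (W + 2 + Cs) / δ := by positivity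
    have hp2 : 0 ≤ V0 + 2 * (W + 2 + Cs) + 2 * |R| + 1 := by positivity
    refine ⟨Ω', ?_, w1, ?_⟩
    · linarith [le_abs_self R, abs_nonneg R]
    · have h7 : ‖(fun i => deriv (fun s => G j s i) (Int.fract t) : E (r + 2)) -
          vs (vv j) (vv (j + 1)) (Int.fract t)‖ ≤ Cs := by
        rw [pi_norm_le_iff_of_nonneg (by linarith)]
        intro i
        rw [Real.norm_eq_abs]
        exact (h1 i).trans h4
      have h8 : (W + 2 + Cs) / δ ≤ Ω' := by linarith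
      have h9 : W + 2 + Cs ≤ δ * Ω' := by
        rw [div_le_iff₀ hδ] at h8
        linarith
      calc ‖(fun i => deriv (fun s => G j s i) (Int.fract t) : E (r + 2)) - Ω' • dirM r M‖ =
            ‖((fun i => deriv (fun s => G j s i) (Int.fract t) : E (r + 2)) -
              vs (vv j) (vv (j + 1)) (Int.fract t)) +
              (vs (vv j) (vv (j + 1)) (Int.fract t) - Ω' • dirM r M)‖ := by congr 1; abel
        _ ≤ Cs + (W + 1) := (norm_add_le _ _).trans (add_le_add h7 w2)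
        _ ≤ δ * Ω' := by linarith
  refine ⟨M, F, fun t => pathG G (t + 2 ^ l0), 1 / (2 : ℝ) ^ ν, ν, hMM, by positivity, hν0,
    f1, f2, f3, fun t ht => ?_, ?_⟩
  · obtain ⟨Ω', w1, w2, w3⟩ := hvel0 t ht
    refine ⟨Ω', w1, le_trans ?_ w2, w3⟩
    have hjm := (hpos t ht).1
    obtain ⟨j, hj⟩ : ∃ j, j = ⌊t + 2 ^ l0⌋₊ := ⟨_, rfl⟩
    rw [← hj] at hjm ⊢
    have n2 : t ≤ 2 ^ (Nat.log 2 j + 1) := by
      have h1 : t + 2 ^ l0 < j + 1 := by rw [hj]; exact Nat.lt_floor_add_one _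
      have h2 : (j : ℝ) + 1 ≤ 2 ^ (Nat.log 2 j + 1) := by
        have := Nat.lt_pow_succ_log_self (b := 2) (by norm_num) j
        exact_mod_cast this
      linarith
    have n3 : t ^ ν ≤ (2 : ℝ) ^ ν * V j := by
      calc t ^ ν ≤ ((2 : ℝ) ^ (Nat.log 2 j + 1)) ^ ν := Real.rpow_le_rpow ht n2 hν0.le
        _ = (2 : ℝ) ^ ν * V j := by
          rw [hVd]
          unfold sc
          rw [← Real.rpow_add (by norm_num), ← Real.rpow_natCast, ← Real.rpow_mul (by norm_num)]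
          congr 1
          push_cast
          ring
    have h2ν : (0 : ℝ) < (2 : ℝ) ^ ν := by positivity
    calc 1 / (2 : ℝ) ^ ν * t ^ ν ≤ 1 / (2 : ℝ) ^ ν * ((2 : ℝ) ^ ν * V j) := by gcongr
      _ = V j := by field_simp
  · intro t ht
    obtain ⟨d1, d2⟩ := hder t ht.le
    refine Qm.el_of_newtonB (R := -1) (L := fun _ v _ => Qm.quad B v) hBs (fun _ _ _ _ => rfl)
      d1.differentiableAt d2 (lt_of_lt_of_le (by norm_num) (norm_nonneg _)) ?_
    intro i
    have hp := hpos t ht.le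
    have hpath : pathG G (t + 2 ^ l0) = G ⌊t + 2 ^ l0⌋₊ (Int.fract t) := by
      show G ⌊t + 2 ^ l0⌋₊ (t + 2 ^ l0 - ⌊t + 2 ^ l0⌋₊) = _
      rw [hp.2]
    simp only [hpath]
    have hjm := hp.1
    set j := ⌊t + 2 ^ l0⌋₊ with hj
    set s := Int.fract t with hs
    have g1 := val_hasDerivAt D (G j s) t i
    have g2 : D.grad (G j s) t i = D.grad (G j s) s i := by
      have := grad_time D (G j s) s ⌊t⌋ i
      rw [← this]
      congr 1
      rw [hs]
      have := Int.floor_add_fract t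
      linarith
    have g3 : HasDerivAt (fun u => F (Function.update (G j s) i u, t)) (Qm.FB B D (G j) s i) (G j s i) := by
      have h1 : HasFDerivAt F (fderiv ℝ F (G j s, t)) (Function.update (G j s) i (G j s i), t) := by
        rw [Function.update_eq_self]
        exact (f1.differentiable (by
          have : k ≠ 0 := by omega
          exact_mod_cast this) _).hasFDerivAt
      have h2 := h1.comp_hasDerivAt (G j s i) (hasDerivAt_upd (G j s) i t (G j s i))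
      rw [f4 j hjm t i] at h2
      exact h2
    refine (g1.add g3).congr_deriv ?_
    rw [g2]
    simp only [Qm.FB]
    ring

end Pool.Agent.K9h32.HJ.Qk
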