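import Pool.Agent.K9h32.HJ.StmK2

/-!
# Leaf SEQK (helper98 for helper32): the fast velocity
-/

set_option autoImplicit false

open Set Filter Topology
open scoped ContDiff

noncomputable section

namespace Pool.Agent.K9h32.HJ

open Pool.Agent.N980.TL

namespace SeqK

lemma log_succ_cases (j : ℕ) (hj : 1 ≤ j) :
    Nat.log 2 (j + 1) = Nat.log 2 j ∨ (Nat.log 2 (j + 1) = Nat.log 2 j + 1 ∧ j + 1 = 2 ^ (Nat.log 2 j + 1)) := by
  have h0 : j ≠ 0 := by omega
  have h1 : 2 ^ Nat.log 2 j ≤ j := Nat.pow_log_le_self 2 h0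
  have h2 : j < 2 ^ (Nat.log 2 j + 1) := Nat.lt_pow_succ_log_self (by norm_num) j
  rcases Nat.lt_or_ge (j + 1) (2 ^ (Nat.log 2 j + 1)) with h | h
  · left
    exact (Nat.log_eq_iff (Or.inr ⟨by norm_num, by omega⟩)).2 ⟨by omega, h⟩
  · right
    have h3 : j + 1 = 2 ^ (Nat.log 2 j + 1) := by omega
    refine ⟨?_, h3⟩
    rw [h3, Nat.log_pow (by norm_num)]

end SeqK

open SeqK in
theorem seqk_all : S_SEQK := by
  intro ν hν0 hν1
  obtain ⟨a, ha⟩ : ∃ a : ℝ, a = (2 : ℝ) ^ ν := ⟨_, rfl⟩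
  have ha1 : 1 < a := by
    rw [ha]
    exact Real.one_lt_rpow (by norm_num) hν0
  have ha2 : a ≤ 2 := by
    rw [ha]
    calc (2 : ℝ) ^ ν ≤ (2 : ℝ) ^ (1 : ℝ) := Real.rpow_le_rpow_of_exponent_le (by norm_num) hν1.le
      _ = 2 := Real.rpow_one 2
  obtain ⟨D, hD⟩ : ∃ D : ℝ, D = 1 + 1 / (a - 1) := ⟨_, rfl⟩
  have ha0 : 0 < a - 1 := by linarith
  have hD1 : 1 ≤ D := by
    rw [hD]
    have : 0 ≤ 1 / (a - 1) := by positivity
    linarith
  have hD2 : D + 1 ≤ D * a := by
    have h1 : D * (a - 1) = a := by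
      rw [hD]
      field_simp
      ring
    nlinarith
  refine ⟨D + 1, by linarith, ?_⟩
  intro l0 Ω h0 hs
  have hpos : ∀ j, 2 ^ l0 ≤ j → 1 ≤ j := fun j hj => le_trans (Nat.one_le_two_pow) hj
  have key : ∀ j, 2 ^ l0 ≤ j → sc ν j + ((j : ℝ) - 2 ^ Nat.log 2 j) * sc (ν - 1) j ≤ Ω j ∧
      Ω j ≤ D * sc ν j + ((j : ℝ) - 2 ^ Nat.log 2 j) * sc (ν - 1) j := by
    intro j hj
    induction j, hj using Nat.le_induction with
    | base =>
      rw [h0, Nat.log_pow (by norm_num)]
      push_cast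
      rw [sub_self, zero_mul, add_zero, add_zero]
      refine ⟨le_rfl, ?_⟩
      have : 0 ≤ sc ν (2 ^ l0) := by unfold sc; positivity
      nlinarith
    | succ j hj ih =>
      rw [hs j hj]
      have hj1 := hpos j hj
      rcases log_succ_cases j hj1 with h | ⟨h, h'⟩
      · have e1 : sc ν (j + 1) = sc ν j := by unfold sc; rw [h]
        have e2 : sc (ν - 1) (j + 1) = sc (ν - 1) j := by unfold sc; rw [h]
        rw [e1, e2, h]
        push_cast
        constructor
        · nlinarith [ih.1]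
        · nlinarith [ih.2]
      · have e0 : ((j + 1 : ℕ) : ℝ) = 2 ^ (Nat.log 2 j + 1) := by
          rw [h']
          push_cast
          rfl
        have e1 : sc ν (j + 1) = a * sc ν j := by
          unfold sc
          rw [h, ha, ← Real.rpow_add (by norm_num)]
          congr 1
          push_cast
          ring
        have e3 : (2 : ℝ) ^ Nat.log 2 j * sc (ν - 1) j = sc ν j := by
          unfold sc
          rw [← Real.rpow_natCast, ← Real.rpow_add (by norm_num)]
          congr 1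
          ring
        have e4 : (j : ℝ) = 2 ^ (Nat.log 2 j + 1) - 1 := by
          rw [← e0]; push_cast; ring
        have e5 : ((j : ℝ) - 2 ^ Nat.log 2 j) * sc (ν - 1) j = sc ν j - sc (ν - 1) j := by
          rw [e4, pow_succ]
          linear_combination e3
        have hp : 0 ≤ sc ν j := by unfold sc; positivity
        rw [h, e0, e1, sub_self, zero_mul, add_zero, add_zero]
        rw [e5] at ih
        constructor
        · nlinarith [ih.1]
        · nlinarith [ih.2]
  intro j hj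
  obtain ⟨k1, k2⟩ := key j hj
  have hj1 := hpos j hj
  have h1 : 2 ^ Nat.log 2 j ≤ j := Nat.pow_log_le_self 2 (by omega)
  have h2 : j < 2 ^ (Nat.log 2 j + 1) := Nat.lt_pow_succ_log_self (by norm_num) j
  have h1' : (2 : ℝ) ^ Nat.log 2 j ≤ j := by exact_mod_cast h1
  have h2' : (j : ℝ) < 2 ^ (Nat.log 2 j + 1) := by exact_mod_cast h2
  have hq : 0 ≤ sc (ν - 1) j := by unfold sc; positivity
  have e3 : (2 : ℝ) ^ Nat.log 2 j * sc (ν - 1) j = sc ν j := by
    unfold sc
    rw [← Real.rpow_natCast, ← Real.rpow_add (by norm_num)]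
    congr 1
    ring
  have h3 : ((j : ℝ) - 2 ^ Nat.log 2 j) * sc (ν - 1) j ≤ sc ν j := by
    rw [← e3]
    refine mul_le_mul_of_nonneg_right ?_ hq
    rw [pow_succ] at h2'
    linarith
  constructor
  · have : 0 ≤ ((j : ℝ) - 2 ^ Nat.log 2 j) * sc (ν - 1) j := mul_nonneg (by linarith) hq
    linarith
  · linarith

end Pool.Agent.K9h32.HJ
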