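import Pool.Agent.K9h32.HJ.StmK2

/-!
# Leaf STEPK: one step, in `C^k`
-/

set_option autoImplicit false

open Set Filter Topology
open scoped ContDiff

noncomputable section

namespace Pool.Agent.K9h32.HJ

open Pool.Agent.N980.TL

namespace Qm.Sk

variable {n N : ℕ} {D : Trig n N} {Q B : Fin n → Fin n → ℝ} {p : ℕ} {w c e : List (Atom n)}
  {𝓕 : List ((Fin n → ℤ) × ℤ)}

/-- the bootstrap of the smoothness of the path -/
theorem boot (hf : S_FN) (S : SolQ D Q p w c e 𝓕) {κ : ℝ} (hκ : 0 < κ) (K0 : ℝ) (hK0 : 0 ≤ K0) (m : ℕ) :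
    ∃ K : ℝ, 0 ≤ K ∧ ∀ (V A : ℝ) (v v' : E n) (z : ℝ → E n), 1 ≤ V → 0 ≤ A → A ≤ 1 → ‖v' - v‖ ≤ A →
      ‖v‖ ≤ K0 * V → (∀ s, NRs 𝓕 κ V (vs v v' s)) → ContDiff ℝ ∞ z →
      (∀ s, HasDerivAt z (fld Q w v v' s (z s)) s) → Crv 𝓕 κ K V m z (vs v v') := by
  have hfn := hf
  obtain ⟨hths, htps, hets, -, hth, htp, h01, hth0, -, hkap, -⟩ := hf
  have hq0 : 0 ≤ qn Q := qn_nonneg Q
  have hdi : ∀ (A : ℝ) (v v' : E n), ‖v' - v‖ ≤ A → ∀ i, |v' i - v i| ≤ A := fun A v v' hvA i => by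
    have := norm_le_pi_norm (v' - v) i
    rw [Real.norm_eq_abs] at this
    exact this.trans hvA
  have hvi : ∀ (V : ℝ) (v : E n), ‖v‖ ≤ K0 * V → ∀ i, |v i| ≤ K0 * V := fun V v hv i => by
    have := norm_le_pi_norm v i
    rw [Real.norm_eq_abs] at this
    exact this.trans hv
  have hνd : ∀ (v v' : E n) i, (deriv fun s => vs v v' s i) = fun s => (v' i - v i) * et s :=
    fun v v' i => funext fun s => by
      have h := vs_deriv hfn v v' s i
      rw [h.deriv]; ring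
  have hzd : ∀ (v v' : E n) (z : ℝ → E n), (∀ s, HasDerivAt z (fld Q w v v' s (z s)) s) →
      ∀ i, (deriv fun s => z s i) = fun s => vel Q w (z s) (vs v v' s) s i := fun v v' z hz i => by
    funext s
    exact ((hasDerivAt_pi.1 (hz s)) i).deriv
  induction m with
  | zero =>
    obtain ⟨Ke, hKe1, hKe⟩ := smooth_cls 0 hets
    have b1 := fun i => ev_bound (dx i w) 𝓕 hκ 1 (dx_InF S.fw i) (dx_Ord1 S.ow i)
    choose C1 hC1 b1 using b1
    obtain ⟨S1, hS1⟩ : ∃ S1, S1 = ∑ i, C1 i := ⟨_, rfl⟩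
    have hC1s : 0 ≤ S1 := by rw [hS1]; exact Finset.sum_nonneg fun i _ => hC1 i
    have hl1 : ∀ i, C1 i ≤ S1 := fun i => by
      rw [hS1]; exact Finset.single_le_sum (fun i _ => hC1 i) (Finset.mem_univ i)
    refine ⟨K0 + 1 + qn Q * S1 + Ke, by positivity, fun V A v v' z hV hA0 hA1 hvA hv hnr hzs hz => ?_⟩
    have hV0 : 0 < V := by linarith
    have hzsi : ∀ i, ContDiff ℝ ∞ (fun s => z s i) := fun i => (contDiff_apply ℝ ℝ i).comp hzs
    have hb1 : ∀ i s, |∑ j, Q i j * ev (dx j w) (z s) (vs v v' s) s| ≤ qn Q * (S1 / V) := fun i s => by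
      refine absQ_le Q i (by positivity) fun j => ?_
      refine (b1 j V (vs v v' s) hV (hnr s) (z s) s).trans ?_
      rw [pow_one]
      have := hl1 j
      gcongr
    have hνb : ∀ s i, |vs v v' s i - v i| ≤ A := fun s i => by
      show |v i + tp s * (v' i - v i) - v i| ≤ A
      have e : v i + tp s * (v' i - v i) - v i = tp s * (v' i - v i) := by ring
      rw [e, abs_mul, abs_of_nonneg (h01 s).1]
      exact (mul_le_of_le_one_left (abs_nonneg _) (h01 s).2).trans (hdi A v v' hvA i)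
    refine ⟨hzsi, fun i => cls_zero (ClsLeaf.smooth_deriv (hzsi i)) fun s hs => ?_, vs_smooth hfn v v',
      fun i => ?_, hnr⟩
    · rw [hzd v v' z hz]
      have h2 := hb1 i s
      have h3 : |vs v v' s i| ≤ K0 * V + A := by
        calc |vs v v' s i| = |v i + (vs v v' s i - v i)| := by ring_nf
          _ ≤ |v i| + |vs v v' s i - v i| := abs_add_le _ _
          _ ≤ _ := add_le_add (hvi V v hv i) (hνb s i)
      have h4 : qn Q * (S1 / V) ≤ qn Q * S1 * V := by
        have h5 : S1 / V ≤ S1 * V := (div_le_self hC1s hV).trans (le_mul_of_one_le_right hC1s hV)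
        calc qn Q * (S1 / V) ≤ qn Q * (S1 * V) := by gcongr
          _ = _ := by ring
      have h6 : 0 ≤ Ke * V := by positivity
      calc |vel Q w (z s) (vs v v' s) s i| ≤ |vs v v' s i| +
            |∑ j, Q i j * ev (dx j w) (z s) (vs v v' s) s| := abs_add_le _ _
        _ ≤ (K0 * V + A) + qn Q * S1 * V := add_le_add h3 (h2.trans h4)
        _ ≤ (K0 + 1 + qn Q * S1 + Ke) * V := by linarith
    · rw [hνd]
      refine ClsLeaf.mono hV0.le ?_ (ClsLeaf.cmul (v' i - v i) (hKe V hV))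
      have h1 := (hdi A v v' hvA i).trans hA1
      have h2 : |v' i - v i| * Ke ≤ 1 * Ke := by gcongr
      have : 0 ≤ K0 + 1 + qn Q * S1 := by positivity
      linarith
  | succ m ih =>
    obtain ⟨K, hK, ih⟩ := ih
    obtain ⟨Ke, hKe1, hKe⟩ := smooth_cls (m + 1) hets
    obtain ⟨Kt, hKt1, hKt⟩ := smooth_cls (m + 1) htps
    have d1 := fun i => ev_cls (dx i w) 𝓕 κ K hκ hK m 1 (dx_InF S.fw i) (dx_Ord1 S.ow i)
    choose C5 hC5 d1 using d1
    obtain ⟨S5, hS5⟩ : ∃ S5, S5 = ∑ i, C5 i := ⟨_, rfl⟩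
    have hC5s : 0 ≤ S5 := by rw [hS5]; exact Finset.sum_nonneg fun i _ => hC5 i
    have hl5 : ∀ i, C5 i ≤ S5 := fun i => by
      rw [hS5]; exact Finset.single_le_sum (fun i _ => hC5 i) (Finset.mem_univ i)
    refine ⟨K0 + Kt + qn Q * S5 + Ke, by positivity, fun V A v v' z hV hA0 hA1 hvA hv hnr hzs hz => ?_⟩
    have hV0 : 0 < V := by linarith
    have crv := ih V A v v' z hV hA0 hA1 hvA hv hnr hzs hz
    refine ⟨crv.zs, fun i => ?_, crv.νs, fun i => ?_, hnr⟩
    · rw [hzd v v' z hz]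
      have hνtp : Cls (m + 1) V (K0 * V + Kt) (fun s => vs v v' s i) := by
        have h2 := ClsLeaf.add (ClsLeaf.const (m + 1) V (v i) hV0.le) (ClsLeaf.cmul (v' i - v i) (hKt V hV))
        have e : (fun s => v i + (v' i - v i) * tp s) = fun s => vs v v' s i := by
          funext s; simp only [vs]; ring
        rw [e] at h2
        refine ClsLeaf.mono hV0.le (add_le_add (hvi V v hv i) ?_) h2
        have := (hdi A v v' hvA i).trans hA1
        nlinarith [abs_nonneg (v' i - v i)]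
      have k1 : Cls (m + 1) V (∑ j, |Q i j| * (C5 j / V ^ 1))
          (fun s => ∑ j, Q i j * ev (dx j w) (z s) (vs v v' s) s) :=
        cls_sum _ hV0.le fun j _ => ClsLeaf.cmul _ (d1 j V z (vs v v') hV crv)
      refine ClsLeaf.mono hV0.le ?_ (ClsLeaf.add hνtp k1)
      have h1 : ∑ j, |Q i j| * (C5 j / V ^ 1) ≤ qn Q * S5 * V := by
        have h2 : ∀ j, C5 j / V ^ 1 ≤ S5 * V := fun j => by
          rw [pow_one]
          exact ((div_le_self (hC5 j) hV).trans (hl5 j)).trans (le_mul_of_one_le_right hC5s hV)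
        calc _ ≤ qn Q * (S5 * V) := sumQ_le Q i (by positivity) h2
          _ = _ := by ring
      have h2 : Kt ≤ Kt * V := le_mul_of_one_le_right (by linarith) hV
      have h3 : 0 ≤ Ke * V := by positivity
      calc K0 * V + Kt + ∑ j, |Q i j| * (C5 j / V ^ 1) ≤ K0 * V + Kt * V + qn Q * S5 * V := by linarith
        _ ≤ (K0 + Kt + qn Q * S5 + Ke) * V := by linarith
    · rw [hνd]
      refine ClsLeaf.mono hV0.le ?_ (ClsLeaf.cmul (v' i - v i) (hKe V hV))
      have h1 := (hdi A v v' hvA i).trans hA1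
      have h2 : |v' i - v i| * Ke ≤ 1 * Ke := by gcongr
      have : 0 ≤ K0 + Kt + qn Q * S5 := by positivity
      linarith

theorem step (hf : S_FN) (k : ℕ) (S : SolQ D Q p w c e 𝓕) (hBQ : ∀ i k, ∑ j, B i j * Q j k = if i = k then 1 else 0)
    {κ : ℝ} (hκ : 0 < κ) (K0 : ℝ) (hK0 : 0 ≤ K0) :
    ∃ C : ℝ, 1 ≤ C ∧ ∀ (V A : ℝ) (v v' : E n) (z : ℝ → E n), 1 ≤ V → 0 ≤ A → A ≤ 1 → ‖v' - v‖ ≤ A →
      ‖v‖ ≤ K0 * V → (∀ s, NRs 𝓕 κ V (vs v v' s)) → ContDiff ℝ ∞ z →
      (∀ s, HasDerivAt z (fld Q w v v' s (z s)) s) →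
      (∀ i, ContDiff ℝ ∞ (fun s => z s i)) ∧
      (∀ i, Cls k V (C * V) (deriv fun s => z s i)) ∧
      (∀ i, Cls k V (C * (A + 1 / V ^ p)) (fun s => FB B D z s i)) ∧
      (∀ i, ∀ s ∈ Icc (-1 : ℝ) 2, |nrm Q w v v' z s i - nrm Q w v v' z 0 i -
        s * (v i + ∑ j, Q i j * ev (dv j c) 0 v 0) - th s * (v' i - v i)| ≤ C * (A / V ^ 3 + 1 / V ^ p)) ∧
      (∀ i s, |deriv (fun s => z s i) s - vs v v' s i| ≤ C / V) := by
  have hfn := hf
  obtain ⟨hths, htps, hets, -, hth, htp, h01, hth0, -, hkap, -⟩ := hf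
  obtain ⟨Ke, hKe1, hKe⟩ := smooth_cls k hets
  have hq0 : 0 ≤ qn Q := qn_nonneg Q
  have hb0 : 0 ≤ qn B := qn_nonneg B
  -- bounds of the values
  have b1 := fun i => ev_bound (dx i w) 𝓕 hκ 1 (dx_InF S.fw i) (dx_Ord1 S.ow i)
  choose C1 hC1 b1 using b1
  have hC1s : 0 ≤ ∑ i, C1 i := Finset.sum_nonneg fun i _ => hC1 i
  have b2 := fun i => ev_lip (dv i c) 𝓕 hκ 2 (dv_InF S.fc i) (dv_Ord2 c i)
  choose C2 hC2 b2 using b2
  have hC2s : 0 ≤ ∑ i, C2 i := Finset.sum_nonneg fun i _ => hC2 i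
  have b3 := fun i => ev_bound (dv i e) 𝓕 hκ p (dv_InF S.fe i) (fun a ha => (Nat.le_succ p).trans (dv_Ord S.oe i a ha))
  choose C3 hC3 b3 using b3
  have hC3s : 0 ≤ ∑ i, C3 i := Finset.sum_nonneg fun i _ => hC3 i
  have b4 := fun i j => ev_bound (dv j (dv i w)) 𝓕 hκ 3 (dv_InF (dv_InF S.fw i) j) (dv_Ord (dv_Ord2 w i) j)
  choose C4 hC4 b4 using b4
  have hC4s : 0 ≤ ∑ i, ∑ j, C4 i j := Finset.sum_nonneg fun i _ => Finset.sum_nonneg fun j _ => hC4 i j
  -- constants for the classes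
  obtain ⟨K2, hK20, hboot⟩ := boot hfn S hκ K0 hK0 k
  have d2 := fun i => ev_cls (dx i e) 𝓕 κ K2 hκ hK20 k p (dx_InF S.fe i) (dx_Ord S.oe i)
  choose C6 hC6 d2 using d2
  have hC6s : 0 ≤ ∑ i, C6 i := Finset.sum_nonneg fun i _ => hC6 i
  have d3 := fun i j => ev_cls (dv j (dx i w)) 𝓕 κ K2 hκ hK20 k 0 (dv_InF (dx_InF S.fw i) j)
    (fun a _ => Nat.zero_le _)
  choose C7 hC7 d3 using d3
  have hC7s : 0 ≤ ∑ i, ∑ j, C7 i j := Finset.sum_nonneg fun i _ => Finset.sum_nonneg fun j _ => hC7 i j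
  -- the constants
  obtain ⟨S1, hS1⟩ : ∃ S1, S1 = ∑ i, C1 i := ⟨_, rfl⟩
  obtain ⟨S2, hS2⟩ : ∃ S2, S2 = ∑ i, C2 i := ⟨_, rfl⟩
  obtain ⟨S3, hS3⟩ : ∃ S3, S3 = ∑ i, C3 i := ⟨_, rfl⟩
  obtain ⟨S4, hS4⟩ : ∃ S4, S4 = ∑ i, ∑ j, C4 i j := ⟨_, rfl⟩
  obtain ⟨S6, hS6⟩ : ∃ S6, S6 = ∑ i, C6 i := ⟨_, rfl⟩
  obtain ⟨S7, hS7⟩ : ∃ S7, S7 = ∑ i, ∑ j, C7 i j := ⟨_, rfl⟩
  rw [← hS1] at hC1s
  rw [← hS2] at hC2s
  rw [← hS3] at hC3s
  rw [← hS4] at hC4s
  rw [← hS6] at hC6s
  rw [← hS7] at hC7s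
  have hl1 : ∀ i, C1 i ≤ S1 := fun i => by
    rw [hS1]; exact Finset.single_le_sum (fun i _ => hC1 i) (Finset.mem_univ i)
  have hl2 : ∀ i, C2 i ≤ S2 := fun i => by
    rw [hS2]; exact Finset.single_le_sum (fun i _ => hC2 i) (Finset.mem_univ i)
  have hl3 : ∀ i, C3 i ≤ S3 := fun i => by
    rw [hS3]; exact Finset.single_le_sum (fun i _ => hC3 i) (Finset.mem_univ i)
  have hl4 : ∀ i, ∑ j, C4 i j ≤ S4 := fun i => by
    rw [hS4]; exact Finset.single_le_sum (f := fun i => ∑ j, C4 i j)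
      (fun i _ => Finset.sum_nonneg fun j _ => hC4 i j) (Finset.mem_univ i)
  have hl6 : ∀ i, C6 i ≤ S6 := fun i => by
    rw [hS6]; exact Finset.single_le_sum (fun i _ => hC6 i) (Finset.mem_univ i)
  have hl7 : ∀ i, ∑ j, C7 i j ≤ S7 := fun i => by
    rw [hS7]; exact Finset.single_le_sum (f := fun i => ∑ j, C7 i j)
      (fun i _ => Finset.sum_nonneg fun j _ => hC7 i j) (Finset.mem_univ i)
  obtain ⟨C, hCd⟩ : ∃ C, C = 1 + K2 + qn Q * S1 + 2 * (qn Q * (S2 + S3 + Ke * S4)) + qn B * Ke +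
    S6 + 2 ^ k * Ke * S7 := ⟨_, rfl⟩
  have hCK2 : K2 ≤ C := by
    have : 0 ≤ 1 + qn Q * S1 + 2 * (qn Q * (S2 + S3 + Ke * S4)) + qn B * Ke + S6 + 2 ^ k * Ke * S7 := by positivity
    linarith
  have hC1' : 1 ≤ C := by
    have : 0 ≤ K2 + qn Q * S1 + 2 * (qn Q * (S2 + S3 + Ke * S4)) + qn B * Ke + S6 + 2 ^ k * Ke * S7 := by positivity
    linarith
  refine ⟨C, hC1', fun V A v v' z hV hA0 hA1 hvA hv hnr hzs hz => ?_⟩
  have hV0 : 0 < V := by linarith
  have hzi : ∀ i s, HasDerivAt (fun s => z s i) (vel Q w (z s) (vs v v' s) s i) s :=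
    fun i s => (hasDerivAt_pi.1 (hz s)) i
  have hνi : ∀ i s, HasDerivAt (fun s => vs v v' s i) (et s * (v' i - v i)) s := fun i s =>
    vs_deriv hfn v v' s i
  have hνs : ∀ i, ContDiff ℝ ∞ (fun s => vs v v' s i) := vs_smooth hfn v v'
  have hzsi : ∀ i, ContDiff ℝ ∞ (fun s => z s i) := fun i => (contDiff_apply ℝ ℝ i).comp hzs
  have hdi : ∀ i, |v' i - v i| ≤ A := fun i => by
    have := norm_le_pi_norm (v' - v) i
    rw [Real.norm_eq_abs] at this
    exact this.trans hvA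
  have hvi : ∀ i, |v i| ≤ K0 * V := fun i => by
    have := norm_le_pi_norm v i
    rw [Real.norm_eq_abs] at this
    exact this.trans hv
  have hνb : ∀ s, ‖vs v v' s - v‖ ≤ A := fun s => by
    rw [pi_norm_le_iff_of_nonneg hA0]
    intro i
    show |v i + tp s * (v' i - v i) - v i| ≤ A
    have e : v i + tp s * (v' i - v i) - v i = tp s * (v' i - v i) := by ring
    rw [e, abs_mul, abs_of_nonneg (h01 s).1]
    exact (mul_le_of_le_one_left (abs_nonneg _) (h01 s).2).trans (hdi i)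
  have hzd : ∀ i, (deriv fun s => z s i) = fun s => vel Q w (z s) (vs v v' s) s i :=
    fun i => funext fun s => (hzi i s).deriv
  have hνd : ∀ i, (deriv fun s => vs v v' s i) = fun s => (v' i - v i) * et s :=
    fun i => funext fun s => by rw [(hνi i s).deriv]; ring
  have hb1 : ∀ i s, |∑ j, Q i j * ev (dx j w) (z s) (vs v v' s) s| ≤ qn Q * (S1 / V) := fun i s => by
    refine absQ_le Q i (by positivity) fun j => ?_
    refine (b1 j V (vs v v' s) hV (hnr s) (z s) s).trans ?_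
    rw [pow_one]
    have := hl1 j
    gcongr
  have crv1 : Crv 𝓕 κ K2 V k z (vs v v') := hboot V A v v' z hV hA0 hA1 hvA hv hnr hzs hz
  have hvne : ∀ s, ∀ f ∈ 𝓕, fac f (vs v v' s) ≠ 0 := fun s f hf => (hnr s).ne hκ hV0 hf
  refine ⟨hzsi, fun i => ?_, fun i => ?_, fun i s hs => ?_, fun i s => ?_⟩
  · exact ClsLeaf.mono hV0.le (by gcongr) (crv1.zc i)
  · -- the force
    have e1 : (fun s => FB B D z s i) = fun s => (∑ j, (B i j * (v' j - v j)) * et s) +
        (ev (dx i e) (z s) (vs v v' s) s +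
        ∑ j, (v' j - v j) * (et s * ev (dv j (dx i w)) (z s) (vs v v' s) s)) := by
      funext s
      have h1 := fun j => S.acc (fun i => hνi i s) (hvne s) (fun i => hzi i s) j
      simp only [FB]
      have e0 : ∀ j, deriv (deriv fun s => z s j) s = et s * (v' j - v j) + ∑ k, Q j k * (D.grad (z s) s k +
          (ev (dx k e) (z s) (vs v v' s) s + ∑ l, et s * (v' l - v l) * ev (dv l (dx k w)) (z s) (vs v v' s) s)) :=
        fun j => by rw [hzd, (h1 j).deriv]
      simp only [e0, mul_add, Finset.sum_add_distrib]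
      have e3 : ∀ x : Fin n → ℝ, ∑ j, B i j * ∑ k, Q j k * x k = x i := by
        intro x
        have : ∀ j, B i j * ∑ k, Q j k * x k = ∑ k, (B i j * Q j k) * x k := fun j => by
          rw [Finset.mul_sum]; exact Finset.sum_congr rfl fun k _ => by ring
        rw [Finset.sum_congr rfl fun j _ => this j, Finset.sum_comm]
        have e4 : ∀ k, ∑ j, B i j * Q j k * x k = (if i = k then 1 else 0) * x k := fun k => by
          rw [← Finset.sum_mul, hBQ]
        rw [Finset.sum_congr rfl fun k _ => e4 k]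
        simp
      rw [e3, e3, e3]
      have e2 : ∑ j, et s * (v' j - v j) * ev (dv j (dx i w)) (z s) (vs v v' s) s =
          ∑ j, (v' j - v j) * (et s * ev (dv j (dx i w)) (z s) (vs v v' s) s) :=
        Finset.sum_congr rfl fun j _ => by ring
      rw [e2]
      have e5 : ∑ j, B i j * (et s * (v' j - v j)) = ∑ j, (B i j * (v' j - v j)) * et s :=
        Finset.sum_congr rfl fun j _ => by ring
      rw [e5]
      ring
    rw [e1]
    have k1 : Cls k V (∑ j, |B i j * (v' j - v j)| * Ke) (fun s => ∑ j, (B i j * (v' j - v j)) * et s) :=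
      cls_sum _ hV0.le fun j _ => ClsLeaf.cmul _ (hKe V hV)
    have k2 := ClsLeaf.less (d2 i V z (vs v v') hV crv1)
    have k3 : Cls k V (∑ j, |v' j - v j| * (2 ^ k * Ke * C7 i j)) (fun s =>
        ∑ j, (v' j - v j) * (et s * ev (dv j (dx i w)) (z s) (vs v v' s) s)) := by
      refine cls_sum _ hV0.le fun j _ => ClsLeaf.cmul _ (ClsLeaf.mul hV0.le (by linarith) (hC7 i j) (hKe V hV) ?_)
      have := ClsLeaf.less (d3 i j V z (vs v v') hV crv1)
      rwa [pow_zero, div_one] at this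
    refine ClsLeaf.mono hV0.le ?_ (ClsLeaf.add k1 (ClsLeaf.add k2 k3))
    have m1 : ∑ j, |B i j * (v' j - v j)| * Ke ≤ (qn B * Ke) * A := by
      have e2 : ∀ j ∈ Finset.univ, |B i j * (v' j - v j)| * Ke = |B i j| * (|v' j - v j| * Ke) := fun j _ => by
        rw [abs_mul]; ring
      rw [Finset.sum_congr rfl e2]
      calc _ ≤ qn B * (A * Ke) := sumQ_le B i (by positivity) fun j =>
            mul_le_mul_of_nonneg_right (hdi j) (by linarith)
        _ = _ := by ring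
    have m2 : C6 i / V ^ p ≤ C * (1 / V ^ p) := by
      rw [mul_one_div]
      gcongr
      refine (hl6 i).trans ?_
      have : 0 ≤ 1 + K2 + qn Q * S1 + 2 * (qn Q * (S2 + S3 + Ke * S4)) + qn B * Ke + 2 ^ k * Ke * S7 := by positivity
      linarith
    have m3 : ∑ j, |v' j - v j| * (2 ^ k * Ke * C7 i j) ≤ (2 ^ k * Ke * S7) * A := by
      have : ∀ j ∈ Finset.univ, |v' j - v j| * (2 ^ k * Ke * C7 i j) ≤ (2 ^ k * Ke * A) * C7 i j := by
        intro j _
        have h1 := hdi j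
        have h2 := hC7 i j
        have h3 : 0 ≤ 2 ^ k * Ke * C7 i j := by positivity
        calc |v' j - v j| * (2 ^ k * Ke * C7 i j) ≤ A * (2 ^ k * Ke * C7 i j) := by gcongr
          _ = _ := by ring
      refine (Finset.sum_le_sum this).trans ?_
      rw [← Finset.mul_sum]
      have h4 := hl7 i
      calc 2 ^ k * Ke * A * ∑ j, C7 i j ≤ 2 ^ k * Ke * A * S7 := by gcongr
        _ = _ := by ring
    have m4 : (qn B * Ke) * A + (2 ^ k * Ke * S7) * A ≤ C * A := by
      rw [← add_mul]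
      gcongr
      have : 0 ≤ 1 + K2 + qn Q * S1 + 2 * (qn Q * (S2 + S3 + Ke * S4)) + S6 := by positivity
      linarith
    calc (∑ j, |B i j * (v' j - v j)| * Ke) + (C6 i / V ^ p + ∑ j, |v' j - v j| * (2 ^ k * Ke * C7 i j)) ≤
          (qn B * Ke) * A + (C * (1 / V ^ p) + (2 ^ k * Ke * S7) * A) := by
            exact add_le_add m1 (add_le_add m2 m3)
      _ ≤ C * (A + 1 / V ^ p) := by rw [mul_add]; linarith
  · -- the normalized position
    obtain ⟨X, hX⟩ : ∃ X, X = A / V ^ 3 + 1 / V ^ p := ⟨_, rfl⟩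
    have hX0 : 0 ≤ X := by rw [hX]; positivity
    have hXA : A / V ^ 3 ≤ X := by
      have : 0 ≤ 1 / V ^ p := by positivity
      rw [hX]; linarith
    have hXp : 1 / V ^ p ≤ X := by
      have : 0 ≤ A / V ^ 3 := by positivity
      rw [hX]; linarith
    have hcc : ∀ j, ∀ a ∈ dv j c, a.k = 0 ∧ a.m = 0 := fun j => dv_const S.oc j
    set h : ℝ → ℝ := fun s => nrm Q w v v' z s i - s * (v i + ∑ j, Q i j * ev (dv j c) 0 v 0) -
      th s * (v' i - v i) with hh
    have hd : ∀ s ∈ Icc (-1 : ℝ) 2, HasDerivWithinAt h (vs v v' s i +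
        ∑ j, Q i j * (ev (dv j c) (z s) (vs v v' s) s + (ev (dv j e) (z s) (vs v v' s) s +
          ∑ l, et s * (v' l - v l) * ev (dv l (dv j w)) (z s) (vs v v' s) s)) -
        1 * (v i + ∑ j, Q i j * ev (dv j c) 0 v 0) - tp s * (v' i - v i)) (Icc (-1 : ℝ) 2) s := by
      intro s _
      have h1 := S.drift (fun i => hνi i s) (hvne s) (fun i => hzi i s) i
      exact ((h1.fun_sub ((hasDerivAt_id s).mul_const _)).fun_sub ((hth s).mul_const _)).hasDerivWithinAt
    have hbd : ∀ s ∈ Icc (-1 : ℝ) 2, ‖vs v v' s i +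
        ∑ j, Q i j * (ev (dv j c) (z s) (vs v v' s) s + (ev (dv j e) (z s) (vs v v' s) s +
          ∑ l, et s * (v' l - v l) * ev (dv l (dv j w)) (z s) (vs v v' s) s)) -
        1 * (v i + ∑ j, Q i j * ev (dv j c) 0 v 0) - tp s * (v' i - v i)‖ ≤
        qn Q * ((S2 + S3 + Ke * S4) * X) := by
      intro s hs
      have e1 : vs v v' s i +
        ∑ j, Q i j * (ev (dv j c) (z s) (vs v v' s) s + (ev (dv j e) (z s) (vs v v' s) s +
          ∑ l, et s * (v' l - v l) * ev (dv l (dv j w)) (z s) (vs v v' s) s)) -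
        1 * (v i + ∑ j, Q i j * ev (dv j c) 0 v 0) - tp s * (v' i - v i) =
        ∑ j, Q i j * ((ev (dv j c) 0 (vs v v' s) 0 - ev (dv j c) 0 v 0) + (ev (dv j e) (z s) (vs v v' s) s +
          ∑ l, et s * (v' l - v l) * ev (dv l (dv j w)) (z s) (vs v v' s) s)) := by
        have e2 : ∀ j, ev (dv j c) (z s) (vs v v' s) s = ev (dv j c) 0 (vs v v' s) 0 := fun j =>
          ev_const (hcc j) _ _ _
        simp only [e2, mul_add, mul_sub, Finset.sum_add_distrib, Finset.sum_sub_distrib]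
        simp only [vs]
        ring
      rw [e1, Real.norm_eq_abs]
      refine absQ_le Q i (by positivity) fun j => ?_
      have q1 : |ev (dv j c) 0 (vs v v' s) 0 - ev (dv j c) 0 v 0| ≤ S2 * X := by
        have hseg : ∀ τ ∈ Icc (0 : ℝ) 1, NRs 𝓕 κ V (fun i => v i + τ * (vs v v' s i - v i)) := by
          intro τ hτ
          have hIVT : ∃ s', tp s' = τ * tp s := by
            have hc : Continuous tp := htps.continuous
            have ht0 : tp 0 = 0 := (hth0 0 (by norm_num)).2.1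
            have hm : τ * tp s ∈ uIcc (tp 0) (tp s) := by
              rw [ht0, uIcc_of_le (h01 s).1]
              exact ⟨mul_nonneg hτ.1 (h01 s).1, mul_le_of_le_one_left (h01 s).1 hτ.2⟩
            obtain ⟨s', -, hs'⟩ := intermediate_value_uIcc (a := 0) (b := s) hc.continuousOn hm
            exact ⟨s', hs'⟩
          obtain ⟨s', hs'⟩ := hIVT
          have e2 : (fun i => v i + τ * (vs v v' s i - v i)) = vs v v' s' := by
            funext i
            simp only [vs, hs']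
            ring
          rw [e2]
          exact hnr s'
        have h1 := b2 j V v (vs v v' s) hV hseg 0 0 0
        rw [sub_self, norm_zero, mul_zero, zero_add] at h1
        refine h1.trans ?_
        have h2 := hνb s
        have h3 := hl2 j
        calc C2 j / V ^ (2 + 1) * ‖vs v v' s - v‖ ≤ S2 / V ^ (2 + 1) * A := by gcongr
          _ = S2 * (A / V ^ 3) := by ring
          _ ≤ S2 * X := by gcongr
      have q2 : |ev (dv j e) (z s) (vs v v' s) s| ≤ S3 * X := by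
        refine (b3 j V (vs v v' s) hV (hnr s) (z s) s).trans ?_
        have h3 := hl3 j
        calc C3 j / V ^ p ≤ S3 / V ^ p := by gcongr
          _ = S3 * (1 / V ^ p) := by ring
          _ ≤ S3 * X := by gcongr
      have q3 : |∑ l, et s * (v' l - v l) * ev (dv l (dv j w)) (z s) (vs v v' s) s| ≤ (Ke * S4) * X := by
        refine (Finset.abs_sum_le_sum_abs _ _).trans ?_
        have : ∀ l ∈ Finset.univ, |et s * (v' l - v l) * ev (dv l (dv j w)) (z s) (vs v v' s) s| ≤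
            (Ke * (A / V ^ 3)) * C4 j l := by
          intro l _
          rw [abs_mul, abs_mul]
          have r1 := cls_at (hKe V hV) hs
          have r2 := hdi l
          have r3 := b4 j l V (vs v v' s) hV (hnr s) (z s) s
          calc |et s| * |v' l - v l| * |ev (dv l (dv j w)) (z s) (vs v v' s) s| ≤ Ke * A * (C4 j l / V ^ 3) := by
                gcongr
            _ = _ := by ring
        refine (Finset.sum_le_sum this).trans ?_
        rw [← Finset.mul_sum]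
        have h4 := hl4 j
        have h5 : 0 ≤ ∑ l, C4 j l := Finset.sum_nonneg fun l _ => hC4 j l
        calc Ke * (A / V ^ 3) * ∑ l, C4 j l ≤ Ke * X * S4 := by gcongr
          _ = _ := by ring
      calc _ ≤ |ev (dv j c) 0 (vs v v' s) 0 - ev (dv j c) 0 v 0| + (|ev (dv j e) (z s) (vs v v' s) s| +
            |∑ l, et s * (v' l - v l) * ev (dv l (dv j w)) (z s) (vs v v' s) s|) :=
            (abs_add_le _ _).trans (add_le_add le_rfl (abs_add_le _ _))
        _ ≤ S2 * X + (S3 * X + (Ke * S4) * X) := add_le_add q1 (add_le_add q2 q3)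
        _ = (S2 + S3 + Ke * S4) * X := by ring
    have h0m : (0 : ℝ) ∈ Icc (-1 : ℝ) 2 := by constructor <;> norm_num
    have hmv := Convex.norm_image_sub_le_of_norm_hasDerivWithin_le hd hbd (convex_Icc _ _) h0m hs
    have th0 : th 0 = 0 := (hth0 0 (by norm_num)).1
    have e3 : h s - h 0 = nrm Q w v v' z s i - nrm Q w v v' z 0 i -
        s * (v i + ∑ j, Q i j * ev (dv j c) 0 v 0) - th s * (v' i - v i) := by
      simp only [hh, th0]; ring
    rw [e3, Real.norm_eq_abs, Real.norm_eq_abs, sub_zero] at hmv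
    have hs2 : |s| ≤ 2 := abs_le.2 ⟨by linarith [hs.1], hs.2⟩
    refine hmv.trans ?_
    rw [← hX]
    calc qn Q * ((S2 + S3 + Ke * S4) * X) * |s| ≤ qn Q * ((S2 + S3 + Ke * S4) * X) * 2 := by gcongr
      _ = (2 * (qn Q * (S2 + S3 + Ke * S4))) * X := by ring
      _ ≤ C * X := by
        refine mul_le_mul_of_nonneg_right ?_ hX0
        have : 0 ≤ 1 + K2 + qn Q * S1 + qn B * Ke + S6 + 2 ^ k * Ke * S7 := by positivity
        linarith
  · rw [hzd]
    simp only [vel, add_sub_cancel_left]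
    refine (hb1 i s).trans ?_
    rw [← mul_div_assoc]
    gcongr
    have : 0 ≤ 1 + K2 + 2 * (qn Q * (S2 + S3 + Ke * S4)) + qn B * Ke + S6 + 2 ^ k * Ke * S7 := by positivity
    linarith

end Qm.Sk

theorem stepk_all (h0 : S_FN) : S_STEPK := by
  intro k n N D Q B p w c e 𝓕 S hBQ κ K0 hκ hK0
  exact Qm.Sk.step h0 k S hBQ hκ K0 hK0

end Pool.Agent.K9h32.HJ
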