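import Pool.Agent.K9h32.HJ.MainQ1
import Pool.Agent.K9h32.HJ.MainKk
import Pool.Agent.K9h32.HJ.FinB
import Pool.Agent.K9h32.HJ.DirL
import Pool.Agent.K9h32.HJ.DensK
import Pool.Agent.K9h32.HJ.BndK
import Pool.Agent.K9h32.HJ.EngK
import Pool.Agent.K9h32.HJ.SeqK
import Pool.Agent.K9h32.HJ.StepK
import Pool.Agent.K9h32.HJ.IterQ
import Pool.Agent.N980.TL.FN
import Pool.Agent.N980.TL.SUM
import Pool.Agent.N980.TL.DIO
import Pool.Agent.N980.TL.BND3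
import Pool.Agent.N980.TL.Per3
import Pool.Agent.N980.TL.Lam
import Pool.Agent.N980.TL.UU

/-!
# Assembly
-/

set_option autoImplicit false

noncomputable section

namespace Pool.Agent.K9h32.HJ

open Pool.Agent.N980.TL

theorem mainK_all (k r : ℕ) (hk : 2 ≤ k) (h : k = 2 ∨ k ≤ r + 1) : MainK k r := by
  rcases h with h | h
  · subst h
    exact Qm.main2 fn_all (bnd3_all fn_all) per3_all sum_all uu_all seqx_all sepx_all iterq_all velq1_all r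
  · exact Qk.mainK fn_all (bndk_all fn_all) (engk_all fn_all per3_all sum_all) uu_all seqk_all sepk_all iterq_all
      velk1_all (stepk_all fn_all) dio_all lam_all k r hk h

theorem finK_all (k r : ℕ) (hk : 2 ≤ k) (h : k = 2 ∨ k ≤ r + 1) (B Q : Fin (r + 2) → Fin (r + 2) → ℝ)
    (hB : ∀ i j, B i j = B j i) (hBQ : ∀ i k, ∑ j, B i j * Q j k = if i = k then 1 else 0)
    (R : ℝ) (L : (Fin (r + 2) → ℝ) → (Fin (r + 2) → ℝ) → ℝ → ℝ) (f₀ : (Fin (r + 2) → ℝ) → ℝ → ℝ)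
    (hf₀ : PotK k f₀) (hL : ∀ x v t, R ≤ ‖v‖ → L x v t = LagB B f₀ x v t)
    (f₁ : (Fin (r + 2) → ℝ) → ℝ → ℝ) (hf₁ : PotK k f₁) (u : E (r + 2)) (hu : u ≠ 0) (ε : ℝ) (hε : 0 < ε) :
    ∃ (f : (Fin (r + 2) → ℝ) → ℝ → ℝ) (γ : ℝ → Fin (r + 2) → ℝ) (c a : ℝ), PotK k f ∧ CloseK k ε f₁ f ∧
      0 < c ∧ 0 < a ∧ (∀ t, 0 ≤ t → c * t ^ a ≤ ‖deriv γ t‖) ∧ (∀ t, 0 ≤ t → R < ‖deriv γ t‖) ∧
      (∀ t, 0 ≤ t → ‖(‖deriv γ t‖⁻¹) • deriv γ t - (‖u‖⁻¹) • u‖ ≤ ε) ∧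
      ∀ t, 0 < t → EulerLagrange (fun x v t => L x v t + f x t) γ t :=
  fin_all dir_all densk_all k r hk (mainK_all k r hk h) B Q hB hBQ R L f₀ hf₀ hL f₁ hf₁ u hu ε hε

end Pool.Agent.K9h32.HJ
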