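import Pool.Agent.K9h32.HJ.Stm
import Pool.Agent.N980.TL.Cls
import Pool.Agent.N980.TL.FN

/-!
# Values of sums of atoms: derivatives along curves, smoothness, bounds
-/

set_option autoImplicit false

open Set Filter Topology
open scoped ContDiff

noncomputable section

namespace Pool.Agent.K9h32.HJ

open Pool.Agent.N980.TL

variable {n : ℕ}

@[simp] theorem ev_nil (x v : E n) (t : ℝ) : ev ([] : List (Atom n)) x v t = 0 := rfl

@[simp] theorem ev_cons (a : Atom n) (L : List (Atom n)) (x v : E n) (t : ℝ) :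
    ev (a :: L) x v t = a.ev x v t + ev L x v t := by simp [ev]

theorem ev_append (L L' : List (Atom n)) (x v : E n) (t : ℝ) :
    ev (L ++ L') x v t = ev L x v t + ev L' x v t := by simp [ev]

theorem dx_nil (i : Fin n) : dx i ([] : List (Atom n)) = [] := rfl
theorem dt_nil : dt ([] : List (Atom n)) = [] := rfl
theorem dv_nil (i : Fin n) : dv i ([] : List (Atom n)) = [] := rfl

theorem dx_append (i : Fin n) (L L' : List (Atom n)) : dx i (L ++ L') = dx i L ++ dx i L' := by
  simp [dx]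
theorem dt_append (L L' : List (Atom n)) : dt (L ++ L') = dt L ++ dt L' := by
  simp [dt]
theorem dv_append (i : Fin n) (L L' : List (Atom n)) : dv i (L ++ L') = dv i L ++ dv i L' := by
  simp [dv]

theorem cons_eq (a : Atom n) (L : List (Atom n)) : a :: L = [a] ++ L := rfl

/-- the product of the inverses -/
def pin (F : List ((Fin n → ℤ) × ℤ)) (v : E n) : ℝ := (F.map fun f => (fac f v)⁻¹).prod

theorem pin_cons (f : (Fin n → ℤ) × ℤ) (F : List ((Fin n → ℤ) × ℤ)) (v : E n) :
    pin (f :: F) v = (fac f v)⁻¹ * pin F v := by simp [pin]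

theorem ev_dx_single (i : Fin n) (a : Atom n) (x v : E n) (t : ℝ) :
    ev (dx i [a]) x v t = -(a.amp v * (2 * Real.pi * a.k i) * Real.sin (a.ph x t)) := by
  classical
  by_cases h : a.k = 0
  · simp [dx, h]
  · simp only [dx, List.flatMap_cons, List.flatMap_nil, if_neg h, List.append_nil, ev_cons, ev_nil, add_zero,
      Atom.ev, Atom.amp, Atom.ph]
    rw [← add_assoc, Real.cos_add_pi_div_two]
    ring

theorem ev_dt_single (a : Atom n) (x v : E n) (t : ℝ) :
    ev (dt [a]) x v t = -(a.amp v * (2 * Real.pi * a.m) * Real.sin (a.ph x t)) := by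
  simp only [dt, List.flatMap_cons, List.flatMap_nil, List.append_nil, ev_cons, ev_nil, add_zero,
      Atom.ev, Atom.amp, Atom.ph]
  rw [← add_assoc, Real.cos_add_pi_div_two]
  ring

theorem ev_dv_single (i : Fin n) (a : Atom n) (x v : E n) (t : ℝ) :
    ev (dv i [a]) x v t =
      (a.F.map fun f => -(f.1 i : ℝ) * (fac f v)⁻¹).sum * (a.amp v * Real.cos (a.ph x t)) := by
  simp only [dv, List.flatMap_cons, List.flatMap_nil, List.append_nil, ev, List.map_map]
  rw [← List.sum_map_mul_right]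
  congr 1
  refine List.map_congr_left fun f _ => ?_
  simp only [Function.comp, Atom.ev, Atom.amp, Atom.ph, List.map_cons, List.prod_cons]
  ring

theorem fac_hasDerivAt (f : (Fin n → ℤ) × ℤ) {ν : ℝ → E n} {ν' : E n} {s : ℝ}
    (hν : ∀ i, HasDerivAt (fun s => ν s i) (ν' i) s) :
    HasDerivAt (fun s => fac f (ν s)) (∑ i, (f.1 i : ℝ) * ν' i) s := by
  unfold fac
  exact (HasDerivAt.fun_sum fun i _ => (hν i).const_mul (f.1 i : ℝ)).add_const _

theorem pin_hasDerivAt (F : List ((Fin n → ℤ) × ℤ)) {ν : ℝ → E n} {ν' : E n} {s : ℝ}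
    (hν : ∀ i, HasDerivAt (fun s => ν s i) (ν' i) s) (hF : ∀ f ∈ F, fac f (ν s) ≠ 0) :
    HasDerivAt (fun s => pin F (ν s))
      (∑ i, ν' i * ((F.map fun f => -(f.1 i : ℝ) * (fac f (ν s))⁻¹).sum * pin F (ν s))) s := by
  induction F with
  | nil =>
    simp only [pin, List.map_nil, List.prod_nil, List.sum_nil, zero_mul, mul_zero, Finset.sum_const_zero]
    exact hasDerivAt_const _ _
  | cons f F ih =>
    have h1 := ih fun g hg => hF g (List.mem_cons_of_mem _ hg)
    have hf : fac f (ν s) ≠ 0 := hF f List.mem_cons_self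
    have h2 := (fac_hasDerivAt f hν).inv hf
    have h3 := h2.mul h1
    have e : (fun s => pin (f :: F) (ν s)) = fun s => (fac f (ν s))⁻¹ * pin F (ν s) := by
      funext s; exact pin_cons f F (ν s)
    rw [e]
    refine h3.congr_deriv ?_
    have e2 : (fun s => fac f (ν s))⁻¹ s = (fac f (ν s))⁻¹ := rfl
    rw [pin_cons, e2]
    simp only [List.map_cons, List.sum_cons, add_mul, mul_add, Finset.sum_add_distrib]
    rw [Finset.mul_sum]
    congr 1
    · rw [neg_div, Finset.sum_div, ← Finset.sum_neg_distrib, Finset.sum_mul]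
      refine Finset.sum_congr rfl fun i _ => ?_
      field_simp
    · refine Finset.sum_congr rfl fun i _ => ?_
      ring

theorem ph_hasDerivAt (a : Atom n) {z : ℝ → E n} {τ : ℝ → ℝ} {z' : E n} {τ' s : ℝ}
    (hz : ∀ i, HasDerivAt (fun s => z s i) (z' i) s) (hτ : HasDerivAt τ τ' s) :
    HasDerivAt (fun s => a.ph (z s) (τ s)) (2 * Real.pi * ((∑ i, (a.k i : ℝ) * z' i) + a.m * τ')) s := by
  unfold Atom.ph
  exact (((HasDerivAt.fun_sum fun i _ => (hz i).const_mul (a.k i : ℝ)).add
    (hτ.const_mul (a.m : ℝ))).const_mul (2 * Real.pi)).add_const _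

theorem atom_hasDerivAt (a : Atom n) {z ν : ℝ → E n} {τ : ℝ → ℝ} {z' ν' : E n} {τ' s : ℝ}
    (hz : ∀ i, HasDerivAt (fun s => z s i) (z' i) s) (hν : ∀ i, HasDerivAt (fun s => ν s i) (ν' i) s)
    (hτ : HasDerivAt τ τ' s) (hF : ∀ f ∈ a.F, fac f (ν s) ≠ 0) :
    HasDerivAt (fun s => a.ev (z s) (ν s) (τ s))
      (τ' * ev (dt [a]) (z s) (ν s) (τ s) + (∑ i, z' i * ev (dx i [a]) (z s) (ν s) (τ s)) +
        ∑ i, ν' i * ev (dv i [a]) (z s) (ν s) (τ s)) s := by
  have h1 := (pin_hasDerivAt a.F hν hF).const_mul a.c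
  have h2 := (ph_hasDerivAt a hz hτ).cos
  have h3 := h1.mul h2
  refine h3.congr_deriv ?_
  simp only [ev_dx_single, ev_dt_single, ev_dv_single, Atom.amp]
  have e : (a.F.map fun f => (fac f (ν s))⁻¹).prod = pin a.F (ν s) := rfl
  simp only [e]
  rw [Finset.mul_sum, Finset.sum_mul, add_comm]
  congr 1
  · have e2 : ∀ i, z' i * -(a.c * pin a.F (ν s) * (2 * Real.pi * a.k i) * Real.sin (a.ph (z s) (τ s))) =
        ((a.k i : ℝ) * z' i) * -(a.c * pin a.F (ν s) * (2 * Real.pi) * Real.sin (a.ph (z s) (τ s))) := by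
      intro i; ring
    rw [Finset.sum_congr rfl fun i _ => e2 i, ← Finset.sum_mul]
    ring
  · refine Finset.sum_congr rfl fun i _ => ?_
    ring

/-- the chain rule -/
theorem ev_hasDerivAt (L : List (Atom n)) {z ν : ℝ → E n} {τ : ℝ → ℝ} {z' ν' : E n} {τ' s : ℝ}
    (hz : ∀ i, HasDerivAt (fun s => z s i) (z' i) s) (hν : ∀ i, HasDerivAt (fun s => ν s i) (ν' i) s)
    (hτ : HasDerivAt τ τ' s) (hF : ∀ a ∈ L, ∀ f ∈ a.F, fac f (ν s) ≠ 0) :
    HasDerivAt (fun s => ev L (z s) (ν s) (τ s))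
      (τ' * ev (dt L) (z s) (ν s) (τ s) + (∑ i, z' i * ev (dx i L) (z s) (ν s) (τ s)) +
        ∑ i, ν' i * ev (dv i L) (z s) (ν s) (τ s)) s := by
  induction L with
  | nil =>
    simp only [dt_nil, dx_nil, dv_nil, ev_nil, mul_zero, Finset.sum_const_zero, add_zero]
    exact hasDerivAt_const _ _
  | cons a L ih =>
    have h1 := atom_hasDerivAt a hz hν hτ (hF a List.mem_cons_self)
    have h2 := ih fun b hb => hF b (List.mem_cons_of_mem _ hb)
    have h3 := h1.add h2
    have e : (fun s => ev (a :: L) (z s) (ν s) (τ s)) =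
        fun s => a.ev (z s) (ν s) (τ s) + ev L (z s) (ν s) (τ s) := by
      funext s; exact ev_cons a L _ _ _
    rw [e]
    refine h3.congr_deriv ?_
    rw [cons_eq a L]
    simp only [dx_append, dt_append, dv_append, ev_append, mul_add, Finset.sum_add_distrib]
    ring

/-- smoothness -/
theorem ev_contDiff {X : Type*} [NormedAddCommGroup X] [NormedSpace ℝ X] (L : List (Atom n))
    {z ν : X → E n} {τ : X → ℝ} (hz : ContDiff ℝ ∞ z) (hν : ContDiff ℝ ∞ ν) (hτ : ContDiff ℝ ∞ τ)
    (hF : ∀ q, ∀ a ∈ L, ∀ f ∈ a.F, fac f (ν q) ≠ 0) :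
    ContDiff ℝ ∞ (fun q => ev L (z q) (ν q) (τ q)) := by
  have hz' : ∀ i, ContDiff ℝ ∞ (fun q => z q i) := fun i => (contDiff_apply ℝ ℝ i).comp hz
  have hν' : ∀ i, ContDiff ℝ ∞ (fun q => ν q i) := fun i => (contDiff_apply ℝ ℝ i).comp hν
  have hfac : ∀ f : (Fin n → ℤ) × ℤ, ContDiff ℝ ∞ (fun q => fac f (ν q)) := fun f => by
    unfold fac
    exact (ContDiff.sum fun i _ => contDiff_const.mul (hν' i)).add contDiff_const
  have hpin : ∀ F : List ((Fin n → ℤ) × ℤ), (∀ q, ∀ f ∈ F, fac f (ν q) ≠ 0) →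
      ContDiff ℝ ∞ (fun q => pin F (ν q)) := by
    intro F
    induction F with
    | nil => intro _; exact contDiff_const
    | cons f F ih =>
      intro h
      have e : (fun q => pin (f :: F) (ν q)) = fun q => (fac f (ν q))⁻¹ * pin F (ν q) := by
        funext q; exact pin_cons f F (ν q)
      rw [e]
      exact ((hfac f).inv fun q => h q f List.mem_cons_self).mul
        (ih fun q g hg => h q g (List.mem_cons_of_mem _ hg))
  induction L with
  | nil => exact contDiff_const
  | cons a L ih =>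
    have e : (fun q => ev (a :: L) (z q) (ν q) (τ q)) =
        fun q => a.ev (z q) (ν q) (τ q) + ev L (z q) (ν q) (τ q) := by
      funext q; exact ev_cons a L _ _ _
    rw [e]
    refine ContDiff.add ?_ (ih fun q b hb => hF q b (List.mem_cons_of_mem _ hb))
    refine ContDiff.mul (contDiff_const.mul (hpin a.F fun q => hF q a List.mem_cons_self)) ?_
    refine Real.contDiff_cos.comp ?_
    unfold Atom.ph
    exact (contDiff_const.mul ((ContDiff.sum fun i _ => contDiff_const.mul (hz' i)).add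
      (contDiff_const.mul hτ))).add contDiff_const

/-- periodicity in time -/
theorem ev_time (L : List (Atom n)) (x v : E n) (t : ℝ) (l : ℤ) : ev L x v (t + l) = ev L x v t := by
  unfold ev
  congr 1
  refine List.map_congr_left fun a _ => ?_
  simp only [Atom.ev]
  congr 1
  have : a.ph x (t + l) = a.ph x t + ((a.m * l : ℤ) : ℝ) * (2 * Real.pi) := by
    unfold Atom.ph; push_cast; ring
  rw [this, Real.cos_add_int_mul_two_pi]

/-- periodicity in space -/
theorem ev_space (L : List (Atom n)) (x v : E n) (t : ℝ) (k : Fin n → ℤ) :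
    ev L (fun i => x i + k i) v t = ev L x v t := by
  unfold ev
  congr 1
  refine List.map_congr_left fun a _ => ?_
  simp only [Atom.ev]
  congr 1
  have : a.ph (fun i => x i + k i) t = a.ph x t + ((∑ i, a.k i * k i : ℤ) : ℝ) * (2 * Real.pi) := by
    unfold Atom.ph; push_cast
    simp only [mul_add, Finset.sum_add_distrib]
    ring
  rw [this, Real.cos_add_int_mul_two_pi]

end Pool.Agent.K9h32.HJ
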