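import Pool.Agent.K9h32.HJ.EV1

/-!
# Values of sums of atoms: bounds
-/

set_option autoImplicit false

open Set Filter Topology
open scoped ContDiff

noncomputable section

namespace Pool.Agent.K9h32.HJ

open Pool.Agent.N980.TL

variable {n : ℕ}

/-- all the factors are in `𝓕` -/
def InF (𝓕 : List ((Fin n → ℤ) × ℤ)) (L : List (Atom n)) : Prop := ∀ a ∈ L, ∀ f ∈ a.F, f ∈ 𝓕

/-- every atom has at least `p` factors -/
def Ord (p : ℕ) (L : List (Atom n)) : Prop := ∀ a ∈ L, p ≤ a.F.length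

/-- `v` is not resonant -/
def NRs (𝓕 : List ((Fin n → ℤ) × ℤ)) (κ V : ℝ) (v : E n) : Prop := ∀ f ∈ 𝓕, κ * V ≤ |fac f v|

theorem NRs.ne {𝓕 : List ((Fin n → ℤ) × ℤ)} {κ V : ℝ} {v : E n} (h : NRs 𝓕 κ V v) (hκ : 0 < κ)
    (hV : 0 < V) {f : (Fin n → ℤ) × ℤ} (hf : f ∈ 𝓕) : fac f v ≠ 0 := by
  have h1 := h f hf
  have h2 : 0 < κ * V := by positivity
  intro h3
  rw [h3, abs_zero] at h1
  linarith

theorem NRs.ne' {𝓕 : List ((Fin n → ℤ) × ℤ)} {κ V : ℝ} {v : E n} (h : NRs 𝓕 κ V v) (hκ : 0 < κ)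
    (hV : 0 < V) {L : List (Atom n)} (hL : InF 𝓕 L) : ∀ a ∈ L, ∀ f ∈ a.F, fac f v ≠ 0 :=
  fun a ha f hf => h.ne hκ hV (hL a ha f hf)

theorem dx_InF {𝓕 : List ((Fin n → ℤ) × ℤ)} {L : List (Atom n)} (h : InF 𝓕 L) (i : Fin n) :
    InF 𝓕 (dx i L) := by
  intro a ha f hf
  simp only [dx, List.mem_flatMap] at ha
  obtain ⟨b, hb, h1⟩ := ha
  split_ifs at h1 with h2
  · simp at h1
  · rw [List.mem_singleton] at h1
    subst h1
    exact h b hb f hf

theorem dt_InF {𝓕 : List ((Fin n → ℤ) × ℤ)} {L : List (Atom n)} (h : InF 𝓕 L) :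
    InF 𝓕 (dt L) := by
  intro a ha f hf
  simp only [dt, List.mem_flatMap] at ha
  obtain ⟨b, hb, h1⟩ := ha
  rw [List.mem_singleton] at h1
  subst h1
  exact h b hb f hf

theorem dv_InF {𝓕 : List ((Fin n → ℤ) × ℤ)} {L : List (Atom n)} (h : InF 𝓕 L) (i : Fin n) :
    InF 𝓕 (dv i L) := by
  intro a ha f hf
  simp only [dv, List.mem_flatMap, List.mem_map] at ha
  obtain ⟨b, hb, g, hg, h1⟩ := ha
  subst h1
  rcases List.mem_cons.1 hf with h2 | h2
  · rw [h2]; exact h b hb g hg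
  · exact h b hb f h2

theorem dx_Ord {p : ℕ} {L : List (Atom n)} (h : Ord p L) (i : Fin n) : Ord p (dx i L) := by
  intro a ha
  simp only [dx, List.mem_flatMap] at ha
  obtain ⟨b, hb, h1⟩ := ha
  split_ifs at h1 with h2
  · simp at h1
  · rw [List.mem_singleton] at h1
    subst h1
    exact h b hb

theorem dx_Ord1 {p : ℕ} {L : List (Atom n)} (h : ∀ a ∈ L, a.k ≠ 0 → p ≤ a.F.length) (i : Fin n) :
    Ord p (dx i L) := by
  intro a ha
  simp only [dx, List.mem_flatMap] at ha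
  obtain ⟨b, hb, h1⟩ := ha
  split_ifs at h1 with h2
  · simp at h1
  · rw [List.mem_singleton] at h1
    subst h1
    exact h b hb h2

theorem dt_Ord {p : ℕ} {L : List (Atom n)} (h : Ord p L) : Ord p (dt L) := by
  intro a ha
  simp only [dt, List.mem_flatMap] at ha
  obtain ⟨b, hb, h1⟩ := ha
  rw [List.mem_singleton] at h1
  subst h1
  exact h b hb

theorem dv_Ord {p : ℕ} {L : List (Atom n)} (h : Ord p L) (i : Fin n) : Ord (p + 1) (dv i L) := by
  intro a ha
  simp only [dv, List.mem_flatMap, List.mem_map] at ha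
  obtain ⟨b, hb, g, hg, h1⟩ := ha
  subst h1
  simp only [List.length_cons]
  exact Nat.succ_le_succ (h b hb)

theorem dv_Ord2 (L : List (Atom n)) (i : Fin n) : Ord 2 (dv i L) := by
  intro a ha
  simp only [dv, List.mem_flatMap, List.mem_map] at ha
  obtain ⟨b, hb, g, hg, h1⟩ := ha
  subst h1
  simp only [List.length_cons]
  have := List.length_pos_of_mem hg
  omega

theorem pin_bound {F : List ((Fin n → ℤ) × ℤ)} {r : ℝ} {v : E n} (h0 : 0 < r)
    (h : ∀ f ∈ F, r ≤ |fac f v|) : |pin F v| ≤ (1 / r) ^ F.length := by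
  induction F with
  | nil => simp [pin]
  | cons f F ih =>
    rw [pin_cons, abs_mul, List.length_cons, pow_succ, mul_comm ((1 / r) ^ F.length)]
    refine mul_le_mul ?_ (ih fun g hg => h g (List.mem_cons_of_mem _ hg)) (abs_nonneg _) (by positivity)
    rw [abs_inv, one_div]
    exact inv_anti₀ h0 (h f List.mem_cons_self)

theorem ev_bound (L : List (Atom n)) (𝓕 : List ((Fin n → ℤ) × ℤ)) {κ : ℝ} (hκ : 0 < κ) (p : ℕ)
    (hF : InF 𝓕 L) (hp : Ord p L) : ∃ C, 0 ≤ C ∧ ∀ (V : ℝ) (v : E n), 1 ≤ V → NRs 𝓕 κ V v →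
      ∀ (x : E n) (t : ℝ), |ev L x v t| ≤ C / V ^ p := by
  induction L with
  | nil => exact ⟨0, le_rfl, fun V v _ _ x t => by simp⟩
  | cons a L ih =>
    obtain ⟨C, hC, h1⟩ := ih (fun b hb => hF b (List.mem_cons_of_mem _ hb))
      (fun b hb => hp b (List.mem_cons_of_mem _ hb))
    refine ⟨|a.c| * (1 / κ) ^ a.F.length + C, by positivity, fun V v hV hv x t => ?_⟩
    have hV0 : 0 < V := by linarith
    rw [ev_cons, add_div]
    refine (abs_add_le _ _).trans (add_le_add ?_ (h1 V v hV hv x t))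
    have h2 := pin_bound (F := a.F) (v := v) (r := κ * V) (by positivity)
      (fun f hf => hv f (hF a List.mem_cons_self f hf))
    have h3 : a.ev x v t = a.c * pin a.F v * Real.cos (a.ph x t) := rfl
    rw [h3, abs_mul, abs_mul]
    have h4 : (1 / (κ * V)) ^ a.F.length ≤ (1 / κ) ^ a.F.length / V ^ p := by
      have e : (1 / (κ * V)) ^ a.F.length = (1 / κ) ^ a.F.length / V ^ a.F.length := by
        rw [← div_pow, one_div, one_div, mul_inv, div_eq_mul_inv]
      rw [e]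
      exact div_le_div_of_nonneg_left (by positivity) (by positivity)
        (pow_le_pow_right₀ hV (hp a List.mem_cons_self))
    calc |a.c| * |pin a.F v| * |Real.cos (a.ph x t)| ≤ |a.c| * ((1 / κ) ^ a.F.length / V ^ p) * 1 := by
          gcongr
          · exact h2.trans h4
          · exact Real.abs_cos_le_one _
      _ = _ := by ring

theorem cls_zero {V ρ : ℝ} {g : ℝ → ℝ} (hg : ContDiff ℝ ∞ g) (h : ∀ s ∈ Icc (-1 : ℝ) 2, |g s| ≤ ρ) :
    Cls 0 V ρ g := by
  refine ⟨hg, fun i hi s hs => ?_⟩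
  obtain rfl : i = 0 := by omega
  rw [iteratedDeriv_zero, pow_zero, mul_one]
  exact h s hs

theorem cls_at {m : ℕ} {V ρ : ℝ} {g : ℝ → ℝ} (hg : Cls m V ρ g) {s : ℝ} (hs : s ∈ Icc (-1 : ℝ) 2) :
    |g s| ≤ ρ := by
  have := hg.2 0 (Nat.zero_le _) s hs
  rwa [iteratedDeriv_zero, pow_zero, mul_one] at this

theorem cos_cls (m : ℕ) (K : ℝ) (hK : 0 ≤ K) : ∃ C : ℝ, 1 ≤ C ∧ ∀ (V : ℝ) (θ : ℝ → ℝ), 1 ≤ V →
    ContDiff ℝ ∞ θ → Cls m V (K * V) (deriv θ) →
    Cls (m + 1) V C (fun s => Real.cos (θ s)) ∧ Cls (m + 1) V C (fun s => Real.sin (θ s)) := by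
  induction m with
  | zero =>
    refine ⟨1 + K, by linarith, fun V θ hV hθ h => ?_⟩
    have hV0 : (0 : ℝ) ≤ V := by linarith
    have hd : ∀ s, HasDerivAt θ (deriv θ s) s := fun s => (ClsLeaf.diff hθ s).hasDerivAt
    have hd2 := h.1
    constructor
    · refine ClsLeaf.up (Real.contDiff_cos.comp hθ) (fun s _ => ?_) (cls_zero ?_ fun s hs => ?_)
      · have := Real.abs_cos_le_one (θ s); linarith
      · exact ClsLeaf.smooth_deriv (Real.contDiff_cos.comp hθ)
      · have e : deriv (fun s => Real.cos (θ s)) s = -Real.sin (θ s) * deriv θ s := (hd s).cos.deriv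
        rw [e, abs_mul, abs_neg]
        have h1 := cls_at h hs
        have h2 := Real.abs_sin_le_one (θ s)
        have h3 := abs_nonneg (deriv θ s)
        nlinarith
    · refine ClsLeaf.up (Real.contDiff_sin.comp hθ) (fun s _ => ?_) (cls_zero ?_ fun s hs => ?_)
      · have := Real.abs_sin_le_one (θ s); linarith
      · exact ClsLeaf.smooth_deriv (Real.contDiff_sin.comp hθ)
      · have e : deriv (fun s => Real.sin (θ s)) s = Real.cos (θ s) * deriv θ s := (hd s).sin.deriv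
        rw [e, abs_mul]
        have h1 := cls_at h hs
        have h2 := Real.abs_cos_le_one (θ s)
        have h3 := abs_nonneg (deriv θ s)
        nlinarith
  | succ m ih =>
    obtain ⟨C, hC, ih⟩ := ih
    refine ⟨1 + 2 ^ (m + 1) * C * K, by
      have : 0 ≤ 2 ^ (m + 1) * C * K := by positivity
      linarith, fun V θ hV hθ h => ?_⟩
    have hV0 : (0 : ℝ) ≤ V := by linarith
    have hC0 : (0 : ℝ) ≤ C := by linarith
    have hd : ∀ s, HasDerivAt θ (deriv θ s) s := fun s => (ClsLeaf.diff hθ s).hasDerivAt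
    obtain ⟨i1, i2⟩ := ih V θ hV hθ (ClsLeaf.less h)
    have hP : 0 ≤ 2 ^ (m + 1) * C * K := by positivity
    constructor
    · refine ClsLeaf.up (Real.contDiff_cos.comp hθ) (fun s _ => ?_) ?_
      · have := Real.abs_cos_le_one (θ s); linarith
      · have e : (deriv fun s => Real.cos (θ s)) = fun s => (-1) * (Real.sin (θ s) * deriv θ s) := by
          funext s; rw [(hd s).cos.deriv]; ring
        rw [e]
        refine ClsLeaf.mono hV0 ?_ (ClsLeaf.cmul (-1) (ClsLeaf.mul hV0 hC0 (by positivity) i2 h))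
        rw [abs_neg, abs_one, one_mul]
        nlinarith
    · refine ClsLeaf.up (Real.contDiff_sin.comp hθ) (fun s _ => ?_) ?_
      · have := Real.abs_sin_le_one (θ s); linarith
      · have e : (deriv fun s => Real.sin (θ s)) = fun s => Real.cos (θ s) * deriv θ s := by
          funext s; rw [(hd s).sin.deriv]
        rw [e]
        refine ClsLeaf.mono hV0 ?_ (ClsLeaf.mul hV0 hC0 (by positivity) i1 h)
        nlinarith

theorem inv_cls (m : ℕ) (κ K : ℝ) (hκ : 0 < κ) (hK : 0 ≤ K) : ∃ C : ℝ, 1 ≤ C ∧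
    ∀ (V : ℝ) (h : ℝ → ℝ), 1 ≤ V → ContDiff ℝ ∞ h → (∀ s, κ * V ≤ |h s|) → Cls m V K (deriv h) →
    Cls (m + 1) V (C / V) (fun s => (h s)⁻¹) := by
  have key : ∀ (V : ℝ) (h : ℝ → ℝ), 1 ≤ V → ContDiff ℝ ∞ h → (∀ s, κ * V ≤ |h s|) →
      (∀ s, |(h s)⁻¹| ≤ 1 / κ / V) ∧ ContDiff ℝ ∞ (fun s => (h s)⁻¹) ∧
      (deriv fun s => (h s)⁻¹) = fun s => (-1) * (deriv h s * ((h s)⁻¹ * (h s)⁻¹)) := by
    intro V h hV hh h0
    have hV0 : 0 < V := by linarith
    have hne : ∀ s, h s ≠ 0 := fun s hs => by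
      have h1 := h0 s
      rw [hs, abs_zero] at h1
      have : 0 < κ * V := by positivity
      linarith
    refine ⟨fun s => ?_, hh.inv hne, ?_⟩
    · rw [abs_inv, div_div, one_div]
      exact inv_anti₀ (by positivity) (h0 s)
    · funext s
      have hd : HasDerivAt h (deriv h s) s := (ClsLeaf.diff hh s).hasDerivAt
      have := (hd.inv (hne s)).deriv
      have e : (fun s => (h s)⁻¹) = h⁻¹ := rfl
      rw [e, this]
      have := hne s
      field_simp
  induction m with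
  | zero =>
    refine ⟨1 + 1 / κ + K / κ ^ 2, ?_, fun V h hV hh h0 h1 => ?_⟩
    · have : 0 ≤ 1 / κ := by positivity
      have : 0 ≤ K / κ ^ 2 := by positivity
      linarith
    have hV0 : 0 < V := by linarith
    obtain ⟨k1, k2, k3⟩ := key V h hV hh h0
    refine ClsLeaf.up k2 (fun s _ => (k1 s).trans ?_) (cls_zero (ClsLeaf.smooth_deriv k2) fun s hs => ?_)
    · gcongr
      have : 0 ≤ K / κ ^ 2 := by positivity
      linarith
    · rw [k3]
      have e : (1 + 1 / κ + K / κ ^ 2) / V * V = 1 + 1 / κ + K / κ ^ 2 := by field_simp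
      rw [e]
      simp only [neg_mul, one_mul, abs_neg, abs_mul]
      have a1 := cls_at h1 hs
      have a2 := k1 s
      have a3 : 1 / κ / V ≤ 1 / κ := div_le_self (by positivity) hV
      calc |deriv h s| * (|(h s)⁻¹| * |(h s)⁻¹|) ≤ K * (1 / κ * (1 / κ)) := by
            gcongr
            · exact a2.trans a3
            · exact a2.trans a3
        _ = K / κ ^ 2 := by field_simp
        _ ≤ _ := by
          have : 0 ≤ 1 / κ := by positivity
          linarith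
  | succ m ih =>
    obtain ⟨C, hC, ih⟩ := ih
    have hC0 : (0 : ℝ) ≤ C := by linarith
    refine ⟨1 + 1 / κ + 2 ^ (m + 1) * K * (2 ^ (m + 1) * C * C), ?_, fun V h hV hh h0 h1 => ?_⟩
    · have : 0 ≤ 1 / κ := by positivity
      have : 0 ≤ 2 ^ (m + 1) * K * (2 ^ (m + 1) * C * C) := by positivity
      linarith
    have hV0 : 0 < V := by linarith
    obtain ⟨k1, k2, k3⟩ := key V h hV hh h0
    refine ClsLeaf.up k2 (fun s _ => (k1 s).trans ?_) ?_
    · gcongr
      have : 0 ≤ 2 ^ (m + 1) * K * (2 ^ (m + 1) * C * C) := by positivity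
      linarith
    · rw [k3]
      have i1 := ih V h hV hh h0 (ClsLeaf.less h1)
      have hCV : 0 ≤ C / V := by positivity
      have i2 := ClsLeaf.mul hV0.le hCV hCV i1 i1
      have i3 := ClsLeaf.mul hV0.le hK (by positivity) h1 i2
      refine ClsLeaf.mono hV0.le ?_ (ClsLeaf.cmul (-1) i3)
      rw [abs_neg, abs_one, one_mul]
      have e : (1 + 1 / κ + 2 ^ (m + 1) * K * (2 ^ (m + 1) * C * C)) / V * V =
        1 + 1 / κ + 2 ^ (m + 1) * K * (2 ^ (m + 1) * C * C) := by field_simp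
      rw [e]
      have a3 : C / V ≤ C := div_le_self hC0 hV
      have : 0 ≤ 1 / κ := by positivity
      calc 2 ^ (m + 1) * K * (2 ^ (m + 1) * (C / V) * (C / V)) ≤
            2 ^ (m + 1) * K * (2 ^ (m + 1) * C * C) := by gcongr
        _ ≤ _ := by linarith

/-- curves in the space of positions and velocities -/
structure Crv (𝓕 : List ((Fin n → ℤ) × ℤ)) (κ K V : ℝ) (m : ℕ) (z ν : ℝ → E n) : Prop where
  zs : ∀ i, ContDiff ℝ ∞ (fun s => z s i)
  zc : ∀ i, Cls m V (K * V) (deriv fun s => z s i)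
  νs : ∀ i, ContDiff ℝ ∞ (fun s => ν s i)
  νc : ∀ i, Cls m V K (deriv fun s => ν s i)
  nr : ∀ s, NRs 𝓕 κ V (ν s)

theorem cls_sum {ι : Type*} (S : Finset ι) {m : ℕ} {V : ℝ} (hV : 0 ≤ V) {ρ : ι → ℝ} {g : ι → ℝ → ℝ}
    (h : ∀ i ∈ S, Cls m V (ρ i) (g i)) : Cls m V (∑ i ∈ S, ρ i) (fun s => ∑ i ∈ S, g i s) := by
  classical
  induction S using Finset.induction_on with
  | empty =>
    simp only [Finset.sum_empty]
    have := ClsLeaf.const m V 0 hV
    rwa [abs_zero] at this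
  | insert a S ha ih =>
    simp only [Finset.sum_insert ha]
    exact ClsLeaf.add (h a (Finset.mem_insert_self _ _)) (ih fun i hi => h i (Finset.mem_insert_of_mem hi))

theorem lin_deriv (k : Fin n → ℤ) (b : ℝ) {z : ℝ → E n} (hz : ∀ i, ContDiff ℝ ∞ (fun s => z s i)) :
    ContDiff ℝ ∞ (fun s => (∑ i, (k i : ℝ) * z s i) + b) ∧
    (deriv fun s => (∑ i, (k i : ℝ) * z s i) + b) = fun s => ∑ i, (k i : ℝ) * deriv (fun s => z s i) s := by
  constructor
  · exact (ContDiff.sum fun i _ => contDiff_const.mul (hz i)).add contDiff_const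
  · funext s
    have h : ∀ i, HasDerivAt (fun s => z s i) (deriv (fun s => z s i) s) s := fun i =>
      (ClsLeaf.diff (hz i) s).hasDerivAt
    exact ((HasDerivAt.fun_sum fun i _ => (h i).const_mul (k i : ℝ)).add_const b).deriv

theorem fac_cls (𝓕 : List ((Fin n → ℤ) × ℤ)) (κ K : ℝ) (hκ : 0 < κ) (hK : 0 ≤ K) (m : ℕ)
    (f : (Fin n → ℤ) × ℤ) (hf : f ∈ 𝓕) : ∃ C : ℝ, 1 ≤ C ∧ ∀ (V : ℝ) (z ν : ℝ → E n), 1 ≤ V →
      Crv 𝓕 κ K V m z ν → Cls (m + 1) V (C / V) (fun s => (fac f (ν s))⁻¹) := by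
  obtain ⟨C, hC, h⟩ := inv_cls m κ ((∑ i, |(f.1 i : ℝ)|) * K) hκ (by positivity)
  refine ⟨C, hC, fun V z ν hV hc => ?_⟩
  have hV0 : 0 ≤ V := by linarith
  obtain ⟨l1, l2⟩ := lin_deriv f.1 (f.2 : ℝ) hc.νs
  refine h V (fun s => fac f (ν s)) hV l1 (fun s => hc.nr s f hf) ?_
  have e : (deriv fun s => fac f (ν s)) = fun s => ∑ i, (f.1 i : ℝ) * deriv (fun s => ν s i) s := l2
  rw [e, Finset.sum_mul]
  exact cls_sum _ hV0 fun i _ => ClsLeaf.cmul _ (hc.νc i)

theorem pin_cls (𝓕 : List ((Fin n → ℤ) × ℤ)) (κ K : ℝ) (hκ : 0 < κ) (hK : 0 ≤ K) (m : ℕ)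
    (F : List ((Fin n → ℤ) × ℤ)) (hF : ∀ f ∈ F, f ∈ 𝓕) : ∃ C : ℝ, 1 ≤ C ∧
      ∀ (V : ℝ) (z ν : ℝ → E n), 1 ≤ V →
      Crv 𝓕 κ K V m z ν → Cls (m + 1) V (C / V ^ F.length) (fun s => pin F (ν s)) := by
  induction F with
  | nil =>
    refine ⟨1, le_rfl, fun V z ν hV _ => ?_⟩
    have := ClsLeaf.const (m + 1) V 1 (by linarith)
    simpa [pin] using this
  | cons f F ih =>
    obtain ⟨C1, hC1, h1⟩ := fac_cls 𝓕 κ K hκ hK m f (hF f List.mem_cons_self)
    obtain ⟨C2, hC2, h2⟩ := ih fun g hg => hF g (List.mem_cons_of_mem _ hg)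
    have hb : (1 : ℝ) ≤ 2 ^ (m + 1) := one_le_pow₀ (by norm_num)
    refine ⟨2 ^ (m + 1) * C1 * C2, ?_, fun V z ν hV hc => ?_⟩
    · nlinarith [mul_nonneg (by linarith : (0 : ℝ) ≤ C1 - 1) (by linarith : (0 : ℝ) ≤ C2 - 1)]
    have hV0 : 0 < V := by linarith
    have e : (fun s => pin (f :: F) (ν s)) = fun s => (fac f (ν s))⁻¹ * pin F (ν s) := by
      funext s; exact pin_cons f F (ν s)
    rw [e]
    refine ClsLeaf.mono hV0.le (le_of_eq ?_) (ClsLeaf.mul hV0.le (by positivity) (by positivity) (h1 V z ν hV hc)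
      (h2 V z ν hV hc))
    rw [List.length_cons, pow_succ]
    field_simp
    ring

theorem ev_cls (L : List (Atom n)) (𝓕 : List ((Fin n → ℤ) × ℤ)) (κ K : ℝ) (hκ : 0 < κ) (hK : 0 ≤ K)
    (m p : ℕ) (hF : InF 𝓕 L) (hp : Ord p L) : ∃ C : ℝ, 0 ≤ C ∧ ∀ (V : ℝ) (z ν : ℝ → E n), 1 ≤ V →
      Crv 𝓕 κ K V m z ν → Cls (m + 1) V (C / V ^ p) (fun s => ev L (z s) (ν s) s) := by
  induction L with
  | nil =>
    refine ⟨0, le_rfl, fun V z ν hV _ => ?_⟩
    have := ClsLeaf.const (m + 1) V 0 (by linarith)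
    simpa using this
  | cons a L ih =>
    obtain ⟨C2, hC2, h2⟩ := ih (fun b hb => hF b (List.mem_cons_of_mem _ hb))
      (fun b hb => hp b (List.mem_cons_of_mem _ hb))
    obtain ⟨C1, hC1, h1⟩ := pin_cls 𝓕 κ K hκ hK m a.F (hF a List.mem_cons_self)
    obtain ⟨C3, hC3, h3⟩ := cos_cls m (2 * Real.pi * ((∑ i, |(a.k i : ℝ)|) * K + |(a.m : ℝ)|)) (by positivity)
    refine ⟨|a.c| * (2 ^ (m + 1) * C1 * C3) + C2, by positivity, fun V z ν hV hc => ?_⟩
    have hV0 : 0 < V := by linarith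
    have hC10 : 0 ≤ C1 := by linarith
    have hC30 : 0 ≤ C3 := by linarith
    have e : (fun s => ev (a :: L) (z s) (ν s) s) =
        fun s => a.c * (pin a.F (ν s) * Real.cos (a.ph (z s) s)) + ev L (z s) (ν s) s := by
      funext s; rw [ev_cons]
      have h3 : a.ev (z s) (ν s) s = a.c * pin a.F (ν s) * Real.cos (a.ph (z s) s) := rfl
      rw [h3]; ring
    rw [e, add_div]
    refine ClsLeaf.add ?_ (h2 V z ν hV hc)
    -- the phase
    have hph : ContDiff ℝ ∞ (fun s => a.ph (z s) s) := by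
      unfold Atom.ph
      exact (contDiff_const.mul ((ContDiff.sum fun i _ => contDiff_const.mul (hc.zs i)).add
        (contDiff_const.mul contDiff_id))).add contDiff_const
    have hphd : (deriv fun s => a.ph (z s) s) = fun s => 2 * Real.pi *
        ((∑ i, (a.k i : ℝ) * deriv (fun s => z s i) s) + a.m) := by
      funext s
      have h : ∀ i, HasDerivAt (fun s => z s i) (deriv (fun s => z s i) s) s := fun i =>
        (ClsLeaf.diff (hc.zs i) s).hasDerivAt
      have := (ph_hasDerivAt a (z := z) (τ := id) (τ' := 1) (z' := fun i => deriv (fun s => z s i) s)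
        h (hasDerivAt_id s)).deriv
      simp only [id, mul_one] at this
      exact this
    have hpc : Cls m V (2 * Real.pi * ((∑ i, |(a.k i : ℝ)|) * K + |(a.m : ℝ)|) * V)
        (deriv fun s => a.ph (z s) s) := by
      rw [hphd]
      have b1 : Cls m V (∑ i, |(a.k i : ℝ)| * (K * V)) (fun s => ∑ i, (a.k i : ℝ) * deriv (fun s => z s i) s) :=
        cls_sum _ hV0.le fun i _ => ClsLeaf.cmul _ (hc.zc i)
      have b2 := ClsLeaf.cmul (2 * Real.pi) (ClsLeaf.add b1 (ClsLeaf.const m V (a.m : ℝ) hV0.le))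
      refine ClsLeaf.mono hV0.le ?_ b2
      rw [abs_of_pos (by positivity : (0 : ℝ) < 2 * Real.pi), ← Finset.sum_mul]
      have : |(a.m : ℝ)| ≤ |(a.m : ℝ)| * V := le_mul_of_one_le_right (abs_nonneg _) hV
      have h2π : 0 < 2 * Real.pi := by positivity
      calc 2 * Real.pi * ((∑ i, |(a.k i : ℝ)|) * (K * V) + |(a.m : ℝ)|) ≤
            2 * Real.pi * ((∑ i, |(a.k i : ℝ)|) * (K * V) + |(a.m : ℝ)| * V) := by gcongr
        _ = _ := by ring
    have c1 := (h3 V _ hV hph hpc).1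
    have c2 := ClsLeaf.mul hV0.le (by positivity) hC30 (h1 V z ν hV hc) c1
    refine ClsLeaf.mono hV0.le ?_ (ClsLeaf.cmul a.c c2)
    have h4 : C1 / V ^ a.F.length ≤ C1 / V ^ p :=
      div_le_div_of_nonneg_left hC10 (by positivity) (pow_le_pow_right₀ hV (hp a List.mem_cons_self))
    calc |a.c| * (2 ^ (m + 1) * (C1 / V ^ a.F.length) * C3) ≤ |a.c| * (2 ^ (m + 1) * (C1 / V ^ p) * C3) := by
          gcongr
      _ = _ := by ring

/-- Lipschitz dependence on the position and the velocity -/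
theorem ev_lip (L : List (Atom n)) (𝓕 : List ((Fin n → ℤ) × ℤ)) {κ : ℝ} (hκ : 0 < κ) (p : ℕ)
    (hF : InF 𝓕 L) (hp : Ord p L) : ∃ C, 0 ≤ C ∧ ∀ (V : ℝ) (v v' : E n), 1 ≤ V →
      (∀ τ ∈ Icc (0 : ℝ) 1, NRs 𝓕 κ V (fun i => v i + τ * (v' i - v i))) → ∀ (x x' : E n) (t : ℝ),
      |ev L x' v' t - ev L x v t| ≤ C / V ^ p * ‖x' - x‖ + C / V ^ (p + 1) * ‖v' - v‖ := by
  have h1 := fun i => ev_bound (dx i L) 𝓕 hκ p (dx_InF hF i) (dx_Ord hp i)
  have h2 := fun i => ev_bound (dv i L) 𝓕 hκ (p + 1) (dv_InF hF i) (dv_Ord hp i)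
  choose C1 hC1 b1 using h1
  choose C2 hC2 b2 using h2
  have hs1 : 0 ≤ ∑ i, C1 i := Finset.sum_nonneg fun i _ => hC1 i
  have hs2 : 0 ≤ ∑ i, C2 i := Finset.sum_nonneg fun i _ => hC2 i
  refine ⟨(∑ i, C1 i) + ∑ i, C2 i, by positivity, fun V v v' hV hseg x x' t => ?_⟩
  have hV0 : 0 < V := by linarith
  set z : ℝ → E n := fun τ i => x i + τ * (x' i - x i) with hz
  set ν : ℝ → E n := fun τ i => v i + τ * (v' i - v i) with hν
  have dz : ∀ τ i, HasDerivAt (fun s => z s i) (x' i - x i) τ := fun τ i =>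
    (((hasDerivAt_id τ).mul_const (x' i - x i)).const_add (x i)).congr_deriv (one_mul _)
  have dν : ∀ τ i, HasDerivAt (fun s => ν s i) (v' i - v i) τ := fun τ i =>
    (((hasDerivAt_id τ).mul_const (v' i - v i)).const_add (v i)).congr_deriv (one_mul _)
  have key : ∀ τ ∈ Icc (0 : ℝ) 1, HasDerivWithinAt (fun s => ev L (z s) (ν s) t)
      ((0 : ℝ) * ev (dt L) (z τ) (ν τ) t + (∑ i, (x' i - x i) * ev (dx i L) (z τ) (ν τ) t) +
        ∑ i, (v' i - v i) * ev (dv i L) (z τ) (ν τ) t) (Icc 0 1) τ := by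
    intro τ hτ
    exact (ev_hasDerivAt L (dz τ) (dν τ) (hasDerivAt_const τ t)
      ((hseg τ hτ).ne' hκ hV0 hF)).hasDerivWithinAt
  have h3 := Convex.norm_image_sub_le_of_norm_hasDerivWithin_le (C := ((∑ i, C1 i) + ∑ i, C2 i) / V ^ p * ‖x' - x‖ +
    ((∑ i, C1 i) + ∑ i, C2 i) / V ^ (p + 1) * ‖v' - v‖) key ?_ (convex_Icc 0 1)
    (left_mem_Icc.2 zero_le_one) (right_mem_Icc.2 zero_le_one)
  · have e0 : z 0 = x := by funext i; simp [hz]
    have e1 : z 1 = x' := by funext i; simp [hz]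
    have e2 : ν 0 = v := by funext i; simp [hν]
    have e3 : ν 1 = v' := by funext i; simp [hν]
    simp only [e0, e1, e2, e3, sub_zero, norm_one, mul_one, Real.norm_eq_abs] at h3
    exact h3
  · intro τ hτ
    rw [zero_mul, zero_add, Real.norm_eq_abs]
    refine (abs_add_le _ _).trans (add_le_add ?_ ?_)
    · refine (Finset.abs_sum_le_sum_abs _ _).trans ?_
      have : ∀ i ∈ Finset.univ, |(x' i - x i) * ev (dx i L) (z τ) (ν τ) t| ≤ ‖x' - x‖ * (C1 i / V ^ p) := by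
        intro i _
        rw [abs_mul]
        refine mul_le_mul ?_ (b1 i V (ν τ) hV (hseg τ hτ) (z τ) t) (abs_nonneg _) (norm_nonneg _)
        exact norm_le_pi_norm (x' - x) i
      refine (Finset.sum_le_sum this).trans ?_
      rw [← Finset.mul_sum, ← Finset.sum_div, mul_comm]
      gcongr
      linarith
    · refine (Finset.abs_sum_le_sum_abs _ _).trans ?_
      have : ∀ i ∈ Finset.univ, |(v' i - v i) * ev (dv i L) (z τ) (ν τ) t| ≤ ‖v' - v‖ * (C2 i / V ^ (p + 1)) := by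
        intro i _
        rw [abs_mul]
        refine mul_le_mul ?_ (b2 i V (ν τ) hV (hseg τ hτ) (z τ) t) (abs_nonneg _) (norm_nonneg _)
        exact norm_le_pi_norm (v' - v) i
      refine (Finset.sum_le_sum this).trans ?_
      rw [← Finset.mul_sum, ← Finset.sum_div, mul_comm]
      gcongr
      linarith

end Pool.Agent.K9h32.HJ
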