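import Pool.Agent.K9h32.HJ.StmF

/-!
# Leaf FIN: the assembly
-/

set_option autoImplicit false

open Set Filter Topology
open scoped ContDiff

noncomputable section

namespace Pool.Agent.K9h32.HJ

open Pool.Agent.N980.TL

namespace Fn

variable {n : ℕ}

/-- the real matrix -/
def rl (P : Matrix (Fin n) (Fin n) ℤ) : Fin n → Fin n → ℝ := fun i j => (P i j : ℝ)

/-- the linear map -/
def ml (Q : Fin n → Fin n → ℝ) : E n →L[ℝ] E n :=
  LinearMap.toContinuousLinearMap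
    { toFun := mv Q
      map_add' := fun x y => by
        funext i
        simp only [mv, Pi.add_apply, mul_add, Finset.sum_add_distrib]
      map_smul' := fun c x => by
        funext i
        simp only [mv, Pi.smul_apply, smul_eq_mul, RingHom.id_apply, Finset.mul_sum]
        exact Finset.sum_congr rfl fun j _ => by ring }

theorem ml_apply (Q : Fin n → Fin n → ℝ) (x : E n) : ml Q x = mv Q x := rfl

/-- the map of space-time -/
def al (Q : Fin n → Fin n → ℝ) : Z n →L[ℝ] Z n := (ml Q).prodMap (ContinuousLinearMap.id ℝ ℝ)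

theorem al_apply (Q : Fin n → Fin n → ℝ) (x : E n) (t : ℝ) : al Q (x, t) = (mv Q x, t) := rfl

theorem mv_eq (Q : Matrix (Fin n) (Fin n) ℝ) (x : E n) : mv Q x = Q.mulVec x := by
  funext i
  simp [mv, Matrix.mulVec, dotProduct]

theorem iter_comp {k : ℕ} {f : Z n → ℝ} (hf : ContDiff ℝ k f) (A : Z n →L[ℝ] Z n) {i : ℕ} (hi : i ≤ k) (q : Z n) :
    ‖iteratedFDeriv ℝ i (fun q => f (A q)) q‖ ≤ ‖iteratedFDeriv ℝ i f (A q)‖ * ‖A‖ ^ i := by
  have h1 : iteratedFDeriv ℝ i (f ∘ A) q = (iteratedFDeriv ℝ i f (A q)).compContinuousLinearMap fun _ => A :=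
    A.iteratedFDeriv_comp_right hf q (by exact_mod_cast hi)
  have e : (fun q => f (A q)) = f ∘ A := rfl
  rw [e, h1]
  refine (ContinuousMultilinearMap.norm_compContinuousLinearMap_le _ _).trans ?_
  simp

theorem per_comp {g : (Fin n → ℝ) → ℝ → ℝ} (hg : Periodic g) (P : Matrix (Fin n) (Fin n) ℤ) :
    Periodic (fun y t => g (mv (rl P) y) t) := by
  intro x t k l
  have h := hg (mv (rl P) x) t (fun i => ∑ j, P i j * k j) l
  refine Eq.trans ?_ h
  show g _ _ = g _ _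
  congr 1
  funext i
  simp only [mv, rl]
  push_cast
  rw [← Finset.sum_add_distrib]
  exact Finset.sum_congr rfl fun j _ => by ring

theorem gr_comp {g : (Fin n → ℝ) → ℝ → ℝ} (hg : ContDiff ℝ 2 (fun q : Z n => g q.1 q.2))
    (Q : Matrix (Fin n) (Fin n) ℝ) (y : E n) (t : ℝ) :
    gr (fun y t => g (mv Q y) t) y t = mv Q.transpose (gr g (mv Q y) t) := by
  funext j
  simp only [gr, mv, Matrix.transpose_apply]
  have hd : DifferentiableAt ℝ (fun q : Z n => g q.1 q.2) (al Q (y, t)) := hg.differentiable (by norm_num) _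
  have h1 := (hd.hasFDerivAt.comp (y, t) (al Q).hasFDerivAt).fderiv
  have e : (fun q : Z n => g (mv Q q.1) q.2) = (fun q : Z n => g q.1 q.2) ∘ (al Q) := rfl
  show fderiv ℝ (fun q : Z n => g (mv Q q.1) q.2) (y, t) (Pi.single j 1, 0) = _
  rw [e, h1]
  simp only [ContinuousLinearMap.comp_apply]
  have e2 : (al Q) (Pi.single j 1, 0) = ∑ i, Q i j • ((Pi.single i 1, 0) : Z n) := by
    rw [al_apply]
    apply Prod.ext
    · rw [Prod.fst_sum]
      funext i
      simp [mv, Finset.sum_apply, Pi.single_apply]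
    · rw [Prod.snd_sum]
      simp
  rw [e2, map_sum]
  refine Finset.sum_congr rfl fun i _ => ?_
  rw [map_smul, smul_eq_mul]
  rfl

/-- locality of the Euler-Lagrange equations -/
theorem loc {L L' : (Fin n → ℝ) → (Fin n → ℝ) → ℝ → ℝ} {R : ℝ} (h : ∀ x v t, R ≤ ‖v‖ → L x v t = L' x v t)
    {γ : ℝ → Fin n → ℝ} {t : ℝ} (hd : ∀ᶠ s in 𝓝 t, R < ‖deriv γ s‖) (hE : EulerLagrange L' γ t) :
    EulerLagrange L γ t := by
  refine ⟨hE.1, fun i => ?_⟩
  have h1 : ∀ x v t, R < ‖v‖ → Pool.Agent.N980.TL.dv L i x v t = Pool.Agent.N980.TL.dv L' i x v t := by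
    intro x v t hv
    unfold Pool.Agent.N980.TL.dv
    have hc : Continuous fun s : ℝ => ‖Function.update v i s‖ := by
      have h0 : Continuous fun s : ℝ => Function.update v i s := by
        refine continuous_pi fun j => ?_
        by_cases hj : j = i
        · subst hj
          simp only [Function.update_self]
          exact continuous_id
        · simp only [Function.update_of_ne hj]
          exact continuous_const
      exact h0.norm
    have h2 : ∀ᶠ s in 𝓝 (v i), R < ‖Function.update v i s‖ := by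
      refine (hc.tendsto (v i)).eventually (lt_mem_nhds ?_)
      rwa [Function.update_eq_self]
    refine Filter.EventuallyEq.deriv_eq ?_
    filter_upwards [h2] with s hs
    exact h x _ t hs.le
  have h2 : ∀ x v t, R < ‖v‖ → Pool.Agent.N980.TL.dx L i x v t = Pool.Agent.N980.TL.dx L' i x v t := by
    intro x v t hv
    unfold Pool.Agent.N980.TL.dx
    have e : (fun s => L (Function.update x i s) v t) = fun s => L' (Function.update x i s) v t :=
      funext fun s => h _ v t hv.le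
    rw [e]
  rw [h2 _ _ _ hd.self_of_nhds]
  refine (hE.2 i).congr_of_eventuallyEq ?_
  filter_upwards [hd] with s hs
  exact h1 _ _ _ hs

/-- the direction of a vector close to a multiple of `y` -/
theorem dir_close {F : Type*} [NormedAddCommGroup F] [NormedSpace ℝ F] {v y : F} {Ω η : ℝ} (hΩ : 0 < Ω)
    (hη : η ≤ 1 / 2) (hy : 1 ≤ ‖y‖) (h : ‖v - Ω • y‖ ≤ η * Ω) :
    Ω / 2 ≤ ‖v‖ ∧ ‖(‖v‖⁻¹) • v - (‖y‖⁻¹) • y‖ ≤ 2 * η := by
  have hw : ‖Ω • y‖ = Ω * ‖y‖ := by rw [norm_smul, Real.norm_eq_abs, abs_of_pos hΩ]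
  have hw1 : Ω ≤ ‖Ω • y‖ := by rw [hw]; nlinarith
  have h1 : ‖Ω • y‖ ≤ ‖v‖ + ‖v - Ω • y‖ := by
    have := norm_sub_le v (v - Ω • y)
    rwa [sub_sub_cancel] at this
  have hv : Ω / 2 ≤ ‖v‖ := by nlinarith
  refine ⟨hv, ?_⟩
  have hv0 : 0 < ‖v‖ := by linarith
  have hw0 : 0 < ‖Ω • y‖ := by linarith
  have hy0 : 0 < ‖y‖ := by linarith
  have e1 : (‖y‖⁻¹) • y = (‖Ω • y‖⁻¹) • (Ω • y) := by
    rw [hw, smul_smul]
    congr 1
    field_simp
  rw [e1]
  obtain ⟨w, hwd⟩ : ∃ w, w = Ω • y := ⟨_, rfl⟩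
  rw [← hwd] at h h1 hw0 hw1 ⊢
  have e2 : (‖v‖⁻¹) • v - (‖w‖⁻¹) • w = (‖w‖⁻¹) • (v - w) + (‖v‖⁻¹ - ‖w‖⁻¹) • v := by
    rw [smul_sub, sub_smul]; abel
  rw [e2]
  refine (norm_add_le _ _).trans ?_
  rw [norm_smul, norm_smul, Real.norm_eq_abs, Real.norm_eq_abs, abs_of_pos (by positivity : (0 : ℝ) < ‖w‖⁻¹)]
  have e3 : |‖v‖⁻¹ - ‖w‖⁻¹| * ‖v‖ = ‖w‖⁻¹ * |‖w‖ - ‖v‖| := by
    have : ‖v‖⁻¹ - ‖w‖⁻¹ = (‖w‖ - ‖v‖) * (‖v‖⁻¹ * ‖w‖⁻¹) := by
      field_simp
    rw [this, abs_mul, abs_of_pos (by positivity : (0 : ℝ) < ‖v‖⁻¹ * ‖w‖⁻¹)]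
    field_simp
  rw [e3]
  have h2 : |‖w‖ - ‖v‖| ≤ ‖v - w‖ := by
    rw [norm_sub_rev]
    exact abs_norm_sub_norm_le w v
  have h3 : ‖w‖⁻¹ * ‖v - w‖ ≤ η := by
    rw [inv_mul_le_iff₀ hw0]
    have hη0 : 0 ≤ η := by
      by_contra hc
      push Not at hc
      have := norm_nonneg (v - w)
      nlinarith
    nlinarith
  have h4 : ‖w‖⁻¹ * |‖w‖ - ‖v‖| ≤ ‖w‖⁻¹ * ‖v - w‖ := mul_le_mul_of_nonneg_left h2 (by positivity)
  linarith

end Fn

end Pool.Agent.K9h32.HJ
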