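import Pool.Agent.N980.TL.Main4
import Pool.Agent.N980.TL.BL4
import Pool.Agent.N980.TL.EX4
import Pool.Agent.N980.TL.GR4

/-!
# Generic velocity growth, from the density of the potentials with escaping orbits
-/

set_option autoImplicit false

open Filter Topology Set
open scoped ContDiff

noncomputable section

namespace Pool.Agent.K9h32.HJ

open Pool.Agent.N980.TL

/-- Density in all dimensions: near every potential of class `C²` there is one with an orbit whose velocity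
grows at least like `t ^ (1 / 20)` -/
def S_DALL : Prop :=
  ∀ (r : ℕ) (f₀ : (Fin (r + 2) → ℝ) → ℝ → ℝ), ContDiff ℝ 2 (fun q : (Fin (r + 2) → ℝ) × ℝ => f₀ q.1 q.2) →
    Periodic f₀ → ∀ ε : ℝ, 0 < ε → ∃ (f : (Fin (r + 2) → ℝ) → ℝ → ℝ) (γ : ℝ → Fin (r + 2) → ℝ),
      ContDiff ℝ 2 (fun q : (Fin (r + 2) → ℝ) × ℝ => f q.1 q.2) ∧ Periodic f ∧
      (∀ i ≤ 2, ∀ q, ‖iteratedFDeriv ℝ i (fun q : (Fin (r + 2) → ℝ) × ℝ => f q.1 q.2 - f₀ q.1 q.2) q‖ ≤ ε) ∧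
      (∃ c > 0, ∀ t, 0 ≤ t → c * t ^ (1 / 20 : ℝ) ≤ ‖deriv γ t‖) ∧
      ∀ t, 0 < t → EulerLagrange (fun x v t => (∑ i, v i ^ 2) / 2 + f x t) γ t

/-- the sets `Gs` are open, in all dimensions -/
theorem open_Gs (r : ℕ) (φ : ℝ → ℝ) (m : ℕ) :
    ∀ f ∈ Gs r φ m, Pot f ∧ ∃ η > 0, ∀ g, Pot g → Close η f g → g ∈ Gs r φ m := by
  have hBL := bl_all
  have hEX := ex_all
  have hGR := gr_all
  rintro f ⟨hf, γ, t0, t1, h01, hE, ⟨μ0, hμ0, hm⟩, hφ⟩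
  refine ⟨hf, ?_⟩
  obtain ⟨B, L, hB, hL, b1, b2, b3⟩ := hBL (r + 2) f hf.1 hf.2
  set μ : ℝ := min μ0 (‖deriv γ t1‖ - φ ‖deriv γ t0‖) with hμ
  have hμp : 0 < μ := lt_min hμ0 (by linarith)
  have hμ1 : μ ≤ μ0 := min_le_left _ _
  have hμ2 : μ ≤ ‖deriv γ t1‖ - φ ‖deriv γ t0‖ := min_le_right _ _
  set X : ℝ := Real.exp ((L + 1) * (t1 - t0)) with hX
  have hX0 : 0 < X := Real.exp_pos _
  refine ⟨μ / (2 * X), by positivity, fun g hg hfg => ⟨hg, ?_⟩⟩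
  obtain ⟨B', L', hB', hL', b1', b2', b3'⟩ := hBL (r + 2) g hg.1 hg.2
  obtain ⟨x, v, hx0, hv0, hxv⟩ := hEX (r + 2) (gr g) B' L' hB' hL' b3' b1' b2' t0 t1 (γ t0) (deriv γ t0) h01
  have hη0 : (0 : ℝ) ≤ μ / (2 * X) := by positivity
  have hIcc : ∀ t ∈ Icc t0 t1, t ∈ Ioo (t0 - 1) (t1 + 1) := fun t ht => ⟨by linarith [ht.1], by linarith [ht.2]⟩
  have hdist : ∀ t ∈ Icc t0 t1, ‖deriv γ t - v t‖ ≤ μ / 2 := by
    intro t ht
    rcases ht.1.eq_or_lt with h | h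
    · rw [← h, hv0, sub_self, norm_zero]; positivity
    · have h1 := hGR (r + 2) (gr f) (gr g) L (μ / (2 * X)) hL hη0 b2
        (fun x t => gr_sub_le hf hg hη0 hfg x t) t0 t γ (deriv γ) x v h hx0.symm hv0.symm
        (fun s hs => (el_all (r + 2) f hf.1).1 γ s (hE s ⟨hs.1, hs.2.trans ht.2⟩))
        (fun s hs => hxv s (hIcc s ⟨hs.1, hs.2.trans ht.2⟩))
      have h2 : Real.exp ((L + 1) * (t - t0)) ≤ X := by
        rw [hX]
        refine Real.exp_le_exp.2 (mul_le_mul_of_nonneg_left (by linarith [ht.2]) (by linarith))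
      have e : μ / (2 * X) * X = μ / 2 := by field_simp
      rw [← e]
      exact h1.trans (mul_le_mul_of_nonneg_left h2 hη0)
  have hlow : ∀ t ∈ Icc t0 t1, ‖deriv γ t‖ - μ / 2 ≤ ‖v t‖ := by
    intro t ht
    have h3 : ‖deriv γ t‖ ≤ ‖v t‖ + ‖deriv γ t - v t‖ := by
      have := norm_add_le (v t) (deriv γ t - v t)
      rwa [add_sub_cancel] at this
    linarith [hdist t ht]
  have hdx : ∀ t ∈ Icc t0 t1, deriv x t = v t := fun t ht => (hxv t (hIcc t ht)).1.deriv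
  have h0m : t0 ∈ Icc t0 t1 := ⟨le_rfl, h01.le⟩
  have h1m : t1 ∈ Icc t0 t1 := ⟨h01.le, le_rfl⟩
  refine ⟨x, t0, t1, h01, fun t ht => ?_, ⟨μ / 2, by positivity, fun t ht => ?_⟩, ?_⟩
  · refine (el_all (r + 2) g hg.1).2 x v t ?_ (hxv t (hIcc t ht)).2
    filter_upwards [Ioo_mem_nhds (hIcc t ht).1 (hIcc t ht).2] with s hs using (hxv s hs).1
  · rw [hdx t ht]
    linarith [hlow t ht, hm t ht]
  · rw [hdx t0 h0m, hv0, hdx t1 h1m]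
    linarith [hlow t1 h1m]

/-- the sets `Gs` are dense, in all dimensions -/
theorem openDense_Gs_all (hD : S_DALL) (r : ℕ) (φ : ℝ → ℝ) (m : ℕ) : OpenDense (Gs r φ m) := by
  refine ⟨open_Gs r φ m, ?_⟩
  intro f hf ε hε
  obtain ⟨g, γ, g1, g2, g3, ⟨c, hc, g4⟩, g5⟩ := hD r f hf.1 hf.2 ε hε
  have ht : Tendsto (fun t : ℝ => c * t ^ (1 / 20 : ℝ)) atTop atTop :=
    (tendsto_rpow_atTop (by norm_num)).const_mul_atTop hc
  obtain ⟨t0, h0, h1⟩ := ((ht.eventually_ge_atTop ((m : ℝ) + 1)).and (eventually_gt_atTop (0 : ℝ))).exists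
  obtain ⟨t1, h2, h3⟩ := ((ht.eventually_gt_atTop (φ ‖deriv γ t0‖)).and (eventually_gt_atTop t0)).exists
  refine ⟨g, ⟨⟨g1, g2⟩, γ, t0, t1, h3, fun t ht => g5 t (h1.trans_le ht.1), ⟨1, one_pos, fun t ht => ?_⟩,
    h2.trans_le (g4 t1 (h1.trans h3).le)⟩, g3⟩
  refine (h0.trans ?_).trans (g4 t (h1.le.trans ht.1))
  exact mul_le_mul_of_nonneg_left (Real.rpow_le_rpow h1.le ht.1 (by norm_num)) hc.le

/-- Velocity growth for generic potentials of class `C²`, in all dimensions `n = r + 2 ≥ 2` -/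
theorem generic_all (hD : S_DALL) (r : ℕ) (φ : ℝ → ℝ) :
    ∃ O : ℕ → Set ((Fin (r + 2) → ℝ) → ℝ → ℝ), (∀ m, OpenDense (O m)) ∧
      ∀ f, (∀ m, f ∈ O m) → ∀ K : ℝ, ∃ (γ : ℝ → Fin (r + 2) → ℝ) (t0 t1 : ℝ), t0 < t1 ∧
        (∀ t ∈ Icc t0 t1, EulerLagrange (fun x v t => (∑ i, v i ^ 2) / 2 + f x t) γ t) ∧
        (∀ t ∈ Icc t0 t1, K ≤ ‖deriv γ t‖) ∧ φ ‖deriv γ t0‖ < ‖deriv γ t1‖ := by
  refine ⟨Gs r φ, fun m => openDense_Gs_all hD r φ m, fun f hf K => ?_⟩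
  obtain ⟨m, hm⟩ := exists_nat_ge K
  obtain ⟨-, γ, t0, t1, h1, h2, ⟨μ, hμ, h3⟩, h4⟩ := hf m
  exact ⟨γ, t0, t1, h1, h2, fun t ht => by linarith [h3 t ht], h4⟩

end Pool.Agent.K9h32.HJ
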