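import Pool.Agent.K9h32.HJ.StmG
import Pool.Agent.K9h32.HJ.FinA

/-!
# Leaf GENK: genericity in `C^k`
-/

set_option autoImplicit false

open Set Filter Topology
open scoped ContDiff

noncomputable section

namespace Pool.Agent.K9h32.HJ

open Pool.Agent.N980.TL

namespace Gk

variable {n : ℕ}

/-- the orbit of a close potential with the same initial values -/
theorem core {B Q : Fin n → Fin n → ℝ} (hB : ∀ i j, B i j = B j i)
    (hBQ : ∀ i k, ∑ j, B i j * Q j k = if i = k then 1 else 0) {f : (Fin n → ℝ) → ℝ → ℝ} (hf : Pot f)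
    {γ : ℝ → Fin n → ℝ} {t0 t1 : ℝ} (h01 : t0 < t1) (hE : ∀ t ∈ Icc t0 t1, EulerLagrange (LagB B f) γ t)
    {μ : ℝ} (hμp : 0 < μ) : ∃ η > 0, ∀ g, Pot g → Close η f g → ∃ x : ℝ → Fin n → ℝ,
      (∀ t ∈ Icc t0 t1, EulerLagrange (LagB B g) x t) ∧ deriv x t0 = deriv γ t0 ∧
      ∀ t ∈ Icc t0 t1, ‖deriv x t - deriv γ t‖ ≤ μ := by
  have hBL := bl_all
  have hEX := ex_all
  have hGR := gr_all
  obtain ⟨b, L, hb, hL, b1, b2, b3⟩ := hBL n f hf.1 hf.2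
  obtain ⟨N, hN⟩ : ∃ N, N = nm Q := ⟨_, rfl⟩
  have hN0 : 0 ≤ N := by rw [hN]; exact Gq.nm_nonneg Q
  have hQ : ∀ y, ‖mv Q y‖ ≤ N * ‖y‖ := fun y => by rw [hN]; exact Gq.norm_mv_le Q y
  have hQc : Continuous (mv Q) := by
    refine continuous_pi fun i => ?_
    simp only [mv]
    exact continuous_finsetSum _ fun j _ => continuous_const.mul (continuous_apply j)
  set X : ℝ := Real.exp ((N * L + 1) * (t1 - t0)) with hX
  have hX0 : 0 < X := Real.exp_pos _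
  refine ⟨μ / X / (N + 1), by positivity, fun g hg hfg => ?_⟩
  obtain ⟨b', L', hb', hL', b1', b2', b3'⟩ := hBL n g hg.1 hg.2
  obtain ⟨x, v, hx0, hv0, hxv⟩ := hEX n (fun x t => mv Q (gr g x t)) (N * b') (N * L') (by positivity)
    (by positivity) (hQc.comp b3')
    (fun x t => (hQ _).trans (mul_le_mul_of_nonneg_left (b1' x t) hN0))
    (fun x y t => by
      rw [Gq.mv_sub, mul_assoc]
      exact (hQ _).trans (mul_le_mul_of_nonneg_left (b2' x y t) hN0)) t0 t1 (γ t0) (deriv γ t0) h01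
  have hη0 : (0 : ℝ) ≤ μ / X := by positivity
  have hη1 : (0 : ℝ) ≤ μ / X / (N + 1) := by positivity
  have hIcc : ∀ t ∈ Icc t0 t1, t ∈ Ioo (t0 - 1) (t1 + 1) := fun t ht => ⟨by linarith [ht.1], by linarith [ht.2]⟩
  have hclose : ∀ (x : Fin n → ℝ) (t : ℝ), ‖mv Q (gr f x t) - mv Q (gr g x t)‖ ≤ μ / X := by
    intro x t
    rw [Gq.mv_sub]
    refine (hQ _).trans ?_
    have h1 : N * ‖gr f x t - gr g x t‖ ≤ (N + 1) * (μ / X / (N + 1)) :=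
      mul_le_mul (by linarith) (gr_sub_le hf hg hη1 hfg x t) (norm_nonneg _) (by positivity)
    refine h1.trans (le_of_eq ?_)
    field_simp
  have hdist : ∀ t ∈ Icc t0 t1, ‖deriv γ t - v t‖ ≤ μ := by
    intro t ht
    rcases ht.1.eq_or_lt with h | h
    · rw [← h, hv0, sub_self, norm_zero]; positivity
    · have h1 := hGR n (fun x t => mv Q (gr f x t)) (fun x t => mv Q (gr g x t)) (N * L) (μ / X)
        (by positivity) hη0
        (fun x y t => by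
          rw [Gq.mv_sub, mul_assoc]
          exact (hQ _).trans (mul_le_mul_of_nonneg_left (b2 x y t) hN0))
        hclose t0 t γ (deriv γ) x v h hx0.symm hv0.symm
        (fun s hs => (Gq.el_B hB hBQ hf.1).1 γ s (hE s ⟨hs.1, hs.2.trans ht.2⟩))
        (fun s hs => hxv s (hIcc s ⟨hs.1, hs.2.trans ht.2⟩))
      have h2 : Real.exp ((N * L + 1) * (t - t0)) ≤ X := by
        rw [hX]
        refine Real.exp_le_exp.2 (mul_le_mul_of_nonneg_left (by linarith [ht.2]) (by positivity))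
      have e : μ / X * X = μ := by field_simp
      rw [← e]
      exact h1.trans (mul_le_mul_of_nonneg_left h2 hη0)
  have hdx : ∀ t ∈ Icc t0 t1, deriv x t = v t := fun t ht => (hxv t (hIcc t ht)).1.deriv
  have h0m : t0 ∈ Icc t0 t1 := ⟨le_rfl, h01.le⟩
  refine ⟨x, fun t ht => ?_, by rw [hdx t0 h0m, hv0], fun t ht => ?_⟩
  · refine (Gq.el_B hB hBQ hg.1).2 x v t ?_ (hxv t (hIcc t ht)).2
    filter_upwards [Ioo_mem_nhds (hIcc t ht).1 (hIcc t ht).2] with s hs using (hxv s hs).1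
  · rw [hdx t ht, norm_sub_rev]
    exact hdist t ht

theorem PotK.pot {k : ℕ} (hk : 2 ≤ k) {f : (Fin n → ℝ) → ℝ → ℝ} (h : PotK k f) : Pot f :=
  ⟨h.1.of_le (by exact_mod_cast hk), h.2⟩

theorem PotK.add {k : ℕ} {f g : (Fin n → ℝ) → ℝ → ℝ} (hf : PotK k f) (hg : PotK k g) :
    PotK k (fun x t => f x t + g x t) :=
  ⟨hf.1.add hg.1, fun x t a b => by
    show f _ _ + g _ _ = _
    rw [hf.2 x t a b, hg.2 x t a b]⟩

/-- the set of potentials -/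
def Gs (k : ℕ) (B : Fin n → Fin n → ℝ) (f₀ : (Fin n → ℝ) → ℝ → ℝ) (φ : ℝ → ℝ) (w : Fin n → ℝ) (ρ m : ℝ) :
    Set ((Fin n → ℝ) → ℝ → ℝ) :=
  {f | PotK k f ∧ ∃ (γ : ℝ → Fin n → ℝ) (t0 t1 : ℝ), t0 < t1 ∧
    (∀ t ∈ Icc t0 t1, EulerLagrange (LagB B (fun x t => f₀ x t + f x t)) γ t) ∧
    (∃ μ > 0, ∀ t ∈ Icc t0 t1, m + μ ≤ ‖deriv γ t‖ ∧
      ‖(‖deriv γ t‖⁻¹) • deriv γ t - (‖w‖⁻¹) • w‖ + μ ≤ ρ) ∧ φ ‖deriv γ t0‖ < ‖deriv γ t1‖}

theorem open_Gs {k : ℕ} (hk : 2 ≤ k) {B Q : Fin n → Fin n → ℝ} (hB : ∀ i j, B i j = B j i)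
    (hBQ : ∀ i k, ∑ j, B i j * Q j k = if i = k then 1 else 0) {f₀ : (Fin n → ℝ) → ℝ → ℝ} (hf₀ : PotK k f₀)
    (φ : ℝ → ℝ) (w : Fin n → ℝ) {ρ m : ℝ} (hm1 : 1 ≤ m) :
    ∀ f ∈ Gs k B f₀ φ w ρ m, PotK k f ∧ ∃ η > 0, ∀ g, PotK k g → CloseK k η f g → g ∈ Gs k B f₀ φ w ρ m := by
  rintro f ⟨hf, γ, t0, t1, h01, hE, ⟨μ0, hμ0, hm⟩, hφ⟩
  refine ⟨hf, ?_⟩
  obtain ⟨μ, hμ⟩ : ∃ μ, μ = min (min (μ0 / 4) (1 / 2)) ((‖deriv γ t1‖ - φ ‖deriv γ t0‖) / 2) := ⟨_, rfl⟩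
  have hμp : 0 < μ := by
    rw [hμ]
    exact lt_min (lt_min (by positivity) (by norm_num)) (by linarith)
  have hμ1 : μ ≤ μ0 / 4 := by rw [hμ]; exact (min_le_left _ _).trans (min_le_left _ _)
  have hμ2 : μ ≤ 1 / 2 := by rw [hμ]; exact (min_le_left _ _).trans (min_le_right _ _)
  have hμ3 : μ ≤ (‖deriv γ t1‖ - φ ‖deriv γ t0‖) / 2 := by rw [hμ]; exact min_le_right _ _
  obtain ⟨η, hη, hcore⟩ := core hB hBQ (PotK.pot hk (PotK.add hf₀ hf)) h01 hE hμp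
  refine ⟨η, hη, fun g hg hfg => ⟨hg, ?_⟩⟩
  obtain ⟨x, hxE, hx0, hxd⟩ := hcore _ (PotK.pot hk (PotK.add hf₀ hg)) (fun i hi q => by
    have h1 := hfg i (hi.trans hk) q
    have e : (fun q : (Fin n → ℝ) × ℝ => (f₀ q.1 q.2 + g q.1 q.2) - (f₀ q.1 q.2 + f q.1 q.2)) =
        fun q => g q.1 q.2 - f q.1 q.2 := by
      funext q; ring
    show ‖iteratedFDeriv ℝ i (fun q : (Fin n → ℝ) × ℝ => (f₀ q.1 q.2 + g q.1 q.2) -
      (f₀ q.1 q.2 + f q.1 q.2)) q‖ ≤ η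
    rw [e]
    exact h1)
  have h1m : t1 ∈ Icc t0 t1 := ⟨h01.le, le_rfl⟩
  refine ⟨x, t0, t1, h01, hxE, ⟨μ0 / 2, by positivity, fun t ht => ?_⟩, ?_⟩
  · obtain ⟨a1, a2⟩ := hm t ht
    have h1 : 1 ≤ ‖deriv γ t‖ := by linarith
    have h2 := Fn.dir_close (v := deriv x t) (y := deriv γ t) (Ω := 1) (η := μ) one_pos hμ2 h1
      (by rw [one_smul, mul_one]; exact hxd t ht)
    have h3 : ‖deriv γ t‖ - μ ≤ ‖deriv x t‖ := by
      have h4 := norm_sub_norm_le (deriv γ t) (deriv x t)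
      rw [norm_sub_rev] at h4
      linarith [hxd t ht]
    refine ⟨by linarith, ?_⟩
    have e : (‖deriv x t‖⁻¹) • deriv x t - (‖w‖⁻¹) • w =
        ((‖deriv x t‖⁻¹) • deriv x t - (‖deriv γ t‖⁻¹) • deriv γ t) +
        ((‖deriv γ t‖⁻¹) • deriv γ t - (‖w‖⁻¹) • w) := by abel
    rw [e]
    have h5 := norm_add_le ((‖deriv x t‖⁻¹) • deriv x t - (‖deriv γ t‖⁻¹) • deriv γ t)
      ((‖deriv γ t‖⁻¹) • deriv γ t - (‖w‖⁻¹) • w)
    linarith [h2.2]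
  · have h4 := norm_sub_norm_le (deriv γ t1) (deriv x t1)
    rw [norm_sub_rev] at h4
    rw [hx0]
    linarith [hxd t1 h1m]

theorem dense_Gs {k : ℕ} {B : Fin n → Fin n → ℝ} {f₀ : (Fin n → ℝ) → ℝ → ℝ}
    {R : ℝ} {L : (Fin n → ℝ) → (Fin n → ℝ) → ℝ → ℝ} (hL : ∀ x v t, R ≤ ‖v‖ → L x v t = LagB B f₀ x v t)
    (hD : DenseK k R L) (φ : ℝ → ℝ) {w : Fin n → ℝ} (hw : w ≠ 0) {ρ : ℝ} (hρ : 0 < ρ) (m : ℝ) :
    ∀ f, PotK k f → ∀ ε > 0, ∃ g ∈ Gs k B f₀ φ w ρ m, CloseK k ε f g := by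
  intro f hf ε hε
  obtain ⟨g, γ, c, a, hg, hfg, hc, ha, hsp, hR, hdir, hE⟩ := hD f hf w hw (min ε (ρ / 2)) (lt_min hε (by positivity))
  have htop : Tendsto (fun t => ‖deriv γ t‖) atTop atTop := by
    have h1 : Tendsto (fun t : ℝ => c * t ^ a) atTop atTop := (tendsto_rpow_atTop ha).const_mul_atTop hc
    refine tendsto_atTop_mono' _ ?_ h1
    filter_upwards [eventually_ge_atTop 0] with t ht using hsp t ht
  obtain ⟨T, hT⟩ := eventually_atTop.1 (htop.eventually_ge_atTop (m + 1))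
  obtain ⟨t0, h0, h1⟩ : ∃ t0 : ℝ, T ≤ t0 ∧ 0 < t0 := ⟨max T 1, le_max_left _ _, lt_max_of_lt_right one_pos⟩
  obtain ⟨t1, h2, h3⟩ := ((htop.eventually_gt_atTop (φ ‖deriv γ t0‖)).and (eventually_gt_atTop t0)).exists
  refine ⟨g, ⟨hg, γ, t0, t1, h3, fun t ht => ?_, ⟨min 1 (ρ / 2), lt_min one_pos (by positivity), fun t ht => ?_⟩, h2⟩,
    fun i hi q => (hfg i hi q).trans (min_le_left _ _)⟩
  · have htp : 0 < t := h1.trans_le ht.1
    refine Fn.loc (L' := fun x v t => L x v t + g x t) (R := R) (fun x v t hv => ?_) ?_ (hE t htp)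
    · simp only [hL x v t hv, LagB]
      ring
    · filter_upwards [lt_mem_nhds htp] with s hs using hR s hs.le
  · have htp : 0 ≤ t := (h1.trans_le ht.1).le
    have h4 := hT t (h0.trans ht.1)
    have h5 := hdir t htp
    have h6 := min_le_left (1 : ℝ) (ρ / 2)
    have h7 := min_le_right (1 : ℝ) (ρ / 2)
    have h8 := min_le_right ε (ρ / 2)
    exact ⟨by linarith, by linarith⟩

/-- approximation of a direction by an integer vector -/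
theorem int_dir {u : Fin n → ℝ} (hu : u ≠ 0) {ε : ℝ} (hε : 0 < ε) : ∃ w : Fin n → ℤ,
    (fun i => (w i : ℝ)) ≠ 0 ∧ ‖(‖(fun i => (w i : ℝ))‖⁻¹) • (fun i => (w i : ℝ)) - (‖u‖⁻¹) • u‖ ≤ ε := by
  have hu0 : 0 < ‖u‖ := norm_pos_iff.2 hu
  obtain ⟨y, hy⟩ : ∃ y, y = (‖u‖⁻¹) • u := ⟨_, rfl⟩
  have hy1 : ‖y‖ = 1 := by
    rw [hy, norm_smul, norm_inv, norm_norm, inv_mul_cancel₀ hu0.ne']
  obtain ⟨N, hN⟩ := exists_nat_gt (max 2 (2 / ε))
  have hN2 : (2 : ℝ) < N := (le_max_left _ _).trans_lt hN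
  have hNe : 2 / ε < N := (le_max_right _ _).trans_lt hN
  have hN0 : (0 : ℝ) < N := by linarith
  have hw : ‖(fun i => ((⌊(N : ℝ) * y i⌋ : ℤ) : ℝ)) - (N : ℝ) • y‖ ≤ (1 / N) * N := by
    have : (1 / (N : ℝ)) * N = 1 := by field_simp
    rw [this, pi_norm_le_iff_of_nonneg zero_le_one]
    intro i
    show ‖((⌊(N : ℝ) * y i⌋ : ℤ) : ℝ) - (N : ℝ) * y i‖ ≤ 1
    rw [Real.norm_eq_abs, abs_le]
    have h1 := Int.floor_le ((N : ℝ) * y i)
    have h2 := Int.lt_floor_add_one ((N : ℝ) * y i)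
    constructor <;> linarith
  have h1N : 1 / (N : ℝ) ≤ 1 / 2 := one_div_le_one_div_of_le (by norm_num) hN2.le
  obtain ⟨h1, h2⟩ := Fn.dir_close hN0 h1N hy1.symm.le hw
  refine ⟨fun i => ⌊(N : ℝ) * y i⌋, ?_, ?_⟩
  · intro h0
    rw [h0, norm_zero] at h1
    linarith
  · rw [hy1, inv_one, one_smul] at h2
    rw [← hy]
    refine h2.trans ?_
    rw [mul_one_div, div_le_iff₀ hN0]
    rw [div_lt_iff₀ hε] at hNe
    linarith

end Gk

open Gk in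
theorem genk_all : S_GENK := by
  intro k n hk B Q hB hBQ R L f₀ hf₀ hL hD φ
  obtain ⟨e, he⟩ := exists_surjective_nat ((Fin n → ℤ) × ℕ × ℕ)
  obtain ⟨Rn, hRn⟩ := exists_nat_ge (max R 1)
  have hRn1 : (1 : ℝ) ≤ Rn := (le_max_right _ _).trans hRn
  have hRnR : R ≤ Rn := (le_max_left _ _).trans hRn
  obtain ⟨O, hO⟩ : ∃ O : ((Fin n → ℤ) × ℕ × ℕ) → Set ((Fin n → ℝ) → ℝ → ℝ), O = fun z =>
      open scoped Classical in
      if (fun i => (z.1 i : ℝ)) = 0 then {f | PotK k f} else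
        Gs k B f₀ φ (fun i => (z.1 i : ℝ)) (1 / ((z.2.1 : ℝ) + 1)) ((z.2.2 : ℝ) + Rn) := ⟨_, rfl⟩
  refine ⟨fun m => O (e m), fun m => ?_, fun f hf K u ε hu hε => ?_⟩
  · obtain ⟨z, hz⟩ : ∃ z, z = e m := ⟨_, rfl⟩
    show OpenDenseK k (O (e m))
    rw [← hz]
    by_cases h0 : (fun i => (z.1 i : ℝ)) = 0
    · have e1 : O z = {f | PotK k f} := by
        rw [hO]
        simp only [if_pos h0]
      rw [e1]
      refine ⟨fun f hf => ⟨hf, 1, one_pos, fun g hg _ => hg⟩, fun f hf ε hε => ⟨f, hf, fun i _ q => ?_⟩⟩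
      have e2 : (fun q : (Fin n → ℝ) × ℝ => f q.1 q.2 - f q.1 q.2) = fun _ => 0 := by
        funext q; ring
      rw [e2, iteratedFDeriv_fun_zero]
      simp only [Pi.zero_apply, norm_zero]
      exact hε.le
    · have e1 : O z = Gs k B f₀ φ (fun i => (z.1 i : ℝ)) (1 / ((z.2.1 : ℝ) + 1)) ((z.2.2 : ℝ) + Rn) := by
        rw [hO]
        simp only [if_neg h0]
      rw [e1]
      have hm0 : (0 : ℝ) ≤ (z.2.2 : ℝ) := Nat.cast_nonneg _
      exact ⟨open_Gs hk hB hBQ hf₀ φ _ (by linarith), dense_Gs hL hD φ h0 (by positivity) _⟩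
  · obtain ⟨w, hw0, hw⟩ := int_dir hu (by positivity : 0 < ε / 2)
    obtain ⟨p, hp⟩ := exists_nat_gt (2 / ε)
    obtain ⟨M, hM⟩ := exists_nat_ge K
    obtain ⟨m, hm⟩ := he (w, p, M)
    have h1 : f ∈ O (e m) := hf m
    have e1 : O (e m) = Gs k B f₀ φ (fun i => (w i : ℝ)) (1 / ((p : ℝ) + 1)) ((M : ℝ) + Rn) := by
      rw [hm, hO]
      simp only [if_neg hw0]
    rw [e1] at h1
    obtain ⟨hfp, γ, t0, t1, h01, hE, ⟨μ, hμ, hmu⟩, hφ⟩ := h1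
    have hM0 : (0 : ℝ) ≤ M := Nat.cast_nonneg _
    have hp' : 1 / ((p : ℝ) + 1) ≤ ε / 2 := by
      rw [div_le_div_iff₀ (by positivity) (by norm_num)]
      rw [div_lt_iff₀ hε] at hp
      nlinarith
    refine ⟨γ, t0, t1, h01, fun t ht => ?_, fun t ht => ?_, hφ⟩
    · refine Fn.loc (L' := LagB B (fun x t => f₀ x t + f x t)) (R := R) (fun x v t hv => ?_) ?_ (hE t ht)
      · simp only [hL x v t hv, LagB]
        ring
      · have h2 := (Gq.el_B hB hBQ (PotK.pot hk (PotK.add hf₀ hfp)).1).1 γ t (hE t ht)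
        have h3 : ContinuousAt (fun s => ‖deriv γ s‖) t := h2.2.continuousAt.norm
        refine h3.eventually (lt_mem_nhds ?_)
        have := (hmu t ht).1
        linarith
    · obtain ⟨a1, a2⟩ := hmu t ht
      refine ⟨by linarith, ?_⟩
      have e2 : (‖deriv γ t‖⁻¹) • deriv γ t - (‖u‖⁻¹) • u =
          ((‖deriv γ t‖⁻¹) • deriv γ t - (‖(fun i => (w i : ℝ))‖⁻¹) • (fun i => (w i : ℝ))) +
          ((‖(fun i => (w i : ℝ))‖⁻¹) • (fun i => (w i : ℝ)) - (‖u‖⁻¹) • u) := by abel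
      rw [e2]
      refine (norm_add_le _ _).trans ?_
      linarith

end Pool.Agent.K9h32.HJ
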