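import Pool.Agent.K9h32.HJ.EV2
import Pool.Agent.N980.TL.Fr

/-!
# Derivatives of the Hamilton-Jacobi equation
-/

set_option autoImplicit false

open Set Filter Topology
open scoped ContDiff

noncomputable section

namespace Pool.Agent.K9h32.HJ

open Pool.Agent.N980.TL (E Trig val_hasDerivAt)

variable {n N : ℕ}

theorem comm_xt (j : Fin n) (L : List (Atom n)) (x v : E n) (t : ℝ) :
    ev (dx j (dt L)) x v t = ev (dt (dx j L)) x v t := by
  classical
  induction L with
  | nil => rfl
  | cons a L ih =>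
    rw [cons_eq a L, dt_append, dx_append, dx_append, dt_append, ev_append, ev_append, ih]
    congr 1
    by_cases h : a.k = 0
    · simp [dt, dx, h]
    · simp only [dt, dx, List.flatMap_cons, List.flatMap_nil, List.append_nil, if_neg h, ev_cons, ev_nil,
        add_zero, Atom.ev, Atom.amp, Atom.ph]
      ring

theorem comm_xx (i j : Fin n) (L : List (Atom n)) (x v : E n) (t : ℝ) :
    ev (dx j (dx i L)) x v t = ev (dx i (dx j L)) x v t := by
  classical
  induction L with
  | nil => rfl
  | cons a L ih =>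
    rw [cons_eq a L, dx_append, dx_append, dx_append, dx_append, ev_append, ev_append, ih]
    congr 1
    by_cases h : a.k = 0
    · simp [dx, h]
    · simp only [dx, List.flatMap_cons, List.flatMap_nil, List.append_nil, if_neg h, ev_cons, ev_nil,
        add_zero, Atom.ev, Atom.amp, Atom.ph]
      ring

theorem comm_vt (j : Fin n) (L : List (Atom n)) (x v : E n) (t : ℝ) :
    ev (dv j (dt L)) x v t = ev (dt (dv j L)) x v t := by
  induction L with
  | nil => rfl
  | cons a L ih =>
    rw [cons_eq a L, dt_append, dv_append, dv_append, dt_append, ev_append, ev_append, ih]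
    congr 1
    simp only [dt, dv, List.flatMap_cons, List.flatMap_nil, List.append_nil, List.flatMap_map, ev,
      List.map_map, List.map_flatMap, List.map_cons, List.map_nil]
    rw [← List.map_eq_flatMap]
    congr 1
    refine List.map_congr_left fun f _ => ?_
    simp only [Function.comp, Atom.ev, Atom.amp, Atom.ph]
    ring

theorem comm_vx (i j : Fin n) (L : List (Atom n)) (x v : E n) (t : ℝ) :
    ev (dv j (dx i L)) x v t = ev (dx i (dv j L)) x v t := by
  classical
  induction L with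
  | nil => rfl
  | cons a L ih =>
    rw [cons_eq a L, dx_append, dv_append, dv_append, dx_append, ev_append, ev_append, ih]
    congr 1
    by_cases h : a.k = 0
    · simp only [dv, dx, List.flatMap_cons, List.flatMap_nil, List.append_nil, List.flatMap_map, ev, h,
        if_true, List.map_nil, List.sum_nil]
      have : (a.F.flatMap fun _ => ([] : List (Atom n))) = [] := by
        rw [List.flatMap_eq_nil_iff]; intro f _; rfl
      rw [this]; rfl
    · simp only [dv, dx, List.flatMap_cons, List.flatMap_nil, List.append_nil, List.flatMap_map, ev,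
        List.map_map, List.map_flatMap, if_neg h, List.map_cons, List.map_nil]
      rw [← List.map_eq_flatMap]
      congr 1
      refine List.map_congr_left fun f _ => ?_
      simp only [Function.comp, Atom.ev, Atom.amp, Atom.ph]
      ring

/-- a solution of the Hamilton-Jacobi equation up to an error of order `p` -/
structure Sol (D : Trig n N) (p : ℕ) (w c e : List (Atom n)) (𝓕 : List ((Fin n → ℤ) × ℤ)) : Prop where
  f1 : ∀ f ∈ 𝓕, f.1 ≠ 0
  fw : InF 𝓕 w
  fc : InF 𝓕 c
  fe : InF 𝓕 e
  ow : ∀ a ∈ w, a.k ≠ 0 → 1 ≤ a.F.length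
  oc : ∀ a ∈ c, a.k = 0 ∧ a.m = 0
  oe : Ord p e
  hj : ∀ v : E n, (∀ f ∈ 𝓕, fac f v ≠ 0) → ∀ (x : E n) (t : ℝ),
      ev (dt w) x v t + ∑ i, v i * ev (dx i w) x v t + (∑ i, ev (dx i w) x v t ^ 2) / 2 =
        D.val x t + ev c x v t + ev e x v t

theorem upd_hasDerivAt (x : E n) (j : Fin n) (u : ℝ) (i : Fin n) :
    HasDerivAt (fun u => Function.update x j u i) ((Pi.single j 1 : E n) i) u := by
  by_cases h : i = j
  · subst h
    simp only [Function.update_self, Pi.single_eq_same]
    exact hasDerivAt_id u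
  · simp only [Function.update_of_ne h, Pi.single_eq_of_ne h]
    exact hasDerivAt_const _ _

theorem sum_single (j : Fin n) (g : Fin n → ℝ) : ∑ i, (Pi.single j 1 : E n) i * g i = g j := by
  classical
  rw [Finset.sum_eq_single j]
  · simp
  · intro i _ hi; simp [Pi.single_eq_of_ne hi]
  · simp

theorem ev_dx_hasDerivAt (L : List (Atom n)) (x v : E n) (t : ℝ) (j : Fin n)
    (hF : ∀ a ∈ L, ∀ f ∈ a.F, fac f v ≠ 0) :
    HasDerivAt (fun u => ev L (Function.update x j u) v t) (ev (dx j L) x v t) (x j) := by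
  have h := ev_hasDerivAt L (z := fun u => Function.update x j u) (ν := fun _ => v) (τ := fun _ => t)
    (ν' := 0) (τ' := 0) (fun i => upd_hasDerivAt x j (x j) i)
    (fun i => hasDerivAt_const _ _) (hasDerivAt_const _ _) hF
  simp only [Function.update_eq_self, zero_mul, zero_add, Pi.zero_apply, Finset.sum_const_zero, add_zero,
    sum_single] at h
  exact h

theorem ev_dv_hasDerivAt (L : List (Atom n)) (x v : E n) (t : ℝ) (j : Fin n)
    (hF : ∀ a ∈ L, ∀ f ∈ a.F, fac f v ≠ 0) :
    HasDerivAt (fun u => ev L x (Function.update v j u) t) (ev (dv j L) x v t) (v j) := by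
  have h := ev_hasDerivAt L (z := fun _ => x) (ν := fun u => Function.update v j u) (τ := fun _ => t)
    (z' := 0) (τ' := 0) (s := v j)
    (fun i => hasDerivAt_const _ _) (fun i => upd_hasDerivAt v j (v j) i) (hasDerivAt_const _ _)
    (by simpa only [Function.update_eq_self] using hF)
  simp only [Function.update_eq_self, zero_mul, zero_add, Pi.zero_apply, Finset.sum_const_zero,
    sum_single] at h
  exact h

variable {D : Trig n N} {p : ℕ} {w c e : List (Atom n)} {𝓕 : List ((Fin n → ℤ) × ℤ)}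

theorem dx_const {c : List (Atom n)} (hc : ∀ a ∈ c, a.k = 0 ∧ a.m = 0) (j : Fin n) : dx j c = [] := by
  classical
  unfold dx
  rw [List.flatMap_eq_nil_iff]
  intro a ha
  rw [if_pos (hc a ha).1]

/-- the derivative of the equation in `x_j` -/
theorem Sol.hjx (S : Sol D p w c e 𝓕) {v : E n} (hv : ∀ f ∈ 𝓕, fac f v ≠ 0) (x : E n) (t : ℝ) (j : Fin n) :
    ev (dt (dx j w)) x v t + ∑ i, (v i + ev (dx i w) x v t) * ev (dx i (dx j w)) x v t =
      D.grad x t j + ev (dx j e) x v t := by
  have hw : ∀ a ∈ w, ∀ f ∈ a.F, fac f v ≠ 0 := fun a ha f hf => hv f (S.fw a ha f hf)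
  have hdt : ∀ a ∈ dt w, ∀ f ∈ a.F, fac f v ≠ 0 := fun a ha f hf => hv f (dt_InF S.fw a ha f hf)
  have hdx : ∀ i, ∀ a ∈ dx i w, ∀ f ∈ a.F, fac f v ≠ 0 := fun i a ha f hf => hv f (dx_InF S.fw i a ha f hf)
  have hc : ∀ a ∈ c, ∀ f ∈ a.F, fac f v ≠ 0 := fun a ha f hf => hv f (S.fc a ha f hf)
  have he : ∀ a ∈ e, ∀ f ∈ a.F, fac f v ≠ 0 := fun a ha f hf => hv f (S.fe a ha f hf)
  have h1 := ev_dx_hasDerivAt (dt w) x v t j hdt
  have h2 := HasDerivAt.fun_sum (u := Finset.univ) fun i _ =>
    (ev_dx_hasDerivAt (dx i w) x v t j (hdx i)).const_mul (v i)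
  have h3 := (HasDerivAt.fun_sum (u := Finset.univ) fun i _ =>
    (ev_dx_hasDerivAt (dx i w) x v t j (hdx i)).fun_pow 2).div_const 2
  have h4 := (h1.fun_add h2).fun_add h3
  have h5 := ((val_hasDerivAt D x t j).fun_add (ev_dx_hasDerivAt c x v t j hc)).fun_add
    (ev_dx_hasDerivAt e x v t j he)
  have hfun : (fun u => ev (dt w) (Function.update x j u) v t +
      ∑ i, v i * ev (dx i w) (Function.update x j u) v t +
      (∑ i, ev (dx i w) (Function.update x j u) v t ^ 2) / 2) =
      fun u => D.val (Function.update x j u) t + ev c (Function.update x j u) v t +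
        ev e (Function.update x j u) v t := by
    funext u; exact S.hj v hv _ t
  rw [hfun] at h4
  have h6 := h4.unique h5
  rw [dx_const S.oc, ev_nil, add_zero, comm_xt] at h6
  rw [← h6]
  simp only [Function.update_eq_self]
  simp only [add_mul, Finset.sum_add_distrib, add_assoc]
  congr 1
  congr 1
  · refine Finset.sum_congr rfl fun i _ => ?_
    rw [comm_xx]
  · rw [Finset.sum_div]
    refine Finset.sum_congr rfl fun i _ => ?_
    rw [comm_xx i j]
    push_cast
    ring

theorem fac_ev (f : (Fin n → ℤ) × ℤ) (v : E n) (j : Fin n) (hf : fac f v ≠ 0) :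
    ∀ᶠ u in 𝓝 (v j), fac f (Function.update v j u) ≠ 0 := by
  have h1 : ContinuousAt (fun u => fac f (Function.update v j u)) (v j) :=
    (fac_hasDerivAt f (fun i => upd_hasDerivAt v j (v j) i)).continuousAt
  have h2 : fac f (Function.update v j (v j)) ≠ 0 := by rwa [Function.update_eq_self]
  exact h1.eventually_ne h2

/-- the derivative of the equation in `v_j` -/
theorem Sol.hjv (S : Sol D p w c e 𝓕) {v : E n} (hv : ∀ f ∈ 𝓕, fac f v ≠ 0) (x : E n) (t : ℝ) (j : Fin n) :
    ev (dt (dv j w)) x v t + ∑ i, (v i + ev (dx i w) x v t) * ev (dx i (dv j w)) x v t +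
      ev (dx j w) x v t = ev (dv j c) x v t + ev (dv j e) x v t := by
  have hw : ∀ a ∈ w, ∀ f ∈ a.F, fac f v ≠ 0 := fun a ha f hf => hv f (S.fw a ha f hf)
  have hdt : ∀ a ∈ dt w, ∀ f ∈ a.F, fac f v ≠ 0 := fun a ha f hf => hv f (dt_InF S.fw a ha f hf)
  have hdx : ∀ i, ∀ a ∈ dx i w, ∀ f ∈ a.F, fac f v ≠ 0 := fun i a ha f hf => hv f (dx_InF S.fw i a ha f hf)
  have hc : ∀ a ∈ c, ∀ f ∈ a.F, fac f v ≠ 0 := fun a ha f hf => hv f (S.fc a ha f hf)
  have he : ∀ a ∈ e, ∀ f ∈ a.F, fac f v ≠ 0 := fun a ha f hf => hv f (S.fe a ha f hf)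
  have h1 := ev_dv_hasDerivAt (dt w) x v t j hdt
  have h2 := HasDerivAt.fun_sum (u := Finset.univ) fun i _ =>
    (upd_hasDerivAt v j (v j) i).fun_mul (ev_dv_hasDerivAt (dx i w) x v t j (hdx i))
  have h3 := (HasDerivAt.fun_sum (u := Finset.univ) fun i _ =>
    (ev_dv_hasDerivAt (dx i w) x v t j (hdx i)).fun_pow 2).div_const 2
  have h4 := (h1.fun_add h2).fun_add h3
  have h5 := ((hasDerivAt_const (v j) (D.val x t)).fun_add (ev_dv_hasDerivAt c x v t j hc)).fun_add
    (ev_dv_hasDerivAt e x v t j he)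
  have hev : ∀ᶠ u in 𝓝 (v j), ∀ f ∈ 𝓕, fac f (Function.update v j u) ≠ 0 := by
    have := (Filter.eventually_all_finite (List.finite_toSet 𝓕)).2 (fun f hf => fac_ev f v j (hv f hf))
    exact this
  have hfun : (fun u => ev (dt w) x (Function.update v j u) t +
      ∑ i, (Function.update v j u) i * ev (dx i w) x (Function.update v j u) t +
      (∑ i, ev (dx i w) x (Function.update v j u) t ^ 2) / 2) =ᶠ[𝓝 (v j)]
      fun u => D.val x t + ev c x (Function.update v j u) t + ev e x (Function.update v j u) t := by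
    filter_upwards [hev] with u hu
    exact S.hj _ hu x t
  have h6 := (h4.congr_of_eventuallyEq hfun.symm).unique h5
  rw [zero_add, comm_vt] at h6
  rw [← h6]
  simp only [Function.update_eq_self, Finset.sum_add_distrib, sum_single, add_mul, add_assoc]
  congr 1
  have e1 : ∑ i, v i * ev (dv j (dx i w)) x v t = ∑ i, v i * ev (dx i (dv j w)) x v t :=
    Finset.sum_congr rfl fun i _ => by rw [comm_vx]
  have e2 : (∑ i, ((2 : ℕ) : ℝ) * ev (dx i w) x v t ^ (2 - 1) * ev (dv j (dx i w)) x v t) / 2 =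
      ∑ i, ev (dx i w) x v t * ev (dx i (dv j w)) x v t := by
    rw [Finset.sum_div]
    refine Finset.sum_congr rfl fun i _ => ?_
    rw [comm_vx]
    push_cast
    ring
  rw [e1, e2]
  ring

/-- Newton's equation up to a small error -/
theorem Sol.newton (S : Sol D p w c e 𝓕) {z ν : ℝ → E n} {ν' : E n} {s : ℝ}
    (hν : ∀ i, HasDerivAt (fun s => ν s i) (ν' i) s) (hv : ∀ f ∈ 𝓕, fac f (ν s) ≠ 0)
    (hz : ∀ i, HasDerivAt (fun s => z s i) (ν s i + ev (dx i w) (z s) (ν s) s) s) (j : Fin n) :
    HasDerivAt (fun s => ν s j + ev (dx j w) (z s) (ν s) s)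
      (D.grad (z s) s j + (ν' j + ev (dx j e) (z s) (ν s) s +
        ∑ i, ν' i * ev (dv i (dx j w)) (z s) (ν s) s)) s := by
  have h1 := ev_hasDerivAt (dx j w) hz hν (hasDerivAt_id s)
    (fun a ha f hf => hv f (dx_InF S.fw j a ha f hf))
  have h2 := (hν j).fun_add h1
  refine h2.congr_deriv ?_
  have h3 := S.hjx hv (z s) s j
  simp only [id, one_mul]
  linarith

/-- the equation for the normalized position -/
theorem Sol.drift (S : Sol D p w c e 𝓕) {z ν : ℝ → E n} {ν' : E n} {s : ℝ}
    (hν : ∀ i, HasDerivAt (fun s => ν s i) (ν' i) s) (hv : ∀ f ∈ 𝓕, fac f (ν s) ≠ 0)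
    (hz : ∀ i, HasDerivAt (fun s => z s i) (ν s i + ev (dx i w) (z s) (ν s) s) s) (j : Fin n) :
    HasDerivAt (fun s => z s j + ev (dv j w) (z s) (ν s) s)
      (ν s j + ev (dv j c) (z s) (ν s) s + (ev (dv j e) (z s) (ν s) s +
        ∑ i, ν' i * ev (dv i (dv j w)) (z s) (ν s) s)) s := by
  have h1 := ev_hasDerivAt (dv j w) hz hν (hasDerivAt_id s)
    (fun a ha f hf => hv f (dv_InF S.fw j a ha f hf))
  have h2 := (hz j).fun_add h1
  refine h2.congr_deriv ?_
  have h3 := S.hjv hv (z s) s j
  simp only [id, one_mul]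
  linarith

end Pool.Agent.K9h32.HJ
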