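import Pool.Agent.K9h32.HJ.HJD

/-!
# Derivatives of the Hamilton-Jacobi equation, for a general flat metric
-/

set_option autoImplicit false

open Set Filter Topology
open scoped ContDiff

noncomputable section

namespace Pool.Agent.K9h32.HJ

open Pool.Agent.N980.TL (E Trig val_hasDerivAt)

variable {n N : ℕ}

/-- a solution of the Hamilton-Jacobi equation up to an error of order `p` -/
structure SolQ (D : Trig n N) (Q : Fin n → Fin n → ℝ) (p : ℕ) (w c e : List (Atom n))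
    (𝓕 : List ((Fin n → ℤ) × ℤ)) : Prop where
  sy : ∀ i j, Q i j = Q j i
  f1 : ∀ f ∈ 𝓕, f.1 ≠ 0
  fw : InF 𝓕 w
  fc : InF 𝓕 c
  fe : InF 𝓕 e
  ow : ∀ a ∈ w, a.k ≠ 0 → 1 ≤ a.F.length
  oc : ∀ a ∈ c, a.k = 0 ∧ a.m = 0
  oe : Ord p e
  hj : ∀ v : E n, (∀ f ∈ 𝓕, fac f v ≠ 0) → ∀ (x : E n) (t : ℝ),
      ev (dt w) x v t + ∑ i, v i * ev (dx i w) x v t +
        (∑ i, ∑ j, Q i j * (ev (dx i w) x v t * ev (dx j w) x v t)) / 2 =
        D.val x t + ev c x v t + ev e x v t

variable {D : Trig n N} {Q : Fin n → Fin n → ℝ} {p : ℕ} {w c e : List (Atom n)} {𝓕 : List ((Fin n → ℤ) × ℤ)}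

theorem quad_deriv (hQ : ∀ i j, Q i j = Q j i) {a : Fin n → ℝ → ℝ} {a' : Fin n → ℝ} {u : ℝ}
    (h : ∀ i, HasDerivAt (a i) (a' i) u) :
    HasDerivAt (fun u => (∑ i, ∑ j, Q i j * (a i u * a j u)) / 2) (∑ i, (∑ j, Q i j * a j u) * a' i) u := by
  have h1 := (HasDerivAt.fun_sum (u := Finset.univ) fun i _ => HasDerivAt.fun_sum (u := Finset.univ) fun j _ =>
    ((h i).fun_mul (h j)).const_mul (Q i j)).div_const 2
  refine h1.congr_deriv ?_
  have e1 : ∑ i, ∑ j, Q i j * (a' i * a j u + a i u * a' j) =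
      (∑ i, ∑ j, Q i j * (a' i * a j u)) + ∑ i, ∑ j, Q i j * (a i u * a' j) := by
    simp only [mul_add, Finset.sum_add_distrib]
  have e2 : ∑ i, ∑ j, Q i j * (a i u * a' j) = ∑ i, ∑ j, Q i j * (a' i * a j u) := by
    rw [Finset.sum_comm]
    refine Finset.sum_congr rfl fun i _ => Finset.sum_congr rfl fun j _ => ?_
    rw [hQ j i]; ring
  rw [e1, e2]
  have e3 : ∑ i, (∑ j, Q i j * a j u) * a' i = ∑ i, ∑ j, Q i j * (a' i * a j u) := by
    refine Finset.sum_congr rfl fun i _ => ?_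
    rw [Finset.sum_mul]
    exact Finset.sum_congr rfl fun j _ => by ring
  rw [e3]
  ring

/-- the velocity of the particle -/
def vel (Q : Fin n → Fin n → ℝ) (w : List (Atom n)) (x v : E n) (t : ℝ) : E n := fun i =>
  v i + ∑ j, Q i j * ev (dx j w) x v t

/-- the derivative of the equation in `x_j` -/
theorem SolQ.hjx (S : SolQ D Q p w c e 𝓕) {v : E n} (hv : ∀ f ∈ 𝓕, fac f v ≠ 0) (x : E n) (t : ℝ) (j : Fin n) :
    ev (dt (dx j w)) x v t + ∑ i, vel Q w x v t i * ev (dx i (dx j w)) x v t =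
      D.grad x t j + ev (dx j e) x v t := by
  have hdt : ∀ a ∈ dt w, ∀ f ∈ a.F, fac f v ≠ 0 := fun a ha f hf => hv f (dt_InF S.fw a ha f hf)
  have hdx : ∀ i, ∀ a ∈ dx i w, ∀ f ∈ a.F, fac f v ≠ 0 := fun i a ha f hf => hv f (dx_InF S.fw i a ha f hf)
  have hc : ∀ a ∈ c, ∀ f ∈ a.F, fac f v ≠ 0 := fun a ha f hf => hv f (S.fc a ha f hf)
  have he : ∀ a ∈ e, ∀ f ∈ a.F, fac f v ≠ 0 := fun a ha f hf => hv f (S.fe a ha f hf)
  have h1 := ev_dx_hasDerivAt (dt w) x v t j hdt
  have h2 := HasDerivAt.fun_sum (u := Finset.univ) fun i _ =>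
    (ev_dx_hasDerivAt (dx i w) x v t j (hdx i)).const_mul (v i)
  have h3 := quad_deriv S.sy (a := fun i u => ev (dx i w) (Function.update x j u) v t)
    (fun i => ev_dx_hasDerivAt (dx i w) x v t j (hdx i))
  have h4 := (h1.fun_add h2).fun_add h3
  have h5 := ((val_hasDerivAt D x t j).fun_add (ev_dx_hasDerivAt c x v t j hc)).fun_add
    (ev_dx_hasDerivAt e x v t j he)
  have hfun : (fun u => ev (dt w) (Function.update x j u) v t +
      ∑ i, v i * ev (dx i w) (Function.update x j u) v t +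
      (∑ i, ∑ l, Q i l * (ev (dx i w) (Function.update x j u) v t *
        ev (dx l w) (Function.update x j u) v t)) / 2) =
      fun u => D.val (Function.update x j u) t + ev c (Function.update x j u) v t +
        ev e (Function.update x j u) v t := by
    funext u; exact S.hj v hv _ t
  rw [hfun] at h4
  have h6 := h4.unique h5
  rw [dx_const S.oc, ev_nil, add_zero, comm_xt] at h6
  rw [← h6]
  simp only [Function.update_eq_self, vel]
  simp only [add_mul, Finset.sum_add_distrib, add_assoc]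
  congr 1
  congr 1
  · refine Finset.sum_congr rfl fun i _ => ?_
    rw [comm_xx]
  · refine Finset.sum_congr rfl fun i _ => ?_
    rw [comm_xx i j]

/-- the derivative of the equation in `v_j` -/
theorem SolQ.hjv (S : SolQ D Q p w c e 𝓕) {v : E n} (hv : ∀ f ∈ 𝓕, fac f v ≠ 0) (x : E n) (t : ℝ) (j : Fin n) :
    ev (dt (dv j w)) x v t + ∑ i, vel Q w x v t i * ev (dx i (dv j w)) x v t +
      ev (dx j w) x v t = ev (dv j c) x v t + ev (dv j e) x v t := by
  have hdt : ∀ a ∈ dt w, ∀ f ∈ a.F, fac f v ≠ 0 := fun a ha f hf => hv f (dt_InF S.fw a ha f hf)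
  have hdx : ∀ i, ∀ a ∈ dx i w, ∀ f ∈ a.F, fac f v ≠ 0 := fun i a ha f hf => hv f (dx_InF S.fw i a ha f hf)
  have hc : ∀ a ∈ c, ∀ f ∈ a.F, fac f v ≠ 0 := fun a ha f hf => hv f (S.fc a ha f hf)
  have he : ∀ a ∈ e, ∀ f ∈ a.F, fac f v ≠ 0 := fun a ha f hf => hv f (S.fe a ha f hf)
  have h1 := ev_dv_hasDerivAt (dt w) x v t j hdt
  have h2 := HasDerivAt.fun_sum (u := Finset.univ) fun i _ =>
    (upd_hasDerivAt v j (v j) i).fun_mul (ev_dv_hasDerivAt (dx i w) x v t j (hdx i))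
  have h3 := quad_deriv S.sy (a := fun i u => ev (dx i w) x (Function.update v j u) t)
    (fun i => ev_dv_hasDerivAt (dx i w) x v t j (hdx i))
  have h4 := (h1.fun_add h2).fun_add h3
  have h5 := ((hasDerivAt_const (v j) (D.val x t)).fun_add (ev_dv_hasDerivAt c x v t j hc)).fun_add
    (ev_dv_hasDerivAt e x v t j he)
  have hev : ∀ᶠ u in 𝓝 (v j), ∀ f ∈ 𝓕, fac f (Function.update v j u) ≠ 0 := by
    have := (Filter.eventually_all_finite (List.finite_toSet 𝓕)).2 (fun f hf => fac_ev f v j (hv f hf))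
    exact this
  have hfun : (fun u => ev (dt w) x (Function.update v j u) t +
      ∑ i, (Function.update v j u) i * ev (dx i w) x (Function.update v j u) t +
      (∑ i, ∑ l, Q i l * (ev (dx i w) x (Function.update v j u) t *
        ev (dx l w) x (Function.update v j u) t)) / 2) =ᶠ[𝓝 (v j)]
      fun u => D.val x t + ev c x (Function.update v j u) t + ev e x (Function.update v j u) t := by
    filter_upwards [hev] with u hu
    exact S.hj _ hu x t
  have h6 := (h4.congr_of_eventuallyEq hfun.symm).unique h5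
  rw [zero_add, comm_vt] at h6
  rw [← h6]
  simp only [Function.update_eq_self, Finset.sum_add_distrib, sum_single, add_mul, add_assoc, vel]
  congr 1
  have e1 : ∑ i, v i * ev (dv j (dx i w)) x v t = ∑ i, v i * ev (dx i (dv j w)) x v t :=
    Finset.sum_congr rfl fun i _ => by rw [comm_vx]
  have e2 : ∑ i, (∑ l, Q i l * ev (dx l w) x v t) * ev (dv j (dx i w)) x v t =
      ∑ i, (∑ l, Q i l * ev (dx l w) x v t) * ev (dx i (dv j w)) x v t := by
    refine Finset.sum_congr rfl fun i _ => ?_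
    rw [comm_vx]
  rw [e1, e2]
  ring

/-- Newton's equation up to a small error -/
theorem SolQ.newton (S : SolQ D Q p w c e 𝓕) {z ν : ℝ → E n} {ν' : E n} {s : ℝ}
    (hν : ∀ i, HasDerivAt (fun s => ν s i) (ν' i) s) (hv : ∀ f ∈ 𝓕, fac f (ν s) ≠ 0)
    (hz : ∀ i, HasDerivAt (fun s => z s i) (vel Q w (z s) (ν s) s i) s) (j : Fin n) :
    HasDerivAt (fun s => ev (dx j w) (z s) (ν s) s)
      (D.grad (z s) s j + (ev (dx j e) (z s) (ν s) s +
        ∑ i, ν' i * ev (dv i (dx j w)) (z s) (ν s) s)) s := by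
  have h1 := ev_hasDerivAt (dx j w) hz hν (hasDerivAt_id s)
    (fun a ha f hf => hv f (dx_InF S.fw j a ha f hf))
  refine h1.congr_deriv ?_
  have h3 := S.hjx hv (z s) s j
  simp only [id, one_mul]
  linarith

/-- the derivative of the velocity -/
theorem SolQ.acc (S : SolQ D Q p w c e 𝓕) {z ν : ℝ → E n} {ν' : E n} {s : ℝ}
    (hν : ∀ i, HasDerivAt (fun s => ν s i) (ν' i) s) (hv : ∀ f ∈ 𝓕, fac f (ν s) ≠ 0)
    (hz : ∀ i, HasDerivAt (fun s => z s i) (vel Q w (z s) (ν s) s i) s) (i : Fin n) :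
    HasDerivAt (fun s => vel Q w (z s) (ν s) s i)
      (ν' i + ∑ j, Q i j * (D.grad (z s) s j + (ev (dx j e) (z s) (ν s) s +
        ∑ l, ν' l * ev (dv l (dx j w)) (z s) (ν s) s))) s := by
  unfold vel
  exact (hν i).fun_add (HasDerivAt.fun_sum fun j _ => (S.newton hν hv hz j).const_mul (Q i j))

/-- the equation for the normalized position -/
theorem SolQ.drift (S : SolQ D Q p w c e 𝓕) {z ν : ℝ → E n} {ν' : E n} {s : ℝ}
    (hν : ∀ i, HasDerivAt (fun s => ν s i) (ν' i) s) (hv : ∀ f ∈ 𝓕, fac f (ν s) ≠ 0)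
    (hz : ∀ i, HasDerivAt (fun s => z s i) (vel Q w (z s) (ν s) s i) s) (i : Fin n) :
    HasDerivAt (fun s => z s i + ∑ j, Q i j * ev (dv j w) (z s) (ν s) s)
      (ν s i + ∑ j, Q i j * (ev (dv j c) (z s) (ν s) s + (ev (dv j e) (z s) (ν s) s +
        ∑ l, ν' l * ev (dv l (dv j w)) (z s) (ν s) s))) s := by
  have h1 := fun j => ev_hasDerivAt (dv j w) hz hν (hasDerivAt_id s)
    (fun a ha f hf => hv f (dv_InF S.fw j a ha f hf))
  have h2 := (hz i).fun_add (HasDerivAt.fun_sum (u := Finset.univ) fun j _ => (h1 j).const_mul (Q i j))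
  refine h2.congr_deriv ?_
  simp only [vel, add_assoc]
  rw [← Finset.sum_add_distrib]
  congr 1
  refine Finset.sum_congr rfl fun j _ => ?_
  rw [← mul_add]
  congr 1
  have h3 := S.hjv hv (z s) s j
  simp only [id, one_mul, vel] at h3 ⊢
  linarith

end Pool.Agent.K9h32.HJ
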