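import Pool.Agent.K9h32.HJ.Stm

/-!
# Leaf ITER: approximate solutions of the Hamilton-Jacobi equation, as sums of atoms
-/

set_option autoImplicit false

noncomputable section

namespace Pool.Agent.K9h32.HJ

open Pool.Agent.N980.TL

namespace It

section
variable {n : ℕ}

theorem ev_nil (x v : E n) (t : ℝ) : ev ([] : List (Atom n)) x v t = 0 := by simp [ev]

theorem ev_cons (a : Atom n) (L : List (Atom n)) (x v : E n) (t : ℝ) :
    ev (a :: L) x v t = a.ev x v t + ev L x v t := by simp [ev]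

theorem ev_append (L M : List (Atom n)) (x v : E n) (t : ℝ) :
    ev (L ++ M) x v t = ev L x v t + ev M x v t := by simp [ev]

/-- multiplication by a real number -/
def scl (r : ℝ) (L : List (Atom n)) : List (Atom n) := L.map fun a => { a with c := r * a.c }

theorem ev_scl (r : ℝ) (L : List (Atom n)) (x v : E n) (t : ℝ) :
    ev (scl r L) x v t = r * ev L x v t := by
  induction L with
  | nil => simp [scl, ev]
  | cons a L ih =>
    have h : scl r (a :: L) = { a with c := r * a.c } :: scl r L := rfl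
    rw [h, ev_cons, ev_cons, ih]
    simp only [Atom.ev, Atom.amp, Atom.ph]
    ring

/-- the product of two atoms -/
def mulA (a b : Atom n) : List (Atom n) :=
  [{ c := a.c * b.c / 2, F := a.F ++ b.F, k := a.k + b.k, m := a.m + b.m, φ := a.φ + b.φ },
   { c := a.c * b.c / 2, F := a.F ++ b.F, k := a.k - b.k, m := a.m - b.m, φ := a.φ - b.φ }]

theorem ev_mulA (a b : Atom n) (x v : E n) (t : ℝ) :
    ev (mulA a b) x v t = a.ev x v t * b.ev x v t := by
  rw [mulA, ev_cons, ev_cons, ev_nil]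
  simp only [Atom.ev, Atom.amp, Atom.ph, List.map_append, List.prod_append]
  have h1 : 2 * Real.pi * ((∑ i, (((a.k + b.k) i : ℤ) : ℝ) * x i) + ((a.m + b.m : ℤ) : ℝ) * t) + (a.φ + b.φ) =
      (2 * Real.pi * ((∑ i, (a.k i : ℝ) * x i) + a.m * t) + a.φ) +
        (2 * Real.pi * ((∑ i, (b.k i : ℝ) * x i) + b.m * t) + b.φ) := by
    have : (∑ i, (((a.k + b.k) i : ℤ) : ℝ) * x i) = (∑ i, (a.k i : ℝ) * x i) + ∑ i, (b.k i : ℝ) * x i := by
      rw [← Finset.sum_add_distrib]
      refine Finset.sum_congr rfl fun i _ => ?_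
      rw [Pi.add_apply]
      push_cast
      ring
    rw [this]
    push_cast
    ring
  have h2 : 2 * Real.pi * ((∑ i, (((a.k - b.k) i : ℤ) : ℝ) * x i) + ((a.m - b.m : ℤ) : ℝ) * t) + (a.φ - b.φ) =
      (2 * Real.pi * ((∑ i, (a.k i : ℝ) * x i) + a.m * t) + a.φ) -
        (2 * Real.pi * ((∑ i, (b.k i : ℝ) * x i) + b.m * t) + b.φ) := by
    have : (∑ i, (((a.k - b.k) i : ℤ) : ℝ) * x i) = (∑ i, (a.k i : ℝ) * x i) - ∑ i, (b.k i : ℝ) * x i := by
      rw [← Finset.sum_sub_distrib]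
      refine Finset.sum_congr rfl fun i _ => ?_
      rw [Pi.sub_apply]
      push_cast
      ring
    rw [this]
    push_cast
    ring
  rw [h1, h2, Real.cos_add, Real.cos_sub]
  ring

/-- products of sums of atoms -/
def mulL (L M : List (Atom n)) : List (Atom n) := L.flatMap fun a => M.flatMap fun b => mulA a b

theorem ev_flatMap {α : Type*} (l : List α) (f : α → List (Atom n)) (x v : E n) (t : ℝ) :
    ev (l.flatMap f) x v t = (l.map fun i => ev (f i) x v t).sum := by
  induction l with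
  | nil => simp [ev]
  | cons a l ih => rw [List.flatMap_cons, ev_append, ih, List.map_cons, List.sum_cons]

theorem ev_mulL (L M : List (Atom n)) (x v : E n) (t : ℝ) :
    ev (mulL L M) x v t = ev L x v t * ev M x v t := by
  rw [mulL, ev_flatMap]
  have h : ∀ a : Atom n, ev (M.flatMap fun b => mulA a b) x v t = a.ev x v t * ev M x v t := by
    intro a
    rw [ev_flatMap]
    simp only [ev_mulA]
    rw [List.sum_map_mul_left]
    rfl
  simp only [h]
  rw [List.sum_map_mul_right]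
  rfl

/-- sums over the coordinates -/
def sumL (f : Fin n → List (Atom n)) : List (Atom n) := (List.finRange n).flatMap f

theorem ev_sumL (f : Fin n → List (Atom n)) (x v : E n) (t : ℝ) :
    ev (sumL f) x v t = ∑ i, ev (f i) x v t := by
  rw [sumL, ev_flatMap, Fin.sum_univ_def]

theorem mem_sumL {f : Fin n → List (Atom n)} {a : Atom n} : a ∈ sumL f ↔ ∃ i, a ∈ f i := by
  simp [sumL]

theorem mem_scl {r : ℝ} {L : List (Atom n)} {a : Atom n} (h : a ∈ scl r L) :
    ∃ b ∈ L, a.F = b.F ∧ a.k = b.k ∧ a.m = b.m := by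
  obtain ⟨b, hb, rfl⟩ := List.mem_map.1 h
  exact ⟨b, hb, rfl, rfl, rfl⟩

theorem mem_mulL {L M : List (Atom n)} {a : Atom n} (h : a ∈ mulL L M) :
    ∃ b ∈ L, ∃ c ∈ M, a.F = b.F ++ c.F := by
  rw [mulL, List.mem_flatMap] at h
  obtain ⟨b, hb, h⟩ := h
  rw [List.mem_flatMap] at h
  obtain ⟨c, hc, h⟩ := h
  refine ⟨b, hb, c, hc, ?_⟩
  rw [mulA, List.mem_cons, List.mem_cons] at h
  rcases h with rfl | rfl | h
  · rfl
  · rfl
  · exact absurd h (List.not_mem_nil)

theorem mem_dx {i : Fin n} {L : List (Atom n)} {a : Atom n} (h : a ∈ dx i L) :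
    ∃ b ∈ L, b.k ≠ 0 ∧ a.F = b.F := by
  rw [dx, List.mem_flatMap] at h
  obtain ⟨b, hb, h⟩ := h
  split_ifs at h with h0
  · exact absurd h (List.not_mem_nil)
  · rw [List.mem_singleton] at h
    exact ⟨b, hb, h0, by rw [h]⟩

theorem dx_append (i : Fin n) (L M : List (Atom n)) : dx i (L ++ M) = dx i L ++ dx i M := by
  simp [dx]

theorem dt_append (L M : List (Atom n)) : dt (L ++ M) = dt L ++ dt M := by
  simp [dt]

theorem ev_dx_cons (i : Fin n) (a : Atom n) (L : List (Atom n)) (x v : E n) (t : ℝ) :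
    ev (dx i (a :: L)) x v t =
      a.amp v * (2 * Real.pi * a.k i) * Real.cos (a.ph x t + Real.pi / 2) + ev (dx i L) x v t := by
  have h : dx i (a :: L) = dx i [a] ++ dx i L := by rw [← dx_append]; rfl
  rw [h, ev_append]
  congr 1
  simp only [dx, List.flatMap_cons, List.flatMap_nil, List.append_nil]
  split_ifs with h0
  · rw [ev_nil, h0]
    simp
  · rw [ev_cons, ev_nil]
    simp only [Atom.ev, Atom.amp, Atom.ph]
    ring_nf

theorem ev_dt_cons (a : Atom n) (L : List (Atom n)) (x v : E n) (t : ℝ) :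
    ev (dt (a :: L)) x v t =
      a.amp v * (2 * Real.pi * a.m) * Real.cos (a.ph x t + Real.pi / 2) + ev (dt L) x v t := by
  have h : dt (a :: L) = dt [a] ++ dt L := by rw [← dt_append]; rfl
  rw [h, ev_append]
  congr 1
  simp only [dt, List.flatMap_cons, List.flatMap_nil, List.append_nil]
  rw [ev_cons, ev_nil]
  simp only [Atom.ev, Atom.amp, Atom.ph]
  ring_nf

theorem ev_dx_scl (i : Fin n) (r : ℝ) (L : List (Atom n)) (x v : E n) (t : ℝ) :
    ev (dx i (scl r L)) x v t = r * ev (dx i L) x v t := by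
  induction L with
  | nil => simp [scl, dx, ev]
  | cons a L ih =>
    have h : scl r (a :: L) = { a with c := r * a.c } :: scl r L := rfl
    rw [h, ev_dx_cons, ev_dx_cons, ih]
    simp only [Atom.amp, Atom.ph]
    ring

theorem ev_dt_scl (r : ℝ) (L : List (Atom n)) (x v : E n) (t : ℝ) :
    ev (dt (scl r L)) x v t = r * ev (dt L) x v t := by
  induction L with
  | nil => simp [scl, dt, ev]
  | cons a L ih =>
    have h : scl r (a :: L) = { a with c := r * a.c } :: scl r L := rfl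
    rw [h, ev_dt_cons, ev_dt_cons, ih]
    simp only [Atom.amp, Atom.ph]
    ring

/-- the transport operator `∂_t + v·∂_x` -/
def TT (L : List (Atom n)) (x v : E n) (t : ℝ) : ℝ := ev (dt L) x v t + ∑ i, v i * ev (dx i L) x v t

theorem TT_append (L M : List (Atom n)) (x v : E n) (t : ℝ) : TT (L ++ M) x v t = TT L x v t + TT M x v t := by
  simp only [TT, dt_append, dx_append, ev_append, mul_add, Finset.sum_add_distrib]
  ring

theorem TT_scl (r : ℝ) (L : List (Atom n)) (x v : E n) (t : ℝ) : TT (scl r L) x v t = r * TT L x v t := by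
  simp only [TT, ev_dt_scl, ev_dx_scl, mul_add, Finset.mul_sum]
  congr 1
  exact Finset.sum_congr rfl fun i _ => by ring

theorem TT_nil (x v : E n) (t : ℝ) : TT ([] : List (Atom n)) x v t = 0 := by
  simp [TT, dt, dx, ev]

theorem TT_single (a : Atom n) (x v : E n) (t : ℝ) :
    TT [a] x v t = a.amp v * (2 * Real.pi * fac (a.k, a.m) v) * Real.cos (a.ph x t + Real.pi / 2) := by
  have h1 : ev (dt ([] : List (Atom n))) x v t = 0 := by simp [dt, ev]
  have h2 : ∀ i, ev (dx i ([] : List (Atom n))) x v t = 0 := fun i => by simp [dx, ev]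
  simp only [TT, ev_dt_cons, ev_dx_cons, h1, h2, fac, add_zero]
  have h3 : ∑ i, v i * (a.amp v * (2 * Real.pi * (a.k i : ℝ)) * Real.cos (a.ph x t + Real.pi / 2)) =
      a.amp v * (2 * Real.pi * ∑ i, (a.k i : ℝ) * v i) * Real.cos (a.ph x t + Real.pi / 2) := by
    simp only [Finset.mul_sum, Finset.sum_mul]
    exact Finset.sum_congr rfl fun i _ => by ring
  rw [h3]
  ring

open Classical in
/-- the solution of `(∂_t + v·∂_x) h = a` -/
def invA (a : Atom n) : Atom n :=
  if a.k = 0 then { a with c := a.c / (2 * Real.pi * a.m), φ := a.φ - Real.pi / 2 }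
  else { a with c := a.c / (2 * Real.pi), F := (a.k, a.m) :: a.F, φ := a.φ - Real.pi / 2 }

theorem invA_k (a : Atom n) : (invA a).k = a.k := by
  unfold invA
  split_ifs <;> rfl

theorem invA_F_zero {a : Atom n} (h : a.k = 0) : (invA a).F = a.F := by
  unfold invA
  rw [if_pos h]

theorem invA_F {a : Atom n} (h : a.k ≠ 0) : (invA a).F = (a.k, a.m) :: a.F := by
  unfold invA
  rw [if_neg h]

theorem TT_invA (a : Atom n) (h : a.k ≠ 0 ∨ a.m ≠ 0) (x v : E n) (t : ℝ)
    (hv : a.k ≠ 0 → fac (a.k, a.m) v ≠ 0) : TT [invA a] x v t = a.ev x v t := by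
  rw [TT_single]
  have hpi := Real.pi_ne_zero
  by_cases h0 : a.k = 0
  · have hm : a.m ≠ 0 := by
      rcases h with h | h
      · exact absurd h0 h
      · exact h
    have hm' : (a.m : ℝ) ≠ 0 := by exact_mod_cast hm
    have e1 : invA a = { a with c := a.c / (2 * Real.pi * a.m), φ := a.φ - Real.pi / 2 } := by
      unfold invA
      rw [if_pos h0]
    rw [e1]
    simp only [Atom.amp, Atom.ph, Atom.ev, fac, h0]
    have e2 : (2 * Real.pi * ((∑ i : Fin n, (((0 : Fin n → ℤ) i : ℤ) : ℝ) * x i) + (a.m : ℝ) * t) + (a.φ - Real.pi / 2)) +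
        Real.pi / 2 = 2 * Real.pi * ((∑ i : Fin n, (((0 : Fin n → ℤ) i : ℤ) : ℝ) * x i) + (a.m : ℝ) * t) + a.φ := by ring
    rw [e2]
    have e3 : (∑ i : Fin n, (((0 : Fin n → ℤ) i : ℤ) : ℝ) * v i) = 0 := by simp
    rw [e3]
    field_simp
    ring
  · have hf := hv h0
    have e1 : invA a = { a with c := a.c / (2 * Real.pi), F := (a.k, a.m) :: a.F, φ := a.φ - Real.pi / 2 } := by
      unfold invA
      rw [if_neg h0]
    rw [e1]
    simp only [Atom.amp, Atom.ph, Atom.ev, List.map_cons, List.prod_cons]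
    have e2 : (2 * Real.pi * ((∑ i : Fin n, (a.k i : ℝ) * x i) + (a.m : ℝ) * t) + (a.φ - Real.pi / 2)) +
        Real.pi / 2 = 2 * Real.pi * ((∑ i : Fin n, (a.k i : ℝ) * x i) + (a.m : ℝ) * t) + a.φ := by ring
    rw [e2]
    field_simp

theorem TT_inv (L : List (Atom n)) (x v : E n) (t : ℝ) (h : ∀ a ∈ L, a.k ≠ 0 ∨ a.m ≠ 0)
    (hv : ∀ a ∈ L, a.k ≠ 0 → fac (a.k, a.m) v ≠ 0) : TT (L.map invA) x v t = ev L x v t := by
  induction L with
  | nil => simp [TT_nil, ev_nil]
  | cons a L ih =>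
    have e : (a :: L).map invA = [invA a] ++ L.map invA := rfl
    rw [e, TT_append, ev_cons, TT_invA a (h a (by simp)) x v t (hv a (by simp)),
      ih (fun b hb => h b (by simp [hb])) (fun b hb => hv b (by simp [hb]))]

open Classical in
theorem ev_split (L : List (Atom n)) (x v : E n) (t : ℝ) :
    ev L x v t = ev (L.filter fun a => a.k = 0 ∧ a.m = 0) x v t +
      ev (L.filter fun a => ¬ (a.k = 0 ∧ a.m = 0)) x v t := by
  induction L with
  | nil => simp [ev]
  | cons a L ih =>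
    by_cases h : a.k = 0 ∧ a.m = 0
    · rw [List.filter_cons_of_pos (by simpa using h), List.filter_cons_of_neg (by simpa using h), ev_cons, ev_cons, ih]
      ring
    · rw [List.filter_cons_of_neg (by simpa using h), List.filter_cons_of_pos (by simpa [← not_and_or] using h), ev_cons, ev_cons, ih]
      ring

/-- the state of the iteration -/
def State {N : ℕ} (D : Trig n N) (p : ℕ) (w c e : List (Atom n)) (𝓕 : List ((Fin n → ℤ) × ℤ)) : Prop :=
  (∀ f ∈ 𝓕, f.1 ≠ 0) ∧
    (∀ a ∈ w, ∀ f ∈ a.F, f ∈ 𝓕) ∧ (∀ a ∈ c, ∀ f ∈ a.F, f ∈ 𝓕) ∧ (∀ a ∈ e, ∀ f ∈ a.F, f ∈ 𝓕) ∧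
    (∀ a ∈ w, a.k ≠ 0 → 1 ≤ a.F.length) ∧ (∀ a ∈ c, a.k = 0 ∧ a.m = 0) ∧ (∀ a ∈ e, p ≤ a.F.length) ∧
    ∀ v : E n, (∀ f ∈ 𝓕, fac f v ≠ 0) → ∀ (x : E n) (t : ℝ),
      TT w x v t + (∑ i, ev (dx i w) x v t ^ 2) / 2 = D.val x t + ev c x v t + ev e x v t

/-- the atoms of a trigonometric polynomial -/
def atoms {N : ℕ} (D : Trig n N) : List (Atom n) :=
  (List.finRange N).map fun μ => { c := D.c μ, F := [], k := D.k μ, m := D.m μ, φ := D.ph μ }

theorem ev_atoms {N : ℕ} (D : Trig n N) (x v : E n) (t : ℝ) : ev (atoms D) x v t = D.val x t := by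
  rw [Trig.val, Fin.sum_univ_def, ev, atoms, List.map_map]
  congr 1
  refine List.map_congr_left fun μ _ => ?_
  simp [Atom.ev, Atom.amp, Atom.ph, Trig.phase]

theorem state_zero {N : ℕ} (D : Trig n N) : State D 0 [] [] (scl (-1) (atoms D)) [] := by
  refine ⟨by simp, by simp, by simp, ?_, by simp, by simp, by simp, ?_⟩
  · intro a ha f hf
    obtain ⟨b, hb, e, -, -⟩ := mem_scl ha
    rw [atoms, List.mem_map] at hb
    obtain ⟨μ, -, rfl⟩ := hb
    rw [e] at hf
    exact absurd hf (List.not_mem_nil)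
  · intro v _ x t
    rw [TT_nil, ev_scl, ev_atoms, ev_nil]
    have h : ∀ i : Fin n, ev (dx i ([] : List (Atom n))) x v t = 0 := fun i => by simp [dx, ev]
    simp [h]

open Classical in
theorem state_step {N : ℕ} (D : Trig n N) (p : ℕ) {w c e : List (Atom n)} {𝓕 : List ((Fin n → ℤ) × ℤ)}
    (H : State D p w c e 𝓕) : ∃ (w' c' e' : List (Atom n)) (𝓕' : List ((Fin n → ℤ) × ℤ)),
      State D (p + 1) w' c' e' 𝓕' := by
  obtain ⟨h1, h2, h3, h4, h5, h6, h7, h8⟩ := H
  set e0 := e.filter fun a => a.k = 0 ∧ a.m = 0 with he0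
  set e1 := e.filter fun a => ¬ (a.k = 0 ∧ a.m = 0) with he1
  have m0 : ∀ a ∈ e0, a ∈ e ∧ a.k = 0 ∧ a.m = 0 := by
    intro a ha
    rw [he0, List.mem_filter] at ha
    exact ⟨ha.1, by simpa using ha.2⟩
  have m1 : ∀ a ∈ e1, a ∈ e ∧ (a.k ≠ 0 ∨ a.m ≠ 0) := by
    intro a ha
    rw [he1, List.mem_filter] at ha
    refine ⟨ha.1, ?_⟩
    have h := of_decide_eq_true ha.2
    exact not_and_or.1 h
  set h := e1.map invA with hh
  set G := (e1.filter fun a => a.k ≠ 0).map fun a => (a.k, a.m) with hG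
  have mG : ∀ a ∈ e1, a.k ≠ 0 → (a.k, a.m) ∈ G := by
    intro a ha h0
    rw [hG, List.mem_map]
    exact ⟨a, List.mem_filter.2 ⟨ha, by simpa using h0⟩, rfl⟩
  have mh : ∀ b ∈ h, (∀ f ∈ b.F, f ∈ 𝓕 ++ G) ∧ (b.k ≠ 0 → p + 1 ≤ b.F.length) := by
    intro b hb
    rw [hh, List.mem_map] at hb
    obtain ⟨a, ha, rfl⟩ := hb
    by_cases h0 : a.k = 0
    · refine ⟨fun f hf => ?_, fun h' => absurd (by rw [invA_k, h0]) h'⟩
      rw [invA_F_zero h0] at hf
      exact List.mem_append_left _ (h4 a (m1 a ha).1 f hf)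
    · rw [invA_F h0]
      refine ⟨fun f hf => ?_, fun _ => ?_⟩
      · rw [List.mem_cons] at hf
        rcases hf with rfl | hf
        · exact List.mem_append_right _ (mG a ha h0)
        · exact List.mem_append_left _ (h4 a (m1 a ha).1 f hf)
      · rw [List.length_cons]
        have := h7 a (m1 a ha).1
        omega
  refine ⟨w ++ scl (-1) h, c ++ e0,
    scl (-1) (sumL fun i => mulL (dx i w) (dx i h)) ++ scl (1 / 2) (sumL fun i => mulL (dx i h) (dx i h)),
    𝓕 ++ G, ?_, ?_, ?_, ?_, ?_, ?_, ?_, ?_⟩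
  · intro f hf
    rw [List.mem_append] at hf
    rcases hf with hf | hf
    · exact h1 f hf
    · rw [hG, List.mem_map] at hf
      obtain ⟨a, ha, rfl⟩ := hf
      have := (List.mem_filter.1 ha).2
      simpa using this
  · intro a ha f hf
    rw [List.mem_append] at ha
    rcases ha with ha | ha
    · exact List.mem_append_left _ (h2 a ha f hf)
    · obtain ⟨b, hb, e, -, -⟩ := mem_scl ha
      rw [e] at hf
      exact (mh b hb).1 f hf
  · intro a ha f hf
    rw [List.mem_append] at ha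
    rcases ha with ha | ha
    · exact List.mem_append_left _ (h3 a ha f hf)
    · exact List.mem_append_left _ (h4 a (m0 a ha).1 f hf)
  · intro a ha f hf
    rw [List.mem_append] at ha
    rcases ha with ha | ha
    · obtain ⟨b, hb, e, -, -⟩ := mem_scl ha
      rw [mem_sumL] at hb
      obtain ⟨i, hb⟩ := hb
      obtain ⟨b1, hb1, b2, hb2, e'⟩ := mem_mulL hb
      obtain ⟨c1, hc1, -, e1'⟩ := mem_dx hb1
      obtain ⟨c2, hc2, -, e2'⟩ := mem_dx hb2
      rw [e, e', e1', e2', List.mem_append] at hf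
      rcases hf with hf | hf
      · exact List.mem_append_left _ (h2 c1 hc1 f hf)
      · exact (mh c2 hc2).1 f hf
    · obtain ⟨b, hb, e, -, -⟩ := mem_scl ha
      rw [mem_sumL] at hb
      obtain ⟨i, hb⟩ := hb
      obtain ⟨b1, hb1, b2, hb2, e'⟩ := mem_mulL hb
      obtain ⟨c1, hc1, -, e1'⟩ := mem_dx hb1
      obtain ⟨c2, hc2, -, e2'⟩ := mem_dx hb2
      rw [e, e', e1', e2', List.mem_append] at hf
      rcases hf with hf | hf
      · exact (mh c1 hc1).1 f hf
      · exact (mh c2 hc2).1 f hf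
  · intro a ha hk
    rw [List.mem_append] at ha
    rcases ha with ha | ha
    · exact h5 a ha hk
    · obtain ⟨b, hb, e, e2, -⟩ := mem_scl ha
      rw [e]
      rw [e2] at hk
      have := (mh b hb).2 hk
      omega
  · intro a ha
    rw [List.mem_append] at ha
    rcases ha with ha | ha
    · exact h6 a ha
    · exact (m0 a ha).2
  · intro a ha
    rw [List.mem_append] at ha
    rcases ha with ha | ha
    · obtain ⟨b, hb, e, -, -⟩ := mem_scl ha
      rw [mem_sumL] at hb
      obtain ⟨i, hb⟩ := hb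
      obtain ⟨b1, hb1, b2, hb2, e'⟩ := mem_mulL hb
      obtain ⟨c1, hc1, hk1, e1'⟩ := mem_dx hb1
      obtain ⟨c2, hc2, hk2, e2'⟩ := mem_dx hb2
      rw [e, e', e1', e2', List.length_append]
      have := h5 c1 hc1 hk1
      have := (mh c2 hc2).2 hk2
      omega
    · obtain ⟨b, hb, e, -, -⟩ := mem_scl ha
      rw [mem_sumL] at hb
      obtain ⟨i, hb⟩ := hb
      obtain ⟨b1, hb1, b2, hb2, e'⟩ := mem_mulL hb
      obtain ⟨c1, hc1, hk1, e1'⟩ := mem_dx hb1
      obtain ⟨c2, hc2, hk2, e2'⟩ := mem_dx hb2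
      rw [e, e', e1', e2', List.length_append]
      have := (mh c1 hc1).2 hk1
      have := (mh c2 hc2).2 hk2
      omega
  · intro v hv x t
    have hv1 : ∀ f ∈ 𝓕, fac f v ≠ 0 := fun f hf => hv f (List.mem_append_left _ hf)
    have hv2 : ∀ a ∈ e1, a.k ≠ 0 → fac (a.k, a.m) v ≠ 0 := fun a ha h0 =>
      hv _ (List.mem_append_right _ (mG a ha h0))
    have k1 := h8 v hv1 x t
    have k2 : TT h x v t = ev e1 x v t := TT_inv e1 x v t (fun a ha => (m1 a ha).2) hv2
    have k3 := ev_split e x v t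
    rw [← he0, ← he1] at k3
    rw [TT_append, TT_scl, k2, ev_append, ev_append, ev_scl, ev_scl, ev_sumL, ev_sumL]
    simp only [ev_mulL, dx_append, ev_append, ev_dx_scl]
    have k4 : ∑ i, (ev (dx i w) x v t + -1 * ev (dx i h) x v t) ^ 2 =
        (∑ i, ev (dx i w) x v t ^ 2) - 2 * (∑ i, ev (dx i w) x v t * ev (dx i h) x v t) +
          ∑ i, ev (dx i h) x v t * ev (dx i h) x v t := by
      rw [Finset.mul_sum, ← Finset.sum_sub_distrib, ← Finset.sum_add_distrib]
      exact Finset.sum_congr rfl fun i _ => by ring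
    rw [k4]
    rw [k3] at k1
    linarith

theorem state_exists {N : ℕ} (D : Trig n N) (p : ℕ) :
    ∃ (w c e : List (Atom n)) (𝓕 : List ((Fin n → ℤ) × ℤ)), State D p w c e 𝓕 := by
  induction p with
  | zero => exact ⟨_, _, _, _, state_zero D⟩
  | succ p ih =>
    obtain ⟨w, c, e, 𝓕, h⟩ := ih
    exact state_step D p h

end

end It

theorem iter_all : S_ITER := by
  intro n N D p
  obtain ⟨w, c, e, 𝓕, h⟩ := It.state_exists D p
  exact ⟨w, c, e, 𝓕, h⟩

end Pool.Agent.K9h32.HJ
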