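import Pool.Agent.K9h32.HJ.VelQ

/-!
# Leaf VELQ with `M` as large as we want (port of `VelQ.lean` by helper98)
-/

set_option autoImplicit false

open Set Filter Topology
open scoped ContDiff

noncomputable section

namespace Pool.Agent.K9h32.HJ

open Pool.Agent.N980.TL

/-- as `S_VELQ`, with `M` as large as we want -/
def S_VELQ1 : Prop :=
  ∀ (r : ℕ) (Q : Fin (r + 2) → Fin (r + 2) → ℝ) (𝓕 : List ((Fin (r + 2) → ℤ) × ℤ)) (c : List (Atom (r + 2))),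
    (∀ f ∈ 𝓕, f.1 ≠ 0) → InF 𝓕 c → ∀ M1 : ℕ, ∃ M : ℕ, M1 ≤ M ∧ 1 ≤ M ∧ ∃ V0 : ℝ, 1 ≤ V0 ∧ ∀ V : ℝ, V0 ≤ V →
      (∀ (Ω : ℝ) (v : E (r + 2)), V ≤ Ω → ‖v - Ω • dirM r M‖ ≤ 3 → NRs 𝓕 (1 / 2) V v) ∧
      (∀ Ω u : ℝ, V ≤ Ω → 0 ≤ u → u ≤ 1 → ∃ v : E (r + 2), ‖v - Ω • dirM r M‖ ≤ 3 ∧
        ∀ i, v i + ∑ j, Q i j * ev (dv j c) 0 v 0 =
          Ω * (M : ℝ) ^ (i : ℕ) + u * (Pi.single 1 1 : E (r + 2)) i) ∧
      ∀ (Ω u Ω' u' : ℝ) (v v' : E (r + 2)), V ≤ Ω → V ≤ Ω' → ‖v - Ω • dirM r M‖ ≤ 3 →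
        ‖v' - Ω' • dirM r M‖ ≤ 3 →
        (∀ i, v i + ∑ j, Q i j * ev (dv j c) 0 v 0 =
          Ω * (M : ℝ) ^ (i : ℕ) + u * (Pi.single 1 1 : E (r + 2)) i) →
        (∀ i, v' i + ∑ j, Q i j * ev (dv j c) 0 v' 0 =
          Ω' * (M : ℝ) ^ (i : ℕ) + u' * (Pi.single 1 1 : E (r + 2)) i) →
        (∀ τ ∈ Icc (0 : ℝ) 1, NRs 𝓕 (1 / 2) V (fun i => v i + τ * (v' i - v i))) ∧
        ‖v' - v‖ ≤ 2 * (|Ω' - Ω| * (M : ℝ) ^ (r + 1) + |u' - u|)

open VelQ in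
theorem velq1_all : S_VELQ1 := by
  intro r Q 𝓕 c h0 hInF M1
  obtain ⟨M, hMM, hM1, hM⟩ : ∃ M : ℕ, M1 ≤ M ∧ 1 ≤ M ∧ ∀ f ∈ 𝓕, ∀ i, |f.1 i| < (M : ℤ) := by
    obtain ⟨M, hM1, hM⟩ := exists_M 𝓕
    refine ⟨M + M1, by omega, by omega, fun f hf i => (hM f hf i).trans_le ?_⟩
    push_cast
    omega
  obtain ⟨K, hK0, hK⟩ := exists_K 𝓕
  have hb := fun j => ev_bound (dv j c) 𝓕 (κ := 1 / 2) (by norm_num) 2 (dv_InF hInF j) (dv_Ord2 c j)
  have hl := fun j => ev_lip (dv j c) 𝓕 (κ := 1 / 2) (by norm_num) 2 (dv_InF hInF j) (dv_Ord2 c j)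
  choose C1 hC1 b1 using hb
  choose C2 hC2 b2 using hl
  obtain ⟨q, hq⟩ : ∃ q : ℝ, q = ∑ i, ∑ j, |Q i j| := ⟨_, rfl⟩
  have hq0 : 0 ≤ q := by rw [hq]; positivity
  have hQq : ∀ i j, |Q i j| ≤ q := by
    intro i j
    rw [hq]
    calc |Q i j| ≤ ∑ j, |Q i j| :=
          Finset.single_le_sum (f := fun j => |Q i j|) (fun _ _ => abs_nonneg _) (Finset.mem_univ j)
      _ ≤ ∑ i, ∑ j, |Q i j| :=
          Finset.single_le_sum (f := fun i => ∑ j, |Q i j|) (fun _ _ => by positivity) (Finset.mem_univ i)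
  obtain ⟨s1, hs1⟩ : ∃ s : ℝ, s = ∑ j, C1 j := ⟨_, rfl⟩
  obtain ⟨s2, hs2⟩ : ∃ s : ℝ, s = ∑ j, C2 j := ⟨_, rfl⟩
  have hs10 : 0 ≤ s1 := by rw [hs1]; exact Finset.sum_nonneg fun j _ => hC1 j
  have hs20 : 0 ≤ s2 := by rw [hs2]; exact Finset.sum_nonneg fun j _ => hC2 j
  refine ⟨M, hMM, hM1, 1 + 2 * K + q * s1 + 2 * (q * s2), by
    have : 0 ≤ q * s1 := mul_nonneg hq0 hs10
    have : 0 ≤ q * s2 := mul_nonneg hq0 hs20
    linarith, fun V hV => ?_⟩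
  have hqs1 : 0 ≤ q * s1 := mul_nonneg hq0 hs10
  have hqs2 : 0 ≤ q * s2 := mul_nonneg hq0 hs20
  have hV1 : 1 ≤ V := by linarith
  have hV0 : 0 < V := by linarith
  have hcone : ∀ (Ω : ℝ) (v : E (r + 2)), V ≤ Ω → ‖v - Ω • dirM r M‖ ≤ 3 → NRs 𝓕 (1 / 2) V v :=
    fun Ω v hΩ hv => cone h0 hM hK (by linarith) hV0.le hΩ hv
  -- segments
  have hseg : ∀ (Ω Ω' : ℝ) (v v' : E (r + 2)), V ≤ Ω → V ≤ Ω' → ‖v - Ω • dirM r M‖ ≤ 3 →
      ‖v' - Ω' • dirM r M‖ ≤ 3 → ∀ τ ∈ Icc (0 : ℝ) 1,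
      NRs 𝓕 (1 / 2) V (fun i => v i + τ * (v' i - v i)) := by
    intro Ω Ω' v v' h1 h2 h3 h4 τ hτ
    refine hcone (Ω + τ * (Ω' - Ω)) _ ?_ ?_
    · have : Ω + τ * (Ω' - Ω) = (1 - τ) * Ω + τ * Ω' := by ring
      rw [this]
      have a1 : 0 ≤ 1 - τ := by linarith [hτ.2]
      have a2 := hτ.1
      nlinarith
    · have e : (fun i => v i + τ * (v' i - v i)) - (Ω + τ * (Ω' - Ω)) • dirM r M =
          (1 - τ) • (v - Ω • dirM r M) + τ • (v' - Ω' • dirM r M) := by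
        funext i
        simp only [Pi.sub_apply, Pi.add_apply, Pi.smul_apply, smul_eq_mul]
        ring
      rw [e]
      refine (norm_add_le _ _).trans ?_
      rw [norm_smul, norm_smul, Real.norm_eq_abs, Real.norm_eq_abs, abs_of_nonneg (by linarith [hτ.2]),
        abs_of_nonneg hτ.1]
      have a1 : 0 ≤ 1 - τ := by linarith [hτ.2]
      have a2 := hτ.1
      nlinarith
  -- the correction
  obtain ⟨G, hG⟩ : ∃ G : E (r + 2) → E (r + 2), ∀ v i, G v i = ∑ j, Q i j * ev (dv j c) 0 v 0 :=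
    ⟨fun v i => ∑ j, Q i j * ev (dv j c) 0 v 0, fun _ _ => rfl⟩
  have hGb : ∀ (Ω : ℝ) (v : E (r + 2)), V ≤ Ω → ‖v - Ω • dirM r M‖ ≤ 3 → ‖G v‖ ≤ 1 := by
    intro Ω v hΩ hv
    rw [pi_norm_le_iff_of_nonneg zero_le_one]
    intro i
    rw [hG, Real.norm_eq_abs]
    refine (Finset.abs_sum_le_sum_abs _ _).trans ?_
    have h1 : ∀ j ∈ Finset.univ, |Q i j * ev (dv j c) 0 v 0| ≤ q * (C1 j / V ^ 2) := by
      intro j _
      rw [abs_mul]
      exact mul_le_mul (hQq i j) (b1 j V v hV1 (hcone Ω v hΩ hv) 0 0) (abs_nonneg _) hq0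
    refine (Finset.sum_le_sum h1).trans ?_
    rw [← Finset.mul_sum, ← Finset.sum_div, ← hs1, ← mul_div_assoc, div_le_one (by positivity)]
    nlinarith
  have hGl : ∀ (Ω Ω' : ℝ) (v v' : E (r + 2)), V ≤ Ω → V ≤ Ω' → ‖v - Ω • dirM r M‖ ≤ 3 →
      ‖v' - Ω' • dirM r M‖ ≤ 3 → ‖G v' - G v‖ ≤ 1 / 2 * ‖v' - v‖ := by
    intro Ω Ω' v v' h1 h2 h3 h4
    rw [pi_norm_le_iff_of_nonneg (by positivity)]
    intro i
    rw [Pi.sub_apply, hG, hG, Real.norm_eq_abs, ← Finset.sum_sub_distrib]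
    refine (Finset.abs_sum_le_sum_abs _ _).trans ?_
    have h5 : ∀ j ∈ Finset.univ, |Q i j * ev (dv j c) 0 v' 0 - Q i j * ev (dv j c) 0 v 0| ≤
        q * (C2 j / V ^ 3 * ‖v' - v‖) := by
      intro j _
      rw [← mul_sub, abs_mul]
      have h6 := b2 j V v v' hV1 (hseg Ω Ω' v v' h1 h2 h3 h4) 0 0 0
      rw [sub_self, norm_zero, mul_zero, zero_add] at h6
      exact mul_le_mul (hQq i j) h6 (abs_nonneg _) hq0
    refine (Finset.sum_le_sum h5).trans ?_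
    rw [← Finset.mul_sum, ← Finset.sum_mul, ← Finset.sum_div, ← hs2, ← mul_assoc, ← mul_div_assoc]
    refine mul_le_mul_of_nonneg_right ?_ (norm_nonneg _)
    rw [div_le_div_iff₀ (by positivity) (by norm_num)]
    have h6 : V ≤ V ^ 3 := by
      calc V = V ^ 1 := (pow_one V).symm
        _ ≤ V ^ 3 := pow_le_pow_right₀ hV1 (by norm_num)
    linarith
  refine ⟨hcone, ?_, ?_⟩
  · -- existence
    intro Ω u hΩ hu0 hu1
    obtain ⟨w0, hw0⟩ : ∃ w0 : E (r + 2), w0 = Ω • dirM r M := ⟨_, rfl⟩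
    obtain ⟨T, hT⟩ : ∃ T : E (r + 2) → E (r + 2), ∀ v, T v = w0 + u • (Pi.single 1 1 : E (r + 2)) - G v :=
      ⟨fun v => w0 + u • (Pi.single 1 1 : E (r + 2)) - G v, fun _ => rfl⟩
    have hball : ∀ v : E (r + 2), v ∈ Metric.closedBall w0 3 ↔ ‖v - Ω • dirM r M‖ ≤ 3 := by
      intro v
      rw [Metric.mem_closedBall, dist_eq_norm, hw0]
    have hs : ‖(Pi.single 1 1 : E (r + 2))‖ ≤ 1 := by
      rw [pi_norm_le_iff_of_nonneg zero_le_one]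
      intro i
      by_cases h : i = 1
      · subst h; simp
      · rw [Pi.single_eq_of_ne h]; simp
    have hmaps : MapsTo T (Metric.closedBall w0 3) (Metric.closedBall w0 3) := by
      intro v hv
      have h1 := hGb Ω v hΩ ((hball v).1 hv)
      rw [Metric.mem_closedBall, dist_eq_norm, hT]
      have e : w0 + u • (Pi.single 1 1 : E (r + 2)) - G v - w0 = u • (Pi.single 1 1 : E (r + 2)) - G v := by abel
      rw [e]
      refine (norm_sub_le _ _).trans ?_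
      rw [norm_smul, Real.norm_eq_abs, abs_of_nonneg hu0]
      nlinarith [norm_nonneg (Pi.single 1 1 : E (r + 2))]
    have hcontr : ContractingWith (1 / 2 : NNReal) (hmaps.restrict T _ _) := by
      refine ⟨?_, LipschitzWith.of_dist_le_mul fun x y => ?_⟩
      · rw [← NNReal.coe_lt_coe]; norm_num
      · rw [Subtype.dist_eq, Subtype.dist_eq, dist_eq_norm, dist_eq_norm]
        have e : ((hmaps.restrict T _ _ x : Metric.closedBall w0 3) : E (r + 2)) -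
            ((hmaps.restrict T _ _ y : Metric.closedBall w0 3) : E (r + 2)) = G y.1 - G x.1 := by
          rw [MapsTo.val_restrict_apply, MapsTo.val_restrict_apply, hT, hT]
          abel
        rw [e, norm_sub_rev x.1 y.1]
        have h1 := hGl Ω Ω x.1 y.1 hΩ hΩ ((hball x.1).1 x.2) ((hball y.1).1 y.2)
        have e2 : ((1 / 2 : NNReal) : ℝ) = 1 / 2 := by norm_num
        rw [e2]
        exact h1
    have hcomp : IsComplete (Metric.closedBall w0 (3 : ℝ)) := Metric.isClosed_closedBall.isComplete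
    obtain ⟨y, hy1, hy2, -⟩ := ContractingWith.exists_fixedPoint' hcomp hmaps hcontr
      (Metric.mem_closedBall_self (by norm_num : (0 : ℝ) ≤ 3)) (edist_ne_top _ _)
    refine ⟨y, (hball y).1 hy1, fun i => ?_⟩
    have h1 : T y = y := hy2
    rw [hT] at h1
    have h2 := congrFun h1 i
    simp only [Pi.sub_apply, Pi.add_apply, Pi.smul_apply, smul_eq_mul, hw0, dirM, hG] at h2
    linarith
  · -- differences
    intro Ω u Ω' u' v v' h1 h2 h3 h4 e1 e2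
    refine ⟨hseg Ω Ω' v v' h1 h2 h3 h4, ?_⟩
    have h5 := hGl Ω Ω' v v' h1 h2 h3 h4
    have h6 : ‖v' - v‖ ≤ |Ω' - Ω| * (M : ℝ) ^ (r + 1) + |u' - u| + 1 / 2 * ‖v' - v‖ := by
      rw [pi_norm_le_iff_of_nonneg (by positivity)]
      intro i
      have e3 : (v' - v) i = (Ω' - Ω) * (M : ℝ) ^ (i : ℕ) + (u' - u) * (Pi.single 1 1 : E (r + 2)) i -
          (G v' - G v) i := by
        have a1 := e1 i
        have a2 := e2 i
        rw [Pi.sub_apply, Pi.sub_apply, hG, hG]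
        linarith
      rw [e3, Real.norm_eq_abs]
      have h7 : |(G v' - G v) i| ≤ 1 / 2 * ‖v' - v‖ := (norm_le_pi_norm (G v' - G v) i).trans h5
      have h8 : |(Ω' - Ω) * (M : ℝ) ^ (i : ℕ)| ≤ |Ω' - Ω| * (M : ℝ) ^ (r + 1) := by
        rw [abs_mul, abs_of_nonneg (by positivity : (0 : ℝ) ≤ (M : ℝ) ^ (i : ℕ))]
        exact mul_le_mul_of_nonneg_left (dir_norm hM1 i) (abs_nonneg _)
      have h9 : |(u' - u) * (Pi.single 1 1 : E (r + 2)) i| ≤ |u' - u| := by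
        by_cases h : i = 1
        · subst h; simp
        · rw [Pi.single_eq_of_ne h]; simp
      calc |(Ω' - Ω) * (M : ℝ) ^ (i : ℕ) + (u' - u) * (Pi.single 1 1 : E (r + 2)) i - (G v' - G v) i|
          ≤ |(Ω' - Ω) * (M : ℝ) ^ (i : ℕ) + (u' - u) * (Pi.single 1 1 : E (r + 2)) i| +
              |(G v' - G v) i| := abs_sub _ _
        _ ≤ |(Ω' - Ω) * (M : ℝ) ^ (i : ℕ)| + |(u' - u) * (Pi.single 1 1 : E (r + 2)) i| +
              |(G v' - G v) i| := by gcongr; exact abs_add_le _ _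
        _ ≤ _ := by gcongr
    linarith

end Pool.Agent.K9h32.HJ
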