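import Pool.Agent.K9h32.HJ.EV2

/-!
# Density in all dimensions: statements of the leaves, second part
-/

set_option autoImplicit false

open Set Filter Topology
open scoped ContDiff

noncomputable section

namespace Pool.Agent.K9h32.HJ

open Pool.Agent.N980.TL

/-- the fast direction -/
def dirM (r M : ℕ) : E (r + 2) := fun i => (M : ℝ) ^ (i : ℕ)

/-- Leaf VEL: the cone of nonresonant velocities, and the velocities `v` with prescribed frequency vector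
`v + ∂_v c(v) = Ω e + u e_1`, `e = (1, M, M^2, …)` -/
def S_VEL : Prop :=
  ∀ (r : ℕ) (𝓕 : List ((Fin (r + 2) → ℤ) × ℤ)) (c : List (Atom (r + 2))),
    (∀ f ∈ 𝓕, f.1 ≠ 0) → InF 𝓕 c → ∃ M : ℕ, 1 ≤ M ∧ ∃ V0 : ℝ, 1 ≤ V0 ∧ ∀ V : ℝ, V0 ≤ V →
      (∀ (Ω : ℝ) (v : E (r + 2)), V ≤ Ω → ‖v - Ω • dirM r M‖ ≤ 3 → NRs 𝓕 (1 / 2) V v) ∧
      (∀ Ω u : ℝ, V ≤ Ω → 0 ≤ u → u ≤ 1 → ∃ v : E (r + 2), ‖v - Ω • dirM r M‖ ≤ 3 ∧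
        ∀ i, v i + ev (dv i c) 0 v 0 = Ω * (M : ℝ) ^ (i : ℕ) + u * (Pi.single 1 1 : E (r + 2)) i) ∧
      ∀ (Ω u Ω' u' : ℝ) (v v' : E (r + 2)), V ≤ Ω → V ≤ Ω' → ‖v - Ω • dirM r M‖ ≤ 3 →
        ‖v' - Ω' • dirM r M‖ ≤ 3 →
        (∀ i, v i + ev (dv i c) 0 v 0 = Ω * (M : ℝ) ^ (i : ℕ) + u * (Pi.single 1 1 : E (r + 2)) i) →
        (∀ i, v' i + ev (dv i c) 0 v' 0 = Ω' * (M : ℝ) ^ (i : ℕ) + u' * (Pi.single 1 1 : E (r + 2)) i) →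
        (∀ τ ∈ Icc (0 : ℝ) 1, NRs 𝓕 (1 / 2) V (fun i => v i + τ * (v' i - v i))) ∧
        ‖v' - v‖ ≤ 2 * (|Ω' - Ω| * (M : ℝ) ^ (r + 1) + |u' - u|)

end Pool.Agent.K9h32.HJ
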