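import Pool.Agent.K9h32.HJ.Step
import Pool.Agent.K9h32.HJ.StmB

/-!
# The path
-/

set_option autoImplicit false

open Set Filter Topology
open scoped ContDiff

noncomputable section

namespace Pool.Agent.K9h32.HJ

open Pool.Agent.N980.TL

variable {n N : ℕ}

theorem vs_high (hf : S_FN) (v v' : E n) {s : ℝ} (hs : 3 / 4 ≤ s) : vs v v' s = v' := by
  obtain ⟨-, -, -, -, -, -, -, -, h, -⟩ := hf
  funext i
  simp only [vs, (h s hs).2.1]
  ring

theorem vs_low (hf : S_FN) (v v' : E n) {s : ℝ} (hs : s ≤ 1 / 4) : vs v v' s = v := by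
  obtain ⟨-, -, -, -, -, -, -, h, -⟩ := hf
  funext i
  simp only [vs, (h s hs).2.1]
  ring

theorem path_exists (hf : S_FN) {w : List (Atom n)} {𝓕 : List ((Fin n → ℤ) × ℤ)} {κ : ℝ} (hκ : 0 < κ)
    (hF : InF 𝓕 w) {V : ℝ} (hV : 1 ≤ V) (v : ℕ → E n)
    (hnr : ∀ j s, NRs 𝓕 κ V (vs (v j) (v (j + 1)) s)) :
    ∃ G : ℕ → ℝ → E n, (∀ j, ContDiff ℝ ∞ (G j)) ∧
      (∀ j s, HasDerivAt (G j) (fld w (v j) (v (j + 1)) s (G j s)) s) ∧
      ∀ j s, 3 / 4 ≤ s → s ≤ 5 / 4 → G j s = G (j + 1) (s - 1) := by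
  have hsol := fun j x => sol_exists hf hκ hF V (v j) (v (j + 1)) hV (hnr j) x
  choose sol h0 hs hd using hsol
  set xs : ℕ → E n := fun j => Nat.rec 0 (fun j x => sol j x 1) j with hxs
  have hxs1 : ∀ j, xs (j + 1) = sol j (xs j) 1 := fun j => rfl
  refine ⟨fun j => sol j (xs j), fun j => hs j _, fun j => hd j _, fun j s hs1 hs2 => ?_⟩
  obtain ⟨K, hK⟩ := fld_lip hκ hF
  set u : E n := v (j + 1) with hu
  have hus : ∀ s, vs u u s = u := fun s => by
    funext i; simp only [vs]; ring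
  have hnu : ∀ s, NRs 𝓕 κ V (vs u u s) := fun s => by
    rw [hus]
    have := hnr (j + 1) 0
    rwa [vs_low hf _ _ (by norm_num)] at this
  have hLip := hK V u u hV hnu
  have key : EqOn (sol j (xs j)) (fun s => sol (j + 1) (xs (j + 1)) (s - 1)) (Icc (3 / 4) (5 / 4)) := by
    refine ODE_solution_unique_of_mem_Icc (v := fld w u u) (s := fun _ => univ) (K := K) (t₀ := 1)
      (fun t _ => (hLip t).lipschitzOnWith) ⟨by norm_num, by norm_num⟩
      ((hs j _).continuous.continuousOn) (fun t ht => ?_) (fun _ _ => trivial)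
      (((hs (j + 1) _).continuous.comp (continuous_id.sub continuous_const)).continuousOn)
      (fun t ht => ?_) (fun _ _ => trivial) ?_
    · have h1 := hd j (xs j) t
      have e : fld w (v j) (v (j + 1)) t (sol j (xs j) t) = fld w u u t (sol j (xs j) t) := by
        funext i
        simp only [fld, vs_high hf (v j) (v (j + 1)) ht.1.le, hus]
        rfl
      rw [e] at h1
      exact h1
    · have h1 := (hd (j + 1) (xs (j + 1)) (t - 1)).comp_sub_const t 1
      have e : fld w (v (j + 1)) (v (j + 1 + 1)) (t - 1) (sol (j + 1) (xs (j + 1)) (t - 1)) =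
          fld w u u t (sol (j + 1) (xs (j + 1)) (t - 1)) := by
        funext i
        simp only [fld, vs_low hf (v (j + 1)) (v (j + 1 + 1)) (by linarith [ht.2] : t - 1 ≤ 1 / 4), hus]
        have h2 := ev_time (dx i w) (sol (j + 1) (xs (j + 1)) (t - 1)) (v (j + 1)) (t - 1) 1
        have h3 : t - 1 + ((1 : ℤ) : ℝ) = t := by push_cast; ring
        rw [h3] at h2
        rw [← h2]
      rw [e] at h1
      exact h1
    · show sol j (xs j) 1 = sol (j + 1) (xs (j + 1)) (1 - 1)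
      rw [sub_self, h0, hxs1]
  exact key ⟨hs1, hs2⟩

theorem nrm_glue (hf : S_FN) {w : List (Atom n)} (v0 v1 v2 : E n) {g0 g1 : ℝ → E n} (h : g0 1 = g1 0) :
    nrm w v1 v2 g1 0 = nrm w v0 v1 g0 1 := by
  funext i
  simp only [nrm]
  rw [vs_low hf v1 v2 (by norm_num), vs_high hf v0 v1 (by norm_num), h]
  have h2 := ev_time (dv i w) (g1 0) v1 0 1
  have h3 : (0 : ℝ) + ((1 : ℤ) : ℝ) = 1 := by push_cast; ring
  rw [h3] at h2
  rw [h2]

/-- the cone of the nonresonant velocities -/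
def InC (r M : ℕ) (V : ℝ) (v : E (r + 2)) : Prop := ∃ Ω : ℝ, V ≤ Ω ∧ ‖v - Ω • dirM r M‖ ≤ 3

theorem InC.conv {r M : ℕ} {V : ℝ} {v v' : E (r + 2)} (h : InC r M V v) (h' : InC r M V v') {τ : ℝ}
    (hτ : τ ∈ Icc (0 : ℝ) 1) : InC r M V (fun i => v i + τ * (v' i - v i)) := by
  obtain ⟨Ω, h1, h2⟩ := h
  obtain ⟨Ω', h3, h4⟩ := h'
  refine ⟨Ω + τ * (Ω' - Ω), ?_, ?_⟩
  · nlinarith [hτ.1, hτ.2]
  · have e : (fun i => v i + τ * (v' i - v i)) - (Ω + τ * (Ω' - Ω)) • dirM r M =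
        (1 - τ) • (v - Ω • dirM r M) + τ • (v' - Ω' • dirM r M) := by
      funext i
      simp only [Pi.sub_apply, Pi.add_apply, Pi.smul_apply, smul_eq_mul]
      ring
    rw [e]
    refine (norm_add_le _ _).trans ?_
    rw [norm_smul, norm_smul, Real.norm_eq_abs, Real.norm_eq_abs, abs_of_nonneg hτ.1,
      abs_of_nonneg (by linarith [hτ.2] : (0 : ℝ) ≤ 1 - τ)]
    nlinarith [hτ.1, hτ.2]

theorem InC.vs (hf : S_FN) {r M : ℕ} {V : ℝ} {v v' : E (r + 2)} (h : InC r M V v) (h' : InC r M V v') (s : ℝ) :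
    InC r M V (vs v v' s) := by
  obtain ⟨-, -, -, -, -, -, h01, -⟩ := hf
  exact h.conv h' ⟨(h01 s).1, (h01 s).2⟩

theorem InC.mono {r M : ℕ} {V V' : ℝ} {v : E (r + 2)} (h : InC r M V v) (hV : V' ≤ V) : InC r M V' v := by
  obtain ⟨Ω, h1, h2⟩ := h
  exact ⟨Ω, hV.trans h1, h2⟩

/-- a point whose distances to the integer translates are small -/
theorem near_int {y d : ℝ} (h : |Real.sin (Real.pi * y)| ≤ d) : ∃ k : ℤ, |y - k| ≤ d / 2 := by
  refine ⟨round y, ?_⟩
  have h1 := abs_sub_round y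
  set δ := y - round y with hδ
  have h2 : |Real.sin (Real.pi * y)| = |Real.sin (Real.pi * δ)| := by
    have : Real.pi * y = Real.pi * δ + (round y : ℤ) * Real.pi := by rw [hδ]; ring
    rw [this, Real.sin_add_int_mul_pi, abs_mul]
    have h3 : |((-1 : ℝ) ^ (round y))| = 1 := by
      rw [abs_zpow, abs_neg, abs_one, one_zpow]
    rw [h3, one_mul]
  have h3 : 2 * |δ| ≤ |Real.sin (Real.pi * δ)| := by
    have h4 : |Real.pi * δ| ≤ Real.pi / 2 := by
      rw [abs_mul, abs_of_pos Real.pi_pos]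
      nlinarith [Real.pi_pos]
    have h5 := Real.mul_abs_le_abs_sin h4
    rw [abs_mul, abs_of_pos Real.pi_pos] at h5
    have h6 : 2 / Real.pi * (Real.pi * |δ|) = 2 * |δ| := by
      field_simp
    linarith
  linarith

end Pool.Agent.K9h32.HJ
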