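import Pool.Agent.K9h32.HJ.Stm
import Pool.Agent.N980.TL.UU

/-!
# Leaf SEPX: separation of the tubes
-/

set_option autoImplicit false

open Filter Topology

noncomputable section

namespace Pool.Agent.K9h32.HJ

open Pool.Agent.N980.TL

namespace Sx

theorem one_lt_qq : 1 < qq := by
  unfold qq
  exact Real.one_lt_rpow (by norm_num) (by norm_num)

theorem qq_pow : qq ^ 100 = 2 := by
  unfold qq
  rw [← Real.rpow_natCast, ← Real.rpow_mul (by norm_num)]
  norm_num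

theorem one_le_tht (j : ℕ) : 1 ≤ tht j := one_le_pow₀ one_lt_qq.le

theorem tht_mono {i j : ℕ} (h : i ≤ j) : tht i ≤ tht j :=
  pow_le_pow_right₀ one_lt_qq.le (Nat.log_mono_right h)

theorem tht_pow (j : ℕ) : tht j ^ 100 = 2 ^ Nat.log 2 j := by
  unfold tht
  rw [← pow_mul, mul_comm, pow_mul, qq_pow]

theorem ac_le {θ Ω : ℝ} (h : 1 ≤ θ) : 0 ≤ ac θ Ω ∧ ac θ Ω ≤ 1 / θ ^ 95 := by
  unfold ac
  split_ifs
  · exact ⟨by positivity, le_rfl⟩
  · refine ⟨by positivity, ?_⟩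
    exact one_div_le_one_div_of_le (by positivity) (pow_le_pow_right₀ h (by norm_num))

theorem rd_le {θ Ω : ℝ} (h : 1 ≤ θ) : 0 ≤ rd θ Ω ∧ rd θ Ω ≤ 1 / θ ^ 84 := by
  unfold rd
  split_ifs
  · exact ⟨by positivity, le_rfl⟩
  · refine ⟨by positivity, ?_⟩
    exact one_div_le_one_div_of_le (by positivity) (pow_le_pow_right₀ h (by norm_num))

theorem rd_bad {θ Ω : ℝ} (h : ¬ Gd θ Ω) : rd θ Ω = 1 / θ ^ 101 := by
  unfold rd
  rw [if_neg h]

theorem large (C : ℝ) : ∃ L0 : ℕ, ∀ l ≥ L0, C * ((l : ℝ) + 3) ^ 2 ≤ qq ^ l := by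
  have h := tendsto_pow_const_div_const_pow_of_one_lt 2 one_lt_qq
  have hq : 0 < qq := lt_trans one_pos one_lt_qq
  have h2 : ∀ᶠ m : ℕ in atTop, (m : ℝ) ^ 2 / qq ^ m < 1 / ((|C| + 1) * qq ^ 3) := by
    have hpos : 0 < 1 / ((|C| + 1) * qq ^ 3) := by positivity
    exact (tendsto_order.1 h).2 _ hpos
  obtain ⟨M, hM⟩ := eventually_atTop.1 h2
  refine ⟨M, fun l hl => ?_⟩
  have h3 := hM (l + 3) (by omega)
  rw [div_lt_div_iff₀ (by positivity) (by positivity), one_mul, pow_add] at h3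
  push_cast at h3
  have h4 : (|C| + 1) * ((l : ℝ) + 3) ^ 2 < qq ^ l := by
    have h5 : ((|C| + 1) * ((l : ℝ) + 3) ^ 2) * qq ^ 3 < qq ^ l * qq ^ 3 := by
      calc ((|C| + 1) * ((l : ℝ) + 3) ^ 2) * qq ^ 3 = ((l : ℝ) + 3) ^ 2 * ((|C| + 1) * qq ^ 3) := by ring
        _ < _ := h3
    exact lt_of_mul_lt_mul_right h5 (by positivity)
  have h6 : C ≤ |C| + 1 := (le_abs_self C).trans (by linarith)
  calc C * ((l : ℝ) + 3) ^ 2 ≤ (|C| + 1) * ((l : ℝ) + 3) ^ 2 := by gcongr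
    _ ≤ _ := h4.le

/-- sums of a sequence with nearly constant steps -/
theorem sum_close {z u : ℕ → ℝ} {i : ℕ} (h : ∀ k, i ≤ k → |z (k + 1) - z k - u k| ≤ u k / 100) :
    ∀ j, i ≤ j → |z j - z i - ∑ k ∈ Finset.Ico i j, u k| ≤ (∑ k ∈ Finset.Ico i j, u k) / 100 := by
  intro j hj
  induction j, hj using Nat.le_induction with
  | base => simp
  | succ j hj ih =>
    rw [Finset.sum_Ico_succ_top hj]
    have h1 := h j hj
    have e : z (j + 1) - z i - (∑ k ∈ Finset.Ico i j, u k + u j) =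
        (z j - z i - ∑ k ∈ Finset.Ico i j, u k) + (z (j + 1) - z j - u j) := by ring
    rw [e]
    refine (abs_add_le _ _).trans ?_
    linarith

theorem diff_le {u : ℕ → ℝ} {i : ℕ} (h : ∀ k, i ≤ k → u k - u (k + 1) ≤ u k / 2) :
    ∀ j, i ≤ j → u i - u j ≤ (∑ k ∈ Finset.Ico i j, u k) / 2 := by
  intro j hj
  induction j, hj using Nat.le_induction with
  | base => simp
  | succ j hj ih =>
    rw [Finset.sum_Ico_succ_top hj]
    have h1 := h j hj
    linarith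

theorem om_close {Ω : ℕ → ℝ} {i : ℕ} {r : ℝ}
    (h : ∀ k, i ≤ k → 0 ≤ Ω (k + 1) - Ω k ∧ Ω (k + 1) - Ω k ≤ r) :
    ∀ j, i ≤ j → 0 ≤ Ω j - Ω i ∧ Ω j - Ω i ≤ ((j : ℝ) - i) * r := by
  intro j hj
  induction j, hj using Nat.le_induction with
  | base => simp
  | succ j hj ih =>
    have h1 := h j hj
    push_cast
    constructor
    · linarith
    · nlinarith

theorem a_close {a Ω : ℕ → ℝ} {i g : ℕ} {r s : ℝ} (hr : 0 ≤ r)
    (h : ∀ k, i ≤ k → |a (k + 1) - a k - Ω k| ≤ s)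
    (h' : ∀ k, i ≤ k → 0 ≤ Ω k - Ω i ∧ Ω k - Ω i ≤ ((k : ℝ) - i) * r) :
    ∀ j, i ≤ j → j ≤ i + g → |a j - a i - ((j : ℝ) - i) * Ω i| ≤ ((j : ℝ) - i) * (g * r + s) := by
  intro j hj
  induction j, hj using Nat.le_induction with
  | base => intro _; simp
  | succ j hj ih =>
    intro hg
    have h1 := h j hj
    have h2 := h' j hj
    have h3 := ih (by omega)
    have h4 : ((j : ℝ) - i) * r ≤ g * r := by
      apply mul_le_mul_of_nonneg_right _ hr
      have : (j : ℝ) ≤ i + g := by exact_mod_cast (by omega : j ≤ i + g)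
      linarith
    have e : a (j + 1) - a i - (((j + 1 : ℕ) : ℝ) - i) * Ω i =
        (a j - a i - ((j : ℝ) - i) * Ω i) + (a (j + 1) - a j - Ω j) + (Ω j - Ω i) := by
      push_cast
      ring
    rw [e]
    have h5 : |Ω j - Ω i| ≤ g * r := by
      rw [abs_of_nonneg h2.1]
      linarith
    have h6 := abs_add_le ((a j - a i - ((j : ℝ) - i) * Ω i) + (a (j + 1) - a j - Ω j)) (Ω j - Ω i)
    have h7 := abs_add_le (a j - a i - ((j : ℝ) - i) * Ω i) (a (j + 1) - a j - Ω j)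
    have e2 : (((j + 1 : ℕ) : ℝ) - i) * (g * r + s) = ((j : ℝ) - i) * (g * r + s) + (g * r + s) := by
      push_cast
      ring
    rw [e2]
    linarith

theorem sum_ge {u : ℕ → ℝ} {i j m l : ℕ} {b : ℝ} (hu : ∀ k, 0 < u k) (hb : ∀ k, k < 2 ^ (l + 2) → b ≤ u k)
    (h1 : i + m ≤ j) (h2 : i + m ≤ 2 ^ (l + 2)) : m * b ≤ ∑ k ∈ Finset.Ico i j, u k := by
  have h3 : ∑ k ∈ Finset.Ico i (i + m), u k ≤ ∑ k ∈ Finset.Ico i j, u k :=
    Finset.sum_le_sum_of_subset_of_nonneg (Finset.Ico_subset_Ico_right h1) fun k _ _ => (hu k).le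
  refine le_trans ?_ h3
  have h4 : ∑ k ∈ Finset.Ico i (i + m), b ≤ ∑ k ∈ Finset.Ico i (i + m), u k :=
    Finset.sum_le_sum fun k hk => hb k (by rw [Finset.mem_Ico] at hk; omega)
  rw [Finset.sum_const, Nat.card_Ico, nsmul_eq_mul, Nat.add_sub_cancel_left] at h4
  exact h4

theorem main {C : ℝ} (hC : 1 ≤ C) {l0 : ℕ} (hl0 : 6 ≤ l0)
    (hlarge : ∀ l ≥ l0, 2000 * C * ((l : ℝ) + 3) ^ 2 ≤ qq ^ l) (Ω : ℕ → ℝ) (a y : ℕ → ℝ → ℝ)
    (h1 : ∀ j, 2 ^ l0 ≤ j → Ω (j + 1) = Ω j + ac (tht j) (Ω j))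
    (h2 : ∀ j, 2 ^ l0 ≤ j → ∀ σ, -1 ≤ σ → σ ≤ 1 → |a j σ - a j 0 - σ * Ω j| ≤ C / tht j ^ 90)
    (h3 : ∀ j, 2 ^ l0 ≤ j → |a (j + 1) 0 - a j 0 - Ω j| ≤ C / tht j ^ 90)
    (h4 : ∀ j, 2 ^ l0 ≤ j → ∀ σ, -1 ≤ σ → σ ≤ 1 →
      |y j σ - y j 0 - σ * uu (1 / 64) j| ≤ uu (1 / 64) j / 100)
    (h5 : ∀ j, 2 ^ l0 ≤ j → |y (j + 1) 0 - y j 0 - uu (1 / 64) j| ≤ uu (1 / 64) j / 100)
    {i j : ℕ} (hi : 2 ^ l0 ≤ i) (hij : i < j) {σ : ℝ} (hσ1 : -1 ≤ σ) (hσ2 : σ ≤ 1) {k0 k1 : ℤ}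
    (ha : |a j σ - a i σ - k0| ≤ C * (rd (tht i) (Ω i) + rd (tht j) (Ω j)) +
        (∑ k ∈ Finset.Ico i j, uu (1 / 64) k) / 100)
    (hy : |y j σ - y i σ - k1| ≤ C * (rd (tht i) (Ω i) + rd (tht j) (Ω j)) +
        (∑ k ∈ Finset.Ico i j, uu (1 / 64) k) / 100) : False := by
  obtain ⟨u1, u2, u3, u4, u5, -⟩ := uu_all (1 / 64) (by norm_num) (by norm_num)
  set u : ℕ → ℝ := uu (1 / 64) with hu
  obtain ⟨S, hS⟩ : ∃ S, S = ∑ k ∈ Finset.Ico i j, u k := ⟨_, rfl⟩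
  obtain ⟨l, hl⟩ : ∃ l, l = Nat.log 2 i := ⟨_, rfl⟩
  obtain ⟨θ, hθ⟩ : ∃ θ, θ = tht i := ⟨_, rfl⟩
  have hi0 : i ≠ 0 := by
    have := Nat.one_le_two_pow (n := l0)
    omega
  have hll : l0 ≤ l := by
    rw [hl]
    exact (Nat.le_log_iff_pow_le (by norm_num) hi0).2 hi
  have hθl : θ = qq ^ l := by rw [hθ, hl]; rfl
  have hθ1 : 1 ≤ θ := by rw [hθ]; exact one_le_tht i
  have hθbig : 2000 * C * ((l : ℝ) + 3) ^ 2 ≤ θ := by rw [hθl]; exact hlarge l hll
  have hθ100 : θ ^ 100 = 2 ^ l := by rw [hθ, hl]; exact tht_pow i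
  have hl3 : (9 : ℝ) ≤ ((l : ℝ) + 3) ^ 2 := by
    have : (0 : ℝ) ≤ l := Nat.cast_nonneg l
    nlinarith
  have hC0 : 0 < C := by linarith
  have hθC : 18000 * C ≤ θ := by nlinarith
  have hθ0 : 0 < θ := by linarith
  -- the inverse
  obtain ⟨r, hr⟩ : ∃ r, r = 1 / θ := ⟨_, rfl⟩
  have hr0 : 0 < r := by rw [hr]; positivity
  have hr1 : r ≤ 1 := by rw [hr, div_le_one hθ0]; exact hθ1
  have hrθ : r * θ = 1 := by rw [hr]; field_simp
  have hrpow : ∀ m : ℕ, 1 / θ ^ m = r ^ m := fun m => by rw [hr, div_pow, one_pow]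
  have hrle : ∀ m m' : ℕ, m ≤ m' → r ^ m' ≤ r ^ m := fun m m' h => pow_le_pow_of_le_one hr0.le hr1 h
  have hCr : C * r ≤ 1 / 18000 := by
    have : 18000 * C * r ≤ 1 := by
      calc 18000 * C * r ≤ θ * r := by gcongr
        _ = 1 := by rw [mul_comm]; exact hrθ
    linarith
  -- comparison of the scales
  have hθk : ∀ k, i ≤ k → θ ≤ tht k := fun k hk => by rw [hθ]; exact tht_mono hk
  have hinv : ∀ k, i ≤ k → ∀ m : ℕ, 1 / tht k ^ m ≤ r ^ m := by
    intro k hk m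
    rw [← hrpow]
    exact one_div_le_one_div_of_le (by positivity) (pow_le_pow_left₀ hθ0.le (hθk k hk) m)
  have hCinv : ∀ k, i ≤ k → C / tht k ^ 90 ≤ C * r ^ 90 := by
    intro k hk
    have := mul_le_mul_of_nonneg_left (hinv k hk 90) hC0.le
    calc C / tht k ^ 90 = C * (1 / tht k ^ 90) := by ring
      _ ≤ _ := this
  have hrd : ∀ k, i ≤ k → 0 ≤ rd (tht k) (Ω k) ∧ rd (tht k) (Ω k) ≤ r ^ 84 := by
    intro k hk
    have h := rd_le (Ω := Ω k) (one_le_tht k)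
    exact ⟨h.1, h.2.trans (hinv k hk 84)⟩
  have hsteps : ∀ k, i ≤ k → 0 ≤ Ω (k + 1) - Ω k ∧ Ω (k + 1) - Ω k ≤ r ^ 95 := by
    intro k hk
    have h := ac_le (Ω := Ω k) (one_le_tht k)
    rw [h1 k (hi.trans hk)]
    constructor
    · linarith [h.1]
    · have := hinv k hk 95
      linarith [h.2]
  have hΩ := om_close hsteps
  -- the slow sequence
  have hhalf : ∀ k, i ≤ k → u k - u (k + 1) ≤ u k / 2 := by
    intro k hk
    have hk1 : 1 ≤ k := by omega
    obtain ⟨l', hl'⟩ : ∃ l', l' = Nat.log 2 k := ⟨_, rfl⟩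
    have e1 := u4 k hk1
    rw [← hl'] at e1
    have hk2 : k < 2 ^ (l' + 1) := by rw [hl']; exact Nat.lt_pow_succ_log_self (by norm_num) k
    have e2 := u3 (l' + 1) (k + 1) (by
      have : 2 ^ (l' + 1 + 1) = 2 * 2 ^ (l' + 1) := by rw [pow_succ]; ring
      have : 1 ≤ 2 ^ (l' + 1) := Nat.one_le_two_pow
      omega)
    have hl6 : 6 ≤ l' := by
      rw [hl']
      refine (Nat.le_log_iff_pow_le (by norm_num) (by omega)).2 ?_
      exact (Nat.pow_le_pow_right (by norm_num) hl0).trans (hi.trans hk)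
    have e3 : ww (1 / 64) l' / 2 ^ l' ≤ ww (1 / 64) (l' + 1 + 1) := by
      unfold ww
      rw [div_div]
      refine div_le_div_of_nonneg_left (by norm_num) (by positivity) ?_
      have h64 : (64 : ℝ) ≤ 2 ^ l' := by
        calc (64 : ℝ) = 2 ^ 6 := by norm_num
          _ ≤ 2 ^ l' := pow_le_pow_right₀ (by norm_num) hl6
      have hc : (0 : ℝ) ≤ l' := Nat.cast_nonneg l'
      push_cast
      have e4 : ((l' : ℝ) + 1 + 1 + 1) ^ 2 ≤ 9 * ((l' : ℝ) + 1) ^ 2 := by nlinarith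
      calc (2 : ℝ) ^ (l' + 1 + 1) * ((l' : ℝ) + 1 + 1 + 1) ^ 2 ≤ 2 ^ (l' + 1 + 1) * (9 * ((l' : ℝ) + 1) ^ 2) := by
            gcongr
        _ = 36 * (2 ^ l' * ((l' : ℝ) + 1) ^ 2) := by ring
        _ ≤ 2 ^ l' * (2 ^ l' * ((l' : ℝ) + 1) ^ 2) := by gcongr; linarith
        _ = 2 ^ l' * ((l' : ℝ) + 1) ^ 2 * 2 ^ l' := by ring
    linarith
  have hupos : ∀ k, 0 < u k := fun k => (u2 k).1
  have hdiff := diff_le hhalf j hij.le
  rw [← hS] at hdiff
  have hSpos : u i ≤ S := by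
    rw [hS]
    exact Finset.single_le_sum (f := u) (fun k _ => (hupos k).le) (Finset.mem_Ico.2 ⟨le_rfl, hij⟩)
  have hS8 : S ≤ 1 / 8 := by
    have e1 := u5 j
    have e2 : S ≤ ∑ k ∈ Finset.range j, u k := by
      rw [hS]
      refine Finset.sum_le_sum_of_subset_of_nonneg ?_ fun k _ _ => (hupos k).le
      intro k hk
      rw [Finset.mem_Ico] at hk
      exact Finset.mem_range.2 hk.2
    linarith
  have huj : u j ≤ u i := by
    have hanti : Antitone u := antitone_nat_of_succ_le u1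
    exact hanti hij.le
  have hui := hupos i
  have hujp := hupos j
  -- the difference of the slow coordinates
  have hY : 47 / 100 * S ≤ y j σ - y i σ ∧ y j σ - y i σ ≤ 153 / 100 * S := by
    have e1 := sum_close (z := fun k => y k 0) (u := u) (i := i) (fun k hk => h5 k (hi.trans hk)) j hij.le
    rw [← hS] at e1
    have e2 := h4 i hi σ hσ1 hσ2
    have e3 := h4 j (hi.trans hij.le) σ hσ1 hσ2
    have e4 : |σ * (u j - u i)| ≤ S / 2 := by
      rw [abs_mul]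
      have s1 : |σ| ≤ 1 := abs_le.2 ⟨hσ1, hσ2⟩
      have s2 : |u j - u i| ≤ S / 2 := by
        rw [abs_sub_comm, abs_of_nonneg (by linarith)]
        exact hdiff
      calc |σ| * |u j - u i| ≤ 1 * (S / 2) := by gcongr
        _ = S / 2 := one_mul _
    rw [abs_le] at e1 e2 e3 e4
    have e5 : σ * (u j - u i) = σ * u j - σ * u i := by ring
    rw [e5] at e4
    constructor
    · linarith [e1.1, e2.2, e3.1, e4.1]
    · linarith [e1.2, e2.1, e3.2, e4.2]
  have hrdi := hrd i le_rfl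
  have hrdj := hrd j hij.le
  rw [← hS] at ha hy
  have hsmall : C * (rd (tht i) (Ω i) + rd (tht j) (Ω j)) ≤ 1 / 9000 := by
    calc C * (rd (tht i) (Ω i) + rd (tht j) (Ω j)) ≤ C * (r ^ 84 + r ^ 84) := by gcongr; exacts [hrdi.2, hrdj.2]
      _ ≤ C * (r ^ 1 + r ^ 1) := mul_le_mul_of_nonneg_left
          (add_le_add (hrle 1 84 (by norm_num)) (hrle 1 84 (by norm_num))) hC0.le
      _ = 2 * (C * r) := by ring
      _ ≤ _ := by linarith
  have hk1 : k1 = 0 := by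
    have e := abs_le.1 hy
    have e1 : ((k1 : ℤ) : ℝ) < 1 := by linarith [e.1, hY.2]
    have e2 : (-1 : ℝ) < ((k1 : ℤ) : ℝ) := by linarith [e.2, hY.1]
    have e3 : k1 < 1 := by exact_mod_cast e1
    have e4 : -1 < k1 := by exact_mod_cast e2
    omega
  have hS1 : 46 / 100 * S ≤ C * (rd (tht i) (Ω i) + rd (tht j) (Ω j)) := by
    rw [hk1] at hy
    have e := abs_le.1 hy
    push_cast at e
    linarith [e.2, hY.1]
  have hS2 : S ≤ 5 * C * r ^ 84 := by
    have : C * (rd (tht i) (Ω i) + rd (tht j) (Ω j)) ≤ C * (r ^ 84 + r ^ 84) := by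
      gcongr
      exacts [hrdi.2, hrdj.2]
    have hp : 0 < C * r ^ 84 := by positivity
    linarith
  -- lower bounds of `S`
  have hilt : i < 2 ^ (l + 1) := by rw [hl]; exact Nat.lt_pow_succ_log_self (by norm_num) i
  have hww : ww (1 / 64) (l + 2) = r ^ 100 / (256 * ((l : ℝ) + 3) ^ 2) := by
    unfold ww
    rw [← hrpow, hθ100, pow_add]
    push_cast
    field_simp
    ring
  have hlow : ∀ m : ℕ, i + m ≤ j → i + m ≤ 2 ^ (l + 2) → m * (r ^ 100 / (256 * ((l : ℝ) + 3) ^ 2)) ≤ S := by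
    intro m hm1 hm2
    rw [hS, ← hww]
    exact sum_ge (u := u) hupos (fun k hk => u3 (l + 1) k hk) hm1 hm2
  have h2l : 2 ^ (l + 2) = 2 * 2 ^ (l + 1) := by rw [pow_succ]; ring
  have h2l' : 2 ^ (l + 1) = 2 * 2 ^ l := by rw [pow_succ]; ring
  have h2lpos : 1 ≤ 2 ^ l := Nat.one_le_two_pow
  have hl3' : (0 : ℝ) < 256 * ((l : ℝ) + 3) ^ 2 := by positivity
  by_cases hbad : ¬ Gd (tht i) (Ω i) ∧ ¬ Gd (tht j) (Ω j)
  · -- both are bad
    have e1 : rd (tht i) (Ω i) = r ^ 101 := by rw [rd_bad hbad.1, ← hθ, hrpow]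
    have e2 : rd (tht j) (Ω j) ≤ r ^ 101 := by rw [rd_bad hbad.2]; exact hinv j hij.le 101
    have e3 : 46 / 100 * S ≤ C * (r ^ 101 + r ^ 101) := by
      refine hS1.trans ?_
      rw [e1]
      gcongr
    have e4 := hlow 1 (by omega) (by omega)
    rw [Nat.cast_one, one_mul] at e4
    have e5 : r ^ 100 / (256 * ((l : ℝ) + 3) ^ 2) ≤ 5 * C * (r ^ 100 * r) := by
      have hp : 0 < C * r ^ 101 := by positivity
      have : r ^ 101 = r ^ 100 * r := pow_succ r 100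
      rw [← this]
      linarith
    rw [div_le_iff₀ hl3'] at e5
    have hr100 : 0 < r ^ 100 := by positivity
    have e6 : 1 ≤ 5 * C * r * (256 * ((l : ℝ) + 3) ^ 2) := by
      by_contra hcon
      push Not at hcon
      have := mul_lt_mul_of_pos_left hcon hr100
      nlinarith
    have e7 : θ ≤ 1280 * C * ((l : ℝ) + 3) ^ 2 := by
      calc θ = θ * 1 := (mul_one θ).symm
        _ ≤ θ * (5 * C * r * (256 * ((l : ℝ) + 3) ^ 2)) := by gcongr
        _ = (r * θ) * (1280 * C * ((l : ℝ) + 3) ^ 2) := by ring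
        _ = _ := by rw [hrθ, one_mul]
    have hp : 0 < C * ((l : ℝ) + 3) ^ 2 := by positivity
    nlinarith
  · -- one of them is good
    obtain ⟨g, hg⟩ : ∃ g, g = j - i := ⟨_, rfl⟩
    have hjg : j = i + g := by omega
    have hg1 : 1 ≤ g := by omega
    have hm : ∀ m : ℕ, i + m ≤ j → i + m ≤ 2 ^ (l + 2) → (m : ℝ) < θ ^ 17 := by
      intro m hm1 hm2
      have e1 := (hlow m hm1 hm2).trans hS2
      rw [← mul_div_assoc, div_le_iff₀ hl3'] at e1
      have e2 : (m : ℝ) * r ^ 16 ≤ 1280 * C * ((l : ℝ) + 3) ^ 2 := by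
        have hr84 : 0 < r ^ 84 := by positivity
        have e3 : ((m : ℝ) * r ^ 16) * r ^ 84 ≤ (1280 * C * ((l : ℝ) + 3) ^ 2) * r ^ 84 := by
          calc ((m : ℝ) * r ^ 16) * r ^ 84 = m * r ^ 100 := by ring
            _ ≤ _ := e1
            _ = _ := by ring
        exact le_of_mul_le_mul_right e3 hr84
      have e3 : (m : ℝ) = (m * r ^ 16) * θ ^ 16 := by
        have : r ^ 16 * θ ^ 16 = 1 := by rw [← mul_pow, hrθ, one_pow]
        rw [mul_assoc, this, mul_one]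
      have hp : 0 < C * ((l : ℝ) + 3) ^ 2 := by positivity
      have hθ16 : 0 < θ ^ 16 := by positivity
      rw [e3]
      calc (m * r ^ 16) * θ ^ 16 ≤ (1280 * C * ((l : ℝ) + 3) ^ 2) * θ ^ 16 := by gcongr
        _ < θ * θ ^ 16 := by
            apply mul_lt_mul_of_pos_right _ hθ16
            nlinarith
        _ = θ ^ 17 := by ring
    have hg2 : g < 2 ^ l := by
      by_contra hcon
      push Not at hcon
      have e1 := hm (2 ^ l) (by omega) (by omega)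
      push_cast at e1
      rw [← hθ100] at e1
      exact absurd (pow_le_pow_right₀ hθ1 (by norm_num : 17 ≤ 100)) (not_le.2 e1)
    have hg17 : (g : ℝ) < θ ^ 17 := hm g (by omega) (by omega)
    have hgr : (g : ℝ) * r ^ 17 ≤ 1 := by
      calc (g : ℝ) * r ^ 17 ≤ θ ^ 17 * r ^ 17 := by gcongr
        _ = 1 := by rw [← mul_pow, mul_comm, hrθ, one_pow]
    have hg0 : (0 : ℝ) ≤ g := Nat.cast_nonneg g
    have hjlog : Nat.log 2 j ≤ l + 1 := by
      have : Nat.log 2 j < l + 2 := Nat.log_lt_of_lt_pow (by omega) (by omega)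
      omega
    -- the difference of the fast velocities
    have hjc : (j : ℝ) - i = g := by rw [hjg]; push_cast; ring
    have hO := hΩ j hij.le
    rw [hjc] at hO
    have hO2 : |Ω j - Ω i| ≤ r ^ 78 := by
      rw [abs_of_nonneg hO.1]
      calc Ω j - Ω i ≤ g * r ^ 95 := hO.2
        _ = (g * r ^ 17) * r ^ 78 := by ring
        _ ≤ 1 * r ^ 78 := by gcongr
        _ = r ^ 78 := one_mul _
    have hgO : |(g : ℝ) * Ω j - g * Ω i| ≤ r ^ 61 := by
      rw [← mul_sub, abs_mul, abs_of_nonneg hg0]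
      calc (g : ℝ) * |Ω j - Ω i| ≤ g * r ^ 78 := by gcongr
        _ = (g * r ^ 17) * r ^ 61 := by ring
        _ ≤ 1 * r ^ 61 := by gcongr
        _ = r ^ 61 := one_mul _
    -- the difference of the fast coordinates
    have hA0 := a_close (a := fun k => a k 0) (Ω := Ω) (i := i) (g := g) (r := r ^ 95) (s := C * r ^ 90)
      (by positivity) (fun k hk => (h3 k (hi.trans hk)).trans (hCinv k hk)) hΩ j hij.le hjg.le
    simp only [hjc] at hA0
    have hA1 : (g : ℝ) * (g * r ^ 95 + C * r ^ 90) ≤ r ^ 61 + C * r ^ 61 := by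
      have t1 : (g : ℝ) * (g * r ^ 95) ≤ r ^ 61 := by
        calc (g : ℝ) * (g * r ^ 95) = (g * r ^ 17) * (g * r ^ 17) * r ^ 61 := by ring
          _ ≤ 1 * 1 * r ^ 61 := by gcongr
          _ = r ^ 61 := by ring
      have t2 : (g : ℝ) * (C * r ^ 90) ≤ C * r ^ 61 := by
        calc (g : ℝ) * (C * r ^ 90) = C * ((g * r ^ 17) * r ^ 73) := by ring
          _ ≤ C * (1 * r ^ 73) := by gcongr
          _ = C * r ^ 73 := by ring
          _ ≤ C * r ^ 61 := mul_le_mul_of_nonneg_left (hrle 61 73 (by norm_num)) hC0.le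
      linarith [mul_add (g : ℝ) (g * r ^ 95) (C * r ^ 90)]
    have hB1 : |a i σ - a i 0 - σ * Ω i| ≤ C * r ^ 61 :=
      ((h2 i hi σ hσ1 hσ2).trans (hCinv i le_rfl)).trans (mul_le_mul_of_nonneg_left (hrle 61 90 (by norm_num)) hC0.le)
    have hB2 : |a j σ - a j 0 - σ * Ω j| ≤ C * r ^ 61 :=
      ((h2 j (hi.trans hij.le) σ hσ1 hσ2).trans (hCinv j hij.le)).trans (mul_le_mul_of_nonneg_left (hrle 61 90 (by norm_num)) hC0.le)
    have hB3 : |σ * (Ω j - Ω i)| ≤ r ^ 61 := by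
      rw [abs_mul]
      have s1 : |σ| ≤ 1 := abs_le.2 ⟨hσ1, hσ2⟩
      calc |σ| * |Ω j - Ω i| ≤ 1 * r ^ 78 := by gcongr
        _ = r ^ 78 := one_mul _
        _ ≤ r ^ 61 := hrle 61 78 (by norm_num)
    have hA2 : |a j σ - a i σ - g * Ω i| ≤ (3 * C + 2) * r ^ 61 := by
      have e : a j σ - a i σ - g * Ω i = (a j σ - a j 0 - σ * Ω j) - (a i σ - a i 0 - σ * Ω i) +
          (a j 0 - a i 0 - g * Ω i) + σ * (Ω j - Ω i) := by ring
      rw [e]
      have t1 := abs_add_le ((a j σ - a j 0 - σ * Ω j) - (a i σ - a i 0 - σ * Ω i) +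
          (a j 0 - a i 0 - g * Ω i)) (σ * (Ω j - Ω i))
      have t2 := abs_add_le ((a j σ - a j 0 - σ * Ω j) - (a i σ - a i 0 - σ * Ω i)) (a j 0 - a i 0 - g * Ω i)
      have t3 := abs_sub (a j σ - a j 0 - σ * Ω j) (a i σ - a i 0 - σ * Ω i)
      linarith [hA0, hA1]
    have hA3 : |a j σ - a i σ - k0| ≤ 3 * C * r ^ 61 := by
      refine ha.trans ?_
      have t1 : C * (rd (tht i) (Ω i) + rd (tht j) (Ω j)) ≤ C * (r ^ 61 + r ^ 61) := by
        gcongr
        · exact hrdi.2.trans (hrle 61 84 (by norm_num))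
        · exact hrdj.2.trans (hrle 61 84 (by norm_num))
      have t2 : S ≤ 5 * C * r ^ 61 := hS2.trans (mul_le_mul_of_nonneg_left (hrle 61 84 (by norm_num)) (by positivity))
      have hp : 0 < C * r ^ 61 := by positivity
      linarith
    have hK1 : |(g : ℝ) * Ω i - k0| ≤ 8 * C * r ^ 61 := by
      have e : (g : ℝ) * Ω i - k0 = (a j σ - a i σ - k0) - (a j σ - a i σ - g * Ω i) := by ring
      rw [e]
      refine (abs_sub _ _).trans ?_
      have hp : 0 < r ^ 61 := by positivity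
      nlinarith
    have hK2 : |(g : ℝ) * Ω j - k0| ≤ 9 * C * r ^ 61 := by
      have e : (g : ℝ) * Ω j - k0 = (g * Ω i - k0) + (g * Ω j - g * Ω i) := by ring
      rw [e]
      refine (abs_add_le _ _).trans ?_
      have hp : 0 < r ^ 61 := by positivity
      nlinarith
    have hfin : ¬ (r ^ 55 ≤ 18 * C * r ^ 61) := by
      intro h
      have e1 : r ^ 55 * 1 ≤ r ^ 55 * (18 * C * r) := by
        calc r ^ 55 * 1 = r ^ 55 := mul_one _
          _ ≤ 18 * C * r ^ 61 := h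
          _ ≤ 18 * C * r ^ 56 := mul_le_mul_of_nonneg_left (hrle 56 61 (by norm_num)) (by positivity)
          _ = r ^ 55 * (18 * C * r) := by ring
      have e2 := le_of_mul_le_mul_left e1 (by positivity : 0 < r ^ 55)
      linarith
    by_cases hgi : Gd (tht i) (Ω i)
    · have e1 := hgi g hg1 (by rw [← hθ]; exact hg17.le)
      rw [← hθ, hrpow] at e1
      have e2 := e1.trans ((round_le _ k0).trans hK1)
      refine hfin (e2.trans ?_)
      have hp : 0 < C * r ^ 61 := by positivity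
      linarith
    · have hgj : Gd (tht j) (Ω j) := by
        by_contra hcon
        exact hbad ⟨hgi, hcon⟩
      have e1 := hgj g hg1 (hg17.le.trans (pow_le_pow_left₀ hθ0.le (hθk j hij.le) 17))
      have e2 := e1.trans ((round_le _ k0).trans hK2)
      have hqj : tht j ≤ qq * θ := by
        have : tht j ≤ qq ^ (l + 1) := pow_le_pow_right₀ one_lt_qq.le hjlog
        rwa [pow_succ, mul_comm, ← hθl] at this
      have hq0 : 0 < qq := lt_trans one_pos one_lt_qq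
      have hq55 : qq ^ 55 ≤ 2 := by
        rw [← qq_pow]
        exact pow_le_pow_right₀ one_lt_qq.le (by norm_num)
      have htj : 0 < tht j := lt_of_lt_of_le one_pos (one_le_tht j)
      have e3 : tht j ^ 55 ≤ 2 * θ ^ 55 := by
        calc tht j ^ 55 ≤ (qq * θ) ^ 55 := pow_le_pow_left₀ htj.le hqj 55
          _ = qq ^ 55 * θ ^ 55 := mul_pow _ _ _
          _ ≤ _ := by gcongr
      have e4 : r ^ 55 / 2 ≤ 1 / tht j ^ 55 := by
        rw [← hrpow, div_div]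
        refine one_div_le_one_div_of_le (by positivity) ?_
        linarith
      exact hfin (by linarith)

end Sx

theorem sepx_all : S_SEPX := by
  intro C
  obtain ⟨D, hD⟩ : ∃ D, D = max C 1 := ⟨_, rfl⟩
  have hD1 : 1 ≤ D := by rw [hD]; exact le_max_right _ _
  have hCD : C ≤ D := by rw [hD]; exact le_max_left _ _
  obtain ⟨L1, hL1⟩ := Sx.large (2000 * D)
  refine ⟨max 6 L1, fun l0 hl0 Ω a y h1 h2 h3 h4 h5 i j hi hij σ hσ1 hσ2 k0 k1 ha hy => ?_⟩
  have hmono : ∀ j, C / tht j ^ 90 ≤ D / tht j ^ 90 := by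
    intro j
    have : 0 < tht j := lt_of_lt_of_le one_pos (Sx.one_le_tht j)
    gcongr
  have hr : ∀ k, 0 ≤ rd (tht k) (Ω k) := fun k => (Sx.rd_le (Sx.one_le_tht k)).1
  have hm2 : C * (rd (tht i) (Ω i) + rd (tht j) (Ω j)) ≤ D * (rd (tht i) (Ω i) + rd (tht j) (Ω j)) :=
    mul_le_mul_of_nonneg_right hCD (add_nonneg (hr i) (hr j))
  exact Sx.main hD1 (le_trans (le_max_left _ _) hl0)
    (fun l hl => hL1 l (le_trans (le_trans (le_max_right _ _) hl0) hl)) Ω a y h1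
    (fun j hj σ h h' => (h2 j hj σ h h').trans (hmono j)) (fun j hj => (h3 j hj).trans (hmono j)) h4 h5
    hi hij hσ1 hσ2 (ha.trans (by linarith)) (hy.trans (by linarith))

end Pool.Agent.K9h32.HJ
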