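import Pool.Agent.K9h32.HJ.Stm
import Pool.Agent.N980.TL.VINF

/-!
# Leaf SEQX (helper98 for helper32): growth of the fast velocity
-/

set_option autoImplicit false

open Set Filter Topology

noncomputable section

namespace Pool.Agent.K9h32.HJ

open Pool.Agent.N980.TL

lemma sx_qq_pos : 0 < qq := by unfold qq; positivity

lemma sx_qq_pow : qq ^ 100 = 2 := by
  unfold qq
  rw [← Real.rpow_natCast, ← Real.rpow_mul (by norm_num)]
  norm_num

lemma sx_one_lt : 1 < qq := by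
  by_contra h
  push Not at h
  have h1 : qq ^ 100 ≤ 1 := pow_le_one₀ sx_qq_pos.le h
  rw [sx_qq_pow] at h1
  norm_num at h1

lemma sx_qq5_ge : 31 / 30 ≤ qq ^ 5 := by
  by_contra h
  push Not at h
  have h1 : (qq ^ 5) ^ 20 < (31 / 30 : ℝ) ^ 20 :=
    pow_lt_pow_left₀ h (pow_nonneg sx_qq_pos.le _) (by norm_num)
  rw [← pow_mul, sx_qq_pow] at h1
  norm_num at h1

lemma sx_qq5_le : qq ^ 5 ≤ 3 / 2 := by
  by_contra h
  push Not at h
  have h1 : (3 / 2 : ℝ) ^ 20 < (qq ^ 5) ^ 20 :=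
    pow_lt_pow_left₀ h (by norm_num) (by norm_num)
  rw [← pow_mul, sx_qq_pow] at h1
  norm_num at h1

lemma sx_th_pow (l : ℕ) : (qq ^ l) ^ 100 = 2 ^ l := by
  rw [← pow_mul, mul_comm, pow_mul, sx_qq_pow]

lemma sx_th_one (l : ℕ) : 1 ≤ qq ^ l := one_le_pow₀ sx_one_lt.le

lemma sx_tht {l j : ℕ} (h1 : 2 ^ l ≤ j) (h2 : j < 2 ^ (l + 1)) : tht j = qq ^ l := by
  unfold tht
  rw [Nat.log_eq_of_pow_le_of_lt_pow h1 h2]

lemma sx_ac_ge {θ : ℝ} (h : 1 ≤ θ) (Ω : ℝ) : 1 / θ ^ 112 ≤ ac θ Ω := by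
  unfold ac
  split_ifs
  · exact one_div_le_one_div_of_le (by positivity) (pow_le_pow_right₀ h (by norm_num))
  · exact le_rfl

lemma sx_ac_le {θ : ℝ} (h : 1 ≤ θ) (Ω : ℝ) : ac θ Ω ≤ 1 / θ ^ 95 := by
  unfold ac
  split_ifs
  · exact le_rfl
  · exact one_div_le_one_div_of_le (by positivity) (pow_le_pow_right₀ h (by norm_num))

lemma sx_sum {Ω : ℕ → ℝ} {a b : ℕ} (hab : a ≤ b)
    (hrec : ∀ j, a ≤ j → Ω (j + 1) = Ω j + ac (tht j) (Ω j)) :
    Ω b - Ω a = ∑ j ∈ Finset.Ico a b, ac (tht j) (Ω j) := by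
  induction b, hab using Nat.le_induction with
  | base => simp
  | succ b hb ih =>
    rw [Finset.sum_Ico_succ_top hb, ← ih, hrec b hb]
    ring

lemma sx_growth {Ω : ℕ → ℝ} {l : ℕ} (hrec : ∀ j, 2 ^ l ≤ j → Ω (j + 1) = Ω j + ac (tht j) (Ω j))
    {a b : ℕ} (ha : 2 ^ l ≤ a) (hab : a ≤ b) (hb : b ≤ 2 ^ (l + 1)) :
    ((b : ℝ) - a) * (1 / (qq ^ l) ^ 112) ≤ Ω b - Ω a ∧
      Ω b - Ω a ≤ ((b : ℝ) - a) * (1 / (qq ^ l) ^ 95) := by
  rw [sx_sum hab (fun j hj => hrec j (ha.trans hj))]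
  have e : ∀ j ∈ Finset.Ico a b, tht j = qq ^ l := by
    intro j hj
    rw [Finset.mem_Ico] at hj
    exact sx_tht (ha.trans hj.1) (hj.2.trans_le hb)
  have h1 : ∀ j ∈ Finset.Ico a b, 1 / (qq ^ l) ^ 112 ≤ ac (tht j) (Ω j) := by
    intro j hj
    rw [e j hj]
    exact sx_ac_ge (sx_th_one l) _
  have h2 : ∀ j ∈ Finset.Ico a b, ac (tht j) (Ω j) ≤ 1 / (qq ^ l) ^ 95 := by
    intro j hj
    rw [e j hj]
    exact sx_ac_le (sx_th_one l) _
  have h3 := Finset.card_nsmul_le_sum _ _ _ h1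
  have h4 := Finset.sum_le_card_nsmul _ _ _ h2
  rw [Nat.card_Ico, nsmul_eq_mul, Nat.cast_sub hab] at h3 h4
  exact ⟨h3, h4⟩

/-- the number of bad steps in a block -/
lemma sx_bad {Ω : ℕ → ℝ} {l : ℕ}
    (hrec : ∀ j, 2 ^ l ≤ j → Ω (j + 1) = Ω j + ac (tht j) (Ω j))
    (hlo : 0 ≤ Ω (2 ^ l))
    (hup : ∀ j, 2 ^ l ≤ j → j < 2 ^ (l + 1) → Ω j ≤ 31 * (qq ^ l) ^ 5)
    (B : Finset ℕ) (hB : B ⊆ Finset.Ico (2 ^ l) (2 ^ (l + 1)))
    (hbad : ∀ j ∈ B, ¬ Gd (qq ^ l) (Ω j)) :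
    (B.card : ℝ) ≤ 99 * (qq ^ l) ^ 96 := by
  classical
  obtain ⟨θ, hθ⟩ : ∃ θ, θ = qq ^ l := ⟨_, rfl⟩
  have hθ1 : 1 ≤ θ := by rw [hθ]; exact sx_th_one l
  have hgr := fun {a b : ℕ} => sx_growth hrec (a := a) (b := b)
  rw [← hθ] at hgr hup hbad ⊢
  have hθ0 : 0 < θ := by linarith
  -- the index sets
  set G : ℕ := ⌊θ ^ 17⌋₊ with hG
  set Mm : ℕ := ⌊31 * θ ^ 22 + 1⌋₊ with hMm
  set R : ℕ := ⌊2 * θ ^ 57⌋₊ with hR
  have hnn : ∀ j, 2 ^ l ≤ j → j < 2 ^ (l + 1) → 0 ≤ Ω j := by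
    intro j h1 h2
    have h3 := (hgr le_rfl h1 h2.le).1
    have h4 : (0 : ℝ) ≤ ((j : ℝ) - (2 ^ l : ℕ)) * (1 / θ ^ 112) := by
      have : ((2 ^ l : ℕ) : ℝ) ≤ j := by exact_mod_cast h1
      have h5 : 0 ≤ (j : ℝ) - (2 ^ l : ℕ) := by linarith
      positivity
    linarith
  set S : ℕ × ℕ → Finset ℕ := fun p => (Finset.Ico (2 ^ l) (2 ^ (l + 1))).filter
    (fun j => |(p.1 : ℝ) * Ω j - p.2| < 1 / θ ^ 55) with hS
  have hsub : B ⊆ (Finset.Icc 1 G ×ˢ Finset.range (Mm + 1)).biUnion S := by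
    intro j hj
    have h1 := hbad j hj
    unfold Gd at h1
    push Not at h1
    obtain ⟨g, hg1, hg2, hg3⟩ := h1
    have hjm := Finset.mem_Ico.1 (hB hj)
    have hV := hnn j hjm.1 hjm.2
    have hVu := hup j hjm.1 hjm.2
    have hgV : 0 ≤ (g : ℝ) * Ω j := by positivity
    have habs := abs_le.1 (abs_sub_round ((g : ℝ) * Ω j))
    have hr0 : 0 ≤ round ((g : ℝ) * Ω j) := by
      have h5 : (((-1 : ℤ)) : ℝ) < ((round ((g : ℝ) * Ω j) : ℤ) : ℝ) := by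
        push_cast; linarith [habs.2]
      have h6 : (-1 : ℤ) < round ((g : ℝ) * Ω j) := by exact_mod_cast h5
      omega
    have hgV2 : (g : ℝ) * Ω j ≤ 31 * θ ^ 22 := by
      calc (g : ℝ) * Ω j ≤ θ ^ 17 * (31 * θ ^ 5) := mul_le_mul hg2 hVu hV (by positivity)
        _ = 31 * θ ^ 22 := by ring
    have hr1 : (((round ((g : ℝ) * Ω j)).toNat : ℕ) : ℝ) ≤ 31 * θ ^ 22 + 1 := by
      have e : (((round ((g : ℝ) * Ω j)).toNat : ℕ) : ℝ) =
          ((round ((g : ℝ) * Ω j) : ℤ) : ℝ) := by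
        have := Int.toNat_of_nonneg hr0
        exact_mod_cast this
      rw [e]
      linarith [habs.1]
    rw [Finset.mem_biUnion]
    refine ⟨(g, (round ((g : ℝ) * Ω j)).toNat), ?_, ?_⟩
    · rw [Finset.mem_product, Finset.mem_Icc, Finset.mem_range]
      refine ⟨⟨hg1, Nat.le_floor hg2⟩, ?_⟩
      exact Nat.lt_succ_of_le (Nat.le_floor hr1)
    · rw [hS]
      simp only [Finset.mem_filter]
      refine ⟨hB hj, ?_⟩
      have e : (((round ((g : ℝ) * Ω j)).toNat : ℕ) : ℝ) =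
          ((round ((g : ℝ) * Ω j) : ℤ) : ℝ) := by
        have := Int.toNat_of_nonneg hr0
        exact_mod_cast this
      rw [e]
      exact hg3
  have hcard : B.card ≤ (G * (Mm + 1)) * (R + 1) := by
    refine (Finset.card_le_card hsub).trans ?_
    refine (Finset.card_biUnion_le_card_mul _ _ (R + 1) ?_).trans ?_
    · intro p hp
      rw [Finset.mem_product, Finset.mem_Icc] at hp
      apply vinf_card
      intro i hi j hj hij
      rw [hS] at hi hj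
      simp only [Finset.mem_filter, Finset.mem_Ico] at hi hj
      have hp1 : (1 : ℝ) ≤ p.1 := by exact_mod_cast hp.1.1
      have h1 := (hgr hi.1.1 hij hj.1.2.le).1
      have h2 := abs_lt.1 hi.2
      have h3 := abs_lt.1 hj.2
      have hij' : (i : ℝ) ≤ j := by exact_mod_cast hij
      have h0 : 0 ≤ ((j : ℝ) - i) * (1 / θ ^ 112) := by
        have : 0 ≤ (j : ℝ) - i := by linarith
        positivity
      have h4 : 0 ≤ Ω j - Ω i := h0.trans h1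
      have h5 : Ω j - Ω i ≤ 2 * (1 / θ ^ 55) := by
        have h6 : (p.1 : ℝ) * (Ω j - Ω i) ≤ 2 * (1 / θ ^ 55) := by
          have : (p.1 : ℝ) * (Ω j - Ω i) = (p.1 * Ω j - p.2) - (p.1 * Ω i - p.2) := by ring
          rw [this]
          linarith [h2.1, h3.2]
        nlinarith
      have h7 : ((j : ℝ) - i) * (1 / θ ^ 112) ≤ 2 * (1 / θ ^ 55) := h1.trans h5
      have h8 : (j : ℝ) - i ≤ 2 * θ ^ 57 := by
        have e : 2 * (1 / θ ^ 55) = 2 * θ ^ 57 * (1 / θ ^ 112) := by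
          field_simp
        rw [e] at h7
        exact le_of_mul_le_mul_right h7 (by positivity)
      have h9 : (((j - i : ℕ)) : ℝ) ≤ 2 * θ ^ 57 := by
        rw [Nat.cast_sub hij]
        exact h8
      have h10 : j - i ≤ R := Nat.le_floor h9
      omega
    · rw [Finset.card_product, Nat.card_Icc, Finset.card_range]
      simp
  have hGr : (G : ℝ) ≤ θ ^ 17 := Nat.floor_le (by positivity)
  have hMr : ((Mm : ℝ) + 1) ≤ 33 * θ ^ 22 := by
    have h1 : (Mm : ℝ) ≤ 31 * θ ^ 22 + 1 := Nat.floor_le (by positivity)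
    have h2 : 1 ≤ θ ^ 22 := one_le_pow₀ hθ1
    linarith
  have hRr : ((R : ℝ) + 1) ≤ 3 * θ ^ 57 := by
    have h1 : (R : ℝ) ≤ 2 * θ ^ 57 := Nat.floor_le (by positivity)
    have h2 : 1 ≤ θ ^ 57 := one_le_pow₀ hθ1
    linarith
  have h1 : (B.card : ℝ) ≤ (G * (Mm + 1)) * (R + 1) := by exact_mod_cast hcard
  calc (B.card : ℝ) ≤ ((G : ℝ) * (Mm + 1)) * (R + 1) := h1
    _ ≤ (θ ^ 17 * (33 * θ ^ 22)) * (3 * θ ^ 57) := by gcongr
    _ = 99 * θ ^ 96 := by ring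

lemma sx_block {Ω : ℕ → ℝ} {l : ℕ} (hl : 200 ≤ l)
    (hrec : ∀ j, 2 ^ l ≤ j → Ω (j + 1) = Ω j + ac (tht j) (Ω j))
    (h1 : (qq ^ l) ^ 5 ≤ Ω (2 ^ l)) (h2 : Ω (2 ^ l) ≤ 30 * (qq ^ l) ^ 5) :
    (∀ j, 2 ^ l ≤ j → j < 2 ^ (l + 1) → (qq ^ l) ^ 5 ≤ Ω j ∧ Ω j ≤ 31 * (qq ^ l) ^ 5) ∧
      (qq ^ (l + 1)) ^ 5 ≤ Ω (2 ^ (l + 1)) ∧ Ω (2 ^ (l + 1)) ≤ 30 * (qq ^ (l + 1)) ^ 5 := by
  classical
  have hgr := fun {a b : ℕ} => sx_growth hrec (a := a) (b := b)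
  have hbd := fun B => sx_bad hrec (by
    have := sx_th_one l
    have h3 : (0 : ℝ) ≤ (qq ^ l) ^ 5 := by positivity
    linarith) (B := B)
  have hpw := sx_th_pow l
  have h2l : 2 ^ l ≤ 2 ^ (l + 1) := Nat.pow_le_pow_right (by norm_num) (by omega)
  have hthn : (qq ^ (l + 1)) ^ 5 = qq ^ 5 * (qq ^ l) ^ 5 := by
    rw [pow_succ]; ring
  obtain ⟨θ, hθ⟩ : ∃ θ, θ = qq ^ l := ⟨_, rfl⟩
  have hθ1 : 1 ≤ θ := by rw [hθ]; exact sx_th_one l
  have hbig : 198 ≤ θ ^ 4 := by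
    have h3 : qq ^ (200 * 4) ≤ θ ^ 4 := by
      rw [hθ, ← pow_mul]
      exact pow_le_pow_right₀ sx_one_lt.le (by omega)
    have h4 : qq ^ (200 * 4) = 256 := by
      have : (200 * 4 : ℕ) = 100 * 8 := by norm_num
      rw [this, pow_mul, sx_qq_pow]
      norm_num
    rw [h4] at h3
    linarith
  rw [hthn]
  rw [← hθ] at h1 h2 hpw hbd ⊢
  rw [← hθ] at hgr
  have hθ0 : 0 < θ := by linarith
  have hq5a := sx_qq5_ge
  have hq5b := sx_qq5_le
  have hp5 : 0 < θ ^ 5 := by positivity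
  have hcan : (2 : ℝ) ^ l * (1 / θ ^ 95) = θ ^ 5 := by
    rw [← hpw]
    field_simp
  have hmain : ∀ j, 2 ^ l ≤ j → j ≤ 2 ^ (l + 1) → θ ^ 5 ≤ Ω j ∧ Ω j ≤ 31 * θ ^ 5 := by
    intro j hj1 hj2
    have h3 := hgr le_rfl hj1 hj2
    have h4 : ((2 ^ l : ℕ) : ℝ) ≤ j := by exact_mod_cast hj1
    have h5 : (j : ℝ) ≤ ((2 ^ (l + 1) : ℕ) : ℝ) := by exact_mod_cast hj2
    push_cast at h3 h4 h5
    rw [pow_succ] at h5
    have h6 : 0 ≤ (j : ℝ) - 2 ^ l := by linarith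
    have h7 : 0 ≤ ((j : ℝ) - 2 ^ l) * (1 / θ ^ 112) := by positivity
    have h8 : ((j : ℝ) - 2 ^ l) * (1 / θ ^ 95) ≤ 2 ^ l * (1 / θ ^ 95) :=
      mul_le_mul_of_nonneg_right (by linarith) (by positivity)
    rw [hcan] at h8
    exact ⟨by linarith [h3.1], by linarith [h3.2]⟩
  refine ⟨fun j hj1 hj2 => hmain j hj1 hj2.le, ?_, ?_⟩
  · -- many good steps
    set I := Finset.Ico (2 ^ l) (2 ^ (l + 1)) with hI
    set G := I.filter (fun j => Gd θ (Ω j)) with hG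
    set B := I.filter (fun j => ¬ Gd θ (Ω j)) with hBdef
    have hBc := hbd B (fun j hj1 hj2 => (hmain j hj1 hj2.le).2) (Finset.filter_subset _ _)
      (fun j hj => (Finset.mem_filter.1 hj).2)
    have hcard : G.card + B.card = 2 ^ l := by
      have h3 := Finset.card_filter_add_card_filter_not (s := I) (fun j => Gd θ (Ω j))
      rw [hG, hBdef]
      refine h3.trans ?_
      rw [hI, Nat.card_Ico, pow_succ]
      omega
    have hcardr : (G.card : ℝ) + B.card = 2 ^ l := by exact_mod_cast hcard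
    have hB2 : (B.card : ℝ) ≤ 2 ^ l / 2 := by
      have h3 : 99 * θ ^ 96 ≤ θ ^ 100 / 2 := by
        have e : θ ^ 100 = θ ^ 96 * θ ^ 4 := by ring
        rw [e]
        have h4 : 0 < θ ^ 96 := by positivity
        nlinarith
      rw [hpw] at h3
      linarith
    have hGc : (2 : ℝ) ^ l / 2 ≤ G.card := by linarith
    have hG1 : ∀ j ∈ G, 1 / θ ^ 95 ≤ ac (tht j) (Ω j) := by
      intro j hj
      have hj1 := Finset.mem_filter.1 hj
      have hj2 := Finset.mem_Ico.1 hj1.1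
      rw [sx_tht hj2.1 hj2.2, ← hθ]
      unfold ac
      rw [if_pos hj1.2]
    have h3 := Finset.card_nsmul_le_sum _ _ _ hG1
    rw [nsmul_eq_mul] at h3
    have h4 : ∑ j ∈ G, ac (tht j) (Ω j) ≤ ∑ j ∈ I, ac (tht j) (Ω j) :=
      Finset.sum_le_sum_of_subset_of_nonneg (Finset.filter_subset _ _)
        (fun j hj _ => by
          have hj2 := Finset.mem_Ico.1 hj
          rw [sx_tht hj2.1 hj2.2, ← hθ]
          have := sx_ac_ge hθ1 (Ω j)
          have h5 : 0 < 1 / θ ^ 112 := by positivity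
          linarith)
    rw [← sx_sum h2l hrec] at h4
    have h5 : (2 : ℝ) ^ l / 2 * (1 / θ ^ 95) ≤ G.card * (1 / θ ^ 95) :=
      mul_le_mul_of_nonneg_right hGc (by positivity)
    have h6 : (2 : ℝ) ^ l / 2 * (1 / θ ^ 95) = θ ^ 5 / 2 := by
      rw [← hcan]; ring
    have h7 : qq ^ 5 * θ ^ 5 ≤ 3 / 2 * θ ^ 5 := mul_le_mul_of_nonneg_right hq5b hp5.le
    linarith
  · have h3 := (hmain (2 ^ (l + 1)) h2l le_rfl).2
    nlinarith

theorem seqx_all : S_SEQX := by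
  refine ⟨200, fun l0 hl0 Ω h0 hrec => ?_⟩
  have e0 : tht (2 ^ l0) = qq ^ l0 :=
    sx_tht le_rfl (Nat.pow_lt_pow_right (by norm_num) (by omega))
  rw [e0] at h0
  have key : ∀ l, l0 ≤ l → (qq ^ l) ^ 5 ≤ Ω (2 ^ l) ∧ Ω (2 ^ l) ≤ 30 * (qq ^ l) ^ 5 := by
    intro l hl
    induction l, hl using Nat.le_induction with
    | base =>
      rw [h0]
      have : 0 < qq ^ l0 := by have := sx_qq_pos; positivity
      refine ⟨le_rfl, ?_⟩
      have h1 : 0 < (qq ^ l0) ^ 5 := by positivity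
      linarith
    | succ l hl ih =>
      exact (sx_block (hl0.trans hl)
        (fun j hj => hrec j ((Nat.pow_le_pow_right (by norm_num) hl).trans hj)) ih.1 ih.2).2
  intro j hj
  have hj0 : j ≠ 0 := by
    have : 0 < 2 ^ l0 := by positivity
    omega
  have hl : l0 ≤ Nat.log 2 j := Nat.le_log_of_pow_le (by norm_num) hj
  have h1 : 2 ^ (Nat.log 2 j) ≤ j := Nat.pow_log_le_self 2 hj0
  have h2 : j < 2 ^ (Nat.log 2 j + 1) := Nat.lt_pow_succ_log_self (by norm_num) j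
  have h3 := key _ hl
  have h4 := (sx_block (hl0.trans hl)
    (fun j hj => hrec j ((Nat.pow_le_pow_right (by norm_num) hl).trans hj)) h3.1 h3.2).1 j h1 h2
  unfold tht
  exact h4

end Pool.Agent.K9h32.HJ
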