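import Pool.Agent.K9h32.HJ.StepQ
import Pool.Agent.K9h32.HJ.StmQ
import Pool.Agent.K9h32.HJ.Sepx
import Pool.Agent.K9h32.HJ.Seqx

/-!
# Preparations for the density theorem
-/

set_option autoImplicit false

open Set Filter Topology
open scoped ContDiff

noncomputable section

namespace Pool.Agent.K9h32.HJ.Qm

open Pool.Agent.N980.TL (E Z Trig S_FN tp th et Cls pathG pathG_hasDerivAt grad_time EulerLagrange Periodic uu ww)
open Pool.Agent.K9h32.HJ

variable {n N : ℕ}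

theorem FB_glue (B : Fin n → Fin n → ℝ) (D : Trig n N) {G : ℕ → ℝ → E n}
    (hglue : ∀ j s, 3 / 4 ≤ s → s ≤ 5 / 4 → G j s = G (j + 1) (s - 1)) (j : ℕ) (s : ℝ)
    (h : 3 / 4 < s) (hs1 : s < 1) : FB B D (G (j + 1)) (s - 1) = FB B D (G j) s := by
  funext i
  have hev : ∀ᶠ u in 𝓝 s, G j u = G (j + 1) (u - 1) := by
    filter_upwards [lt_mem_nhds h, gt_mem_nhds (show s < 5 / 4 by linarith)] with u h1 h2
    exact hglue j u h1.le h2.le
  simp only [FB]
  have key : ∀ i, deriv (deriv fun u => G j u i) s = deriv (deriv fun u => G (j + 1) u i) (s - 1) := by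
    intro i
    have k1 : (fun u => G j u i) =ᶠ[𝓝 s] fun u => (fun u => G (j + 1) u i) (u - 1) := by
      filter_upwards [hev] with u hu
      rw [hu]
    have k2 : deriv (fun u => G j u i) =ᶠ[𝓝 s] fun u => deriv (fun u => G (j + 1) u i) (u - 1) := by
      filter_upwards [k1.eventually_nhds] with u hu
      have hu' : (fun u => G j u i) =ᶠ[𝓝 u] fun u => (fun u => G (j + 1) u i) (u - 1) := hu
      rw [hu'.deriv_eq]
      exact deriv_comp_sub_const (f := fun u => G (j + 1) u i) 1 u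
    rw [k2.deriv_eq]
    exact deriv_comp_sub_const (f := deriv fun u => G (j + 1) u i) 1 s
  simp only [key]
  rw [hglue j s h.le (by linarith)]
  have k4 := grad_time D (G (j + 1) (s - 1)) (s - 1) 1 i
  have k5 : s - 1 + ((1 : ℤ) : ℝ) = s := by push_cast; ring
  rw [k5] at k4
  rw [k4]

/-- the kinetic energy -/
def quad (B : Fin n → Fin n → ℝ) (v : E n) : ℝ := (∑ i, ∑ j, B i j * v i * v j) / 2

theorem quad_hasDerivAt {B : Fin n → Fin n → ℝ} (hB : ∀ i j, B i j = B j i) (v : E n) (i : Fin n) :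
    HasDerivAt (fun u => quad B (Function.update v i u)) (∑ j, B i j * v j) (v i) := by
  have h := quad_deriv (Q := B) hB (a := fun i' u => Function.update v i u i')
    (fun i' => upd_hasDerivAt v i (v i) i')
  simp only [Function.update_eq_self] at h
  have e1 : (fun u => (∑ i', ∑ j, B i' j * (Function.update v i u i' * Function.update v i u j)) / 2) =
      fun u => quad B (Function.update v i u) := by
    funext u
    simp only [quad]
    congr 1
    exact Finset.sum_congr rfl fun _ _ => Finset.sum_congr rfl fun _ _ => by ring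
  rw [e1] at h
  refine h.congr_deriv ?_
  rw [Finset.sum_congr rfl fun i' _ => mul_comm _ _, sum_single]

theorem el_of_newtonB {B : Fin n → Fin n → ℝ} (hB : ∀ i j, B i j = B j i) {R : ℝ}
    {L : (Fin n → ℝ) → (Fin n → ℝ) → ℝ → ℝ} {f : (Fin n → ℝ) → ℝ → ℝ} {γ : ℝ → Fin n → ℝ} {t : ℝ}
    {a : Fin n → ℝ} (hL : ∀ x v t, R ≤ ‖v‖ → L x v t = quad B v)
    (hd : DifferentiableAt ℝ γ t) (h2 : HasDerivAt (deriv γ) a t) (hR : R < ‖deriv γ t‖)
    (hf : ∀ i, HasDerivAt (fun u => f (Function.update (γ t) i u) t) (∑ j, B i j * a j) (γ t i)) :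
    EulerLagrange (fun x v t => L x v t + f x t) γ t := by
  refine ⟨hd, fun i => ?_⟩
  have hev : ∀ᶠ s in 𝓝 t, R < ‖deriv γ s‖ := h2.continuousAt.norm.eventually (lt_mem_nhds hR)
  have e1 : (fun s => Pool.Agent.N980.TL.dv (fun x v t => L x v t + f x t) i (γ s) (deriv γ s) s) =ᶠ[𝓝 t]
      fun s => ∑ j, B i j * deriv γ s j := by
    filter_upwards [hev] with s hs
    simp only [Pool.Agent.N980.TL.dv]
    have hcont : ContinuousAt (fun u => ‖Function.update (deriv γ s) i u‖) (deriv γ s i) := by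
      have : Continuous (fun u : ℝ => Function.update (deriv γ s) i u) := continuous_const.update i continuous_id
      exact this.norm.continuousAt
    have h0 : R < ‖Function.update (deriv γ s) i (deriv γ s i)‖ := by rwa [Function.update_eq_self]
    have hev2 : (fun u => L (γ s) (Function.update (deriv γ s) i u) s + f (γ s) s) =ᶠ[𝓝 (deriv γ s i)]
        fun u => quad B (Function.update (deriv γ s) i u) + f (γ s) s := by
      filter_upwards [hcont.eventually (lt_mem_nhds h0)] with u hu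
      rw [hL _ _ _ (le_of_lt hu)]
    rw [hev2.deriv_eq]
    exact ((quad_hasDerivAt hB (deriv γ s) i).add_const _).deriv
  have e2 : Pool.Agent.N980.TL.dx (fun x v t => L x v t + f x t) i (γ t) (deriv γ t) t =
      ∑ j, B i j * a j := by
    simp only [Pool.Agent.N980.TL.dx]
    have e : (fun u => L (Function.update (γ t) i u) (deriv γ t) t + f (Function.update (γ t) i u) t) =
        fun u => quad B (deriv γ t) + f (Function.update (γ t) i u) t := by
      funext u; rw [hL _ _ _ hR.le]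
    rw [e]
    exact ((hf i).const_add _).deriv
  rw [e2]
  have h4 : HasDerivAt (fun s => ∑ j, B i j * deriv γ s j) (∑ j, B i j * a j) t :=
    HasDerivAt.fun_sum fun j _ => ((hasDerivAt_pi.1 h2) j).const_mul (B i j)
  exact h4.congr_of_eventuallyEq e1

/-- telescoping of the velocities -/
theorem tele {r M : ℕ} {L : List (Atom (r + 2))} {𝓕 : List ((Fin (r + 2) → ℤ) × ℤ)} {C κ : ℝ} (Vs : ℕ → ℝ)
    (ν : ℕ → E (r + 2)) {j0 : ℕ}
    (hlip : ∀ (V : ℝ) (v v' : E (r + 2)), 1 ≤ V →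
      (∀ τ ∈ Icc (0 : ℝ) 1, NRs 𝓕 κ V (fun i => v i + τ * (v' i - v i))) → ∀ (x x' : E (r + 2)) (t : ℝ),
      |ev L x' v' t - ev L x v t| ≤ C / V ^ 2 * ‖x' - x‖ + C / V ^ (2 + 1) * ‖v' - v‖)
    (hV : ∀ k, j0 ≤ k → 1 ≤ Vs k) (hcone : ∀ k, j0 ≤ k → ∀ v, InC r M (Vs k) v → NRs 𝓕 κ (Vs k) v)
    (hν : ∀ k, j0 ≤ k → InC r M (Vs k) (ν k)) (hmono : ∀ k, j0 ≤ k → Vs k ≤ Vs (k + 1))
    {i j : ℕ} (hi : j0 ≤ i) (hij : i ≤ j) (x : E (r + 2)) (t : ℝ) :
    |ev L x (ν j) t - ev L x (ν i) t| ≤ ∑ k ∈ Finset.Ico i j, C / Vs k ^ 3 * ‖ν (k + 1) - ν k‖ := by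
  induction j, hij using Nat.le_induction with
  | base => simp
  | succ j hj ih =>
    rw [Finset.sum_Ico_succ_top hj]
    have hjj : j0 ≤ j := hi.trans hj
    have h1 := hlip (Vs j) (ν j) (ν (j + 1)) (hV j hjj)
      (fun τ hτ => hcone j hjj _ ((hν j hjj).conv ((hν (j + 1) (by omega)).mono (hmono j hjj)) hτ)) x x t
    rw [sub_self, norm_zero, mul_zero, zero_add] at h1
    calc |ev L x (ν (j + 1)) t - ev L x (ν i) t| =
          |(ev L x (ν (j + 1)) t - ev L x (ν j) t) + (ev L x (ν j) t - ev L x (ν i) t)| := by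
            congr 1; ring
      _ ≤ |ev L x (ν (j + 1)) t - ev L x (ν j) t| + |ev L x (ν j) t - ev L x (ν i) t| := abs_add_le _ _
      _ ≤ C / Vs j ^ 3 * ‖ν (j + 1) - ν j‖ + ∑ k ∈ Finset.Ico i j, C / Vs k ^ 3 * ‖ν (k + 1) - ν k‖ :=
          add_le_add h1 ih
      _ = _ := add_comm _ _

/-- the fast velocities -/
theorem om_exists (j0 : ℕ) : ∃ Ω : ℕ → ℝ, Ω j0 = tht j0 ^ 5 ∧
    ∀ j, j0 ≤ j → Ω (j + 1) = Ω j + ac (tht j) (Ω j) := by
  set sq : ℕ → ℝ := fun k => Nat.rec (tht j0 ^ 5) (fun k x => x + ac (tht (j0 + k)) x) k with hsq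
  refine ⟨fun j => sq (j - j0), ?_, fun j hj => ?_⟩
  · show sq (j0 - j0) = _
    rw [Nat.sub_self]
    rfl
  · show sq (j + 1 - j0) = sq (j - j0) + ac (tht j) (sq (j - j0))
    have e : j + 1 - j0 = (j - j0) + 1 := by omega
    rw [e]
    show sq (j - j0) + ac (tht (j0 + (j - j0))) (sq (j - j0)) = _
    have e2 : j0 + (j - j0) = j := by omega
    rw [e2]

theorem ac_rd {θ : ℝ} (hθ : 1 ≤ θ) (Ω : ℝ) : 0 < rd θ Ω ∧ rd θ Ω ≤ 1 ∧ ac θ Ω * θ ^ 10 / rd θ Ω = 1 / θ ∧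
    1 / rd θ Ω ≤ θ ^ 101 ∧ 1 / θ ^ 112 ≤ ac θ Ω ∧ ac θ Ω ≤ 1 / θ ^ 95 ∧ rd θ Ω ≤ 1 / θ ^ 84 := by
  have h0 : 0 < θ := by linarith
  have h1 : ∀ k : ℕ, 1 ≤ θ ^ k := fun k => one_le_pow₀ hθ
  have h3 := Sx.ac_le (Ω := Ω) hθ
  have h4 := Sx.rd_le (Ω := Ω) hθ
  unfold rd ac at *
  split_ifs at * with h
  · refine ⟨by positivity, ?_, ?_, ?_, ?_, h3.2, h4.2⟩
    · rw [div_le_one (by positivity)]; exact h1 84
    · field_simp
    · rw [one_div_one_div]; exact pow_le_pow_right₀ hθ (by norm_num)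
    · exact one_div_le_one_div_of_le (by positivity) (pow_le_pow_right₀ hθ (by norm_num))
  · refine ⟨by positivity, ?_, ?_, ?_, le_rfl, h3.2, h4.2⟩
    · rw [div_le_one (by positivity)]; exact h1 101
    · field_simp
    · rw [one_div_one_div]

/-- facts on the slow velocities -/
theorem uu_facts (hUU : Pool.Agent.N980.TL.S_UU) (K : ℝ) : ∃ L0 : ℕ, ∀ l0, L0 ≤ l0 → ∀ j, 2 ^ l0 ≤ j →
    0 ≤ uu (1 / 64) j ∧ uu (1 / 64) j ≤ 1 ∧ 100 * K / tht j ^ 110 ≤ uu (1 / 64) j ∧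
    |uu (1 / 64) (j + 1) - uu (1 / 64) j| ≤ 1 / tht j ^ 112 := by
  obtain ⟨h1, h2, h3, h4, h5, -⟩ := hUU (1 / 64) (by norm_num) (by norm_num)
  obtain ⟨L0, hL0⟩ := Sx.large (12800 * |K|)
  refine ⟨L0, fun l0 hl0 j hj => ?_⟩
  have hj0 : j ≠ 0 := by
    have : 0 < 2 ^ l0 := by positivity
    omega
  set l := Nat.log 2 j with hl
  have hlo : l0 ≤ l := (Nat.le_log_iff_pow_le (by norm_num) hj0).2 hj
  have hup : j < 2 ^ (l + 1) := Nat.lt_pow_succ_log_self (by norm_num) j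
  have hθ1 : 1 ≤ tht j := Sx.one_le_tht j
  have hθ0 : 0 < tht j := by linarith
  have hθp : tht j ^ 100 = 2 ^ l := Sx.tht_pow j
  have hu := h2 j
  have hsum := h5 (j + 1)
  have hle1 : uu (1 / 64) j ≤ 1 := by
    have h6 : uu (1 / 64) j ≤ ∑ i ∈ Finset.range (j + 1), uu (1 / 64) i :=
      Finset.single_le_sum (f := fun i => uu (1 / 64) i) (fun i _ => (h2 i).1.le) (Finset.mem_range.2 (by omega))
    linarith
  refine ⟨hu.1.le, hle1, ?_, ?_⟩
  · have h6 := h3 l j hup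
    refine le_trans ?_ h6
    have h7 := hL0 l (hl0.trans hlo)
    have hθl : tht j = qq ^ l := rfl
    rw [← hθl] at h7
    have hww : ww (1 / 64) (l + 1) = 1 / 64 / (2 * tht j ^ 100 * ((l : ℝ) + 2) ^ 2) := by
      unfold ww
      rw [hθp]
      push_cast
      ring
    rw [hww, div_le_div_iff₀ (by positivity) (by positivity)]
    have h8 : |K| * 12800 * ((l : ℝ) + 2) ^ 2 ≤ tht j ^ 10 := by
      have h9 : ((l : ℝ) + 2) ^ 2 ≤ ((l : ℝ) + 3) ^ 2 := by
        have : (0 : ℝ) ≤ l := Nat.cast_nonneg l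
        gcongr
        norm_num
      calc |K| * 12800 * ((l : ℝ) + 2) ^ 2 ≤ |K| * 12800 * ((l : ℝ) + 3) ^ 2 := by gcongr
        _ = 12800 * |K| * ((l : ℝ) + 3) ^ 2 := by ring
        _ ≤ tht j := h7
        _ ≤ tht j ^ 10 := le_self_pow₀ hθ1 (by norm_num)
    have h10 : K ≤ |K| := le_abs_self K
    have h11 : 0 ≤ tht j ^ 100 := by positivity
    have h12 : 0 ≤ ((l : ℝ) + 2) ^ 2 := by positivity
    calc 100 * K * (2 * tht j ^ 100 * ((l : ℝ) + 2) ^ 2) ≤ 100 * |K| * (2 * tht j ^ 100 * ((l : ℝ) + 2) ^ 2) := by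
          gcongr
      _ = 1 / 64 * (tht j ^ 100 * (|K| * 12800 * ((l : ℝ) + 2) ^ 2)) := by ring
      _ ≤ 1 / 64 * (tht j ^ 100 * tht j ^ 10) := by gcongr
      _ = 1 / 64 * tht j ^ 110 := by ring
  · rw [abs_sub_comm, abs_of_nonneg (by linarith [h1 j])]
    have h6 := h4 j (by omega)
    refine h6.trans ?_
    rw [← hl]
    unfold ww
    rw [← hθp]
    rw [div_div, div_le_div_iff₀ (by positivity) (by positivity)]
    have h7 : (1 : ℝ) ≤ ((l : ℝ) + 1) ^ 2 := by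
      have : (0 : ℝ) ≤ l := Nat.cast_nonneg l
      nlinarith
    have h8 : tht j ^ 112 ≤ tht j ^ 200 := pow_le_pow_right₀ hθ1 (by norm_num)
    have h9 : 0 < tht j ^ 200 := by positivity
    calc 1 / 64 * tht j ^ 112 ≤ 1 * (tht j ^ 200 * 1) := by
          nlinarith [show 0 < tht j ^ 112 by positivity]
      _ ≤ 1 * (tht j ^ 200 * ((l : ℝ) + 1) ^ 2) := by gcongr
      _ = 1 * (tht j ^ 100 * ((l : ℝ) + 1) ^ 2 * tht j ^ 100) := by ring

end Pool.Agent.K9h32.HJ.Qm
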