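import Pool.Agent.K9h32.HJ.StmK2
import Pool.Agent.K9h32.HJ.Sepx

/-!
# Leaf SEPK: separation of the tubes
-/

set_option autoImplicit false

open Filter Topology

noncomputable section

namespace Pool.Agent.K9h32.HJ

open Pool.Agent.N980.TL

namespace Sepk

theorem big (A a δ : ℝ) (hδ : 0 < δ) : ∀ᶠ l : ℕ in atTop, A * ((l : ℝ) + 3) ^ a ≤ (2 : ℝ) ^ (δ * (l : ℝ)) := by
  have hl2 : 0 < Real.log 2 := Real.log_pos (by norm_num)
  have hb : 0 < δ * Real.log 2 := by positivity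
  have h := (tendsto_rpow_mul_exp_neg_mul_atTop_nhds_zero a (δ * Real.log 2) hb).comp
    (tendsto_atTop_add_const_right atTop (3 : ℝ) (tendsto_natCast_atTop_atTop (R := ℝ)))
  have hpos : 0 < Real.exp (-(δ * Real.log 2) * 3) / (|A| + 1) := by positivity
  have h2 := (tendsto_order.1 h).2 _ hpos
  filter_upwards [h2] with l hl
  simp only [Function.comp] at hl
  rw [lt_div_iff₀ (by positivity)] at hl
  have e1 : (2 : ℝ) ^ (δ * (l : ℝ)) =
      Real.exp (-(δ * Real.log 2) * 3) * Real.exp (δ * Real.log 2 * ((l : ℝ) + 3)) := by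
    rw [Real.rpow_def_of_pos (by norm_num), ← Real.exp_add]
    congr 1
    ring
  rw [e1]
  have hx : 0 ≤ ((l : ℝ) + 3) ^ a := by positivity
  calc A * ((l : ℝ) + 3) ^ a ≤ (|A| + 1) * ((l : ℝ) + 3) ^ a := by
        gcongr
        exact (le_abs_self A).trans (by linarith)
    _ = (((l : ℝ) + 3) ^ a * Real.exp (-(δ * Real.log 2) * ((l : ℝ) + 3)) * (|A| + 1)) *
        Real.exp (δ * Real.log 2 * ((l : ℝ) + 3)) := by
        have : Real.exp (-(δ * Real.log 2) * ((l : ℝ) + 3)) * Real.exp (δ * Real.log 2 * ((l : ℝ) + 3)) = 1 := by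
          rw [← Real.exp_add]; simp
        linear_combination (-(|A| + 1) * ((l : ℝ) + 3) ^ a) * this
    _ ≤ _ := by gcongr

/-- sums of a sequence with nearly constant steps -/
theorem sum_const {z : ℕ → ℝ} {i : ℕ} {w s : ℝ} (h : ∀ k, i ≤ k → |z (k + 1) - z k - w| ≤ s) :
    ∀ j, i ≤ j → |z j - z i - ((j : ℝ) - i) * w| ≤ ((j : ℝ) - i) * s := by
  intro j hj
  induction j, hj using Nat.le_induction with
  | base => simp
  | succ j hj ih =>
    have h1 := h j hj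
    have e : z (j + 1) - z i - (((j + 1 : ℕ) : ℝ) - i) * w =
        (z j - z i - ((j : ℝ) - i) * w) + (z (j + 1) - z j - w) := by
      push_cast
      ring
    rw [e]
    refine (abs_add_le _ _).trans ?_
    push_cast
    linarith

theorem sc_mono {x : ℝ} (hx : x ≤ 0) {i j : ℕ} (h : i ≤ j) : sc x j ≤ sc x i := by
  unfold sc
  refine Real.rpow_le_rpow_of_exponent_le (by norm_num) ?_
  have : (Nat.log 2 i : ℝ) ≤ Nat.log 2 j := by exact_mod_cast Nat.log_mono_right h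
  nlinarith

theorem sc_pos (x : ℝ) (j : ℕ) : 0 < sc x j := Real.rpow_pos_of_pos (by norm_num) _

theorem main {r : ℕ} {ρ ν tau c1 C : ℝ} {w : Fin r → ℝ} (hρ : 0 < ρ) (hν : 0 < ν) (htau : 0 < tau)
    (hc1 : 0 < c1)
    (hw : ∀ l : ℕ, 1 ≤ l → ∃ i, c1 * (l : ℝ) ^ (-tau) ≤ |Real.sin (Real.pi * (l * w i))|)
    (hC : 1 ≤ C) {l0 : ℕ} (hl0 : 6 ≤ l0)
    (hl1 : ∀ l ≥ l0, (18000 * C) * ((l : ℝ) + 3) ^ (0 : ℝ) ≤ (2 : ℝ) ^ (ρ * (l : ℝ)))
    (hl2 : ∀ l ≥ l0, (1280 * C + 1) * ((l : ℝ) + 3) ^ (2 : ℝ) ≤ (2 : ℝ) ^ (ρ * (l : ℝ)))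
    (hl3 : ∀ l ≥ l0, (3840 * C) * ((l : ℝ) + 3) ^ (2 : ℝ) ≤ (2 : ℝ) ^ (2 * ν * (l : ℝ)))
    (hl4 : ∀ l ≥ l0, (10 * C * (1280 * C) ^ tau / c1 + 1) * ((l : ℝ) + 3) ^ (2 * tau) ≤
      (2 : ℝ) ^ ((ρ - tau * (1 - ρ)) * (l : ℝ)))
    (y : ℕ → ℝ → ℝ) (b : ℕ → ℝ → Fin r → ℝ)
    (h4 : ∀ j, 2 ^ l0 ≤ j → ∀ σ, -1 ≤ σ → σ ≤ 1 →
      |y j σ - y j 0 - σ * uu (1 / 64) j| ≤ uu (1 / 64) j / 100)
    (h5 : ∀ j, 2 ^ l0 ≤ j → |y (j + 1) 0 - y j 0 - uu (1 / 64) j| ≤ uu (1 / 64) j / 100)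
    (h6 : ∀ j, 2 ^ l0 ≤ j → ∀ σ, -1 ≤ σ → σ ≤ 1 → ∀ m, |b j σ m - b j 0 m - σ * w m| ≤ C * sc (-(1 + 2 * ν)) j)
    (h7 : ∀ j, 2 ^ l0 ≤ j → ∀ m, |b (j + 1) 0 m - b j 0 m - w m| ≤ C * sc (-(1 + 2 * ν)) j)
    {i j : ℕ} (hi : 2 ^ l0 ≤ i) (hij : i < j) {σ : ℝ} (hσ1 : -1 ≤ σ) (hσ2 : σ ≤ 1) {k1 : ℤ} {k : Fin r → ℤ}
    (hy : |y j σ - y i σ - k1| ≤ C * (sc (-ρ) i + sc (-ρ) j) + (∑ m ∈ Finset.Ico i j, uu (1 / 64) m) / 100)
    (hb : ∀ m, |b j σ m - b i σ m - k m| ≤ C * (sc (-ρ) i + sc (-ρ) j) +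
        (∑ m ∈ Finset.Ico i j, uu (1 / 64) m) / 100) : False := by
  obtain ⟨u1, u2, u3, u4, u5, -⟩ := uu_all (1 / 64) (by norm_num) (by norm_num)
  set u : ℕ → ℝ := uu (1 / 64) with hu
  obtain ⟨S, hS⟩ : ∃ S, S = ∑ k ∈ Finset.Ico i j, u k := ⟨_, rfl⟩
  obtain ⟨l, hl⟩ : ∃ l, l = Nat.log 2 i := ⟨_, rfl⟩
  have hi0 : i ≠ 0 := by
    have := Nat.one_le_two_pow (n := l0)
    omega
  have hll : l0 ≤ l := by
    rw [hl]
    exact (Nat.le_log_iff_pow_le (by norm_num) hi0).2 hi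
  have q1 := hl1 l hll
  have q2 := hl2 l hll
  have q3 := hl3 l hll
  have q4 := hl4 l hll
  rw [Real.rpow_zero, mul_one] at q1
  have hl30 : (0 : ℝ) < (l : ℝ) + 3 := by positivity
  rw [Real.rpow_two] at q2 q3
  have hC0 : 0 < C := by linarith
  -- the scale
  obtain ⟨X, hX⟩ : ∃ X, X = (2 : ℝ) ^ (ρ * (l : ℝ)) := ⟨_, rfl⟩
  have hX0 : 0 < X := by rw [hX]; positivity
  rw [← hX] at q1 q2
  have hsci : sc (-ρ) i = 1 / X := by
    rw [hX]
    unfold sc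
    rw [← hl, neg_mul, Real.rpow_neg (by norm_num), one_div]
  have hscj : sc (-ρ) j ≤ 1 / X := by
    rw [← hsci]
    exact sc_mono (by linarith) hij.le
  have hscj0 := (sc_pos (-ρ) j).le
  have hsmall : C * (1 / X + 1 / X) ≤ 1 / 9000 := by
    have : C * (1 / X + 1 / X) = 2 * C / X := by ring
    rw [this, div_le_div_iff₀ hX0 (by norm_num)]
    linarith
  -- the slow sequence
  have hhalf : ∀ k, i ≤ k → u k - u (k + 1) ≤ u k / 2 := by
    intro k hk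
    have hk1 : 1 ≤ k := by omega
    obtain ⟨l', hl'⟩ : ∃ l', l' = Nat.log 2 k := ⟨_, rfl⟩
    have e1 := u4 k hk1
    rw [← hl'] at e1
    have hk2 : k < 2 ^ (l' + 1) := by rw [hl']; exact Nat.lt_pow_succ_log_self (by norm_num) k
    have e2 := u3 (l' + 1) (k + 1) (by
      have : 2 ^ (l' + 1 + 1) = 2 * 2 ^ (l' + 1) := by rw [pow_succ]; ring
      have : 1 ≤ 2 ^ (l' + 1) := Nat.one_le_two_pow
      omega)
    have hl6 : 6 ≤ l' := by
      rw [hl']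
      refine (Nat.le_log_iff_pow_le (by norm_num) (by omega)).2 ?_
      exact (Nat.pow_le_pow_right (by norm_num) hl0).trans (hi.trans hk)
    have e3 : ww (1 / 64) l' / 2 ^ l' ≤ ww (1 / 64) (l' + 1 + 1) := by
      unfold ww
      rw [div_div]
      refine div_le_div_of_nonneg_left (by norm_num) (by positivity) ?_
      have h64 : (64 : ℝ) ≤ 2 ^ l' := by
        calc (64 : ℝ) = 2 ^ 6 := by norm_num
          _ ≤ 2 ^ l' := pow_le_pow_right₀ (by norm_num) hl6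
      have hc : (0 : ℝ) ≤ l' := Nat.cast_nonneg l'
      push_cast
      have e4 : ((l' : ℝ) + 1 + 1 + 1) ^ 2 ≤ 9 * ((l' : ℝ) + 1) ^ 2 := by nlinarith
      calc (2 : ℝ) ^ (l' + 1 + 1) * ((l' : ℝ) + 1 + 1 + 1) ^ 2 ≤ 2 ^ (l' + 1 + 1) * (9 * ((l' : ℝ) + 1) ^ 2) := by
            gcongr
        _ = 36 * (2 ^ l' * ((l' : ℝ) + 1) ^ 2) := by ring
        _ ≤ 2 ^ l' * (2 ^ l' * ((l' : ℝ) + 1) ^ 2) := by gcongr; linarith
        _ = 2 ^ l' * ((l' : ℝ) + 1) ^ 2 * 2 ^ l' := by ring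
    linarith
  have hupos : ∀ k, 0 < u k := fun k => (u2 k).1
  have hdiff := Sx.diff_le hhalf j hij.le
  rw [← hS] at hdiff
  have hSpos : u i ≤ S := by
    rw [hS]
    exact Finset.single_le_sum (f := u) (fun k _ => (hupos k).le) (Finset.mem_Ico.2 ⟨le_rfl, hij⟩)
  have hS8 : S ≤ 1 / 8 := by
    have e1 := u5 j
    have e2 : S ≤ ∑ k ∈ Finset.range j, u k := by
      rw [hS]
      refine Finset.sum_le_sum_of_subset_of_nonneg ?_ fun k _ _ => (hupos k).le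
      intro k hk
      rw [Finset.mem_Ico] at hk
      exact Finset.mem_range.2 hk.2
    linarith
  have huj : u j ≤ u i := by
    have hanti : Antitone u := antitone_nat_of_succ_le u1
    exact hanti hij.le
  have hui := hupos i
  have hujp := hupos j
  -- the difference of the slow coordinates
  have hY : 47 / 100 * S ≤ y j σ - y i σ ∧ y j σ - y i σ ≤ 153 / 100 * S := by
    have e1 := Sx.sum_close (z := fun k => y k 0) (u := u) (i := i) (fun k hk => h5 k (hi.trans hk)) j hij.le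
    rw [← hS] at e1
    have e2 := h4 i hi σ hσ1 hσ2
    have e3 := h4 j (hi.trans hij.le) σ hσ1 hσ2
    have e4 : |σ * (u j - u i)| ≤ S / 2 := by
      rw [abs_mul]
      have s1 : |σ| ≤ 1 := abs_le.2 ⟨hσ1, hσ2⟩
      have s2 : |u j - u i| ≤ S / 2 := by
        rw [abs_sub_comm, abs_of_nonneg (by linarith)]
        exact hdiff
      calc |σ| * |u j - u i| ≤ 1 * (S / 2) := by gcongr
        _ = S / 2 := one_mul _
    rw [abs_le] at e1 e2 e3 e4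
    have e5 : σ * (u j - u i) = σ * u j - σ * u i := by ring
    rw [e5] at e4
    constructor
    · linarith [e1.1, e2.2, e3.1, e4.1]
    · linarith [e1.2, e2.1, e3.2, e4.2]
  rw [← hS] at hb hy
  have hR : C * (sc (-ρ) i + sc (-ρ) j) ≤ C * (1 / X + 1 / X) := by
    rw [hsci]
    gcongr
  have hk1 : k1 = 0 := by
    have e := abs_le.1 hy
    have e1 : ((k1 : ℤ) : ℝ) < 1 := by linarith [e.1, hY.2]
    have e2 : (-1 : ℝ) < ((k1 : ℤ) : ℝ) := by linarith [e.2, hY.1]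
    have e3 : k1 < 1 := by exact_mod_cast e1
    have e4 : -1 < k1 := by exact_mod_cast e2
    omega
  have hS1 : 46 / 100 * S ≤ C * (1 / X + 1 / X) := by
    rw [hk1] at hy
    have e := abs_le.1 hy
    push_cast at e
    linarith [e.2, hY.1]
  have hCX : 0 < C / X := by positivity
  have hCX2 : C * (1 / X + 1 / X) = 2 * (C / X) := by ring
  rw [hCX2] at hR hS1 hsmall
  have hS2 : S ≤ 5 * (C / X) := by linarith
  -- lower bounds of `S`
  have hilt : i < 2 ^ (l + 1) := by rw [hl]; exact Nat.lt_pow_succ_log_self (by norm_num) i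
  have hww : ww (1 / 64) (l + 2) = 1 / (2 ^ l * (256 * ((l : ℝ) + 3) ^ 2)) := by
    unfold ww
    rw [pow_add]
    push_cast
    field_simp
    ring
  have hlow : ∀ m : ℕ, i + m ≤ j → i + m ≤ 2 ^ (l + 2) → m * (1 / (2 ^ l * (256 * ((l : ℝ) + 3) ^ 2))) ≤ S := by
    intro m hm1 hm2
    rw [hS, ← hww]
    exact Sx.sum_ge (u := u) hupos (fun k hk => u3 (l + 1) k hk) hm1 hm2
  have h2l : 2 ^ (l + 2) = 2 * 2 ^ (l + 1) := by rw [pow_succ]; ring
  have h2l' : 2 ^ (l + 1) = 2 * 2 ^ l := by rw [pow_succ]; ring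
  have h2lpos : 1 ≤ 2 ^ l := Nat.one_le_two_pow
  have hl3' : (0 : ℝ) < (l + 3 : ℝ) ^ 2 := by positivity
  have h2lR : (0 : ℝ) < 2 ^ l := by positivity
  have hm : ∀ m : ℕ, i + m ≤ j → i + m ≤ 2 ^ (l + 2) → (m : ℝ) * X ≤ 1280 * C * ((l : ℝ) + 3) ^ 2 * 2 ^ l := by
    intro m hm1 hm2
    have e1 := (hlow m hm1 hm2).trans hS2
    rw [mul_one_div, ← mul_div_assoc, div_le_div_iff₀ (by positivity) hX0] at e1
    nlinarith
  obtain ⟨g, hg⟩ : ∃ g, g = j - i := ⟨_, rfl⟩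
  have hjg : j = i + g := by omega
  have hg1 : 1 ≤ g := by omega
  have hg2 : g < 2 ^ l := by
    by_contra hcon
    push Not at hcon
    have e1 := hm (2 ^ l) (by omega) (by omega)
    push_cast at e1
    have e2 : X ≤ 1280 * C * ((l : ℝ) + 3) ^ 2 := by
      have : (2 : ℝ) ^ l * X ≤ 2 ^ l * (1280 * C * ((l : ℝ) + 3) ^ 2) := by linarith
      exact le_of_mul_le_mul_left this h2lR
    nlinarith
  have hgm := hm g (by omega) (by omega)
  -- the size of `g`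
  have hgR : (1 : ℝ) ≤ g := by exact_mod_cast hg1
  have hgX : (g : ℝ) ≤ 1280 * C * ((l : ℝ) + 3) ^ 2 * 2 ^ l / X := by
    rw [le_div_iff₀ hX0]
    exact hgm
  -- the other coordinates
  obtain ⟨T, hT⟩ : ∃ T, T = sc (-(1 + 2 * ν)) i := ⟨_, rfl⟩
  have hT0 : 0 < T := by rw [hT]; exact sc_pos _ _
  have hTj : ∀ k, i ≤ k → sc (-(1 + 2 * ν)) k ≤ T := fun k hk => by
    rw [hT]; exact sc_mono (by linarith) hk
  have hTv : 2 ^ l * (2 : ℝ) ^ (2 * ν * (l : ℝ)) * T = 1 := by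
    rw [hT]
    unfold sc
    rw [← hl, ← Real.rpow_natCast 2 l, ← Real.rpow_add (by norm_num), ← Real.rpow_add (by norm_num)]
    have : (l : ℝ) + 2 * ν * (l : ℝ) + -(1 + 2 * ν) * (l : ℝ) = 0 := by ring
    rw [this, Real.rpow_zero]
  have hTg : 3 * (g : ℝ) * (C * T) ≤ C / X := by
    obtain ⟨Y, hYd⟩ : ∃ Y, Y = (2 : ℝ) ^ (2 * ν * (l : ℝ)) := ⟨_, rfl⟩
    rw [← hYd] at hTv q3
    have e1 : 3 * (g : ℝ) * (C * T) ≤ 3 * (1280 * C * ((l : ℝ) + 3) ^ 2 * 2 ^ l / X) * (C * T) := by gcongr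
    refine e1.trans ?_
    have e2 : 3 * (1280 * C * ((l : ℝ) + 3) ^ 2 * 2 ^ l / X) * (C * T) =
        (3840 * C * ((l : ℝ) + 3) ^ 2) * (2 ^ l * T) * (C / X) := by ring
    rw [e2]
    have e3 : (3840 * C * ((l : ℝ) + 3) ^ 2) * (2 ^ l * T) ≤ Y * (2 ^ l * T) := by gcongr
    have e4 : Y * (2 ^ l * T) = 1 := by linarith
    rw [e4] at e3
    calc _ ≤ 1 * (C / X) := by gcongr
      _ = _ := one_mul _
  have hG : ∀ m, |(g : ℝ) * w m - k m| ≤ 61 / 20 * (C / X) := by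
    intro m
    have e1 := sum_const (z := fun k => b k 0 m) (w := w m) (s := C * T) (i := i)
      (fun k hk => (h7 k (hi.trans hk) m).trans (by have := hTj k hk; gcongr)) j hij.le
    have e0 : ((j : ℕ) : ℝ) - i = g := by rw [hjg]; push_cast; ring
    rw [e0] at e1
    have e2 := (h6 i hi σ hσ1 hσ2 m).trans (b := C * sc (-(1 + 2 * ν)) i) (c := C * T) (by rw [hT])
    have e3 : |b j σ m - b j 0 m - σ * w m| ≤ C * T :=
      (h6 j (hi.trans hij.le) σ hσ1 hσ2 m).trans (by have := hTj j hij.le; gcongr)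
    have e4 := (hb m).trans (add_le_add_left hR (S / 100))
    rw [abs_le] at e1 e2 e3 e4 ⊢
    have hCT : 0 < C * T := by positivity
    have e5 : (g : ℝ) * (C * T) + 2 * (C * T) ≤ 3 * (g : ℝ) * (C * T) := by nlinarith
    constructor
    · linarith [e1.1, e2.2, e3.1, e4.1, e1.2, e2.1, e3.2, e4.2]
    · linarith [e1.1, e2.2, e3.1, e4.1, e1.2, e2.1, e3.2, e4.2]
  obtain ⟨m, hm5⟩ := hw g hg1
  have hsin : |Real.sin (Real.pi * (g * w m))| ≤ 10 * (C / X) := by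
    have e1 : Real.pi * ((g : ℝ) * w m) = Real.pi * ((g : ℝ) * w m - k m) + (k m : ℤ) * Real.pi := by
      ring
    rw [e1, Real.sin_add_int_mul_pi, abs_mul]
    have e2 : |((-1 : ℝ)) ^ (k m)| = 1 := by
      rcases Int.even_or_odd (k m) with h | h
      · rw [h.neg_one_zpow, abs_one]
      · rw [h.neg_one_zpow, abs_neg, abs_one]
    rw [e2, one_mul]
    refine (Real.abs_sin_le_abs (x := _)).trans ?_
    rw [abs_mul, abs_of_pos Real.pi_pos]
    have e3 := hG m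
    have e4 := Real.pi_lt_d2
    have e5 : |(g : ℝ) * w m - k m| ≤ 31 / 10 * (C / X) := by linarith
    calc Real.pi * |(g : ℝ) * w m - k m| ≤ 3.15 * (31 / 10 * (C / X)) := by gcongr
      _ ≤ _ := by linarith
  have hfin := hm5.trans hsin
  -- the final contradiction
  have hg0 : (0 : ℝ) < g := by linarith
  have e1 : c1 ≤ 10 * (C / X) * (g : ℝ) ^ tau := by
    have e2 : (g : ℝ) ^ (-tau) * (g : ℝ) ^ tau = 1 := by
      rw [← Real.rpow_add hg0]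
      simp
    have hgt : 0 < (g : ℝ) ^ tau := Real.rpow_pos_of_pos hg0 _
    calc c1 = c1 * (g : ℝ) ^ (-tau) * (g : ℝ) ^ tau := by rw [mul_assoc, e2, mul_one]
      _ ≤ _ := by gcongr
  have e2 : (g : ℝ) ^ tau ≤ (1280 * C) ^ tau * ((l : ℝ) + 3) ^ (2 * tau) * (2 : ℝ) ^ (tau * (1 - ρ) * (l : ℝ)) := by
    have e3 : 1280 * C * ((l : ℝ) + 3) ^ 2 * 2 ^ l / X =
        1280 * C * ((l : ℝ) + 3) ^ (2 : ℝ) * (2 : ℝ) ^ ((1 - ρ) * (l : ℝ)) := by
      rw [hX, Real.rpow_two, mul_div_assoc]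
      congr 1
      rw [← Real.rpow_natCast 2 l, ← Real.rpow_sub (by norm_num)]
      congr 1
      ring
    rw [e3] at hgX
    refine (Real.rpow_le_rpow hg0.le hgX htau.le).trans (le_of_eq ?_)
    rw [Real.mul_rpow (by positivity) (by positivity), Real.mul_rpow (by positivity) (by positivity),
      ← Real.rpow_mul hl30.le, ← Real.rpow_mul (by norm_num)]
    congr 2
    ring
  obtain ⟨P, hP⟩ : ∃ P, P = (1280 * C) ^ tau := ⟨_, rfl⟩
  obtain ⟨L, hL⟩ : ∃ L, L = ((l : ℝ) + 3) ^ (2 * tau) := ⟨_, rfl⟩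
  have hP0 : 0 < P := by rw [hP]; positivity
  have hL0 : 0 < L := by rw [hL]; positivity
  rw [← hP, ← hL] at e2 q4
  have e3 : (2 : ℝ) ^ ((ρ - tau * (1 - ρ)) * (l : ℝ)) * (2 : ℝ) ^ (tau * (1 - ρ) * (l : ℝ)) = X := by
    rw [hX, ← Real.rpow_add (by norm_num)]
    congr 1
    ring
  obtain ⟨Z, hZ⟩ : ∃ Z, Z = (2 : ℝ) ^ (tau * (1 - ρ) * (l : ℝ)) := ⟨_, rfl⟩
  have hZ0 : 0 < Z := by rw [hZ]; positivity
  rw [← hZ] at e2 e3
  have e4 : c1 ≤ 10 * (C / X) * (P * L * Z) := e1.trans (by gcongr)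
  have e5 : (10 * C * P / c1 + 1) * L * Z ≤ X := by
    rw [← e3]
    gcongr
  have e6 : (10 * C * P / c1) * L * Z < X := by
    have : 0 < L * Z := by positivity
    nlinarith
  have e7 : 10 * (C / X) * (P * L * Z) = c1 * (((10 * C * P / c1) * L * Z) / X) := by
    field_simp
  rw [e7] at e4
  have e8 : ((10 * C * P / c1) * L * Z) / X < 1 := by
    rw [div_lt_one hX0]
    exact e6
  nlinarith

end Sepk

theorem sepk_all : S_SEPK := by
  intro r ρ ν tau c1 w hρ hρ1 hν htau htr hc1 hw C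
  obtain ⟨C', hC'⟩ : ∃ C', C' = max C 1 := ⟨_, rfl⟩
  have hC1 : 1 ≤ C' := by rw [hC']; exact le_max_right _ _
  have hCC : C ≤ C' := by rw [hC']; exact le_max_left _ _
  have b1 := Sepk.big (18000 * C') 0 ρ hρ
  have b2 := Sepk.big (1280 * C' + 1) 2 ρ hρ
  have b3 := Sepk.big (3840 * C') 2 (2 * ν) (by positivity)
  have b4 := Sepk.big (10 * C' * (1280 * C') ^ tau / c1 + 1) (2 * tau) (ρ - tau * (1 - ρ)) (by linarith)
  obtain ⟨L0, hL0⟩ := eventually_atTop.1 (b1.and (b2.and (b3.and b4)))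
  refine ⟨max L0 6, fun l0 hl0 y b h4 h5 h6 h7 i j hi hij σ hσ1 hσ2 k1 k hy hb => ?_⟩
  have hl6 : 6 ≤ l0 := (le_max_right _ _).trans hl0
  have hlL : L0 ≤ l0 := (le_max_left _ _).trans hl0
  refine Sepk.main (C := C') hρ hν htau hc1 hw hC1 hl6 (fun l hl => (hL0 l (hlL.trans hl)).1)
    (fun l hl => (hL0 l (hlL.trans hl)).2.1) (fun l hl => (hL0 l (hlL.trans hl)).2.2.1)
    (fun l hl => (hL0 l (hlL.trans hl)).2.2.2) y b h4 h5
    (fun j hj σ s1 s2 m => (h6 j hj σ s1 s2 m).trans ?_) (fun j hj m => (h7 j hj m).trans ?_) hi hij hσ1 hσ2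
    (hy.trans ?_) (fun m => (hb m).trans ?_)
  · have := Sepk.sc_pos (-(1 + 2 * ν)) j
    gcongr
  · have := Sepk.sc_pos (-(1 + 2 * ν)) j
    gcongr
  · have h1 := Sepk.sc_pos (-ρ) i
    have h2 := Sepk.sc_pos (-ρ) j
    gcongr
  · have h1 := Sepk.sc_pos (-ρ) i
    have h2 := Sepk.sc_pos (-ρ) j
    gcongr

end Pool.Agent.K9h32.HJ
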