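import Pool.Agent.K9h32.HJ.Prep
import Pool.Agent.K9h32.HJ.SepK

/-!
# Preparations for the density theorem in `C^k`
-/

set_option autoImplicit false

open Set Filter Topology
open scoped ContDiff

noncomputable section

namespace Pool.Agent.K9h32.HJ.Qk

open Pool.Agent.N980.TL (E Z Trig S_FN tp th et Cls pathG pathG_hasDerivAt grad_time EulerLagrange Periodic uu ww)
open Pool.Agent.K9h32.HJ

theorem sc_pos (x : ℝ) (j : ℕ) : 0 < sc x j := Real.rpow_pos_of_pos (by norm_num) _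

theorem sc_add (x y : ℝ) (j : ℕ) : sc x j * sc y j = sc (x + y) j := by
  unfold sc
  rw [← Real.rpow_add (by norm_num), add_mul]

theorem sc_pow (x : ℝ) (j m : ℕ) : sc x j ^ m = sc (m * x) j := by
  unfold sc
  rw [← Real.rpow_natCast, ← Real.rpow_mul (by norm_num)]
  congr 1
  ring

theorem sc_inv (x : ℝ) (j : ℕ) : (sc x j)⁻¹ = sc (-x) j := by
  unfold sc
  rw [neg_mul, Real.rpow_neg (by norm_num)]

theorem sc_exp {x y : ℝ} (h : x ≤ y) (j : ℕ) : sc x j ≤ sc y j := by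
  unfold sc
  refine Real.rpow_le_rpow_of_exponent_le (by norm_num) ?_
  have : (0 : ℝ) ≤ Nat.log 2 j := Nat.cast_nonneg _
  nlinarith

theorem sc_zero (j : ℕ) : sc 0 j = 1 := by
  unfold sc
  rw [zero_mul, Real.rpow_zero]

theorem sc_le_one {x : ℝ} (hx : x ≤ 0) (j : ℕ) : sc x j ≤ 1 := by
  rw [← sc_zero j]
  exact sc_exp hx j

theorem one_le_sc {x : ℝ} (hx : 0 ≤ x) (j : ℕ) : 1 ≤ sc x j := by
  rw [← sc_zero j]
  exact sc_exp hx j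

theorem sc_mono' {x : ℝ} (hx : 0 ≤ x) {i j : ℕ} (h : i ≤ j) : sc x i ≤ sc x j := by
  unfold sc
  refine Real.rpow_le_rpow_of_exponent_le (by norm_num) ?_
  have : (Nat.log 2 i : ℝ) ≤ Nat.log 2 j := by exact_mod_cast Nat.log_mono_right h
  nlinarith

theorem log_le {l0 j : ℕ} (h : 2 ^ l0 ≤ j) : l0 ≤ Nat.log 2 j := by
  have : j ≠ 0 := by
    have : 0 < 2 ^ l0 := by positivity
    omega
  exact (Nat.le_log_iff_pow_le (by norm_num) this).2 h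

theorem sc_large {x : ℝ} (hx : 0 < x) (K : ℝ) : ∃ L0 : ℕ, ∀ l0, L0 ≤ l0 → ∀ j, 2 ^ l0 ≤ j → K ≤ sc x j := by
  obtain ⟨L0, hL0⟩ := eventually_atTop.1 (Sepk.big K 0 x hx)
  refine ⟨L0, fun l0 hl0 j hj => ?_⟩
  have h := hL0 (Nat.log 2 j) (hl0.trans (log_le hj))
  rw [Real.rpow_zero, mul_one] at h
  exact h

/-- facts on the slow velocities -/
theorem uu_factsK (hUU : Pool.Agent.N980.TL.S_UU) (K ν : ℝ) (hν : 0 < ν) (hν2 : ν ≤ 1 / 2) :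
    ∃ L0 : ℕ, ∀ l0, L0 ≤ l0 → ∀ j, 2 ^ l0 ≤ j →
    0 ≤ uu (1 / 64) j ∧ uu (1 / 64) j ≤ 1 ∧ 100 * K * sc (-(1 + 2 * ν)) j ≤ uu (1 / 64) j ∧
    |uu (1 / 64) (j + 1) - uu (1 / 64) j| ≤ sc (-(1 + 2 * ν)) j := by
  obtain ⟨h1, h2, h3, h4, h5, -⟩ := hUU (1 / 64) (by norm_num) (by norm_num)
  obtain ⟨L0, hL0⟩ := eventually_atTop.1 (Sepk.big (12800 * |K|) 2 (2 * ν) (by positivity))
  refine ⟨L0, fun l0 hl0 j hj => ?_⟩
  have hj0 : j ≠ 0 := by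
    have : 0 < 2 ^ l0 := by positivity
    omega
  set l := Nat.log 2 j with hl
  have hlo : l0 ≤ l := log_le hj
  have hup : j < 2 ^ (l + 1) := Nat.lt_pow_succ_log_self (by norm_num) j
  have hu := h2 j
  have hsum := h5 (j + 1)
  have hle1 : uu (1 / 64) j ≤ 1 := by
    have h6 : uu (1 / 64) j ≤ ∑ i ∈ Finset.range (j + 1), uu (1 / 64) i :=
      Finset.single_le_sum (f := fun i => uu (1 / 64) i) (fun i _ => (h2 i).1.le) (Finset.mem_range.2 (by omega))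
    linarith
  have hl00 : (0 : ℝ) ≤ l := Nat.cast_nonneg l
  have h2l : (0 : ℝ) < (2 : ℝ) ^ l := by positivity
  have e1 : sc (-(1 + 2 * ν)) j * ((2 : ℝ) ^ (2 * ν * (l : ℝ)) * (2 : ℝ) ^ l) = 1 := by
    unfold sc
    rw [← hl, ← Real.rpow_natCast 2 l, ← Real.rpow_add (by norm_num), ← Real.rpow_add (by norm_num)]
    have : -(1 + 2 * ν) * (l : ℝ) + (2 * ν * (l : ℝ) + (l : ℝ)) = 0 := by ring
    rw [this, Real.rpow_zero]
  have hs0 := sc_pos (-(1 + 2 * ν)) j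
  refine ⟨hu.1.le, hle1, ?_, ?_⟩
  · have h6 := h3 l j hup
    refine le_trans ?_ h6
    have h7 := hL0 l (hl0.trans hlo)
    rw [show (2 : ℝ) = ((2 : ℕ) : ℝ) by norm_num, Real.rpow_natCast] at h7
    push_cast at h7
    have hww : ww (1 / 64) (l + 1) = 1 / 64 / (2 * 2 ^ l * ((l : ℝ) + 2) ^ 2) := by
      unfold ww
      push_cast
      ring
    rw [hww, le_div_iff₀ (by positivity)]
    have h8 : |K| * 12800 * ((l : ℝ) + 2) ^ 2 ≤ (2 : ℝ) ^ (2 * ν * (l : ℝ)) := by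
      have h9 : ((l : ℝ) + 2) ^ 2 ≤ ((l : ℝ) + 3) ^ 2 := by
        gcongr
        norm_num
      calc |K| * 12800 * ((l : ℝ) + 2) ^ 2 ≤ |K| * 12800 * ((l : ℝ) + 3) ^ 2 := by gcongr
        _ = 12800 * |K| * ((l : ℝ) + 3) ^ 2 := by ring
        _ ≤ _ := h7
    have h10 : K ≤ |K| := le_abs_self K
    have h12 : 0 ≤ ((l : ℝ) + 2) ^ 2 := by positivity
    calc 100 * K * sc (-(1 + 2 * ν)) j * (2 * 2 ^ l * ((l : ℝ) + 2) ^ 2) ≤
          100 * |K| * sc (-(1 + 2 * ν)) j * (2 * 2 ^ l * ((l : ℝ) + 2) ^ 2) := by gcongr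
      _ = 1 / 64 * (sc (-(1 + 2 * ν)) j * ((|K| * 12800 * ((l : ℝ) + 2) ^ 2) * 2 ^ l)) := by ring
      _ ≤ 1 / 64 * (sc (-(1 + 2 * ν)) j * ((2 : ℝ) ^ (2 * ν * (l : ℝ)) * 2 ^ l)) := by gcongr
      _ = 1 / 64 := by rw [e1]; ring
  · rw [abs_sub_comm, abs_of_nonneg (by linarith [h1 j])]
    have h6 := h4 j (by omega)
    refine h6.trans ?_
    rw [← hl]
    unfold ww
    rw [div_div, div_le_iff₀ (by positivity)]
    have h7 : (1 : ℝ) ≤ ((l : ℝ) + 1) ^ 2 := by nlinarith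
    have h8 : (2 : ℝ) ^ (2 * ν * (l : ℝ)) ≤ 2 ^ l := by
      rw [← Real.rpow_natCast 2 l]
      refine Real.rpow_le_rpow_of_exponent_le (by norm_num) ?_
      nlinarith
    calc (1 : ℝ) / 64 ≤ 1 * 1 := by norm_num
      _ = (sc (-(1 + 2 * ν)) j * ((2 : ℝ) ^ (2 * ν * (l : ℝ)) * (2 : ℝ) ^ l)) * 1 := by rw [e1]
      _ ≤ (sc (-(1 + 2 * ν)) j * (2 ^ l * (2 : ℝ) ^ l)) * ((l : ℝ) + 1) ^ 2 := by gcongr
      _ = sc (-(1 + 2 * ν)) j * (2 ^ l * ((l : ℝ) + 1) ^ 2 * 2 ^ l) := by ring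

/-- the cone of the nonresonant velocities -/
def InW (r M : ℕ) (W V : ℝ) (v : E (r + 2)) : Prop := ∃ Ω : ℝ, V ≤ Ω ∧ ‖v - Ω • dirM r M‖ ≤ W

theorem InW.conv {r M : ℕ} {W V : ℝ} {v v' : E (r + 2)} (h : InW r M W V v) (h' : InW r M W V v') {τ : ℝ}
    (hτ : τ ∈ Icc (0 : ℝ) 1) : InW r M W V (fun i => v i + τ * (v' i - v i)) := by
  obtain ⟨Ω, h1, h2⟩ := h
  obtain ⟨Ω', h3, h4⟩ := h'
  refine ⟨Ω + τ * (Ω' - Ω), ?_, ?_⟩
  · nlinarith [hτ.1, hτ.2]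
  · have e : (fun i => v i + τ * (v' i - v i)) - (Ω + τ * (Ω' - Ω)) • dirM r M =
        (1 - τ) • (v - Ω • dirM r M) + τ • (v' - Ω' • dirM r M) := by
      funext i
      simp only [Pi.sub_apply, Pi.add_apply, Pi.smul_apply, smul_eq_mul]
      ring
    rw [e]
    refine (norm_add_le _ _).trans ?_
    rw [norm_smul, norm_smul, Real.norm_eq_abs, Real.norm_eq_abs, abs_of_nonneg hτ.1,
      abs_of_nonneg (by linarith [hτ.2] : (0 : ℝ) ≤ 1 - τ)]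
    nlinarith [hτ.1, hτ.2]

theorem InW.vs (hf : S_FN) {r M : ℕ} {W V : ℝ} {v v' : E (r + 2)} (h : InW r M W V v) (h' : InW r M W V v')
    (s : ℝ) : InW r M W V (vs v v' s) := by
  obtain ⟨-, -, -, -, -, -, h01, -⟩ := hf
  exact h.conv h' ⟨(h01 s).1, (h01 s).2⟩

theorem InW.mono {r M : ℕ} {W V V' : ℝ} {v : E (r + 2)} (h : InW r M W V v) (hV : V' ≤ V) : InW r M W V' v := by
  obtain ⟨Ω, h1, h2⟩ := h
  exact ⟨Ω, hV.trans h1, h2⟩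

/-- telescoping of the velocities -/
theorem teleK {n : ℕ} {L : List (Atom n)} {𝓕 : List ((Fin n → ℤ) × ℤ)} {C κ : ℝ} (Vs : ℕ → ℝ)
    (ν : ℕ → E n) {j0 : ℕ}
    (hlip : ∀ (V : ℝ) (v v' : E n), 1 ≤ V →
      (∀ τ ∈ Icc (0 : ℝ) 1, NRs 𝓕 κ V (fun i => v i + τ * (v' i - v i))) → ∀ (x x' : E n) (t : ℝ),
      |ev L x' v' t - ev L x v t| ≤ C / V ^ 2 * ‖x' - x‖ + C / V ^ (2 + 1) * ‖v' - v‖)
    (hV : ∀ k, j0 ≤ k → 1 ≤ Vs k)
    (hcv : ∀ k, j0 ≤ k → ∀ τ ∈ Icc (0 : ℝ) 1, NRs 𝓕 κ (Vs k) (fun i => ν k i + τ * (ν (k + 1) i - ν k i)))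
    {i j : ℕ} (hi : j0 ≤ i) (hij : i ≤ j) (x : E n) (t : ℝ) :
    |ev L x (ν j) t - ev L x (ν i) t| ≤ ∑ k ∈ Finset.Ico i j, C / Vs k ^ 3 * ‖ν (k + 1) - ν k‖ := by
  induction j, hij using Nat.le_induction with
  | base => simp
  | succ j hj ih =>
    rw [Finset.sum_Ico_succ_top hj]
    have hjj : j0 ≤ j := hi.trans hj
    have h1 := hlip (Vs j) (ν j) (ν (j + 1)) (hV j hjj) (hcv j hjj) x x t
    rw [sub_self, norm_zero, mul_zero, zero_add] at h1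
    calc |ev L x (ν (j + 1)) t - ev L x (ν i) t| =
          |(ev L x (ν (j + 1)) t - ev L x (ν j) t) + (ev L x (ν j) t - ev L x (ν i) t)| := by
            congr 1; ring
      _ ≤ |ev L x (ν (j + 1)) t - ev L x (ν j) t| + |ev L x (ν j) t - ev L x (ν i) t| := abs_add_le _ _
      _ ≤ C / Vs j ^ 3 * ‖ν (j + 1) - ν j‖ + ∑ k ∈ Finset.Ico i j, C / Vs k ^ 3 * ‖ν (k + 1) - ν k‖ :=
          add_le_add h1 ih
      _ = _ := add_comm _ _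

/-- the fast velocities -/
theorem om_existsK (ν : ℝ) (j0 : ℕ) : ∃ Ω : ℕ → ℝ, Ω j0 = sc ν j0 ∧
    ∀ j, j0 ≤ j → Ω (j + 1) = Ω j + sc (ν - 1) j := by
  set sq : ℕ → ℝ := fun k => Nat.rec (sc ν j0) (fun k x => x + sc (ν - 1) (j0 + k)) k with hsq
  refine ⟨fun j => sq (j - j0), ?_, fun j hj => ?_⟩
  · show sq (j0 - j0) = _
    rw [Nat.sub_self]
    rfl
  · show sq (j + 1 - j0) = sq (j - j0) + sc (ν - 1) j
    have e : j + 1 - j0 = (j - j0) + 1 := by omega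
    rw [e]
    show sq (j - j0) + sc (ν - 1) (j0 + (j - j0)) = _
    have e2 : j0 + (j - j0) = j := by omega
    rw [e2]

/-- the exponents -/
theorem exponents (k r : ℕ) (hk2 : 2 ≤ k) (hkr : k ≤ r + 1) : ∃ (ρ ν η tau : ℝ) (p : ℕ), 0 < ρ ∧ ρ < 1 ∧ 0 < ν ∧
    ν ≤ 1 / 2 ∧ 0 < η ∧ η = 1 - (k + 1) * ν - (k - 1) * ρ ∧ 0 < tau ∧ 1 < r * tau ∧ tau * (1 - ρ) < ρ ∧
    1 + 2 * ν ≤ p * ν := by
  have hkR : (2 : ℝ) ≤ k := by exact_mod_cast hk2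
  have hkrR : (k : ℝ) ≤ r + 1 := by exact_mod_cast hkr
  have hrR : (1 : ℝ) ≤ r := by linarith
  have h1lt : 1 / ((r : ℝ) + 1) < 1 / ((k : ℝ) - 1) := one_div_lt_one_div_of_lt (by linarith) (by linarith)
  obtain ⟨ρ, hρ⟩ : ∃ ρ : ℝ, ρ = (1 / ((r : ℝ) + 1) + 1 / ((k : ℝ) - 1)) / 2 := ⟨_, rfl⟩
  have hρ1 : 1 / ((r : ℝ) + 1) < ρ := by rw [hρ]; linarith
  have hρ2 : ρ < 1 / ((k : ℝ) - 1) := by rw [hρ]; linarith
  have hρ0 : 0 < ρ := lt_trans (by positivity) hρ1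
  have hρr : 1 < ρ * ((r : ℝ) + 1) := by rwa [div_lt_iff₀ (by positivity)] at hρ1
  have hρk : ρ * ((k : ℝ) - 1) < 1 := by rwa [lt_div_iff₀ (by linarith)] at hρ2
  have hρlt : ρ < 1 := by nlinarith
  obtain ⟨ν, hν⟩ : ∃ ν : ℝ, ν = (1 - ρ * ((k : ℝ) - 1)) / (2 * (k + 2)) := ⟨_, rfl⟩
  have hν' : ν * (2 * (k + 2)) = 1 - ρ * ((k : ℝ) - 1) := by
    rw [hν]; field_simp
  have hν0 : 0 < ν := by
    rw [hν]
    exact div_pos (by linarith) (by positivity)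
  have hρk0 : 0 < ρ * ((k : ℝ) - 1) := mul_pos hρ0 (by linarith)
  have hν2 : ν ≤ 1 / 2 := by nlinarith
  obtain ⟨p, hp⟩ := exists_nat_ge ((1 + 2 * ν) / ν)
  have h1ρ : 0 < 1 - ρ := by linarith
  obtain ⟨tau, htau⟩ : ∃ tau : ℝ, tau = (1 / (r : ℝ) + ρ / (1 - ρ)) / 2 := ⟨_, rfl⟩
  have hlt : 1 / (r : ℝ) < ρ / (1 - ρ) := by
    rw [div_lt_div_iff₀ (by linarith) h1ρ]
    nlinarith
  have ht1 : 1 / (r : ℝ) < tau := by rw [htau]; linarith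
  have ht2 : tau < ρ / (1 - ρ) := by rw [htau]; linarith
  refine ⟨ρ, ν, 1 - (k + 1) * ν - (k - 1) * ρ, tau, p, hρ0, hρlt, hν0, hν2, ?_, rfl, lt_trans (by positivity) ht1,
    ?_, ?_, ?_⟩
  · nlinarith
  · rw [div_lt_iff₀ (by linarith)] at ht1
    linarith
  · rwa [lt_div_iff₀ h1ρ] at ht2
  · rwa [div_le_iff₀ hν0] at hp

end Pool.Agent.K9h32.HJ.Qk
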