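import Pool.Agent.K9h32.HJ.HJD
import Pool.Agent.N980.TL.Eng
import Pool.Agent.Helper27.Har.P_global_ode

/-!
# One step of the path
-/

set_option autoImplicit false

open Set Filter Topology
open scoped ContDiff

noncomputable section

namespace Pool.Agent.K9h32.HJ

open Pool.Agent.N980.TL (E Z Trig S_FN tp th et Cls Fo fn_all)
open Pool.Agent.N980.TL

variable {n N : ℕ}

/-- the velocity parameter during one step -/
def vs (v v' : E n) (s : ℝ) : E n := fun i => v i + tp s * (v' i - v i)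

theorem smooth_cls (m : ℕ) {g : ℝ → ℝ} (hg : ContDiff ℝ ∞ g) : ∃ K : ℝ, 1 ≤ K ∧ ∀ V : ℝ, 1 ≤ V → Cls m V K g := by
  have h1 : ∀ i : ℕ, ∃ K : ℝ, ∀ s ∈ Icc (-1 : ℝ) 2, ‖iteratedDeriv i g s‖ ≤ K := fun i => by
    have hc : Continuous (iteratedDeriv i g) := hg.continuous_iteratedDeriv i (by exact_mod_cast le_top)
    exact isCompact_Icc.exists_bound_of_continuousOn hc.continuousOn
  choose K hK using h1
  refine ⟨1 + ∑ i ∈ Finset.range (m + 1), |K i|, ?_, fun V hV => ⟨hg, fun i hi s hs => ?_⟩⟩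
  · have : 0 ≤ ∑ i ∈ Finset.range (m + 1), |K i| := Finset.sum_nonneg fun i _ => abs_nonneg _
    linarith
  · have h2 := hK i s hs
    rw [Real.norm_eq_abs] at h2
    have h3 : |K i| ≤ ∑ i ∈ Finset.range (m + 1), |K i| :=
      Finset.single_le_sum (f := fun i => |K i|) (fun i _ => abs_nonneg _) (Finset.mem_range.2 (by omega))
    have h4 := le_abs_self (K i)
    have h5 : 1 ≤ V ^ i := one_le_pow₀ hV
    have h6 : |iteratedDeriv i g s| ≤ 1 + ∑ i ∈ Finset.range (m + 1), |K i| := by linarith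
    calc |iteratedDeriv i g s| ≤ (1 + ∑ i ∈ Finset.range (m + 1), |K i|) * 1 := by linarith
      _ ≤ _ := by
        gcongr

theorem vs_deriv (hf : S_FN) (v v' : E n) (s : ℝ) (i : Fin n) :
    HasDerivAt (fun s => vs v v' s i) (et s * (v' i - v i)) s := by
  obtain ⟨-, -, -, -, -, h, -⟩ := hf
  exact ((h s).mul_const (v' i - v i)).const_add (v i)

theorem vs_smooth (hf : S_FN) (v v' : E n) (i : Fin n) : ContDiff ℝ ∞ (fun s => vs v v' s i) := by
  obtain ⟨-, h, -⟩ := hf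
  exact contDiff_const.add (h.mul contDiff_const)

theorem vs_nr (hf : S_FN) {𝓕 : List ((Fin n → ℤ) × ℤ)} {κ V : ℝ} {v v' : E n}
    (h : ∀ τ ∈ Icc (0 : ℝ) 1, NRs 𝓕 κ V (fun i => v i + τ * (v' i - v i))) (s : ℝ) :
    NRs 𝓕 κ V (vs v v' s) := by
  obtain ⟨-, -, -, -, -, -, h01, -⟩ := hf
  exact h (tp s) ⟨(h01 s).1, (h01 s).2⟩

theorem ode_smooth {F : ℝ → E n → E n} (hF : ContDiff ℝ ∞ (fun q : ℝ × E n => F q.1 q.2)) {z : ℝ → E n}
    (hz : ∀ s, HasDerivAt z (F s (z s)) s) : ContDiff ℝ ∞ z := by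
  have hd : deriv z = fun s => F s (z s) := funext fun s => (hz s).deriv
  have hdiff : Differentiable ℝ z := fun s => (hz s).differentiableAt
  have h : ∀ k : ℕ, ContDiff ℝ k z := by
    intro k
    induction k with
    | zero => exact contDiff_zero.2 hdiff.continuous
    | succ k ih =>
      have h1 : ContDiff ℝ k (fun s => F s (z s)) := by
        have h2 : ContDiff ℝ k (fun q : ℝ × E n => F q.1 q.2) := hF.of_le (by exact_mod_cast le_top)
        exact h2.comp (contDiff_id.prodMk ih)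
      have h3 : ContDiff ℝ ((k : WithTop ℕ∞) + 1) z := by
        rw [contDiff_succ_iff_deriv]
        refine ⟨hdiff, fun h => absurd h (by simp), ?_⟩
        rw [hd]; exact h1
      exact_mod_cast h3
  exact contDiff_infty.2 h

/-- the vector field -/
def fld (w : List (Atom n)) (v v' : E n) (s : ℝ) (x : E n) : E n := fun i =>
  vs v v' s i + ev (dx i w) x (vs v v' s) s

theorem fld_lip {w : List (Atom n)} {𝓕 : List ((Fin n → ℤ) × ℤ)} {κ : ℝ} (hκ : 0 < κ) (hF : InF 𝓕 w) :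
    ∃ K : NNReal, ∀ (V : ℝ) (v v' : E n), 1 ≤ V → (∀ s, NRs 𝓕 κ V (vs v v' s)) →
      ∀ s, LipschitzWith K (fld w v v' s) := by
  have h1 := fun i => ev_lip (dx i w) 𝓕 hκ 0 (dx_InF hF i) (fun a _ => Nat.zero_le _)
  choose C hC b using h1
  have hs : 0 ≤ ∑ i, C i := Finset.sum_nonneg fun i _ => hC i
  refine ⟨⟨∑ i, C i, hs⟩, fun V v v' hV hnr s => LipschitzWith.of_dist_le_mul fun x y => ?_⟩
  rw [dist_pi_le_iff (by positivity)]
  intro i
  have h2 := b i V (vs v v' s) (vs v v' s) hV (fun τ _ => by simpa using hnr s) y x s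
  rw [Real.dist_eq]
  have e : fld w v v' s x i - fld w v v' s y i =
      ev (dx i w) x (vs v v' s) s - ev (dx i w) y (vs v v' s) s := by
    simp only [fld]; ring
  rw [e]
  refine h2.trans ?_
  rw [sub_self, norm_zero, mul_zero, add_zero, pow_zero, div_one, dist_eq_norm]
  show C i * ‖x - y‖ ≤ (∑ i, C i) * ‖x - y‖
  gcongr
  exact Finset.single_le_sum (fun i _ => hC i) (Finset.mem_univ i)

theorem fld_smooth (hf : S_FN) {w : List (Atom n)} {𝓕 : List ((Fin n → ℤ) × ℤ)} {κ V : ℝ} (hκ : 0 < κ) (hV : 1 ≤ V)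
    (hF : InF 𝓕 w) {v v' : E n} (hnr : ∀ s, NRs 𝓕 κ V (vs v v' s)) :
    ContDiff ℝ ∞ (fun q : ℝ × E n => fld w v v' q.1 q.2) := by
  have hV0 : 0 < V := by linarith
  rw [contDiff_pi]
  intro i
  have h1 : ContDiff ℝ ∞ (fun q : ℝ × E n => vs v v' q.1) := by
    rw [contDiff_pi]
    exact fun i => (vs_smooth hf v v' i).comp contDiff_fst
  exact ((vs_smooth hf v v' i).comp contDiff_fst).add
    (ev_contDiff (dx i w) (z := fun q : ℝ × E n => q.2) (τ := fun q : ℝ × E n => q.1) contDiff_snd h1 contDiff_fst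
      fun q => (hnr q.1).ne' hκ hV0 (dx_InF hF i))

/-- the solution which starts at `x` -/
theorem sol_exists (hf : S_FN) {w : List (Atom n)} {𝓕 : List ((Fin n → ℤ) × ℤ)} {κ : ℝ} (hκ : 0 < κ)
    (hF : InF 𝓕 w) (V : ℝ) (v v' : E n) (hV : 1 ≤ V) (hnr : ∀ s, NRs 𝓕 κ V (vs v v' s)) (x : E n) :
    ∃ z : ℝ → E n, z 0 = x ∧ ContDiff ℝ ∞ z ∧ ∀ s, HasDerivAt z (fld w v v' s (z s)) s := by
  obtain ⟨K, hK⟩ := fld_lip hκ hF
  have hsm := fld_smooth hf hκ hV hF hnr
  obtain ⟨z, h0, h1⟩ := Haraux.global_ode (fld w v v') K (hK V v v' hV hnr) hsm.continuous x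
  exact ⟨z, h0, ode_smooth hsm h1, h1⟩

theorem ev_const {L : List (Atom n)} (hL : ∀ a ∈ L, a.k = 0 ∧ a.m = 0) (x v : E n) (t : ℝ) :
    ev L x v t = ev L 0 v 0 := by
  unfold ev
  congr 1
  refine List.map_congr_left fun a ha => ?_
  obtain ⟨h1, h2⟩ := hL a ha
  simp [Atom.ev, Atom.ph, h1, h2]

theorem dv_const {L : List (Atom n)} (hL : ∀ a ∈ L, a.k = 0 ∧ a.m = 0) (i : Fin n) :
    ∀ a ∈ dv i L, a.k = 0 ∧ a.m = 0 := by
  intro a ha
  simp only [dv, List.mem_flatMap, List.mem_map] at ha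
  obtain ⟨b, hb, g, hg, h1⟩ := ha
  subst h1
  exact hL b hb

variable {D : Trig n N} {p : ℕ} {w c e : List (Atom n)} {𝓕 : List ((Fin n → ℤ) × ℤ)}

/-- the normalized position -/
def nrm (w : List (Atom n)) (v v' : E n) (z : ℝ → E n) (s : ℝ) : E n := fun i =>
  z s i + ev (dv i w) (z s) (vs v v' s) s

theorem step (hf : S_FN) (S : Sol D p w c e 𝓕) {κ : ℝ} (hκ : 0 < κ) (K0 : ℝ) (hK0 : 0 ≤ K0) :
    ∃ C : ℝ, 1 ≤ C ∧ ∀ (V A : ℝ) (v v' : E n) (z : ℝ → E n), 1 ≤ V → 0 ≤ A → A ≤ 1 → ‖v' - v‖ ≤ A →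
      ‖v‖ ≤ K0 * V → (∀ s, NRs 𝓕 κ V (vs v v' s)) → ContDiff ℝ ∞ z →
      (∀ s, HasDerivAt z (fld w v v' s (z s)) s) →
      (∀ i, ContDiff ℝ ∞ (fun s => z s i)) ∧
      (∀ i, Cls 1 V (C * V) (deriv fun s => z s i)) ∧
      (∀ i, Cls 2 V (C * (A + 1 / V ^ p)) (fun s => Fo D z s i)) ∧
      (∀ i, ∀ s ∈ Icc (-1 : ℝ) 2, |nrm w v v' z s i - nrm w v v' z 0 i -
        s * (v i + ev (dv i c) 0 v 0) - th s * (v' i - v i)| ≤ C * (A / V ^ 3 + 1 / V ^ p)) ∧
      (∀ i s, |deriv (fun s => z s i) s - vs v v' s i| ≤ C / V) := by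
  have hfn := hf
  obtain ⟨hths, htps, hets, -, hth, htp, h01, hth0, -, hkap, -⟩ := hf
  obtain ⟨Ke, hKe1, hKe⟩ := smooth_cls 2 hets
  obtain ⟨Kt, hKt1, hKt⟩ := smooth_cls 2 htps
  -- bounds of the values
  have b1 := fun i => ev_bound (dx i w) 𝓕 hκ 1 (dx_InF S.fw i) (dx_Ord1 S.ow i)
  choose C1 hC1 b1 using b1
  have hC1s : 0 ≤ ∑ i, C1 i := Finset.sum_nonneg fun i _ => hC1 i
  have b2 := fun i => ev_lip (dv i c) 𝓕 hκ 2 (dv_InF S.fc i) (dv_Ord2 c i)
  choose C2 hC2 b2 using b2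
  have hC2s : 0 ≤ ∑ i, C2 i := Finset.sum_nonneg fun i _ => hC2 i
  have b3 := fun i => ev_bound (dv i e) 𝓕 hκ p (dv_InF S.fe i) (fun a ha => (Nat.le_succ p).trans (dv_Ord S.oe i a ha))
  choose C3 hC3 b3 using b3
  have hC3s : 0 ≤ ∑ i, C3 i := Finset.sum_nonneg fun i _ => hC3 i
  have b4 := fun i j => ev_bound (dv j (dv i w)) 𝓕 hκ 3 (dv_InF (dv_InF S.fw i) j) (dv_Ord (dv_Ord2 w i) j)
  choose C4 hC4 b4 using b4
  have hC4s : 0 ≤ ∑ i, ∑ j, C4 i j := Finset.sum_nonneg fun i _ => Finset.sum_nonneg fun j _ => hC4 i j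
  -- constants for the classes
  set K1 : ℝ := K0 + 1 + (∑ i, C1 i) + Ke with hK1d
  have hK10 : 0 ≤ K1 := by positivity
  have d1 := fun i => ev_cls (dx i w) 𝓕 κ K1 hκ hK10 0 1 (dx_InF S.fw i) (dx_Ord1 S.ow i)
  choose C5 hC5 d1 using d1
  have hC5s : 0 ≤ ∑ i, C5 i := Finset.sum_nonneg fun i _ => hC5 i
  set K2 : ℝ := K1 + K0 + Kt + (∑ i, C5 i) with hK2d
  have hK20 : 0 ≤ K2 := by positivity
  have d2 := fun i => ev_cls (dx i e) 𝓕 κ K2 hκ hK20 1 p (dx_InF S.fe i) (dx_Ord S.oe i)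
  choose C6 hC6 d2 using d2
  have hC6s : 0 ≤ ∑ i, C6 i := Finset.sum_nonneg fun i _ => hC6 i
  have d3 := fun i j => ev_cls (dv j (dx i w)) 𝓕 κ K2 hκ hK20 1 0 (dv_InF (dx_InF S.fw i) j)
    (fun a _ => Nat.zero_le _)
  choose C7 hC7 d3 using d3
  have hC7s : 0 ≤ ∑ i, ∑ j, C7 i j := Finset.sum_nonneg fun i _ => Finset.sum_nonneg fun j _ => hC7 i j
  set C : ℝ := 1 + K2 + (∑ i, C1 i) + 2 * ((∑ i, C2 i) + (∑ i, C3 i) + Ke * ∑ i, ∑ j, C4 i j) + Ke +
    (∑ i, C6 i) + 4 * Ke * ∑ i, ∑ j, C7 i j with hCd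
  have hCK2 : K2 ≤ C := by
    have : 0 ≤ (∑ i, C1 i) + 2 * ((∑ i, C2 i) + (∑ i, C3 i) + Ke * ∑ i, ∑ j, C4 i j) + Ke +
      (∑ i, C6 i) + 4 * Ke * ∑ i, ∑ j, C7 i j := by positivity
    linarith
  have hC1' : 1 ≤ C := by
    have : 0 ≤ K2 + (∑ i, C1 i) + 2 * ((∑ i, C2 i) + (∑ i, C3 i) + Ke * ∑ i, ∑ j, C4 i j) + Ke +
      (∑ i, C6 i) + 4 * Ke * ∑ i, ∑ j, C7 i j := by positivity
    linarith
  refine ⟨C, hC1', fun V A v v' z hV hA0 hA1 hvA hv hnr hzs hz => ?_⟩
  have hV0 : 0 < V := by linarith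
  have hzi : ∀ i s, HasDerivAt (fun s => z s i) (vs v v' s i + ev (dx i w) (z s) (vs v v' s) s) s :=
    fun i s => (hasDerivAt_pi.1 (hz s)) i
  have hνi : ∀ i s, HasDerivAt (fun s => vs v v' s i) (et s * (v' i - v i)) s := fun i s =>
    vs_deriv hfn v v' s i
  have hνs : ∀ i, ContDiff ℝ ∞ (fun s => vs v v' s i) := vs_smooth hfn v v'
  have hzsi : ∀ i, ContDiff ℝ ∞ (fun s => z s i) := fun i => (contDiff_apply ℝ ℝ i).comp hzs
  have hdi : ∀ i, |v' i - v i| ≤ A := fun i => by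
    have := norm_le_pi_norm (v' - v) i
    rw [Real.norm_eq_abs] at this
    exact this.trans hvA
  have hvi : ∀ i, |v i| ≤ K0 * V := fun i => by
    have := norm_le_pi_norm v i
    rw [Real.norm_eq_abs] at this
    exact this.trans hv
  have hνb : ∀ s, ‖vs v v' s - v‖ ≤ A := fun s => by
    rw [pi_norm_le_iff_of_nonneg hA0]
    intro i
    show |v i + tp s * (v' i - v i) - v i| ≤ A
    have e : v i + tp s * (v' i - v i) - v i = tp s * (v' i - v i) := by ring
    rw [e, abs_mul, abs_of_nonneg (h01 s).1]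
    exact (mul_le_of_le_one_left (abs_nonneg _) (h01 s).2).trans (hdi i)
  have hzd : ∀ i, (deriv fun s => z s i) = fun s => vs v v' s i + ev (dx i w) (z s) (vs v v' s) s :=
    fun i => funext fun s => (hzi i s).deriv
  have hνd : ∀ i, (deriv fun s => vs v v' s i) = fun s => (v' i - v i) * et s :=
    fun i => funext fun s => by rw [(hνi i s).deriv]; ring
  have hb1 : ∀ i s, |ev (dx i w) (z s) (vs v v' s) s| ≤ (∑ i, C1 i) / V := fun i s => by
    refine (b1 i V (vs v v' s) hV (hnr s) (z s) s).trans ?_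
    rw [pow_one]
    gcongr
    exact Finset.single_le_sum (fun i _ => hC1 i) (Finset.mem_univ i)
  have hνc : ∀ i (m : ℕ), m ≤ 2 → Cls m V (Ke * A) (deriv fun s => vs v v' s i) := fun i m hm => by
    rw [hνd]
    have h1 : Cls m V Ke et := ⟨hets, fun k hk => (hKe V hV).2 k (hk.trans hm)⟩
    refine ClsLeaf.mono hV0.le ?_ (ClsLeaf.cmul (v' i - v i) h1)
    rw [mul_comm]
    have := hdi i
    gcongr
  have hKeA : Ke * A ≤ Ke := by nlinarith
  -- first bootstrap
  have crv0 : Crv 𝓕 κ K1 V 0 z (vs v v') := by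
    refine ⟨hzsi, fun i => cls_zero (ClsLeaf.smooth_deriv (hzsi i)) fun s hs => ?_, hνs, fun i => ?_, hnr⟩
    · rw [hzd]
      have h2 := hb1 i s
      have h3 : |vs v v' s i| ≤ K0 * V + A := by
        have e : vs v v' s i = v i + tp s * (v' i - v i) := rfl
        have h4 := norm_le_pi_norm (vs v v' s - v) i
        rw [Real.norm_eq_abs] at h4
        have h5 : |vs v v' s i - v i| ≤ A := h4.trans (hνb s)
        calc |vs v v' s i| = |v i + (vs v v' s i - v i)| := by ring_nf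
          _ ≤ |v i| + |vs v v' s i - v i| := abs_add_le _ _
          _ ≤ _ := add_le_add (hvi i) h5
      have h4 : (∑ i, C1 i) / V ≤ (∑ i, C1 i) * V :=
        (div_le_self hC1s hV).trans (le_mul_of_one_le_right hC1s hV)
      calc |vs v v' s i + ev (dx i w) (z s) (vs v v' s) s| ≤ |vs v v' s i| +
            |ev (dx i w) (z s) (vs v v' s) s| := abs_add_le _ _
        _ ≤ (K0 * V + A) + (∑ i, C1 i) * V := add_le_add h3 (h2.trans h4)
        _ ≤ K1 * V := by
          rw [hK1d]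
          nlinarith
    · refine ClsLeaf.mono hV0.le ?_ (hνc i 0 (by norm_num))
      refine hKeA.trans ?_
      rw [hK1d]
      have : 0 ≤ K0 + 1 + ∑ i, C1 i := by positivity
      linarith
  have hνtp : ∀ i, Cls 1 V (K0 * V + Kt) (fun s => vs v v' s i) := fun i => by
    have h1 : Cls 1 V Kt tp := ⟨htps, fun k hk => (hKt V hV).2 k (hk.trans (by norm_num))⟩
    have h2 := ClsLeaf.add (ClsLeaf.const 1 V (v i) hV0.le) (ClsLeaf.cmul (v' i - v i) h1)
    have e : (fun s => v i + (v' i - v i) * tp s) = fun s => vs v v' s i := by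
      funext s; simp only [vs]; ring
    rw [e] at h2
    refine ClsLeaf.mono hV0.le (add_le_add (hvi i) ?_) h2
    have := (hdi i).trans hA1
    nlinarith [abs_nonneg (v' i - v i)]
  have crv1 : Crv 𝓕 κ K2 V 1 z (vs v v') := by
    refine ⟨hzsi, fun i => ?_, hνs, fun i => ?_, hnr⟩
    · rw [hzd]
      refine ClsLeaf.mono hV0.le ?_ (ClsLeaf.add (hνtp i) (d1 i V z (vs v v') hV crv0))
      rw [pow_one, hK2d]
      have h1 : C5 i / V ≤ (∑ i, C5 i) * V := by
        refine (div_le_self (hC5 i) hV).trans ?_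
        refine (Finset.single_le_sum (fun i _ => hC5 i) (Finset.mem_univ i)).trans ?_
        exact le_mul_of_one_le_right hC5s hV
      have h2 : Kt ≤ Kt * V := le_mul_of_one_le_right (by linarith) hV
      have h3 : 0 ≤ K1 * V := by positivity
      calc K0 * V + Kt + C5 i / V ≤ K0 * V + Kt * V + (∑ i, C5 i) * V := by linarith
        _ ≤ (K1 + K0 + Kt + ∑ i, C5 i) * V := by linarith
    · refine ClsLeaf.mono hV0.le ?_ (hνc i 1 (by norm_num))
      refine hKeA.trans ?_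
      rw [hK2d, hK1d]
      have : 0 ≤ K0 + Kt + ∑ i, C5 i := by positivity
      have : 0 ≤ K0 + 1 + ∑ i, C1 i := by positivity
      linarith
  have hvne : ∀ s, ∀ f ∈ 𝓕, fac f (vs v v' s) ≠ 0 := fun s f hf => (hnr s).ne hκ hV0 hf
  refine ⟨hzsi, fun i => ?_, fun i => ?_, fun i s hs => ?_, fun i s => ?_⟩
  · exact ClsLeaf.mono hV0.le (by gcongr) (crv1.zc i)
  · -- the force
    have e1 : (fun s => Fo D z s i) = fun s => (v' i - v i) * et s + (ev (dx i e) (z s) (vs v v' s) s +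
        ∑ j, (v' j - v j) * (et s * ev (dv j (dx i w)) (z s) (vs v v' s) s)) := by
      funext s
      have h1 := S.newton (fun i => hνi i s) (hvne s) (fun i => hzi i s) i
      simp only [Fo]
      rw [hzd, h1.deriv]
      have e2 : ∑ j, et s * (v' j - v j) * ev (dv j (dx i w)) (z s) (vs v v' s) s =
          ∑ j, (v' j - v j) * (et s * ev (dv j (dx i w)) (z s) (vs v v' s) s) :=
        Finset.sum_congr rfl fun j _ => by ring
      rw [e2]
      ring
    rw [e1]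
    have k1 := ClsLeaf.cmul (v' i - v i) (hKe V hV)
    have k2 := d2 i V z (vs v v') hV crv1
    have k3 : Cls 2 V (∑ j, |v' j - v j| * (2 ^ 2 * Ke * C7 i j)) (fun s =>
        ∑ j, (v' j - v j) * (et s * ev (dv j (dx i w)) (z s) (vs v v' s) s)) := by
      refine cls_sum _ hV0.le fun j _ => ClsLeaf.cmul _ (ClsLeaf.mul hV0.le (by linarith) (hC7 i j) (hKe V hV) ?_)
      have := d3 i j V z (vs v v') hV crv1
      rwa [pow_zero, div_one] at this
    refine ClsLeaf.mono hV0.le ?_ (ClsLeaf.add k1 (ClsLeaf.add k2 k3))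
    have m1 : |v' i - v i| * Ke ≤ Ke * A := by rw [mul_comm]; have := hdi i; gcongr
    have m2 : C6 i / V ^ p ≤ C * (1 / V ^ p) := by
      rw [mul_one_div]
      gcongr
      have : C6 i ≤ ∑ i, C6 i := Finset.single_le_sum (fun i _ => hC6 i) (Finset.mem_univ i)
      refine this.trans ?_
      have : 0 ≤ 1 + K2 + (∑ i, C1 i) + 2 * ((∑ i, C2 i) + (∑ i, C3 i) + Ke * ∑ i, ∑ j, C4 i j) + Ke +
        4 * Ke * ∑ i, ∑ j, C7 i j := by positivity
      linarith
    have m3 : ∑ j, |v' j - v j| * (2 ^ 2 * Ke * C7 i j) ≤ (4 * Ke * ∑ i, ∑ j, C7 i j) * A := by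
      have : ∀ j ∈ Finset.univ, |v' j - v j| * (2 ^ 2 * Ke * C7 i j) ≤ (4 * Ke * A) * C7 i j := by
        intro j _
        have h1 := hdi j
        have h2 := hC7 i j
        have h3 : 0 ≤ 2 ^ 2 * Ke * C7 i j := by positivity
        calc |v' j - v j| * (2 ^ 2 * Ke * C7 i j) ≤ A * (2 ^ 2 * Ke * C7 i j) := by gcongr
          _ = _ := by ring
      refine (Finset.sum_le_sum this).trans ?_
      rw [← Finset.mul_sum]
      have h4 : ∑ j, C7 i j ≤ ∑ i, ∑ j, C7 i j :=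
        Finset.single_le_sum (f := fun i => ∑ j, C7 i j) (fun i _ => Finset.sum_nonneg fun j _ => hC7 i j)
          (Finset.mem_univ i)
      calc 4 * Ke * A * ∑ j, C7 i j ≤ 4 * Ke * A * ∑ i, ∑ j, C7 i j := by gcongr
        _ = _ := by ring
    have m4 : Ke * A + (4 * Ke * ∑ i, ∑ j, C7 i j) * A ≤ C * A := by
      rw [← add_mul]
      gcongr
      have : 0 ≤ 1 + K2 + (∑ i, C1 i) + 2 * ((∑ i, C2 i) + (∑ i, C3 i) + Ke * ∑ i, ∑ j, C4 i j) +
        ∑ i, C6 i := by positivity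
      linarith
    calc |v' i - v i| * Ke + (C6 i / V ^ p + ∑ j, |v' j - v j| * (2 ^ 2 * Ke * C7 i j)) ≤
          Ke * A + (C * (1 / V ^ p) + (4 * Ke * ∑ i, ∑ j, C7 i j) * A) := by
            exact add_le_add m1 (add_le_add m2 m3)
      _ ≤ C * (A + 1 / V ^ p) := by rw [mul_add]; linarith
  · -- the normalized position
    set B : ℝ := ((∑ i, C2 i) + (∑ i, C3 i) + Ke * ∑ i, ∑ j, C4 i j) * (A / V ^ 3 + 1 / V ^ p) with hB
    have hcc : ∀ a ∈ dv i c, a.k = 0 ∧ a.m = 0 := dv_const S.oc i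
    set h : ℝ → ℝ := fun s => nrm w v v' z s i - s * (v i + ev (dv i c) 0 v 0) - th s * (v' i - v i) with hh
    have hd : ∀ s ∈ Icc (-1 : ℝ) 2, HasDerivWithinAt h (vs v v' s i + ev (dv i c) (z s) (vs v v' s) s +
        (ev (dv i e) (z s) (vs v v' s) s + ∑ j, et s * (v' j - v j) * ev (dv j (dv i w)) (z s) (vs v v' s) s) -
        1 * (v i + ev (dv i c) 0 v 0) - tp s * (v' i - v i)) (Icc (-1 : ℝ) 2) s := by
      intro s _
      have h1 := S.drift (fun i => hνi i s) (hvne s) (fun i => hzi i s) i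
      exact ((h1.fun_sub ((hasDerivAt_id s).mul_const _)).fun_sub ((hth s).mul_const _)).hasDerivWithinAt
    have hbd : ∀ s ∈ Icc (-1 : ℝ) 2, ‖vs v v' s i + ev (dv i c) (z s) (vs v v' s) s +
        (ev (dv i e) (z s) (vs v v' s) s + ∑ j, et s * (v' j - v j) * ev (dv j (dv i w)) (z s) (vs v v' s) s) -
        1 * (v i + ev (dv i c) 0 v 0) - tp s * (v' i - v i)‖ ≤ B := by
      intro s hs
      have e1 : vs v v' s i + ev (dv i c) (z s) (vs v v' s) s +
        (ev (dv i e) (z s) (vs v v' s) s + ∑ j, et s * (v' j - v j) * ev (dv j (dv i w)) (z s) (vs v v' s) s) -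
        1 * (v i + ev (dv i c) 0 v 0) - tp s * (v' i - v i) =
        (ev (dv i c) 0 (vs v v' s) 0 - ev (dv i c) 0 v 0) + (ev (dv i e) (z s) (vs v v' s) s +
          ∑ j, et s * (v' j - v j) * ev (dv j (dv i w)) (z s) (vs v v' s) s) := by
        rw [ev_const hcc (z s)]
        simp only [vs]
        ring
      rw [e1, Real.norm_eq_abs]
      have q1 : |ev (dv i c) 0 (vs v v' s) 0 - ev (dv i c) 0 v 0| ≤ (∑ i, C2 i) * (A / V ^ 3) := by
        have hseg : ∀ τ ∈ Icc (0 : ℝ) 1, NRs 𝓕 κ V (fun i => v i + τ * (vs v v' s i - v i)) := by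
          intro τ hτ
          have hIVT : ∃ s', tp s' = τ * tp s := by
            have hc : Continuous tp := htps.continuous
            have ht0 : tp 0 = 0 := (hth0 0 (by norm_num)).2.1
            have hm : τ * tp s ∈ uIcc (tp 0) (tp s) := by
              rw [ht0, uIcc_of_le (h01 s).1]
              exact ⟨mul_nonneg hτ.1 (h01 s).1, mul_le_of_le_one_left (h01 s).1 hτ.2⟩
            obtain ⟨s', -, hs'⟩ := intermediate_value_uIcc (a := 0) (b := s) hc.continuousOn hm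
            exact ⟨s', hs'⟩
          obtain ⟨s', hs'⟩ := hIVT
          have e2 : (fun i => v i + τ * (vs v v' s i - v i)) = vs v v' s' := by
            funext i
            simp only [vs, hs']
            ring
          rw [e2]
          exact hnr s'
        have h1 := b2 i V v (vs v v' s) hV hseg 0 0 0
        rw [sub_self, norm_zero, mul_zero, zero_add] at h1
        refine h1.trans ?_
        have h2 := hνb s
        have h3 : C2 i ≤ ∑ i, C2 i := Finset.single_le_sum (fun i _ => hC2 i) (Finset.mem_univ i)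
        calc C2 i / V ^ (2 + 1) * ‖vs v v' s - v‖ ≤ (∑ i, C2 i) / V ^ (2 + 1) * A := by gcongr
          _ = _ := by ring
      have q2 : |ev (dv i e) (z s) (vs v v' s) s| ≤ (∑ i, C3 i) * (1 / V ^ p) := by
        refine (b3 i V (vs v v' s) hV (hnr s) (z s) s).trans ?_
        rw [mul_one_div]
        gcongr
        exact Finset.single_le_sum (fun i _ => hC3 i) (Finset.mem_univ i)
      have q3 : |∑ j, et s * (v' j - v j) * ev (dv j (dv i w)) (z s) (vs v v' s) s| ≤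
          (Ke * ∑ i, ∑ j, C4 i j) * (A / V ^ 3) := by
        refine (Finset.abs_sum_le_sum_abs _ _).trans ?_
        have : ∀ j ∈ Finset.univ, |et s * (v' j - v j) * ev (dv j (dv i w)) (z s) (vs v v' s) s| ≤
            (Ke * (A / V ^ 3)) * C4 i j := by
          intro j _
          rw [abs_mul, abs_mul]
          have r1 := cls_at (hKe V hV) hs
          have r2 := hdi j
          have r3 := b4 i j V (vs v v' s) hV (hnr s) (z s) s
          calc |et s| * |v' j - v j| * |ev (dv j (dv i w)) (z s) (vs v v' s) s| ≤ Ke * A * (C4 i j / V ^ 3) := by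
                gcongr
            _ = _ := by ring
        refine (Finset.sum_le_sum this).trans ?_
        rw [← Finset.mul_sum]
        have h4 : ∑ j, C4 i j ≤ ∑ i, ∑ j, C4 i j :=
          Finset.single_le_sum (f := fun i => ∑ j, C4 i j) (fun i _ => Finset.sum_nonneg fun j _ => hC4 i j)
            (Finset.mem_univ i)
        calc Ke * (A / V ^ 3) * ∑ j, C4 i j ≤ Ke * (A / V ^ 3) * ∑ i, ∑ j, C4 i j := by gcongr
          _ = _ := by ring
      have a1 : 0 ≤ A / V ^ 3 := by positivity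
      have a2 : 0 ≤ 1 / V ^ p := by positivity
      calc _ ≤ |ev (dv i c) 0 (vs v v' s) 0 - ev (dv i c) 0 v 0| + (|ev (dv i e) (z s) (vs v v' s) s| +
            |∑ j, et s * (v' j - v j) * ev (dv j (dv i w)) (z s) (vs v v' s) s|) :=
            (abs_add_le _ _).trans (add_le_add le_rfl (abs_add_le _ _))
        _ ≤ (∑ i, C2 i) * (A / V ^ 3) + ((∑ i, C3 i) * (1 / V ^ p) + (Ke * ∑ i, ∑ j, C4 i j) * (A / V ^ 3)) :=
            add_le_add q1 (add_le_add q2 q3)
        _ ≤ B := by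
          rw [hB]
          have t1 : 0 ≤ (∑ i, C2 i) * (1 / V ^ p) := by positivity
          have t2 : 0 ≤ (∑ i, C3 i) * (A / V ^ 3) := by positivity
          have t3 : 0 ≤ (Ke * ∑ i, ∑ j, C4 i j) * (1 / V ^ p) := by positivity
          have t4 : ((∑ i, C2 i) + (∑ i, C3 i) + Ke * ∑ i, ∑ j, C4 i j) * (A / V ^ 3 + 1 / V ^ p) =
            ((∑ i, C2 i) * (A / V ^ 3) + ((∑ i, C3 i) * (1 / V ^ p) + (Ke * ∑ i, ∑ j, C4 i j) * (A / V ^ 3))) +
            ((∑ i, C2 i) * (1 / V ^ p) + (∑ i, C3 i) * (A / V ^ 3) + (Ke * ∑ i, ∑ j, C4 i j) * (1 / V ^ p)) := by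
            ring
          rw [t4]
          linarith
    have h0m : (0 : ℝ) ∈ Icc (-1 : ℝ) 2 := by constructor <;> norm_num
    have hmv := Convex.norm_image_sub_le_of_norm_hasDerivWithin_le hd hbd (convex_Icc _ _) h0m hs
    have th0 : th 0 = 0 := (hth0 0 (by norm_num)).1
    have e3 : h s - h 0 = nrm w v v' z s i - nrm w v v' z 0 i -
        s * (v i + ev (dv i c) 0 v 0) - th s * (v' i - v i) := by
      simp only [hh, th0]; ring
    rw [e3, Real.norm_eq_abs, Real.norm_eq_abs, sub_zero] at hmv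
    have hs2 : |s| ≤ 2 := abs_le.2 ⟨by linarith [hs.1], hs.2⟩
    have hB0 : 0 ≤ B := by
      have a1 : 0 ≤ A / V ^ 3 := by positivity
      have a2 : 0 ≤ 1 / V ^ p := by positivity
      rw [hB]; positivity
    refine hmv.trans ?_
    calc B * |s| ≤ B * 2 := by gcongr
      _ = (2 * ((∑ i, C2 i) + (∑ i, C3 i) + Ke * ∑ i, ∑ j, C4 i j)) * (A / V ^ 3 + 1 / V ^ p) := by rw [hB]; ring
      _ ≤ C * (A / V ^ 3 + 1 / V ^ p) := by
        have a1 : 0 ≤ A / V ^ 3 + 1 / V ^ p := by positivity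
        refine mul_le_mul_of_nonneg_right ?_ a1
        have : 0 ≤ 1 + K2 + (∑ i, C1 i) + Ke + (∑ i, C6 i) + 4 * Ke * ∑ i, ∑ j, C7 i j := by positivity
        linarith
  · rw [hzd]
    simp only [add_sub_cancel_left]
    refine (hb1 i s).trans ?_
    gcongr
    have : 0 ≤ 1 + K2 + 2 * ((∑ i, C2 i) + (∑ i, C3 i) + Ke * ∑ i, ∑ j, C4 i j) + Ke +
      (∑ i, C6 i) + 4 * Ke * ∑ i, ∑ j, C7 i j := by positivity
    linarith

end Pool.Agent.K9h32.HJ
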