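import Pool.Agent.K9h32.HJ.HJDQ
import Pool.Agent.K9h32.HJ.EngF
import Pool.Agent.K9h32.HJ.Path

/-!
# One step of the path, for a general flat metric
-/

set_option autoImplicit false

open Set Filter Topology
open scoped ContDiff

noncomputable section

namespace Pool.Agent.K9h32.HJ.Qm

open Pool.Agent.N980.TL
open Pool.Agent.K9h32.HJ

variable {n N : ℕ}

/-- the sum of the absolute values of the entries -/
def qn (Q : Fin n → Fin n → ℝ) : ℝ := ∑ i, ∑ j, |Q i j|

theorem qn_nonneg (Q : Fin n → Fin n → ℝ) : 0 ≤ qn Q :=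
  Finset.sum_nonneg fun i _ => Finset.sum_nonneg fun j _ => abs_nonneg _

theorem sumQ_le (Q : Fin n → Fin n → ℝ) (i : Fin n) {x : Fin n → ℝ} {X : ℝ} (hX : 0 ≤ X)
    (h : ∀ j, x j ≤ X) : ∑ j, |Q i j| * x j ≤ qn Q * X := by
  have h1 : ∑ j, |Q i j| * x j ≤ (∑ j, |Q i j|) * X := by
    rw [Finset.sum_mul]
    exact Finset.sum_le_sum fun j _ => mul_le_mul_of_nonneg_left (h j) (abs_nonneg _)
  refine h1.trans (mul_le_mul_of_nonneg_right ?_ hX)
  exact Finset.single_le_sum (f := fun i => ∑ j, |Q i j|)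
    (fun i _ => Finset.sum_nonneg fun j _ => abs_nonneg _) (Finset.mem_univ i)

theorem absQ_le (Q : Fin n → Fin n → ℝ) (i : Fin n) {x : Fin n → ℝ} {X : ℝ} (hX : 0 ≤ X)
    (h : ∀ j, |x j| ≤ X) : |∑ j, Q i j * x j| ≤ qn Q * X := by
  refine (Finset.abs_sum_le_sum_abs _ _).trans ?_
  have e : ∀ j ∈ Finset.univ, |Q i j * x j| = |Q i j| * |x j| := fun j _ => abs_mul _ _
  rw [Finset.sum_congr rfl e]
  exact sumQ_le Q i hX h

/-- the vector field -/
def fld (Q : Fin n → Fin n → ℝ) (w : List (Atom n)) (v v' : E n) (s : ℝ) (x : E n) : E n :=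
  vel Q w x (vs v v' s) s

theorem fld_lip (Q : Fin n → Fin n → ℝ) {w : List (Atom n)} {𝓕 : List ((Fin n → ℤ) × ℤ)} {κ : ℝ} (hκ : 0 < κ)
    (hF : InF 𝓕 w) :
    ∃ K : NNReal, ∀ (V : ℝ) (v v' : E n), 1 ≤ V → (∀ s, NRs 𝓕 κ V (vs v v' s)) →
      ∀ s, LipschitzWith K (fld Q w v v' s) := by
  have h1 := fun i => ev_lip (dx i w) 𝓕 hκ 0 (dx_InF hF i) (fun a _ => Nat.zero_le _)
  choose C hC b using h1
  have hs : 0 ≤ ∑ i, C i := Finset.sum_nonneg fun i _ => hC i
  refine ⟨⟨qn Q * ∑ i, C i, mul_nonneg (qn_nonneg Q) hs⟩, fun V v v' hV hnr s =>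
    LipschitzWith.of_dist_le_mul fun x y => ?_⟩
  rw [dist_pi_le_iff (by positivity)]
  intro i
  rw [Real.dist_eq]
  have e : fld Q w v v' s x i - fld Q w v v' s y i =
      ∑ j, Q i j * (ev (dx j w) x (vs v v' s) s - ev (dx j w) y (vs v v' s) s) := by
    simp only [fld, vel, mul_sub, Finset.sum_sub_distrib]; ring
  rw [e]
  show |_| ≤ (qn Q * ∑ i, C i) * dist x y
  rw [mul_assoc]
  refine absQ_le Q i (by positivity) fun j => ?_
  have h2 := b j V (vs v v' s) (vs v v' s) hV (fun τ _ => by simpa using hnr s) y x s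
  refine h2.trans ?_
  rw [sub_self, norm_zero, mul_zero, add_zero, pow_zero, div_one, dist_eq_norm]
  gcongr
  exact Finset.single_le_sum (fun i _ => hC i) (Finset.mem_univ j)

theorem fld_smooth (hf : S_FN) (Q : Fin n → Fin n → ℝ) {w : List (Atom n)} {𝓕 : List ((Fin n → ℤ) × ℤ)} {κ V : ℝ}
    (hκ : 0 < κ) (hV : 1 ≤ V) (hF : InF 𝓕 w) {v v' : E n} (hnr : ∀ s, NRs 𝓕 κ V (vs v v' s)) :
    ContDiff ℝ ∞ (fun q : ℝ × E n => fld Q w v v' q.1 q.2) := by
  have hV0 : 0 < V := by linarith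
  rw [contDiff_pi]
  intro i
  have h1 : ContDiff ℝ ∞ (fun q : ℝ × E n => vs v v' q.1) := by
    rw [contDiff_pi]
    exact fun i => (vs_smooth hf v v' i).comp contDiff_fst
  exact ((vs_smooth hf v v' i).comp contDiff_fst).add
    (ContDiff.sum fun j _ => contDiff_const.mul
      (ev_contDiff (dx j w) (z := fun q : ℝ × E n => q.2) (τ := fun q : ℝ × E n => q.1) contDiff_snd h1 contDiff_fst
        fun q => (hnr q.1).ne' hκ hV0 (dx_InF hF j)))

/-- the solution which starts at `x` -/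
theorem sol_exists (hf : S_FN) (Q : Fin n → Fin n → ℝ) {w : List (Atom n)} {𝓕 : List ((Fin n → ℤ) × ℤ)} {κ : ℝ}
    (hκ : 0 < κ) (hF : InF 𝓕 w) (V : ℝ) (v v' : E n) (hV : 1 ≤ V) (hnr : ∀ s, NRs 𝓕 κ V (vs v v' s)) (x : E n) :
    ∃ z : ℝ → E n, z 0 = x ∧ ContDiff ℝ ∞ z ∧ ∀ s, HasDerivAt z (fld Q w v v' s (z s)) s := by
  obtain ⟨K, hK⟩ := fld_lip Q hκ hF
  have hsm := fld_smooth hf Q hκ hV hF hnr
  obtain ⟨z, h0, h1⟩ := Haraux.global_ode (fld Q w v v') K (hK V v v' hV hnr) hsm.continuous x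
  exact ⟨z, h0, ode_smooth hsm h1, h1⟩

theorem path_exists (hf : S_FN) (Q : Fin n → Fin n → ℝ) {w : List (Atom n)} {𝓕 : List ((Fin n → ℤ) × ℤ)} {κ : ℝ}
    (hκ : 0 < κ) (hF : InF 𝓕 w) {V : ℝ} (hV : 1 ≤ V) (v : ℕ → E n)
    (hnr : ∀ j s, NRs 𝓕 κ V (vs (v j) (v (j + 1)) s)) :
    ∃ G : ℕ → ℝ → E n, (∀ j, ContDiff ℝ ∞ (G j)) ∧
      (∀ j s, HasDerivAt (G j) (fld Q w (v j) (v (j + 1)) s (G j s)) s) ∧
      ∀ j s, 3 / 4 ≤ s → s ≤ 5 / 4 → G j s = G (j + 1) (s - 1) := by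
  have hsol := fun j x => sol_exists hf Q hκ hF V (v j) (v (j + 1)) hV (hnr j) x
  choose sol h0 hs hd using hsol
  set xs : ℕ → E n := fun j => Nat.rec 0 (fun j x => sol j x 1) j with hxs
  have hxs1 : ∀ j, xs (j + 1) = sol j (xs j) 1 := fun j => rfl
  refine ⟨fun j => sol j (xs j), fun j => hs j _, fun j => hd j _, fun j s hs1 hs2 => ?_⟩
  obtain ⟨K, hK⟩ := fld_lip Q hκ hF
  set u : E n := v (j + 1) with hu
  have hus : ∀ s, vs u u s = u := fun s => by
    funext i; simp only [vs]; ring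
  have hnu : ∀ s, NRs 𝓕 κ V (vs u u s) := fun s => by
    rw [hus]
    have := hnr (j + 1) 0
    rwa [vs_low hf _ _ (by norm_num)] at this
  have hLip := hK V u u hV hnu
  have key : EqOn (sol j (xs j)) (fun s => sol (j + 1) (xs (j + 1)) (s - 1)) (Icc (3 / 4) (5 / 4)) := by
    refine ODE_solution_unique_of_mem_Icc (v := fld Q w u u) (s := fun _ => univ) (K := K) (t₀ := 1)
      (fun t _ => (hLip t).lipschitzOnWith) ⟨by norm_num, by norm_num⟩
      ((hs j _).continuous.continuousOn) (fun t ht => ?_) (fun _ _ => trivial)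
      (((hs (j + 1) _).continuous.comp (continuous_id.sub continuous_const)).continuousOn)
      (fun t ht => ?_) (fun _ _ => trivial) ?_
    · have h1 := hd j (xs j) t
      have e : fld Q w (v j) (v (j + 1)) t (sol j (xs j) t) = fld Q w u u t (sol j (xs j) t) := by
        simp only [fld, vs_high hf (v j) (v (j + 1)) ht.1.le, hus]
        rfl
      rw [e] at h1
      exact h1
    · have h1 := (hd (j + 1) (xs (j + 1)) (t - 1)).comp_sub_const t 1
      have e : fld Q w (v (j + 1)) (v (j + 1 + 1)) (t - 1) (sol (j + 1) (xs (j + 1)) (t - 1)) =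
          fld Q w u u t (sol (j + 1) (xs (j + 1)) (t - 1)) := by
        funext i
        simp only [fld, vel, vs_low hf (v (j + 1)) (v (j + 1 + 1)) (by linarith [ht.2] : t - 1 ≤ 1 / 4), hus]
        have h2 := fun i => ev_time (dx i w) (sol (j + 1) (xs (j + 1)) (t - 1)) (v (j + 1)) (t - 1) 1
        have h3 : t - 1 + ((1 : ℤ) : ℝ) = t := by push_cast; ring
        simp only [h3] at h2
        simp only [← h2]
        rfl
      rw [e] at h1
      exact h1
    · show sol j (xs j) 1 = sol (j + 1) (xs (j + 1)) (1 - 1)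
      rw [sub_self, h0, hxs1]
  exact key ⟨hs1, hs2⟩

/-- the normalized position -/
def nrm (Q : Fin n → Fin n → ℝ) (w : List (Atom n)) (v v' : E n) (z : ℝ → E n) (s : ℝ) : E n := fun i =>
  z s i + ∑ j, Q i j * ev (dv j w) (z s) (vs v v' s) s

theorem nrm_glue (hf : S_FN) (Q : Fin n → Fin n → ℝ) {w : List (Atom n)} (v0 v1 v2 : E n) {g0 g1 : ℝ → E n}
    (h : g0 1 = g1 0) : nrm Q w v1 v2 g1 0 = nrm Q w v0 v1 g0 1 := by
  funext i
  simp only [nrm]
  rw [vs_low hf v1 v2 (by norm_num), vs_high hf v0 v1 (by norm_num), h]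
  have h2 := fun i => ev_time (dv i w) (g1 0) v1 0 1
  have h3 : (0 : ℝ) + ((1 : ℤ) : ℝ) = 1 := by push_cast; ring
  simp only [h3] at h2
  simp only [h2]

/-- the force needed for the path `z` in the potential `D` -/
def FB (B : Fin n → Fin n → ℝ) (D : Trig n N) (z : ℝ → E n) (s : ℝ) : E n := fun i =>
  (∑ j, B i j * deriv (deriv fun s => z s j) s) - D.grad (z s) s i

variable {D : Trig n N} {Q B : Fin n → Fin n → ℝ} {p : ℕ} {w c e : List (Atom n)} {𝓕 : List ((Fin n → ℤ) × ℤ)}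

theorem step (hf : S_FN) (S : SolQ D Q p w c e 𝓕) (hBQ : ∀ i k, ∑ j, B i j * Q j k = if i = k then 1 else 0)
    {κ : ℝ} (hκ : 0 < κ) (K0 : ℝ) (hK0 : 0 ≤ K0) :
    ∃ C : ℝ, 1 ≤ C ∧ ∀ (V A : ℝ) (v v' : E n) (z : ℝ → E n), 1 ≤ V → 0 ≤ A → A ≤ 1 → ‖v' - v‖ ≤ A →
      ‖v‖ ≤ K0 * V → (∀ s, NRs 𝓕 κ V (vs v v' s)) → ContDiff ℝ ∞ z →
      (∀ s, HasDerivAt z (fld Q w v v' s (z s)) s) →
      (∀ i, ContDiff ℝ ∞ (fun s => z s i)) ∧
      (∀ i, Cls 1 V (C * V) (deriv fun s => z s i)) ∧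
      (∀ i, Cls 2 V (C * (A + 1 / V ^ p)) (fun s => FB B D z s i)) ∧
      (∀ i, ∀ s ∈ Icc (-1 : ℝ) 2, |nrm Q w v v' z s i - nrm Q w v v' z 0 i -
        s * (v i + ∑ j, Q i j * ev (dv j c) 0 v 0) - th s * (v' i - v i)| ≤ C * (A / V ^ 3 + 1 / V ^ p)) ∧
      (∀ i s, |deriv (fun s => z s i) s - vs v v' s i| ≤ C / V) := by
  have hfn := hf
  obtain ⟨hths, htps, hets, -, hth, htp, h01, hth0, -, hkap, -⟩ := hf
  obtain ⟨Ke, hKe1, hKe⟩ := smooth_cls 2 hets
  obtain ⟨Kt, hKt1, hKt⟩ := smooth_cls 2 htps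
  have hq0 : 0 ≤ qn Q := qn_nonneg Q
  have hb0 : 0 ≤ qn B := qn_nonneg B
  -- bounds of the values
  have b1 := fun i => ev_bound (dx i w) 𝓕 hκ 1 (dx_InF S.fw i) (dx_Ord1 S.ow i)
  choose C1 hC1 b1 using b1
  have hC1s : 0 ≤ ∑ i, C1 i := Finset.sum_nonneg fun i _ => hC1 i
  have b2 := fun i => ev_lip (dv i c) 𝓕 hκ 2 (dv_InF S.fc i) (dv_Ord2 c i)
  choose C2 hC2 b2 using b2
  have hC2s : 0 ≤ ∑ i, C2 i := Finset.sum_nonneg fun i _ => hC2 i
  have b3 := fun i => ev_bound (dv i e) 𝓕 hκ p (dv_InF S.fe i) (fun a ha => (Nat.le_succ p).trans (dv_Ord S.oe i a ha))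
  choose C3 hC3 b3 using b3
  have hC3s : 0 ≤ ∑ i, C3 i := Finset.sum_nonneg fun i _ => hC3 i
  have b4 := fun i j => ev_bound (dv j (dv i w)) 𝓕 hκ 3 (dv_InF (dv_InF S.fw i) j) (dv_Ord (dv_Ord2 w i) j)
  choose C4 hC4 b4 using b4
  have hC4s : 0 ≤ ∑ i, ∑ j, C4 i j := Finset.sum_nonneg fun i _ => Finset.sum_nonneg fun j _ => hC4 i j
  -- constants for the classes
  obtain ⟨K1, hK1d⟩ : ∃ K1, K1 = K0 + 1 + qn Q * (∑ i, C1 i) + Ke := ⟨_, rfl⟩
  have hK10 : 0 ≤ K1 := by rw [hK1d]; positivity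
  have d1 := fun i => ev_cls (dx i w) 𝓕 κ K1 hκ hK10 0 1 (dx_InF S.fw i) (dx_Ord1 S.ow i)
  choose C5 hC5 d1 using d1
  have hC5s : 0 ≤ ∑ i, C5 i := Finset.sum_nonneg fun i _ => hC5 i
  obtain ⟨K2, hK2d⟩ : ∃ K2, K2 = K1 + K0 + Kt + qn Q * (∑ i, C5 i) := ⟨_, rfl⟩
  have hK20 : 0 ≤ K2 := by rw [hK2d]; positivity
  have d2 := fun i => ev_cls (dx i e) 𝓕 κ K2 hκ hK20 1 p (dx_InF S.fe i) (dx_Ord S.oe i)
  choose C6 hC6 d2 using d2
  have hC6s : 0 ≤ ∑ i, C6 i := Finset.sum_nonneg fun i _ => hC6 i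
  have d3 := fun i j => ev_cls (dv j (dx i w)) 𝓕 κ K2 hκ hK20 1 0 (dv_InF (dx_InF S.fw i) j)
    (fun a _ => Nat.zero_le _)
  choose C7 hC7 d3 using d3
  have hC7s : 0 ≤ ∑ i, ∑ j, C7 i j := Finset.sum_nonneg fun i _ => Finset.sum_nonneg fun j _ => hC7 i j
  -- the constants
  obtain ⟨S1, hS1⟩ : ∃ S1, S1 = ∑ i, C1 i := ⟨_, rfl⟩
  obtain ⟨S2, hS2⟩ : ∃ S2, S2 = ∑ i, C2 i := ⟨_, rfl⟩
  obtain ⟨S3, hS3⟩ : ∃ S3, S3 = ∑ i, C3 i := ⟨_, rfl⟩
  obtain ⟨S4, hS4⟩ : ∃ S4, S4 = ∑ i, ∑ j, C4 i j := ⟨_, rfl⟩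
  obtain ⟨S5, hS5⟩ : ∃ S5, S5 = ∑ i, C5 i := ⟨_, rfl⟩
  obtain ⟨S6, hS6⟩ : ∃ S6, S6 = ∑ i, C6 i := ⟨_, rfl⟩
  obtain ⟨S7, hS7⟩ : ∃ S7, S7 = ∑ i, ∑ j, C7 i j := ⟨_, rfl⟩
  rw [← hS1] at hC1s hK1d
  rw [← hS2] at hC2s
  rw [← hS3] at hC3s
  rw [← hS4] at hC4s
  rw [← hS5] at hC5s hK2d
  rw [← hS6] at hC6s
  rw [← hS7] at hC7s
  have hl1 : ∀ i, C1 i ≤ S1 := fun i => by
    rw [hS1]; exact Finset.single_le_sum (fun i _ => hC1 i) (Finset.mem_univ i)
  have hl2 : ∀ i, C2 i ≤ S2 := fun i => by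
    rw [hS2]; exact Finset.single_le_sum (fun i _ => hC2 i) (Finset.mem_univ i)
  have hl3 : ∀ i, C3 i ≤ S3 := fun i => by
    rw [hS3]; exact Finset.single_le_sum (fun i _ => hC3 i) (Finset.mem_univ i)
  have hl4 : ∀ i, ∑ j, C4 i j ≤ S4 := fun i => by
    rw [hS4]; exact Finset.single_le_sum (f := fun i => ∑ j, C4 i j)
      (fun i _ => Finset.sum_nonneg fun j _ => hC4 i j) (Finset.mem_univ i)
  have hl5 : ∀ i, C5 i ≤ S5 := fun i => by
    rw [hS5]; exact Finset.single_le_sum (fun i _ => hC5 i) (Finset.mem_univ i)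
  have hl6 : ∀ i, C6 i ≤ S6 := fun i => by
    rw [hS6]; exact Finset.single_le_sum (fun i _ => hC6 i) (Finset.mem_univ i)
  have hl7 : ∀ i, ∑ j, C7 i j ≤ S7 := fun i => by
    rw [hS7]; exact Finset.single_le_sum (f := fun i => ∑ j, C7 i j)
      (fun i _ => Finset.sum_nonneg fun j _ => hC7 i j) (Finset.mem_univ i)
  obtain ⟨C, hCd⟩ : ∃ C, C = 1 + K2 + qn Q * S1 + 2 * (qn Q * (S2 + S3 + Ke * S4)) + qn B * Ke +
    S6 + 4 * Ke * S7 := ⟨_, rfl⟩
  have hCK2 : K2 ≤ C := by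
    have : 0 ≤ 1 + qn Q * S1 + 2 * (qn Q * (S2 + S3 + Ke * S4)) + qn B * Ke + S6 + 4 * Ke * S7 := by positivity
    linarith
  have hC1' : 1 ≤ C := by
    have : 0 ≤ K2 + qn Q * S1 + 2 * (qn Q * (S2 + S3 + Ke * S4)) + qn B * Ke + S6 + 4 * Ke * S7 := by positivity
    linarith
  refine ⟨C, hC1', fun V A v v' z hV hA0 hA1 hvA hv hnr hzs hz => ?_⟩
  have hV0 : 0 < V := by linarith
  have hzi : ∀ i s, HasDerivAt (fun s => z s i) (vel Q w (z s) (vs v v' s) s i) s :=
    fun i s => (hasDerivAt_pi.1 (hz s)) i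
  have hνi : ∀ i s, HasDerivAt (fun s => vs v v' s i) (et s * (v' i - v i)) s := fun i s =>
    vs_deriv hfn v v' s i
  have hνs : ∀ i, ContDiff ℝ ∞ (fun s => vs v v' s i) := vs_smooth hfn v v'
  have hzsi : ∀ i, ContDiff ℝ ∞ (fun s => z s i) := fun i => (contDiff_apply ℝ ℝ i).comp hzs
  have hdi : ∀ i, |v' i - v i| ≤ A := fun i => by
    have := norm_le_pi_norm (v' - v) i
    rw [Real.norm_eq_abs] at this
    exact this.trans hvA
  have hvi : ∀ i, |v i| ≤ K0 * V := fun i => by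
    have := norm_le_pi_norm v i
    rw [Real.norm_eq_abs] at this
    exact this.trans hv
  have hνb : ∀ s, ‖vs v v' s - v‖ ≤ A := fun s => by
    rw [pi_norm_le_iff_of_nonneg hA0]
    intro i
    show |v i + tp s * (v' i - v i) - v i| ≤ A
    have e : v i + tp s * (v' i - v i) - v i = tp s * (v' i - v i) := by ring
    rw [e, abs_mul, abs_of_nonneg (h01 s).1]
    exact (mul_le_of_le_one_left (abs_nonneg _) (h01 s).2).trans (hdi i)
  have hzd : ∀ i, (deriv fun s => z s i) = fun s => vel Q w (z s) (vs v v' s) s i :=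
    fun i => funext fun s => (hzi i s).deriv
  have hνd : ∀ i, (deriv fun s => vs v v' s i) = fun s => (v' i - v i) * et s :=
    fun i => funext fun s => by rw [(hνi i s).deriv]; ring
  have hb1 : ∀ i s, |∑ j, Q i j * ev (dx j w) (z s) (vs v v' s) s| ≤ qn Q * (S1 / V) := fun i s => by
    refine absQ_le Q i (by positivity) fun j => ?_
    refine (b1 j V (vs v v' s) hV (hnr s) (z s) s).trans ?_
    rw [pow_one]
    have := hl1 j
    gcongr
  have hνc : ∀ i (m : ℕ), m ≤ 2 → Cls m V (Ke * A) (deriv fun s => vs v v' s i) := fun i m hm => by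
    rw [hνd]
    have h1 : Cls m V Ke et := ⟨hets, fun k hk => (hKe V hV).2 k (hk.trans hm)⟩
    refine ClsLeaf.mono hV0.le ?_ (ClsLeaf.cmul (v' i - v i) h1)
    rw [mul_comm]
    have := hdi i
    gcongr
  have hKeA : Ke * A ≤ Ke := by nlinarith
  -- first bootstrap
  have crv0 : Crv 𝓕 κ K1 V 0 z (vs v v') := by
    refine ⟨hzsi, fun i => cls_zero (ClsLeaf.smooth_deriv (hzsi i)) fun s hs => ?_, hνs, fun i => ?_, hnr⟩
    · rw [hzd]
      have h2 := hb1 i s
      have h3 : |vs v v' s i| ≤ K0 * V + A := by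
        have h4 := norm_le_pi_norm (vs v v' s - v) i
        rw [Real.norm_eq_abs] at h4
        have h5 : |vs v v' s i - v i| ≤ A := h4.trans (hνb s)
        calc |vs v v' s i| = |v i + (vs v v' s i - v i)| := by ring_nf
          _ ≤ |v i| + |vs v v' s i - v i| := abs_add_le _ _
          _ ≤ _ := add_le_add (hvi i) h5
      have h4 : qn Q * (S1 / V) ≤ qn Q * S1 * V := by
        have h5 : S1 / V ≤ S1 * V := (div_le_self hC1s hV).trans (le_mul_of_one_le_right hC1s hV)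
        calc qn Q * (S1 / V) ≤ qn Q * (S1 * V) := by gcongr
          _ = _ := by ring
      have h6 : 0 ≤ Ke * V := by positivity
      calc |vel Q w (z s) (vs v v' s) s i| ≤ |vs v v' s i| +
            |∑ j, Q i j * ev (dx j w) (z s) (vs v v' s) s| := abs_add_le _ _
        _ ≤ (K0 * V + A) + qn Q * S1 * V := add_le_add h3 (h2.trans h4)
        _ ≤ K1 * V := by
          rw [hK1d]
          linarith
    · refine ClsLeaf.mono hV0.le ?_ (hνc i 0 (by norm_num))
      refine hKeA.trans ?_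
      rw [hK1d]
      have : 0 ≤ K0 + 1 + qn Q * S1 := by positivity
      linarith
  have hνtp : ∀ i, Cls 1 V (K0 * V + Kt) (fun s => vs v v' s i) := fun i => by
    have h1 : Cls 1 V Kt tp := ⟨htps, fun k hk => (hKt V hV).2 k (hk.trans (by norm_num))⟩
    have h2 := ClsLeaf.add (ClsLeaf.const 1 V (v i) hV0.le) (ClsLeaf.cmul (v' i - v i) h1)
    have e : (fun s => v i + (v' i - v i) * tp s) = fun s => vs v v' s i := by
      funext s; simp only [vs]; ring
    rw [e] at h2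
    refine ClsLeaf.mono hV0.le (add_le_add (hvi i) ?_) h2
    have := (hdi i).trans hA1
    nlinarith [abs_nonneg (v' i - v i)]
  have crv1 : Crv 𝓕 κ K2 V 1 z (vs v v') := by
    refine ⟨hzsi, fun i => ?_, hνs, fun i => ?_, hnr⟩
    · rw [hzd]
      have k1 : Cls 1 V (∑ j, |Q i j| * (C5 j / V ^ 1)) (fun s => ∑ j, Q i j * ev (dx j w) (z s) (vs v v' s) s) :=
        cls_sum _ hV0.le fun j _ => ClsLeaf.cmul _ (d1 j V z (vs v v') hV crv0)
      refine ClsLeaf.mono hV0.le ?_ (ClsLeaf.add (hνtp i) k1)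
      have h1 : ∑ j, |Q i j| * (C5 j / V ^ 1) ≤ qn Q * S5 * V := by
        have h2 : ∀ j, C5 j / V ^ 1 ≤ S5 * V := fun j => by
          rw [pow_one]
          exact ((div_le_self (hC5 j) hV).trans (hl5 j)).trans (le_mul_of_one_le_right hC5s hV)
        calc _ ≤ qn Q * (S5 * V) := sumQ_le Q i (by positivity) h2
          _ = _ := by ring
      have h2 : Kt ≤ Kt * V := le_mul_of_one_le_right (by linarith) hV
      have h3 : 0 ≤ K1 * V := by positivity
      calc K0 * V + Kt + ∑ j, |Q i j| * (C5 j / V ^ 1) ≤ K0 * V + Kt * V + qn Q * S5 * V := by linarith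
        _ ≤ (K1 + K0 + Kt + qn Q * S5) * V := by linarith
        _ = K2 * V := by rw [hK2d]
    · refine ClsLeaf.mono hV0.le ?_ (hνc i 1 (by norm_num))
      refine hKeA.trans ?_
      rw [hK2d, hK1d]
      have : 0 ≤ K0 + Kt + qn Q * S5 := by positivity
      have : 0 ≤ K0 + 1 + qn Q * S1 := by positivity
      linarith
  have hvne : ∀ s, ∀ f ∈ 𝓕, fac f (vs v v' s) ≠ 0 := fun s f hf => (hnr s).ne hκ hV0 hf
  refine ⟨hzsi, fun i => ?_, fun i => ?_, fun i s hs => ?_, fun i s => ?_⟩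
  · exact ClsLeaf.mono hV0.le (by gcongr) (crv1.zc i)
  · -- the force
    have e1 : (fun s => FB B D z s i) = fun s => (∑ j, (B i j * (v' j - v j)) * et s) +
        (ev (dx i e) (z s) (vs v v' s) s +
        ∑ j, (v' j - v j) * (et s * ev (dv j (dx i w)) (z s) (vs v v' s) s)) := by
      funext s
      have h1 := fun j => S.acc (fun i => hνi i s) (hvne s) (fun i => hzi i s) j
      simp only [FB]
      have e0 : ∀ j, deriv (deriv fun s => z s j) s = et s * (v' j - v j) + ∑ k, Q j k * (D.grad (z s) s k +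
          (ev (dx k e) (z s) (vs v v' s) s + ∑ l, et s * (v' l - v l) * ev (dv l (dx k w)) (z s) (vs v v' s) s)) :=
        fun j => by rw [hzd, (h1 j).deriv]
      simp only [e0, mul_add, Finset.sum_add_distrib]
      have e3 : ∀ x : Fin n → ℝ, ∑ j, B i j * ∑ k, Q j k * x k = x i := by
        intro x
        have : ∀ j, B i j * ∑ k, Q j k * x k = ∑ k, (B i j * Q j k) * x k := fun j => by
          rw [Finset.mul_sum]; exact Finset.sum_congr rfl fun k _ => by ring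
        rw [Finset.sum_congr rfl fun j _ => this j, Finset.sum_comm]
        have e4 : ∀ k, ∑ j, B i j * Q j k * x k = (if i = k then 1 else 0) * x k := fun k => by
          rw [← Finset.sum_mul, hBQ]
        rw [Finset.sum_congr rfl fun k _ => e4 k]
        simp
      rw [e3, e3, e3]
      have e2 : ∑ j, et s * (v' j - v j) * ev (dv j (dx i w)) (z s) (vs v v' s) s =
          ∑ j, (v' j - v j) * (et s * ev (dv j (dx i w)) (z s) (vs v v' s) s) :=
        Finset.sum_congr rfl fun j _ => by ring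
      rw [e2]
      have e5 : ∑ j, B i j * (et s * (v' j - v j)) = ∑ j, (B i j * (v' j - v j)) * et s :=
        Finset.sum_congr rfl fun j _ => by ring
      rw [e5]
      ring
    rw [e1]
    have k1 : Cls 2 V (∑ j, |B i j * (v' j - v j)| * Ke) (fun s => ∑ j, (B i j * (v' j - v j)) * et s) :=
      cls_sum _ hV0.le fun j _ => ClsLeaf.cmul _ (hKe V hV)
    have k2 := d2 i V z (vs v v') hV crv1
    have k3 : Cls 2 V (∑ j, |v' j - v j| * (2 ^ 2 * Ke * C7 i j)) (fun s =>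
        ∑ j, (v' j - v j) * (et s * ev (dv j (dx i w)) (z s) (vs v v' s) s)) := by
      refine cls_sum _ hV0.le fun j _ => ClsLeaf.cmul _ (ClsLeaf.mul hV0.le (by linarith) (hC7 i j) (hKe V hV) ?_)
      have := d3 i j V z (vs v v') hV crv1
      rwa [pow_zero, div_one] at this
    refine ClsLeaf.mono hV0.le ?_ (ClsLeaf.add k1 (ClsLeaf.add k2 k3))
    have m1 : ∑ j, |B i j * (v' j - v j)| * Ke ≤ (qn B * Ke) * A := by
      have e2 : ∀ j ∈ Finset.univ, |B i j * (v' j - v j)| * Ke = |B i j| * (|v' j - v j| * Ke) := fun j _ => by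
        rw [abs_mul]; ring
      rw [Finset.sum_congr rfl e2]
      calc _ ≤ qn B * (A * Ke) := sumQ_le B i (by positivity) fun j =>
            mul_le_mul_of_nonneg_right (hdi j) (by linarith)
        _ = _ := by ring
    have m2 : C6 i / V ^ p ≤ C * (1 / V ^ p) := by
      rw [mul_one_div]
      gcongr
      refine (hl6 i).trans ?_
      have : 0 ≤ 1 + K2 + qn Q * S1 + 2 * (qn Q * (S2 + S3 + Ke * S4)) + qn B * Ke + 4 * Ke * S7 := by positivity
      linarith
    have m3 : ∑ j, |v' j - v j| * (2 ^ 2 * Ke * C7 i j) ≤ (4 * Ke * S7) * A := by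
      have : ∀ j ∈ Finset.univ, |v' j - v j| * (2 ^ 2 * Ke * C7 i j) ≤ (4 * Ke * A) * C7 i j := by
        intro j _
        have h1 := hdi j
        have h2 := hC7 i j
        have h3 : 0 ≤ 2 ^ 2 * Ke * C7 i j := by positivity
        calc |v' j - v j| * (2 ^ 2 * Ke * C7 i j) ≤ A * (2 ^ 2 * Ke * C7 i j) := by gcongr
          _ = _ := by ring
      refine (Finset.sum_le_sum this).trans ?_
      rw [← Finset.mul_sum]
      have h4 := hl7 i
      calc 4 * Ke * A * ∑ j, C7 i j ≤ 4 * Ke * A * S7 := by gcongr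
        _ = _ := by ring
    have m4 : (qn B * Ke) * A + (4 * Ke * S7) * A ≤ C * A := by
      rw [← add_mul]
      gcongr
      have : 0 ≤ 1 + K2 + qn Q * S1 + 2 * (qn Q * (S2 + S3 + Ke * S4)) + S6 := by positivity
      linarith
    calc (∑ j, |B i j * (v' j - v j)| * Ke) + (C6 i / V ^ p + ∑ j, |v' j - v j| * (2 ^ 2 * Ke * C7 i j)) ≤
          (qn B * Ke) * A + (C * (1 / V ^ p) + (4 * Ke * S7) * A) := by
            exact add_le_add m1 (add_le_add m2 m3)
      _ ≤ C * (A + 1 / V ^ p) := by rw [mul_add]; linarith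
  · -- the normalized position
    obtain ⟨X, hX⟩ : ∃ X, X = A / V ^ 3 + 1 / V ^ p := ⟨_, rfl⟩
    have hX0 : 0 ≤ X := by rw [hX]; positivity
    have hXA : A / V ^ 3 ≤ X := by
      have : 0 ≤ 1 / V ^ p := by positivity
      rw [hX]; linarith
    have hXp : 1 / V ^ p ≤ X := by
      have : 0 ≤ A / V ^ 3 := by positivity
      rw [hX]; linarith
    have hcc : ∀ j, ∀ a ∈ dv j c, a.k = 0 ∧ a.m = 0 := fun j => dv_const S.oc j
    set h : ℝ → ℝ := fun s => nrm Q w v v' z s i - s * (v i + ∑ j, Q i j * ev (dv j c) 0 v 0) -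
      th s * (v' i - v i) with hh
    have hd : ∀ s ∈ Icc (-1 : ℝ) 2, HasDerivWithinAt h (vs v v' s i +
        ∑ j, Q i j * (ev (dv j c) (z s) (vs v v' s) s + (ev (dv j e) (z s) (vs v v' s) s +
          ∑ l, et s * (v' l - v l) * ev (dv l (dv j w)) (z s) (vs v v' s) s)) -
        1 * (v i + ∑ j, Q i j * ev (dv j c) 0 v 0) - tp s * (v' i - v i)) (Icc (-1 : ℝ) 2) s := by
      intro s _
      have h1 := S.drift (fun i => hνi i s) (hvne s) (fun i => hzi i s) i
      exact ((h1.fun_sub ((hasDerivAt_id s).mul_const _)).fun_sub ((hth s).mul_const _)).hasDerivWithinAt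
    have hbd : ∀ s ∈ Icc (-1 : ℝ) 2, ‖vs v v' s i +
        ∑ j, Q i j * (ev (dv j c) (z s) (vs v v' s) s + (ev (dv j e) (z s) (vs v v' s) s +
          ∑ l, et s * (v' l - v l) * ev (dv l (dv j w)) (z s) (vs v v' s) s)) -
        1 * (v i + ∑ j, Q i j * ev (dv j c) 0 v 0) - tp s * (v' i - v i)‖ ≤
        qn Q * ((S2 + S3 + Ke * S4) * X) := by
      intro s hs
      have e1 : vs v v' s i +
        ∑ j, Q i j * (ev (dv j c) (z s) (vs v v' s) s + (ev (dv j e) (z s) (vs v v' s) s +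
          ∑ l, et s * (v' l - v l) * ev (dv l (dv j w)) (z s) (vs v v' s) s)) -
        1 * (v i + ∑ j, Q i j * ev (dv j c) 0 v 0) - tp s * (v' i - v i) =
        ∑ j, Q i j * ((ev (dv j c) 0 (vs v v' s) 0 - ev (dv j c) 0 v 0) + (ev (dv j e) (z s) (vs v v' s) s +
          ∑ l, et s * (v' l - v l) * ev (dv l (dv j w)) (z s) (vs v v' s) s)) := by
        have e2 : ∀ j, ev (dv j c) (z s) (vs v v' s) s = ev (dv j c) 0 (vs v v' s) 0 := fun j =>
          ev_const (hcc j) _ _ _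
        simp only [e2, mul_add, mul_sub, Finset.sum_add_distrib, Finset.sum_sub_distrib]
        simp only [vs]
        ring
      rw [e1, Real.norm_eq_abs]
      refine absQ_le Q i (by positivity) fun j => ?_
      have q1 : |ev (dv j c) 0 (vs v v' s) 0 - ev (dv j c) 0 v 0| ≤ S2 * X := by
        have hseg : ∀ τ ∈ Icc (0 : ℝ) 1, NRs 𝓕 κ V (fun i => v i + τ * (vs v v' s i - v i)) := by
          intro τ hτ
          have hIVT : ∃ s', tp s' = τ * tp s := by
            have hc : Continuous tp := htps.continuous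
            have ht0 : tp 0 = 0 := (hth0 0 (by norm_num)).2.1
            have hm : τ * tp s ∈ uIcc (tp 0) (tp s) := by
              rw [ht0, uIcc_of_le (h01 s).1]
              exact ⟨mul_nonneg hτ.1 (h01 s).1, mul_le_of_le_one_left (h01 s).1 hτ.2⟩
            obtain ⟨s', -, hs'⟩ := intermediate_value_uIcc (a := 0) (b := s) hc.continuousOn hm
            exact ⟨s', hs'⟩
          obtain ⟨s', hs'⟩ := hIVT
          have e2 : (fun i => v i + τ * (vs v v' s i - v i)) = vs v v' s' := by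
            funext i
            simp only [vs, hs']
            ring
          rw [e2]
          exact hnr s'
        have h1 := b2 j V v (vs v v' s) hV hseg 0 0 0
        rw [sub_self, norm_zero, mul_zero, zero_add] at h1
        refine h1.trans ?_
        have h2 := hνb s
        have h3 := hl2 j
        calc C2 j / V ^ (2 + 1) * ‖vs v v' s - v‖ ≤ S2 / V ^ (2 + 1) * A := by gcongr
          _ = S2 * (A / V ^ 3) := by ring
          _ ≤ S2 * X := by gcongr
      have q2 : |ev (dv j e) (z s) (vs v v' s) s| ≤ S3 * X := by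
        refine (b3 j V (vs v v' s) hV (hnr s) (z s) s).trans ?_
        have h3 := hl3 j
        calc C3 j / V ^ p ≤ S3 / V ^ p := by gcongr
          _ = S3 * (1 / V ^ p) := by ring
          _ ≤ S3 * X := by gcongr
      have q3 : |∑ l, et s * (v' l - v l) * ev (dv l (dv j w)) (z s) (vs v v' s) s| ≤ (Ke * S4) * X := by
        refine (Finset.abs_sum_le_sum_abs _ _).trans ?_
        have : ∀ l ∈ Finset.univ, |et s * (v' l - v l) * ev (dv l (dv j w)) (z s) (vs v v' s) s| ≤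
            (Ke * (A / V ^ 3)) * C4 j l := by
          intro l _
          rw [abs_mul, abs_mul]
          have r1 := cls_at (hKe V hV) hs
          have r2 := hdi l
          have r3 := b4 j l V (vs v v' s) hV (hnr s) (z s) s
          calc |et s| * |v' l - v l| * |ev (dv l (dv j w)) (z s) (vs v v' s) s| ≤ Ke * A * (C4 j l / V ^ 3) := by
                gcongr
            _ = _ := by ring
        refine (Finset.sum_le_sum this).trans ?_
        rw [← Finset.mul_sum]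
        have h4 := hl4 j
        have h5 : 0 ≤ ∑ l, C4 j l := Finset.sum_nonneg fun l _ => hC4 j l
        calc Ke * (A / V ^ 3) * ∑ l, C4 j l ≤ Ke * X * S4 := by gcongr
          _ = _ := by ring
      calc _ ≤ |ev (dv j c) 0 (vs v v' s) 0 - ev (dv j c) 0 v 0| + (|ev (dv j e) (z s) (vs v v' s) s| +
            |∑ l, et s * (v' l - v l) * ev (dv l (dv j w)) (z s) (vs v v' s) s|) :=
            (abs_add_le _ _).trans (add_le_add le_rfl (abs_add_le _ _))
        _ ≤ S2 * X + (S3 * X + (Ke * S4) * X) := add_le_add q1 (add_le_add q2 q3)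
        _ = (S2 + S3 + Ke * S4) * X := by ring
    have h0m : (0 : ℝ) ∈ Icc (-1 : ℝ) 2 := by constructor <;> norm_num
    have hmv := Convex.norm_image_sub_le_of_norm_hasDerivWithin_le hd hbd (convex_Icc _ _) h0m hs
    have th0 : th 0 = 0 := (hth0 0 (by norm_num)).1
    have e3 : h s - h 0 = nrm Q w v v' z s i - nrm Q w v v' z 0 i -
        s * (v i + ∑ j, Q i j * ev (dv j c) 0 v 0) - th s * (v' i - v i) := by
      simp only [hh, th0]; ring
    rw [e3, Real.norm_eq_abs, Real.norm_eq_abs, sub_zero] at hmv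
    have hs2 : |s| ≤ 2 := abs_le.2 ⟨by linarith [hs.1], hs.2⟩
    refine hmv.trans ?_
    rw [← hX]
    calc qn Q * ((S2 + S3 + Ke * S4) * X) * |s| ≤ qn Q * ((S2 + S3 + Ke * S4) * X) * 2 := by gcongr
      _ = (2 * (qn Q * (S2 + S3 + Ke * S4))) * X := by ring
      _ ≤ C * X := by
        refine mul_le_mul_of_nonneg_right ?_ hX0
        have : 0 ≤ 1 + K2 + qn Q * S1 + qn B * Ke + S6 + 4 * Ke * S7 := by positivity
        linarith
  · rw [hzd]
    simp only [vel, add_sub_cancel_left]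
    refine (hb1 i s).trans ?_
    rw [← mul_div_assoc]
    gcongr
    have : 0 ≤ 1 + K2 + 2 * (qn Q * (S2 + S3 + Ke * S4)) + qn B * Ke + S6 + 4 * Ke * S7 := by positivity
    linarith

end Pool.Agent.K9h32.HJ.Qm
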