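import Pool.Agent.N980.TL.Stm3
import Pool.Agent.N980.TL.Stm2

/-!
# Density in all dimensions: definitions and statements of the leaves
-/

set_option autoImplicit false

open Set Filter Topology
open scoped ContDiff

noncomputable section

namespace Pool.Agent.K9h32.HJ

open Pool.Agent.N980.TL

/-! ## Atoms -/

/-- the atom `c ∏_f (f.1·v + f.2)⁻¹ cos (2π (k·x + m t) + φ)` -/
structure Atom (n : ℕ) where
  c : ℝ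
  F : List ((Fin n → ℤ) × ℤ)
  k : Fin n → ℤ
  m : ℤ
  φ : ℝ

/-- one factor -/
def fac {n : ℕ} (f : (Fin n → ℤ) × ℤ) (v : E n) : ℝ := (∑ i, (f.1 i : ℝ) * v i) + f.2

/-- the amplitude of an atom -/
def Atom.amp {n : ℕ} (a : Atom n) (v : E n) : ℝ := a.c * (a.F.map fun f => (fac f v)⁻¹).prod

/-- the phase of an atom -/
def Atom.ph {n : ℕ} (a : Atom n) (x : E n) (t : ℝ) : ℝ :=
  2 * Real.pi * ((∑ i, (a.k i : ℝ) * x i) + a.m * t) + a.φ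

/-- the value of an atom -/
def Atom.ev {n : ℕ} (a : Atom n) (x v : E n) (t : ℝ) : ℝ := a.amp v * Real.cos (a.ph x t)

/-- the value of a sum of atoms -/
def ev {n : ℕ} (L : List (Atom n)) (x v : E n) (t : ℝ) : ℝ := (L.map fun a => a.ev x v t).sum

open Classical in
/-- `∂/∂x_i` -/
def dx {n : ℕ} (i : Fin n) (L : List (Atom n)) : List (Atom n) :=
  L.flatMap fun a => if a.k = 0 then [] else
    [{ a with c := a.c * (2 * Real.pi * a.k i), φ := a.φ + Real.pi / 2 }]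

/-- `∂/∂t` -/
def dt {n : ℕ} (L : List (Atom n)) : List (Atom n) :=
  L.flatMap fun a => [{ a with c := a.c * (2 * Real.pi * a.m), φ := a.φ + Real.pi / 2 }]

/-- `∂/∂v_i` -/
def dv {n : ℕ} (i : Fin n) (L : List (Atom n)) : List (Atom n) :=
  L.flatMap fun a => a.F.map fun f => { a with c := a.c * (-(f.1 i : ℝ)), F := f :: a.F }

/-- Leaf ITER: approximate solutions of the Hamilton-Jacobi equation
`∂_t w + v·∂_x w + |∂_x w|²/2 = D + c(v) + e`, with `e` of any order in `1/|v|` -/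
def S_ITER : Prop :=
  ∀ (n N : ℕ) (D : Trig n N) (p : ℕ), ∃ (w c e : List (Atom n)) (𝓕 : List ((Fin n → ℤ) × ℤ)),
    (∀ f ∈ 𝓕, f.1 ≠ 0) ∧
    (∀ a ∈ w, ∀ f ∈ a.F, f ∈ 𝓕) ∧ (∀ a ∈ c, ∀ f ∈ a.F, f ∈ 𝓕) ∧ (∀ a ∈ e, ∀ f ∈ a.F, f ∈ 𝓕) ∧
    (∀ a ∈ w, a.k ≠ 0 → 1 ≤ a.F.length) ∧ (∀ a ∈ c, a.k = 0 ∧ a.m = 0) ∧ (∀ a ∈ e, p ≤ a.F.length) ∧
    ∀ v : E n, (∀ f ∈ 𝓕, fac f v ≠ 0) → ∀ (x : E n) (t : ℝ),
      ev (dt w) x v t + ∑ i, v i * ev (dx i w) x v t + (∑ i, ev (dx i w) x v t ^ 2) / 2 =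
        D.val x t + ev c x v t + ev e x v t

/-! ## Sequences -/

/-- the growth ratio, `qq ^ 100 = 2` -/
def qq : ℝ := 2 ^ (1 / 100 : ℝ)

/-- the scale of the `j`-th step -/
def tht (j : ℕ) : ℝ := qq ^ (Nat.log 2 j)

/-- the fast velocity is not close to a rational number with small denominator -/
def Gd (θ Ω : ℝ) : Prop :=
  ∀ g : ℕ, 1 ≤ g → (g : ℝ) ≤ θ ^ 17 → 1 / θ ^ 55 ≤ |g * Ω - round ((g : ℝ) * Ω)|

open Classical in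
/-- the radius -/
def rd (θ Ω : ℝ) : ℝ := if Gd θ Ω then 1 / θ ^ 84 else 1 / θ ^ 101

open Classical in
/-- the acceleration -/
def ac (θ Ω : ℝ) : ℝ := if Gd θ Ω then 1 / θ ^ 95 else 1 / θ ^ 112

/-- Leaf SEQX: the fast velocity grows like the fifth power of the scale. -/
def S_SEQX : Prop :=
  ∃ L0 : ℕ, ∀ l0, L0 ≤ l0 → ∀ Ω : ℕ → ℝ, Ω (2 ^ l0) = tht (2 ^ l0) ^ 5 →
    (∀ j, 2 ^ l0 ≤ j → Ω (j + 1) = Ω j + ac (tht j) (Ω j)) →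
    ∀ j, 2 ^ l0 ≤ j → tht j ^ 5 ≤ Ω j ∧ Ω j ≤ 31 * tht j ^ 5

/-- Leaf SEPX: separation of the tubes. Here `a j σ`, `y j σ` are the coordinates of the `j`-th tube at the
phase `σ`, and `uu (1/64)` is the sequence of slow velocities of `S_UU`. -/
def S_SEPX : Prop :=
  ∀ C : ℝ, ∃ L0 : ℕ, ∀ l0, L0 ≤ l0 → ∀ (Ω : ℕ → ℝ) (a y : ℕ → ℝ → ℝ),
    (∀ j, 2 ^ l0 ≤ j → Ω (j + 1) = Ω j + ac (tht j) (Ω j)) →
    (∀ j, 2 ^ l0 ≤ j → ∀ σ, -1 ≤ σ → σ ≤ 1 → |a j σ - a j 0 - σ * Ω j| ≤ C / tht j ^ 90) →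
    (∀ j, 2 ^ l0 ≤ j → |a (j + 1) 0 - a j 0 - Ω j| ≤ C / tht j ^ 90) →
    (∀ j, 2 ^ l0 ≤ j → ∀ σ, -1 ≤ σ → σ ≤ 1 →
      |y j σ - y j 0 - σ * uu (1 / 64) j| ≤ uu (1 / 64) j / 100) →
    (∀ j, 2 ^ l0 ≤ j → |y (j + 1) 0 - y j 0 - uu (1 / 64) j| ≤ uu (1 / 64) j / 100) →
    ∀ i j, 2 ^ l0 ≤ i → i < j → ∀ σ, -1 ≤ σ → σ ≤ 1 → ∀ k0 k1 : ℤ,
      |a j σ - a i σ - k0| ≤ C * (rd (tht i) (Ω i) + rd (tht j) (Ω j)) +
        (∑ k ∈ Finset.Ico i j, uu (1 / 64) k) / 100 →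
      |y j σ - y i σ - k1| ≤ C * (rd (tht i) (Ω i) + rd (tht j) (Ω j)) +
        (∑ k ∈ Finset.Ico i j, uu (1 / 64) k) / 100 → False

end Pool.Agent.K9h32.HJ
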