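import Pool.Agent.K9h32.HJ.StmF

/-!
# Genericity in `C^k`: statement of the leaf
-/

set_option autoImplicit false

open Set Filter Topology
open scoped ContDiff

noncomputable section

namespace Pool.Agent.K9h32.HJ

open Pool.Agent.N980.TL

/-- `O` is an open and dense set of potentials of class `C^k` -/
def OpenDenseK (k : ℕ) {n : ℕ} (O : Set ((Fin n → ℝ) → ℝ → ℝ)) : Prop :=
  (∀ f ∈ O, PotK k f ∧ ∃ η > 0, ∀ g, PotK k g → CloseK k η f g → g ∈ O) ∧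
  ∀ f, PotK k f → ∀ ε > 0, ∃ g ∈ O, CloseK k ε f g

/-- the conclusion of `S_FIN` (density of the potentials with an orbit which tends to infinity in a direction
close to `u`) for one Lagrangian `L` -/
def DenseK (k : ℕ) {n : ℕ} (R : ℝ) (L : (Fin n → ℝ) → (Fin n → ℝ) → ℝ → ℝ) : Prop :=
  ∀ f₁ : (Fin n → ℝ) → ℝ → ℝ, PotK k f₁ → ∀ u : E n, u ≠ 0 → ∀ ε : ℝ, 0 < ε →
    ∃ (f : (Fin n → ℝ) → ℝ → ℝ) (γ : ℝ → Fin n → ℝ) (c a : ℝ), PotK k f ∧ CloseK k ε f₁ f ∧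
      0 < c ∧ 0 < a ∧ (∀ t, 0 ≤ t → c * t ^ a ≤ ‖deriv γ t‖) ∧ (∀ t, 0 ≤ t → R < ‖deriv γ t‖) ∧
      (∀ t, 0 ≤ t → ‖(‖deriv γ t‖⁻¹) • deriv γ t - (‖u‖⁻¹) • u‖ ≤ ε) ∧
      ∀ t, 0 < t → EulerLagrange (fun x v t => L x v t + f x t) γ t

/-- Leaf GENK: for a residual set of potentials there are orbit segments with arbitrarily large velocities, in
every direction, along which the velocity grows from `v₀` to more than `φ(|v₀|)`. `L` is arbitrary for bounded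
velocities. -/
def S_GENK : Prop :=
  ∀ (k n : ℕ), 2 ≤ k → ∀ (B Q : Fin n → Fin n → ℝ), (∀ i j, B i j = B j i) →
    (∀ i k, ∑ j, B i j * Q j k = if i = k then 1 else 0) →
    ∀ (R : ℝ) (L : (Fin n → ℝ) → (Fin n → ℝ) → ℝ → ℝ) (f₀ : (Fin n → ℝ) → ℝ → ℝ),
    PotK k f₀ → (∀ x v t, R ≤ ‖v‖ → L x v t = LagB B f₀ x v t) → DenseK k R L → ∀ φ : ℝ → ℝ,
    ∃ O : ℕ → Set ((Fin n → ℝ) → ℝ → ℝ), (∀ m, OpenDenseK k (O m)) ∧
      ∀ f, (∀ m, f ∈ O m) → ∀ (K : ℝ) (u : Fin n → ℝ) (ε : ℝ), u ≠ 0 → 0 < ε →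
        ∃ (γ : ℝ → Fin n → ℝ) (t0 t1 : ℝ), t0 < t1 ∧
        (∀ t ∈ Icc t0 t1, EulerLagrange (fun x v t => L x v t + f x t) γ t) ∧
        (∀ t ∈ Icc t0 t1, K ≤ ‖deriv γ t‖ ∧ ‖(‖deriv γ t‖⁻¹) • deriv γ t - (‖u‖⁻¹) • u‖ ≤ ε) ∧
        φ ‖deriv γ t0‖ < ‖deriv γ t1‖

end Pool.Agent.K9h32.HJ
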