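import Pool.Agent.K9h32.HJ.StmB

/-!
# Density in `C^k` (dimensions `n ≥ k + 1`): statements of the leaves
-/

set_option autoImplicit false

open Set Filter Topology
open scoped ContDiff

noncomputable section

namespace Pool.Agent.K9h32.HJ

open Pool.Agent.N980.TL

/-- Leaf DENSK: trigonometric polynomials are dense in `C^k` -/
def S_DENSK : Prop :=
  ∀ (k n : ℕ) (f : Z n → ℝ), ContDiff ℝ k f →
    (∀ (x : Fin n → ℝ) (t : ℝ) (k : Fin n → ℤ) (l : ℤ), f (fun i => x i + k i, t + l) = f (x, t)) →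
    ∀ ε > 0, ∃ (N : ℕ) (D : Trig n N), ∀ i ≤ k, ∀ q : Z n,
      ‖iteratedFDeriv ℝ i (fun q : Z n => f q - D.val q.1 q.2) q‖ ≤ ε

/-- Leaf BNDK: the `C^k` bound of the potential of one step (paths and forces which are smooth everywhere) -/
def S_BNDK : Prop :=
  ∀ (k n : ℕ) (ch : ℝ → ℝ) (K : ℝ), ContDiff ℝ ∞ ch → (∀ s, s ∉ Icc (-1 : ℝ) 2 → ∀ᶠ s' in 𝓝 s, ch s' = 0) →
    ∃ C : ℝ, 1 ≤ C ∧ ∀ (g F : ℝ → Fin n → ℝ) (d V ρ : ℝ), 0 < d → d ≤ 1 → 1 ≤ V → 0 ≤ ρ →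
      (∀ i, ContDiff ℝ ∞ (fun s => g s i)) → (∀ i, Cls k V (K * V) (deriv fun s => g s i)) →
      (∀ i, Cls k V ρ (fun s => F s i)) →
      ContDiff ℝ ∞ (Hg ch g F d) ∧ ∀ (i : ℕ), i ≤ k → ∀ q : Z n,
        ‖iteratedFDeriv ℝ i (Hg ch g F d) q‖ ≤ C * ρ * d * (V / d) ^ k

end Pool.Agent.K9h32.HJ
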