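import Pool.Agent.K9h32.HJ.StmK
import Pool.Agent.K9h32.HJ.StepQ

/-!
# Density in `C^k` (dimensions `n ≥ k + 1`): statements of the leaves, second part
-/

set_option autoImplicit false

open Set Filter Topology
open scoped ContDiff

noncomputable section

namespace Pool.Agent.K9h32.HJ

open Pool.Agent.N980.TL

/-- `2^(x l)` for `2^l ≤ j < 2^(l+1)` -/
def sc (x : ℝ) (j : ℕ) : ℝ := (2 : ℝ) ^ (x * (Nat.log 2 j : ℝ))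

/-- Leaf SEQK: the fast velocity. -/
def S_SEQK : Prop :=
  ∀ ν : ℝ, 0 < ν → ν < 1 → ∃ C : ℝ, 1 ≤ C ∧ ∀ (l0 : ℕ) (Ω : ℕ → ℝ), Ω (2 ^ l0) = sc ν (2 ^ l0) →
    (∀ j, 2 ^ l0 ≤ j → Ω (j + 1) = Ω j + sc (ν - 1) j) →
    ∀ j, 2 ^ l0 ≤ j → sc ν j ≤ Ω j ∧ Ω j ≤ C * sc ν j

/-- Leaf SEPK: separation of the tubes. Here `y j σ` is the slow coordinate and `b j σ` are the coordinates
with constant velocity `w` of the `j`-th tube at the phase `σ`. -/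
def S_SEPK : Prop :=
  ∀ (r : ℕ) (ρ ν tau c1 : ℝ) (w : Fin r → ℝ), 0 < ρ → ρ < 1 → 0 < ν → 0 < tau → tau * (1 - ρ) < ρ → 0 < c1 →
    (∀ l : ℕ, 1 ≤ l → ∃ i, c1 * (l : ℝ) ^ (-tau) ≤ |Real.sin (Real.pi * (l * w i))|) →
  ∀ C : ℝ, ∃ L0 : ℕ, ∀ l0, L0 ≤ l0 → ∀ (y : ℕ → ℝ → ℝ) (b : ℕ → ℝ → Fin r → ℝ),
    (∀ j, 2 ^ l0 ≤ j → ∀ σ, -1 ≤ σ → σ ≤ 1 →
      |y j σ - y j 0 - σ * uu (1 / 64) j| ≤ uu (1 / 64) j / 100) →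
    (∀ j, 2 ^ l0 ≤ j → |y (j + 1) 0 - y j 0 - uu (1 / 64) j| ≤ uu (1 / 64) j / 100) →
    (∀ j, 2 ^ l0 ≤ j → ∀ σ, -1 ≤ σ → σ ≤ 1 → ∀ m, |b j σ m - b j 0 m - σ * w m| ≤ C * sc (-(1 + 2 * ν)) j) →
    (∀ j, 2 ^ l0 ≤ j → ∀ m, |b (j + 1) 0 m - b j 0 m - w m| ≤ C * sc (-(1 + 2 * ν)) j) →
    ∀ i j, 2 ^ l0 ≤ i → i < j → ∀ σ, -1 ≤ σ → σ ≤ 1 → ∀ (k1 : ℤ) (k : Fin r → ℤ),
      |y j σ - y i σ - k1| ≤ C * (sc (-ρ) i + sc (-ρ) j) +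
        (∑ m ∈ Finset.Ico i j, uu (1 / 64) m) / 100 →
      (∀ m, |b j σ m - b i σ m - k m| ≤ C * (sc (-ρ) i + sc (-ρ) j) +
        (∑ m ∈ Finset.Ico i j, uu (1 / 64) m) / 100) → False

/-- Leaf VELK: the cone of nonresonant velocities, and the velocities `v` with prescribed frequency vector
`v + Q ∂_v c(v) = T` -/
def S_VELK : Prop :=
  ∀ (r : ℕ) (Q : Fin (r + 2) → Fin (r + 2) → ℝ) (𝓕 : List ((Fin (r + 2) → ℤ) × ℤ)) (c : List (Atom (r + 2))),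
    (∀ f ∈ 𝓕, f.1 ≠ 0) → InF 𝓕 c → ∃ M : ℕ, 1 ≤ M ∧ ∀ W : ℝ, 0 ≤ W → ∃ V0 : ℝ, 1 ≤ V0 ∧ ∀ V : ℝ, V0 ≤ V →
      (∀ (Ω : ℝ) (v : E (r + 2)), V ≤ Ω → ‖v - Ω • dirM r M‖ ≤ W + 1 → NRs 𝓕 (1 / 2) V v) ∧
      (∀ (Ω : ℝ) (T : E (r + 2)), V ≤ Ω → ‖T - Ω • dirM r M‖ ≤ W → ∃ v : E (r + 2), ‖v - T‖ ≤ 1 ∧
        ∀ i, v i + ∑ j, Q i j * ev (dv j c) 0 v 0 = T i) ∧
      ∀ (Ω Ω' : ℝ) (T T' v v' : E (r + 2)), V ≤ Ω → V ≤ Ω' → ‖T - Ω • dirM r M‖ ≤ W → ‖T' - Ω' • dirM r M‖ ≤ W →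
        ‖v - T‖ ≤ 1 → ‖v' - T'‖ ≤ 1 →
        (∀ i, v i + ∑ j, Q i j * ev (dv j c) 0 v 0 = T i) →
        (∀ i, v' i + ∑ j, Q i j * ev (dv j c) 0 v' 0 = T' i) → ‖v' - v‖ ≤ 2 * ‖T' - T‖

/-- Leaf STEPK: one step, in `C^k` -/
def S_STEPK : Prop :=
  ∀ (k n N : ℕ) (D : Trig n N) (Q B : Fin n → Fin n → ℝ) (p : ℕ) (w c e : List (Atom n))
    (𝓕 : List ((Fin n → ℤ) × ℤ)), SolQ D Q p w c e 𝓕 →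
    (∀ i k, ∑ j, B i j * Q j k = if i = k then 1 else 0) → ∀ (κ K0 : ℝ), 0 < κ → 0 ≤ K0 →
    ∃ C : ℝ, 1 ≤ C ∧ ∀ (V A : ℝ) (v v' : E n) (z : ℝ → E n), 1 ≤ V → 0 ≤ A → A ≤ 1 → ‖v' - v‖ ≤ A →
      ‖v‖ ≤ K0 * V → (∀ s, NRs 𝓕 κ V (vs v v' s)) → ContDiff ℝ ∞ z →
      (∀ s, HasDerivAt z (Qm.fld Q w v v' s (z s)) s) →
      (∀ i, ContDiff ℝ ∞ (fun s => z s i)) ∧
      (∀ i, Cls k V (C * V) (deriv fun s => z s i)) ∧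
      (∀ i, Cls k V (C * (A + 1 / V ^ p)) (fun s => Qm.FB B D z s i)) ∧
      (∀ i, ∀ s ∈ Icc (-1 : ℝ) 2, |Qm.nrm Q w v v' z s i - Qm.nrm Q w v v' z 0 i -
        s * (v i + ∑ j, Q i j * ev (dv j c) 0 v 0) - th s * (v' i - v i)| ≤ C * (A / V ^ 3 + 1 / V ^ p)) ∧
      (∀ i s, |deriv (fun s => z s i) s - vs v v' s i| ≤ C / V)

/-- Leaf ENGK: the sum of the bump potentials around a path, in `C^k` -/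
def S_ENGK : Prop :=
  ∀ (k n : ℕ) (_ : 1 ≤ k) (G FF : ℕ → ℝ → E n) (d : ℕ → ℝ) (l0 : ℕ) (BB : ℕ → ℝ) (ε : ℝ)
    (_ : ∀ j, 2 ^ l0 ≤ j → ∀ i, ContDiff ℝ ∞ (fun s => G j s i))
    (_ : ∀ j s, 3 / 4 ≤ s → s ≤ 5 / 4 → G j s = G (j + 1) (s - 1))
    (_ : ∀ j s, 3 / 4 < s → s < 1 → FF (j + 1) (s - 1) = FF j s)
    (_ : ∀ j, 0 < d j)
    (_ : ∀ i j, 2 ^ l0 ≤ i → i < j → ∀ σ : ℝ, -1 ≤ σ → σ ≤ 1 → ∀ x : E n,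
      (∀ m, |Real.sin (Real.pi * (x m - G i σ m))| ≤ d i) →
      (∀ m, |Real.sin (Real.pi * (x m - G j σ m))| ≤ d j) → False)
    (_ : ∀ l, l0 ≤ l → ∀ j ∈ Finset.Ico (2 ^ l) (2 ^ (l + 1)),
      ContDiff ℝ ∞ (Hg chA (G j) (FF j) (d j)) ∧ ∀ i ≤ k, ∀ q,
        ‖iteratedFDeriv ℝ i (Hg chA (G j) (FF j) (d j)) q‖ ≤ BB l)
    (_ : ∀ l, l0 ≤ l → ∀ j ∈ Finset.Ico (2 ^ l) (2 ^ (l + 1)),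
      ContDiff ℝ ∞ (Hg chB (G j) (FF j) (d j)) ∧ ∀ i ≤ k, ∀ q,
        ‖iteratedFDeriv ℝ i (Hg chB (G j) (FF j) (d j)) q‖ ≤ BB l)
    (_ : ∀ l, 0 ≤ BB l) (_ : Summable BB) (_ : ∑' l, BB (l + l0) ≤ ε / 2),
    ∃ F : Z n → ℝ, ContDiff ℝ k F ∧ Periodic (fun x t => F (x, t)) ∧
      (∀ i ≤ k, ∀ q, ‖iteratedFDeriv ℝ i F q‖ ≤ ε) ∧
      ∀ j, 2 ^ l0 ≤ j → ∀ t : ℝ, ∀ i,
        fderiv ℝ F (G j (Int.fract t), t) (Pi.single i 1, 0) = FF j (Int.fract t) i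

end Pool.Agent.K9h32.HJ
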